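import Mathlib

/-!
MP_1c6e58_ag, project SH: shuffles of intervals of permutations and the multiplicity ideals.
Definitions.
-/

set_option autoImplicit false

open Finset

namespace Pool.Agent.SH

/-! ### Hilbert-Samuel functions and multiplicities of sets at the origin -/

section HS

variable {σ τ : Type}

/-- The Hilbert-Samuel function at the origin of the (closed) set `Z`: the dimension of
`O / m^(t+1)`, `O` = local ring of `Z` at `0`. -/
noncomputable def Hf (Z : Set (σ → ℂ)) (t : ℕ) : ℕ :=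
  Module.finrank ℂ (MvPolynomial σ ℂ ⧸
    (MvPolynomial.vanishingIdeal ℂ Z ⊔ (MvPolynomial.idealOfVars σ ℂ) ^ (t + 1)))

/-- `e` is the multiplicity of `Z` at the origin: the Hilbert-Samuel function is eventually a
polynomial with leading term `a x^d` and `e = d! a`. -/
def IsMult (Z : Set (σ → ℂ)) (e : ℕ) : Prop :=
  ∃ P : Polynomial ℚ, P ≠ 0 ∧ (∀ᶠ t : ℕ in Filter.atTop, (Hf Z t : ℚ) = P.eval (t : ℚ)) ∧
    (e : ℚ) = (P.natDegree.factorial : ℚ) * P.leadingCoeff

/-- The Hilbert-Samuel series. -/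
noncomputable def HS (Z : Set (σ → ℂ)) : PowerSeries ℤ := PowerSeries.mk (fun t => (Hf Z t : ℤ))

/-- Dimension `d` and multiplicity `e` through the Hilbert-Samuel series
`Q / (1 - x)^(d+1)`, `Q 1 = e`. -/
def MQ (Z : Set (σ → ℂ)) (d e : ℕ) : Prop :=
  0 < e ∧ ∃ Q : Polynomial ℤ, Q.eval 1 = (e : ℤ) ∧
    HS Z * (1 - PowerSeries.X) ^ (d + 1) = (Q : PowerSeries ℤ)

/-- Product of two sets. -/
def prodS (Z : Set (σ → ℂ)) (Z' : Set (τ → ℂ)) : Set (σ ⊕ τ → ℂ) :=
  {z | (fun i => z (Sum.inl i)) ∈ Z ∧ (fun j => z (Sum.inr j)) ∈ Z'}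

/-- The coordinate subspace `z i = 0`, `i` in `T`. -/
def coordS (T : Set σ) : Set (σ → ℂ) := {z | ∀ i ∈ T, z i = 0}

/-- The quadric `sum x_i y_i = 0`. -/
def quadS (J : Type) [Fintype J] : Set (J ⊕ J → ℂ) :=
  {z | ∑ i, z (Sum.inl i) * z (Sum.inr i) = 0}

/-- A linear order on exponents which is compatible with addition and refines the degree. -/
structure LOrd (σ : Type) where
  S : Type
  [am : AddCommMonoid S]
  [lo : LinearOrder S]
  [oc : IsOrderedCancelAddMonoid S]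
  f : (σ →₀ ℕ) →+ S
  inj : Function.Injective f
  deg : ∀ α β : σ →₀ ℕ, α.degree < β.degree → f α < f β

attribute [instance] LOrd.am LOrd.lo LOrd.oc

/-- The set of the exponents of the lowest terms of the elements of `I`. -/
def Lset (o : LOrd σ) (I : Ideal (MvPolynomial σ ℂ)) : Set (σ →₀ ℕ) :=
  {α | ∃ f ∈ I, α ∈ f.support ∧ ∀ β ∈ f.support, o.f α ≤ o.f β}

open Classical in
/-- The number of exponents of degree `i` outside of `L`. -/
noncomputable def gL [Fintype σ] (L : Set (σ →₀ ℕ)) (i : ℕ) : ℕ :=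
  ((Finset.univ.finsuppAntidiag i).filter (fun α => α ∉ L)).card

/-- The parts of an exponent on `σ ⊕ τ`. -/
noncomputable def inlP (γ : σ ⊕ τ →₀ ℕ) : σ →₀ ℕ := (Finsupp.sumFinsuppEquivProdFinsupp γ).1

noncomputable def inrP (γ : σ ⊕ τ →₀ ℕ) : τ →₀ ℕ := (Finsupp.sumFinsuppEquivProdFinsupp γ).2

/-- `o` is the product order: total degree, then `o1`, then `o2`. -/
def IsProdOrd (o1 : LOrd σ) (o2 : LOrd τ) (o : LOrd (σ ⊕ τ)) : Prop :=
  ∀ γ γ' : σ ⊕ τ →₀ ℕ, o.f γ ≤ o.f γ' ↔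
    (γ.degree < γ'.degree ∨ (γ.degree = γ'.degree ∧ (o1.f (inlP γ) < o1.f (inlP γ') ∨
      (o1.f (inlP γ) = o1.f (inlP γ') ∧ o2.f (inrP γ) ≤ o2.f (inrP γ')))))

/-- Exponents of the product. -/
def LsetProd (L : Set (σ →₀ ℕ)) (L' : Set (τ →₀ ℕ)) : Set (σ ⊕ τ →₀ ℕ) :=
  {γ | inlP γ ∈ L ∨ inrP γ ∈ L'}

end HS

/-! ### Permutations -/

section perm

variable {n m : ℕ}

/-- Rank function (positions `≤ p`, values `≤ q`). -/
def rk (w : Equiv.Perm (Fin n)) (p q : Fin n) : ℕ :=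
  (univ.filter (fun j : Fin n => j ≤ p ∧ w j ≤ q)).card

/-- Bruhat order. -/
def Br (x w : Equiv.Perm (Fin n)) : Prop := ∀ p q : Fin n, rk w p q ≤ rk x p q

/-- Length (number of inversions). -/
def len (w : Equiv.Perm (Fin n)) : ℕ :=
  (univ.filter (fun p : Fin n × Fin n => p.1 < p.2 ∧ w p.2 < w p.1)).card

/-! ### Charts of Schubert varieties -/

/-- The coordinates of the chart: pairs `(i,j)` with `j < i`. -/
abbrev Co (n : ℕ) : Type := {p : Fin n × Fin n // p.2 < p.1}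

/-- The lower unipotent matrix with the coordinates `z`. -/
def Um (z : Co n → ℂ) : Matrix (Fin n) (Fin n) ℂ := fun i j =>
  if h : j < i then z ⟨(i, j), h⟩ else if i = j then 1 else 0

/-- Column `j` of the matrix `x U`, `U = Um z` (`x` the permutation matrix with
`x e_i = e_(x i)`). -/
def colV (x : Equiv.Perm (Fin n)) (z : Co n → ℂ) (j : Fin n) : Fin n → ℂ :=
  fun a => Um z (x.symm a) j

/-- The subspaces `F_p` of the flag of `x U`: the span of the first columns (up to `p`). -/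
def Fl (x : Equiv.Perm (Fin n)) (z : Co n → ℂ) (p : Fin n) : Submodule ℂ (Fin n → ℂ) :=
  Submodule.span ℂ {y | ∃ j, j ≤ p ∧ y = colV x z j}

/-- The standard flag: the span of `e_a`, `a ≤ q`. -/
def Est (q : Fin n) : Submodule ℂ (Fin n → ℂ) where
  carrier := {y | ∀ a, q < a → y a = 0}
  zero_mem' := fun _ _ => rfl
  add_mem' := by
    intro y y' h h' a ha
    simp only [Pi.add_apply, h a ha, h' a ha, add_zero]
  smul_mem' := by
    intro c y h a ha
    simp only [Pi.smul_apply, h a ha, smul_zero]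

/-- The Schubert variety `X_w` in the chart `x U^- B / B` (coordinates `z`, the origin is `e_x`). -/
def SV (x w : Equiv.Perm (Fin n)) : Set (Co n → ℂ) :=
  {z | ∀ p q : Fin n, rk w p q ≤ Module.finrank ℂ (Fl x z p ⊓ Est q : Submodule ℂ (Fin n → ℂ))}

/-- The space of the `c` with support in `j ≤ p` such that the rows with value `> q` of `U c`
vanish. -/
def Kp (x : Equiv.Perm (Fin n)) (z : Co n → ℂ) (p q : Fin n) : Submodule ℂ (Fin n → ℂ) where
  carrier := {c | (∀ j, p < j → c j = 0) ∧ ∀ i, q < x i → ∑ j, Um z i j * c j = 0}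
  zero_mem' := ⟨fun _ _ => rfl, fun i _ => by simp⟩
  add_mem' := by
    intro c c' h h'
    refine ⟨fun j hj => ?_, fun i hi => ?_⟩
    · simp only [Pi.add_apply, h.1 j hj, h'.1 j hj, add_zero]
    · simp only [Pi.add_apply, mul_add, Finset.sum_add_distrib, h.2 i hi, h'.2 i hi, add_zero]
  smul_mem' := by
    intro a c h
    refine ⟨fun j hj => ?_, fun i hi => ?_⟩
    · simp only [Pi.smul_apply, h.1 j hj, smul_zero]
    · have : ∀ j, Um z i j * (a • c) j = a * (Um z i j * c j) := by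
        intro j; simp only [Pi.smul_apply, smul_eq_mul]; ring
      simp only [this, ← Finset.mul_sum, h.2 i hi, mul_zero]

end perm

/-! ### Intervals -/

/-- Intervals `[u,v]` of the Bruhat order of some `S_n`. -/
structure Itv where
  n : ℕ
  u : Equiv.Perm (Fin n)
  v : Equiv.Perm (Fin n)
  le : Br u v

/-- `w'` is the pattern of `w` at the positions `φ`. -/
def IsPat {m n : ℕ} (w' : Equiv.Perm (Fin m)) (w : Equiv.Perm (Fin n)) (φ : Fin m ↪o Fin n) :
    Prop :=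
  ∀ j k, w (φ j) < w (φ k) ↔ w' j < w' k

/-- `A` interval pattern embeds in `B` (literal form: `A.v` embeds in `B.v` at `φ`,
`B.u = Φ(A.u)` and the length differences agree). -/
def Emb (A B : Itv) : Prop :=
  ∃ φ : Fin A.n ↪o Fin B.n, IsPat A.v B.v φ ∧
    (∀ j, B.u (φ j) = B.v (φ (A.v.symm (A.u j)))) ∧ (∀ i, i ∉ Set.range φ → B.u i = B.v i) ∧
    (len A.v : ℤ) - len A.u = (len B.v : ℤ) - len B.u

/-- `A = [u,v]`, `B = [u',v]`, `u' ≤ u`. -/
def Up (A B : Itv) : Prop :=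
  ∃ (n : ℕ) (u u' v : Equiv.Perm (Fin n)) (h : Br u v) (h' : Br u' v), Br u' u ∧
    A = ⟨n, u, v, h⟩ ∧ B = ⟨n, u', v, h'⟩

/-- The order on intervals generated by the two relations. -/
def Prec (A B : Itv) : Prop := Relation.ReflTransGen (fun A B => Emb A B ∨ Up A B) A B

/-- `e` is the multiplicity of `X_v` at `e_u`. -/
def MultAt (A : Itv) (e : ℕ) : Prop := IsMult (SV A.u A.v) e

/-- The ideal `I_k`. -/
def InI (k : ℕ) (A : Itv) : Prop := ∃ e, k ≤ e ∧ MultAt A e

/-- The minimal elements of `I_k`. -/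
def MinI (k : ℕ) (A : Itv) : Prop := InI k A ∧ ∀ B, InI k B → Prec B A → B = A

/-- `A` is a shuffle of `A1` (high values, positions `φ1`) and `A2` (low values, positions `φ2`). -/
structure ShufAt (A1 A2 A : Itv) (φ1 : Fin A1.n ↪o Fin A.n) (φ2 : Fin A2.n ↪o Fin A.n) : Prop where
  cov : ∀ i, i ∈ Set.range φ1 ∨ i ∈ Set.range φ2
  u1 : ∀ j, (A.u (φ1 j) : ℕ) = A2.n + (A1.u j : ℕ)
  v1 : ∀ j, (A.v (φ1 j) : ℕ) = A2.n + (A1.v j : ℕ)
  u2 : ∀ j, (A.u (φ2 j) : ℕ) = (A2.u j : ℕ)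
  v2 : ∀ j, (A.v (φ2 j) : ℕ) = (A2.v j : ℕ)

/-- `A` is a shuffle of `A1` and `A2`. -/
def Shuf (A1 A2 A : Itv) : Prop := ∃ φ1 φ2, ShufAt A1 A2 A φ1 φ2

/-- Restriction of the coordinates of the chart to the positions `φ`. -/
def resC {m n : ℕ} (φ : Fin m ↪o Fin n) (z : Co n → ℂ) : Co m → ℂ := fun p =>
  z ⟨(φ p.1.1, φ p.1.2), φ.strictMono p.2⟩

/-! ### The quadric family -/

/-- The values of `u` for the quadric family: `1 (m-1) ... 2 m`. -/
def uIIIf (m : ℕ) (j : ℕ) : ℕ := if j = 0 then 0 else if j = m - 1 then m - 1 else m - 1 - j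

/-- The values of `v` for the quadric family: `(m-1) m (m-2) ... 3 1 2`. -/
def vIIIf (m : ℕ) (j : ℕ) : ℕ :=
  if j = 0 then m - 2 else if j = 1 then m - 1 else if j = m - 2 then 0
  else if j = m - 1 then 1 else m - 1 - j

/-- `A` is the interval of size `m` of the quadric family. -/
def IsIII (m : ℕ) (A : Itv) : Prop :=
  4 ≤ m ∧ A.n = m ∧ (∀ j, (A.u j : ℕ) = uIIIf m j) ∧ (∀ j, (A.v j : ℕ) = vIIIf m j)

/-- The last row of the inverse of `Um z`. -/
noncomputable def bv {k : ℕ} (z : Co (k + 1) → ℂ) (j : Fin (k + 1)) : ℂ :=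
  ((Um z)⁻¹ : Matrix (Fin (k + 1)) (Fin (k + 1)) ℂ) (Fin.last k) j

/-- Coordinates in which the last row of `U` is replaced by the last row of its inverse. -/
noncomputable def Tb {k : ℕ} (z : Co (k + 1) → ℂ) : Co (k + 1) → ℂ := fun c =>
  if c.1.1 = Fin.last k then bv z c.1.2 else z c

/-- The same except for the corner `(last, 0)`. -/
noncomputable def Tb2 {k : ℕ} (z : Co (k + 1) → ℂ) : Co (k + 1) → ℂ := fun c =>
  if c.1.1 = Fin.last k ∧ c.1.2 ≠ 0 then bv z c.1.2 else z c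

/-- Shuffles of `r` intervals of the quadric family. -/
def RS : ℕ → Itv → Prop
  | 0, A => A.n = 0
  | (r + 1), A => ∃ A1 A2 m, RS r A1 ∧ IsIII m A2 ∧ Shuf A1 A2 A

/-- The colouring `c` of the positions of `A` by `0, ..., r-1` is the one of a shuffle of `r`
intervals of the quadric family. -/
def Match : ℕ → (A : Itv) → (Fin A.n → ℕ) → Prop
  | 0, A, _ => A.n = 0
  | (r + 1), A, c => ∃ A1 A2 m, ∃ (φ1 : Fin A1.n ↪o Fin A.n) (φ2 : Fin A2.n ↪o Fin A.n),
      ShufAt A1 A2 A φ1 φ2 ∧ IsIII m A2 ∧ (∀ j, c (φ2 j) = 0) ∧ (∀ j, 1 ≤ c (φ1 j)) ∧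
      Match r A1 (fun j => c (φ1 j) - 1)

end Pool.Agent.SH
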