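import Pool.Agent.Work.MP_1c6e58_ag.SH.Stmts

/-!
MP_1c6e58_ag, project SH: item BPO (Bruhat order is a partial order).
-/

set_option autoImplicit false

open Finset

namespace Pool.Agent.SH

namespace XBPO

theorem step {n : ℕ} (x y : Equiv.Perm (Fin n)) (p : Fin n) (hlt : ∀ j, j < p → x j = y j)
    (h : rk x p (x p) ≤ rk y p (x p)) : y p ≤ x p := by
  by_contra hcon
  rw [not_le] at hcon
  have hlt' : rk y p (x p) < rk x p (x p) := by
    unfold rk
    apply card_lt_card
    rw [Finset.ssubset_iff_of_subset]
    · refine ⟨p, ?_, ?_⟩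
      · rw [mem_filter]
        exact ⟨mem_univ _, le_refl _, le_refl _⟩
      · rw [mem_filter]
        rintro ⟨-, -, h3⟩
        exact absurd h3 (not_le.2 hcon)
    · intro j hj
      rw [mem_filter] at hj ⊢
      refine ⟨mem_univ _, hj.2.1, ?_⟩
      have hjp : j ≠ p := by
        rintro rfl
        exact absurd hj.2.2 (not_le.2 hcon)
      rw [hlt j (lt_of_le_of_ne hj.2.1 hjp)]
      exact hj.2.2
  omega

end XBPO

theorem I_BPO : St_BPO := by
  intro n
  refine ⟨fun x p q => le_refl _, fun x y z h1 h2 p q => (h2 p q).trans (h1 p q), ?_⟩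
  intro x y h1 h2
  have key : ∀ k : ℕ, ∀ p : Fin n, (p : ℕ) = k → x p = y p := by
    intro k
    induction k using Nat.strong_induction_on with
    | _ k ih =>
      intro p hp
      have hlt : ∀ j, j < p → x j = y j := by
        intro j hj
        exact ih (j : ℕ) (by rw [← hp]; exact hj) j rfl
      apply le_antisymm
      · exact XBPO.step y x p (fun j hj => (hlt j hj).symm) (h1 p (y p))
      · exact XBPO.step x y p hlt (h2 p (x p))
  ext p
  rw [key (p : ℕ) p rfl]

end Pool.Agent.SH
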