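import Pool.Agent.Work.MP_1c6e58_ag.SH.Stmts

/-!
MP_1c6e58_ag, project SH: item COVER (covers in the Bruhat order).
-/

set_option autoImplicit false

open Finset

namespace Pool.Agent.SH

namespace XCOVER

variable {n : ℕ}

/-- Splitting of a rank at a smaller value. -/
theorem rk_split (w : Equiv.Perm (Fin n)) (p q r : Fin n) (h : q ≤ r) :
    rk w p r = rk w p q +
      (univ.filter (fun j : Fin n => j ≤ p ∧ q < w j ∧ w j ≤ r)).card := by
  unfold rk
  rw [← card_union_of_disjoint]
  · congr 1
    ext j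
    simp only [mem_filter, mem_univ, true_and, mem_union]
    constructor
    · rintro ⟨h1, h2⟩
      rcases le_or_gt (w j) q with h3 | h3
      · exact Or.inl ⟨h1, h3⟩
      · exact Or.inr ⟨h1, h3, h2⟩
    · rintro (⟨h1, h2⟩ | ⟨h1, _, h3⟩)
      · exact ⟨h1, h2.trans h⟩
      · exact ⟨h1, h3⟩
  · rw [disjoint_left]
    intro j h1 h2
    simp only [mem_filter, mem_univ, true_and] at h1 h2
    exact absurd h1.2 (not_le.2 h2.2.1)

theorem first_lt (x w : Equiv.Perm (Fin n)) (h : Br x w) (a : Fin n)
    (ha : ∀ j, j < a → x j = w j) (hne : x a ≠ w a) : x a < w a := by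
  by_contra hlt
  have hlt' : w a < x a := lt_of_le_of_ne (not_lt.1 hlt) (Ne.symm hne)
  have h1 := h a (w a)
  have h2 : rk x a (w a) < rk w a (w a) := by
    unfold rk
    apply card_lt_card
    rw [ssubset_iff_of_subset]
    · refine ⟨a, ?_, ?_⟩
      · simp
      · simp only [mem_filter, mem_univ, true_and, le_refl]
        exact not_le.2 hlt'
    · intro j hj
      simp only [mem_filter, mem_univ, true_and] at hj ⊢
      refine ⟨hj.1, ?_⟩
      rcases hj.1.lt_or_eq with h3 | h3
      · rw [← ha j h3]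
        exact hj.2
      · rw [h3]
  exact absurd h1 (not_le.2 h2)

theorem exists_first (x w : Equiv.Perm (Fin n)) (hne : x ≠ w) :
    ∃ a : Fin n, (∀ j, j < a → x j = w j) ∧ x a ≠ w a := by
  have h1 : ∃ a, x a ≠ w a := by
    by_contra hcon
    push Not at hcon
    exact hne (Equiv.ext hcon)
  obtain ⟨a, ha1, ha2⟩ := WellFounded.has_min (wellFounded_lt (α := Fin n))
    {a | x a ≠ w a} h1
  refine ⟨a, fun j hj => ?_, ha1⟩
  by_contra hc
  exact ha2 j hc hj

theorem exists_second (x w : Equiv.Perm (Fin n)) (a : Fin n)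
    (ha : ∀ j, j < a → x j = w j) (hlt : x a < w a) :
    ∃ b : Fin n, a < b ∧ x a < x b ∧ x b ≤ w a ∧
      ∀ i, a < i → i < b → ¬ (x a < x i ∧ x i ≤ w a) := by
  have h1 : ∃ b, a < b ∧ x a < x b ∧ x b ≤ w a := by
    refine ⟨x.symm (w a), ?_, ?_, ?_⟩
    · rcases lt_trichotomy a (x.symm (w a)) with h | h | h
      · exact h
      · exfalso
        have h2 : x a = w a := by
          conv_lhs => rw [h]
          exact x.apply_symm_apply _
        exact absurd h2 hlt.ne
      · exfalso
        have h2 := ha _ h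
        rw [x.apply_symm_apply] at h2
        have h3 := w.injective h2
        rw [← h3] at h
        exact lt_irrefl _ h
    · rw [x.apply_symm_apply]
      exact hlt
    · rw [x.apply_symm_apply]
  obtain ⟨b, hb1, hb2⟩ := WellFounded.has_min (wellFounded_lt (α := Fin n))
    {b | a < b ∧ x a < x b ∧ x b ≤ w a} h1
  exact ⟨b, hb1.1, hb1.2.1, hb1.2.2, fun i h2 h3 h4 => hb2 i ⟨h2, h4.1, h4.2⟩ h3⟩

theorem swap_other (x : Equiv.Perm (Fin n)) (a b j : Fin n) (h1 : j ≠ a) (h2 : j ≠ b) :
    (x * Equiv.swap a b) j = x j := by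
  rw [Equiv.Perm.mul_apply, Equiv.swap_apply_of_ne_of_ne h1 h2]

theorem rk_swap_out (x : Equiv.Perm (Fin n)) (a b : Fin n) (hab : a < b)
    (p q : Fin n) (h : ¬ (a ≤ p ∧ p < b ∧ x a ≤ q ∧ q < x b)) :
    rk x p q ≤ rk (x * Equiv.swap a b) p q := by
  rcases lt_or_ge p b with hpb | hpb
  · unfold rk
    apply card_le_card
    intro j hj
    simp only [mem_filter, mem_univ, true_and] at hj ⊢
    refine ⟨hj.1, ?_⟩
    have hjb : j ≠ b := by
      rintro rfl
      exact absurd hj.1 (not_le.2 hpb)
    by_cases hja : j = a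
    · subst hja
      rw [Equiv.Perm.mul_apply, Equiv.swap_apply_left]
      by_contra hc
      exact h ⟨hj.1, hpb, hj.2, not_le.1 hc⟩
    · rw [swap_other x a b j hja hjb]
      exact hj.2
  · unfold rk
    apply card_le_card_of_injOn (Equiv.swap a b) _ (Equiv.injective _).injOn
    intro j hj
    simp only [coe_filter, mem_univ, true_and, Set.mem_ofPred_eq] at hj ⊢
    rw [Equiv.Perm.mul_apply, Equiv.swap_apply_self]
    refine ⟨?_, hj.2⟩
    by_cases hja : j = a
    · rw [hja, Equiv.swap_apply_left]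
      exact hpb
    · by_cases hjb : j = b
      · rw [hjb, Equiv.swap_apply_right]
        exact hab.le.trans hpb
      · rw [Equiv.swap_apply_of_ne_of_ne hja hjb]
        exact hj.1

theorem rk_swap_in (x : Equiv.Perm (Fin n)) (a b : Fin n) (p q : Fin n)
    (hpb : p < b) : rk x p q ≤ rk (x * Equiv.swap a b) p q + 1 := by
  unfold rk
  rw [← card_singleton a]
  refine (card_le_card ?_).trans (card_union_le _ _)
  intro j hj
  simp only [mem_filter, mem_univ, true_and, mem_union, mem_singleton] at hj ⊢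
  by_cases hja : j = a
  · exact Or.inr hja
  · left
    have hjb : j ≠ b := by
      rintro rfl
      exact absurd hj.1 (not_le.2 hpb)
    rw [swap_other x a b j hja hjb]
    exact hj

end XCOVER

open XCOVER in
theorem I_COVER : St_COVER := by
  intro n x w h hne
  obtain ⟨a, ha, hxa⟩ := exists_first x w hne
  have hlt := first_lt x w h a ha hxa
  obtain ⟨b, hab, hxb, hbw, hmin⟩ := exists_second x w a ha hlt
  refine ⟨a, b, hab, hxb, fun i h1 h2 h3 => hmin i h1 h2 ⟨h3.1, h3.2.le.trans hbw⟩, ?_⟩
  intro p q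
  by_cases hc : a ≤ p ∧ p < b ∧ x a ≤ q ∧ q < x b
  · obtain ⟨hap, hpb, hxq, hqb⟩ := hc
    have hqw : q ≤ w a := hqb.le.trans hbw
    have h1 := rk_split x p q (w a) hqw
    have h2 := rk_split w p q (w a) hqw
    have h3 := h p (w a)
    have h4 := rk_swap_in x a b p q hpb
    have h5 : (univ.filter (fun j : Fin n => j ≤ p ∧ q < x j ∧ x j ≤ w a)).card <
        (univ.filter (fun j : Fin n => j ≤ p ∧ q < w j ∧ w j ≤ w a)).card := by
      apply card_lt_card
      rw [ssubset_iff_of_subset]
      · refine ⟨a, ?_, ?_⟩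
        · simp only [mem_filter, mem_univ, true_and, le_refl, and_true]
          exact ⟨hap, hqb.trans_le hbw⟩
        · simp only [mem_filter, mem_univ, true_and, not_and]
          intro _ h6
          exact absurd hxq (not_le.2 h6)
      · intro j hj
        simp only [mem_filter, mem_univ, true_and] at hj ⊢
        obtain ⟨h6, h7, h8⟩ := hj
        rcases lt_trichotomy j a with h9 | h9 | h9
        · rw [← ha j h9]
          exact ⟨h6, h7, h8⟩
        · rw [h9] at h7
          exact absurd hxq (not_le.2 h7)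
        · exact absurd ⟨hxq.trans_lt h7, h8⟩ (hmin j h9 (h6.trans_lt hpb))
    omega
  · exact (h p q).trans (rk_swap_out x a b hab p q hc)

end Pool.Agent.SH
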