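import Pool.Agent.Work.MP_1c6e58_ag.SH.Stmts

set_option autoImplicit false

open Finset

namespace Pool.Agent.SH

namespace XLMON

theorem len_le {n : ℕ} (x : Equiv.Perm (Fin n)) : len x ≤ n * n := by
  unfold len
  refine (Finset.card_le_univ _).trans ?_
  rw [Fintype.card_prod, Fintype.card_fin]

theorem aux (hCOVER : St_COVER) (hLSW : St_LSW) {n : ℕ} (w : Equiv.Perm (Fin n)) :
    ∀ (k : ℕ) (x : Equiv.Perm (Fin n)), n * n - len x ≤ k → Br x w →
      len x ≤ len w ∧ (len x = len w → x = w) := by
  intro k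
  induction k with
  | zero =>
    intro x hk hx
    by_cases hxw : x = w
    · subst hxw
      exact ⟨le_refl _, fun _ => rfl⟩
    · obtain ⟨a, b, h1, h2, h3, _⟩ := hCOVER n x w hx hxw
      have h5 := (hLSW n x a b h1 h2).2 h3
      have h6 := len_le (x * Equiv.swap a b)
      omega
  | succ k ih =>
    intro x hk hx
    by_cases hxw : x = w
    · subst hxw
      exact ⟨le_refl _, fun _ => rfl⟩
    · obtain ⟨a, b, h1, h2, h3, h4⟩ := hCOVER n x w hx hxw
      have h5 := (hLSW n x a b h1 h2).2 h3
      have h6 := ih (x * Equiv.swap a b) (by omega) h4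
      have h7 := h6.1
      exact ⟨by omega, fun h => absurd h (by omega)⟩

end XLMON

theorem I_LMON (hBPO : St_BPO) (hCOVER : St_COVER) (hLSW : St_LSW) : St_LMON := by
  intro n x w hxw
  exact XLMON.aux hCOVER hLSW w (n * n - len x) x (le_refl _) hxw

end Pool.Agent.SH
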