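import Pool.Agent.Work.MP_1c6e58_ag.SH.Stmts

/-!
# MP_1c6e58_ag, project SH: length after a transposition
-/

set_option autoImplicit false

open Finset

namespace Pool.Agent.SH

namespace XLSW

/-- contribution of a pair -/
def g {n : ℕ} (x s : Equiv.Perm (Fin n)) (p q : Fin n) : ℤ :=
  if x q < x p then ((if s p < s q then (1 : ℤ) else 0) - (if p < q then (1 : ℤ) else 0)) else 0

lemma len_eq {n : ℕ} (w : Equiv.Perm (Fin n)) :
    (len w : ℤ) = ∑ p, ∑ q, (if p < q ∧ w q < w p then (1 : ℤ) else 0) := by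
  unfold len
  rw [card_filter]
  push_cast
  rw [Fintype.sum_prod_type]

lemma len_diff {n : ℕ} (x s : Equiv.Perm (Fin n)) (hs : ∀ i, s (s i) = i) :
    (len (x * s) : ℤ) - len x = ∑ p, ∑ q, g x s p q := by
  rw [len_eq, len_eq]
  have h1 : ∑ p, ∑ q, (if p < q ∧ (x * s) q < (x * s) p then (1 : ℤ) else 0) =
      ∑ p, ∑ q, (if s p < s q ∧ x q < x p then (1 : ℤ) else 0) := by
    rw [← Equiv.sum_comp s (fun p => ∑ q, (if s p < s q ∧ x q < x p then (1 : ℤ) else 0))]
    refine sum_congr rfl fun p _ => ?_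
    rw [← Equiv.sum_comp s (fun q => (if s (s p) < s q ∧ x q < x (s p) then (1 : ℤ) else 0))]
    refine sum_congr rfl fun q _ => ?_
    rw [hs, hs]
    rfl
  rw [h1, ← sum_sub_distrib]
  refine sum_congr rfl fun p _ => ?_
  rw [← sum_sub_distrib]
  refine sum_congr rfl fun q _ => ?_
  unfold g
  by_cases h : x q < x p
  · simp [h]
  · simp [h]

lemma key (A B I XA XB XI : ℕ) (h1 : A < B) (h2 : XA < XB) (h3 : I ≠ A) (h4 : I ≠ B)
    (h5 : XI ≠ XA) (h6 : XI ≠ XB) :
    0 ≤ (if XI < XA then ((if B < I then (1 : ℤ) else 0) - (if A < I then (1 : ℤ) else 0)) else 0) +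
      (if XI < XB then ((if A < I then (1 : ℤ) else 0) - (if B < I then (1 : ℤ) else 0)) else 0) +
      (if XA < XI then ((if I < B then (1 : ℤ) else 0) - (if I < A then (1 : ℤ) else 0)) else 0) +
      (if XB < XI then ((if I < A then (1 : ℤ) else 0) - (if I < B then (1 : ℤ) else 0)) else 0) ∧
    (¬ (A < I ∧ I < B ∧ XA < XI ∧ XI < XB) →
      (if XI < XA then ((if B < I then (1 : ℤ) else 0) - (if A < I then (1 : ℤ) else 0)) else 0) +
      (if XI < XB then ((if A < I then (1 : ℤ) else 0) - (if B < I then (1 : ℤ) else 0)) else 0) +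
      (if XA < XI then ((if I < B then (1 : ℤ) else 0) - (if I < A then (1 : ℤ) else 0)) else 0) +
      (if XB < XI then ((if I < A then (1 : ℤ) else 0) - (if I < B then (1 : ℤ) else 0)) else 0) =
        0) := by
  constructor
  · split_ifs <;> omega
  · intro h
    split_ifs <;> omega

end XLSW

open XLSW in
theorem I_LSW : St_LSW := by
  intro n x a b hab hx
  have hne : a ≠ b := ne_of_lt hab
  set s : Equiv.Perm (Fin n) := Equiv.swap a b with hs
  have hsa : s a = b := Equiv.swap_apply_left a b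
  have hsb : s b = a := Equiv.swap_apply_right a b
  have hsi : ∀ i, i ≠ a → i ≠ b → s i = i := fun i h1 h2 => Equiv.swap_apply_of_ne_of_ne h1 h2
  have h0 := len_diff x s (fun i => by rw [hs, Equiv.swap_apply_self])
  have hsplit : ∀ F : Fin n → ℤ, ∑ i, F i = F a + F b + ∑ i ∈ (univ.erase a).erase b, F i := by
    intro F
    have e1 := add_sum_erase univ F (mem_univ a)
    have e2 := add_sum_erase (univ.erase a) F (mem_erase.2 ⟨hne.symm, mem_univ b⟩)
    rw [← e1, ← e2]
    ring
  set T : Finset (Fin n) := (univ.erase a).erase b with hT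
  have hTm : ∀ i ∈ T, i ≠ a ∧ i ≠ b := by
    intro i hi
    rw [hT, mem_erase, mem_erase] at hi
    exact ⟨hi.2.1, hi.1⟩
  have hmain : ∑ p, ∑ q, g x s p q = 1 + ∑ i ∈ T, (g x s a i + g x s b i + g x s i a + g x s i b) := by
    rw [hsplit (fun p => ∑ q, g x s p q)]
    rw [hsplit (fun q => g x s a q), hsplit (fun q => g x s b q)]
    have e3 : ∑ p ∈ T, ∑ q, g x s p q = ∑ p ∈ T, (g x s p a + g x s p b) := by
      refine sum_congr rfl fun p hp => ?_
      rw [hsplit (fun q => g x s p q)]
      rw [sum_eq_zero, add_zero]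
      intro q hq
      unfold g
      rw [hsi p (hTm p hp).1 (hTm p hp).2, hsi q (hTm q hq).1 (hTm q hq).2, sub_self, ite_self]
    rw [e3]
    have e4 : g x s a a = 0 := by unfold g; rw [if_neg (lt_irrefl _)]
    have e5 : g x s b b = 0 := by unfold g; rw [if_neg (lt_irrefl _)]
    have e6 : g x s a b = 0 := by unfold g; rw [if_neg (not_lt.2 hx.le)]
    have e7 : g x s b a = 1 := by
      unfold g; rw [if_pos hx, hsa, hsb, if_pos hab, if_neg (not_lt.2 hab.le), sub_zero]
    rw [e4, e5, e6, e7]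
    simp only [sum_add_distrib]
    ring
  have hk : ∀ i ∈ T, 0 ≤ g x s a i + g x s b i + g x s i a + g x s i b ∧
      (¬ (a < i ∧ i < b ∧ x a < x i ∧ x i < x b) →
        g x s a i + g x s b i + g x s i a + g x s i b = 0) := by
    intro i hi
    have h1 := (hTm i hi).1
    have h2 := (hTm i hi).2
    have h3 : x i ≠ x a := fun h => h1 (x.injective h)
    have h4 : x i ≠ x b := fun h => h2 (x.injective h)
    unfold g
    rw [hsa, hsb, hsi i h1 h2]
    simp only [Fin.lt_def]
    exact key a b i (x a) (x b) (x i) hab hx (Fin.val_ne_of_ne h1) (Fin.val_ne_of_ne h2)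
      (Fin.val_ne_of_ne h3) (Fin.val_ne_of_ne h4)
  constructor
  · have h5 : 0 ≤ ∑ i ∈ T, (g x s a i + g x s b i + g x s i a + g x s i b) :=
      sum_nonneg fun i hi => (hk i hi).1
    omega
  · intro hno
    have h5 : ∑ i ∈ T, (g x s a i + g x s b i + g x s i a + g x s i b) = 0 :=
      sum_eq_zero fun i hi => (hk i hi).2 fun h => hno i h.1 h.2.1 h.2.2
    omega

end Pool.Agent.SH
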