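import Pool.Agent.Work.MP_1c6e58_ag.SH.Stmts

/-!
MP_1c6e58_ag, project SH, item HG: the Hilbert-Samuel function counts exponents.
-/

set_option autoImplicit false

open Finset

namespace Pool.Agent.SH

namespace XHG

open MvPolynomial

variable {σ : Type} [Fintype σ]

open Classical in
/-- Exponents of degree at most `t` outside of the set of lowest exponents. -/
noncomputable def BB (o : LOrd σ) (I : Ideal (MvPolynomial σ ℂ)) (t : ℕ) : Finset (σ →₀ ℕ) :=
  (range (t + 1)).biUnion fun i => (Finset.univ.finsuppAntidiag i).filter fun α => α ∉ Lset o I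

open Classical in
theorem mem_anti (i : ℕ) (α : σ →₀ ℕ) :
    α ∈ (Finset.univ : Finset σ).finsuppAntidiag i ↔ α.degree = i := by
  classical
  rw [Finset.mem_finsuppAntidiag, Finsupp.degree_eq_sum]
  simp

theorem mem_BB (o : LOrd σ) (I : Ideal (MvPolynomial σ ℂ)) (t : ℕ) (α : σ →₀ ℕ) :
    α ∈ BB o I t ↔ α.degree ≤ t ∧ α ∉ Lset o I := by
  classical
  unfold BB
  rw [Finset.mem_biUnion]
  constructor
  · rintro ⟨i, hi, hα⟩
    obtain ⟨h1, h2⟩ := Finset.mem_filter.1 hα
    rw [mem_anti] at h1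
    rw [Finset.mem_range] at hi
    exact ⟨by omega, h2⟩
  · rintro ⟨h1, h2⟩
    exact ⟨α.degree, Finset.mem_range.2 (by omega),
      Finset.mem_filter.2 ⟨(mem_anti _ _).2 rfl, h2⟩⟩

theorem card_BB (o : LOrd σ) (I : Ideal (MvPolynomial σ ℂ)) (t : ℕ) :
    (BB o I t).card = ∑ i ∈ range (t + 1), gL (Lset o I) i := by
  classical
  unfold BB
  rw [Finset.card_biUnion]
  · refine Finset.sum_congr rfl fun i _ => ?_
    unfold gL
    congr
  · intro i _ j _ hij
    simp only [Function.onFun]
    rw [Finset.disjoint_left]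
    intro α h1 h2
    have h3 := (mem_anti _ _).1 (Finset.mem_filter.1 h1).1
    have h4 := (mem_anti _ _).1 (Finset.mem_filter.1 h2).1
    exact hij (h3.symm.trans h4)

/-- The polynomial with the given coefficients. -/
noncomputable def PP (B : Finset (σ →₀ ℕ)) (c : B → ℂ) : MvPolynomial σ ℂ :=
  ∑ α : B, monomial α.1 (c α)

theorem coeff_PP (B : Finset (σ →₀ ℕ)) (c : B → ℂ) (α : B) : coeff α.1 (PP B c) = c α := by
  classical
  unfold PP
  rw [coeff_sum, Finset.sum_eq_single α]
  · rw [coeff_monomial, if_pos rfl]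
  · intro β _ hβ
    rw [coeff_monomial, if_neg]
    intro h
    exact hβ (Subtype.ext h)
  · intro h
    exact absurd (Finset.mem_univ _) h

theorem mem_of_coeff_PP {B : Finset (σ →₀ ℕ)} {c : B → ℂ} {β : σ →₀ ℕ}
    (h : coeff β (PP B c) ≠ 0) : ∃ α : B, α.1 = β ∧ c α ≠ 0 := by
  classical
  unfold PP at h
  rw [coeff_sum] at h
  obtain ⟨α, _, hα⟩ := Finset.exists_ne_zero_of_sum_ne_zero h
  rw [coeff_monomial] at hα
  by_cases h1 : α.1 = β
  · rw [if_pos h1] at hα
    exact ⟨α, h1, hα⟩
  · rw [if_neg h1] at hα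
    exact absurd rfl hα

variable (o : LOrd σ) (I : Ideal (MvPolynomial σ ℂ)) (t : ℕ)

/-- The linear map from the coefficients to the quotient. -/
noncomputable def Phi : (BB o I t → ℂ) →ₗ[ℂ]
    (MvPolynomial σ ℂ ⧸ (I ⊔ (idealOfVars σ ℂ) ^ (t + 1))) where
  toFun c := Ideal.Quotient.mkₐ ℂ _ (PP (BB o I t) c)
  map_add' c c' := by
    rw [← map_add]
    congr 1
    unfold PP
    rw [← Finset.sum_add_distrib]
    refine Finset.sum_congr rfl fun α _ => ?_
    rw [Pi.add_apply, map_add]
  map_smul' a c := by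
    rw [RingHom.id_apply, ← map_smul]
    congr 1
    unfold PP
    rw [Finset.smul_sum]
    refine Finset.sum_congr rfl fun α _ => ?_
    rw [Pi.smul_apply, smul_monomial]

theorem injective : Function.Injective (Phi o I t) := by
  classical
  rw [← LinearMap.ker_eq_bot, LinearMap.ker_eq_bot']
  intro c hc
  have h1 : PP (BB o I t) c ∈ I ⊔ (idealOfVars σ ℂ) ^ (t + 1) := Ideal.Quotient.eq_zero_iff_mem.1 hc
  obtain ⟨f, hf, h, hh, hfh⟩ := Submodule.mem_sup.1 h1
  by_contra hne
  have h2 : (Finset.univ.filter fun α : BB o I t => c α ≠ 0).Nonempty := by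
    by_contra h3
    rw [Finset.not_nonempty_iff_eq_empty, Finset.filter_eq_empty_iff] at h3
    apply hne
    funext α
    have := h3 (Finset.mem_univ α)
    push Not at this
    exact this
  obtain ⟨α0, hα0, hmin⟩ := Finset.exists_min_image _ (fun α : BB o I t => o.f α.1) h2
  have hc0 : c α0 ≠ 0 := (Finset.mem_filter.1 hα0).2
  obtain ⟨hdeg, hL⟩ := (mem_BB o I t α0.1).1 α0.2
  rw [mem_pow_idealOfVars_iff'] at hh
  have hco : ∀ β, coeff β f = coeff β (PP (BB o I t) c) - coeff β h := by
    intro β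
    rw [← hfh, coeff_add]
    ring
  apply hL
  refine ⟨f, hf, ?_, ?_⟩
  · rw [mem_support_iff, hco, coeff_PP, hh _ (by omega), sub_zero]
    exact hc0
  · intro β hβ
    rw [mem_support_iff, hco] at hβ
    by_cases h3 : coeff β (PP (BB o I t) c) = 0
    · have h4 : coeff β h ≠ 0 := by
        intro h5
        rw [h3, h5, sub_zero] at hβ
        exact hβ rfl
      have h5 : t + 1 ≤ β.degree := by
        by_contra h6
        exact h4 (hh β (by omega))
      exact (o.deg _ _ (by omega)).le
    · obtain ⟨α, rfl, hα⟩ := mem_of_coeff_PP h3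
      exact hmin α (Finset.mem_filter.2 ⟨Finset.mem_univ _, hα⟩)

theorem mono_mem (α : σ →₀ ℕ) :
    Ideal.Quotient.mkₐ ℂ (I ⊔ (idealOfVars σ ℂ) ^ (t + 1)) (monomial α 1) ∈
      LinearMap.range (Phi o I t) := by
  classical
  let D : Finset (σ →₀ ℕ) := (range (t + 1)).biUnion fun i => Finset.univ.finsuppAntidiag i
  have hD : ∀ β : σ →₀ ℕ, β ∈ D ↔ β.degree ≤ t := by
    intro β
    simp only [D]
    rw [Finset.mem_biUnion]
    constructor
    · rintro ⟨i, hi, hβ⟩
      rw [mem_anti] at hβ
      rw [Finset.mem_range] at hi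
      omega
    · intro h
      exact ⟨β.degree, Finset.mem_range.2 (by omega), (mem_anti _ _).2 rfl⟩
  have hbig : ∀ β : σ →₀ ℕ, ¬ β.degree ≤ t →
      Ideal.Quotient.mkₐ ℂ (I ⊔ (idealOfVars σ ℂ) ^ (t + 1)) (monomial β 1) = 0 := by
    intro β hβ
    refine Ideal.Quotient.eq_zero_iff_mem.2 (Ideal.mem_sup_right ?_)
    exact (monomial_mem_pow_idealOfVars_iff _ _ one_ne_zero).2 (by omega)
  have key : ∀ N : ℕ, ∀ α : σ →₀ ℕ, (D.filter fun β => o.f α < o.f β).card < N →
      Ideal.Quotient.mkₐ ℂ (I ⊔ (idealOfVars σ ℂ) ^ (t + 1)) (monomial α 1) ∈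
        LinearMap.range (Phi o I t) := by
    intro N
    induction N with
    | zero => intro α h; omega
    | succ N ih =>
      intro α hα
      by_cases hdeg : α.degree ≤ t
      swap
      · rw [hbig α hdeg]
        exact Submodule.zero_mem _
      by_cases hL : α ∈ Lset o I
      swap
      · have hB : α ∈ BB o I t := (mem_BB o I t α).2 ⟨hdeg, hL⟩
        refine ⟨Pi.single ⟨α, hB⟩ 1, ?_⟩
        show Ideal.Quotient.mkₐ ℂ _ (PP (BB o I t) _) = _
        congr 1
        unfold PP
        rw [Finset.sum_eq_single ⟨α, hB⟩]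
        · rw [Pi.single_eq_same]
        · intro β _ hβ
          rw [Pi.single_eq_of_ne hβ, monomial_zero]
        · intro h
          exact absurd (Finset.mem_univ _) h
      · obtain ⟨f, hf, hαf, hmin⟩ := hL
        have hc : coeff α f ≠ 0 := mem_support_iff.1 hαf
        have h0 : Ideal.Quotient.mkₐ ℂ (I ⊔ (idealOfVars σ ℂ) ^ (t + 1)) f = 0 :=
          Ideal.Quotient.eq_zero_iff_mem.2 (Ideal.mem_sup_left hf)
        have h1 : Ideal.Quotient.mkₐ ℂ (I ⊔ (idealOfVars σ ℂ) ^ (t + 1)) f =
            ∑ β ∈ f.support, coeff β f •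
              Ideal.Quotient.mkₐ ℂ (I ⊔ (idealOfVars σ ℂ) ^ (t + 1)) (monomial β 1) := by
          conv_lhs => rw [f.as_sum]
          rw [map_sum]
          refine Finset.sum_congr rfl fun β _ => ?_
          rw [← map_smul, smul_monomial, smul_eq_mul, mul_one]
        rw [h1, ← Finset.add_sum_erase _ _ hαf] at h0
        have h2 : ∑ β ∈ f.support.erase α, coeff β f •
            Ideal.Quotient.mkₐ ℂ (I ⊔ (idealOfVars σ ℂ) ^ (t + 1)) (monomial β 1) ∈
              LinearMap.range (Phi o I t) := by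
          refine Submodule.sum_mem _ fun β hβ => Submodule.smul_mem _ _ ?_
          rw [Finset.mem_erase] at hβ
          by_cases hβt : β.degree ≤ t
          swap
          · rw [hbig β hβt]
            exact Submodule.zero_mem _
          have hlt : o.f α < o.f β := lt_of_le_of_ne (hmin β hβ.2) fun h => hβ.1 (o.inj h).symm
          refine ih β (lt_of_lt_of_le ?_ (Nat.lt_succ_iff.1 hα))
          refine Finset.card_lt_card ?_
          rw [Finset.ssubset_iff_of_subset]
          · refine ⟨β, Finset.mem_filter.2 ⟨(hD β).2 hβt, hlt⟩, ?_⟩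
            intro h
            exact lt_irrefl _ (Finset.mem_filter.1 h).2
          · intro γ hγ
            obtain ⟨h3, h4⟩ := Finset.mem_filter.1 hγ
            exact Finset.mem_filter.2 ⟨h3, hlt.trans h4⟩
        have h3 : coeff α f •
            Ideal.Quotient.mkₐ ℂ (I ⊔ (idealOfVars σ ℂ) ^ (t + 1)) (monomial α 1) ∈
              LinearMap.range (Phi o I t) := by
          rw [eq_neg_of_add_eq_zero_left h0]
          exact Submodule.neg_mem _ h2
        exact (Submodule.smul_mem_iff _ hc).1 h3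
  exact key _ α (Nat.lt_succ_self _)

theorem surjective : Function.Surjective (Phi o I t) := by
  classical
  rw [← LinearMap.range_eq_top, eq_top_iff]
  rintro q -
  obtain ⟨f, rfl⟩ := Ideal.Quotient.mkₐ_surjective ℂ (I ⊔ (idealOfVars σ ℂ) ^ (t + 1)) q
  rw [f.as_sum, map_sum]
  refine Submodule.sum_mem _ fun β _ => ?_
  have h1 : (monomial β (coeff β f) : MvPolynomial σ ℂ) = coeff β f • monomial β 1 := by
    rw [smul_monomial, smul_eq_mul, mul_one]
  rw [h1, map_smul]
  exact Submodule.smul_mem _ _ (mono_mem o I t β)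

end XHG

theorem I_HG : St_HG := by
  intro σ _ o I t
  have e := LinearEquiv.ofBijective (XHG.Phi o I t) ⟨XHG.injective o I t, XHG.surjective o I t⟩
  rw [← e.finrank_eq, Module.finrank_fintype_fun_eq_card, Fintype.card_coe, XHG.card_BB]

end Pool.Agent.SH
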