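import Pool.Agent.Work.MP_1c6e58_ag.SH.Stmts

/-!
[1c6e58 SH] ORD: every finite set of variables has a monomial order.
-/

set_option autoImplicit false

open Finset

namespace Pool.Agent.SH

theorem I_ORD : St_ORD := by
  intro σ _
  let _ : LinearOrder σ := LinearOrder.lift' (Fintype.equivFin σ) (Fintype.equivFin σ).injective
  let m : MonomialOrder σ := MonomialOrder.degLex
  refine ⟨@LOrd.mk σ m.syn inferInstance inferInstance inferInstance m.toSyn.toAddMonoidHom
    m.toSyn.injective ?_⟩
  intro α β h
  have h1 : m.toSyn α < m.toSyn β := by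
    rw [MonomialOrder.degLex_lt_iff, Finsupp.DegLex.lt_iff]
    left
    simpa using h
  exact h1

end Pool.Agent.SH
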