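import Pool.Agent.Work.MP_1c6e58_ag.SH.Stmts

set_option autoImplicit false

open Finset

namespace Pool.Agent.SH

namespace XSHEQ

theorem mem2 {A1 A2 A : Itv} {φ1 : Fin A1.n ↪o Fin A.n} {φ2 : Fin A2.n ↪o Fin A.n}
    (h : ShufAt A1 A2 A φ1 φ2) (i : Fin A.n) : i ∈ Set.range φ2 ↔ (A.v i : ℕ) < A2.n := by
  constructor
  · rintro ⟨j, rfl⟩
    rw [h.v2 j]
    exact (A2.v j).2
  · intro hi
    rcases h.cov i with ⟨j, rfl⟩ | h2
    · rw [h.v1 j] at hi
      omega
    · exact h2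

theorem mem1 {A1 A2 A : Itv} {φ1 : Fin A1.n ↪o Fin A.n} {φ2 : Fin A2.n ↪o Fin A.n}
    (h : ShufAt A1 A2 A φ1 φ2) (i : Fin A.n) : i ∈ Set.range φ1 ↔ A2.n ≤ (A.v i : ℕ) := by
  constructor
  · rintro ⟨j, rfl⟩
    rw [h.v1 j]
    omega
  · intro hi
    rcases h.cov i with h2 | ⟨j, rfl⟩
    · exact h2
    · rw [h.v2 j] at hi
      have := (A2.v j).2
      omega

theorem disj {A1 A2 A : Itv} {φ1 : Fin A1.n ↪o Fin A.n} {φ2 : Fin A2.n ↪o Fin A.n}
    (h : ShufAt A1 A2 A φ1 φ2) (i : Fin A1.n) (j : Fin A2.n) : φ1 i ≠ φ2 j := by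
  intro he
  have h1 := (mem1 h (φ1 i)).1 ⟨i, rfl⟩
  have h2 := (mem2 h (φ2 j)).1 ⟨j, rfl⟩
  rw [he] at h1
  omega

theorem card {A1 A2 A : Itv} {φ1 : Fin A1.n ↪o Fin A.n} {φ2 : Fin A2.n ↪o Fin A.n}
    (h : ShufAt A1 A2 A φ1 φ2) : A.n = A1.n + A2.n := by
  have hb : Function.Bijective (Sum.elim φ1 φ2 : Fin A1.n ⊕ Fin A2.n → Fin A.n) := by
    constructor
    · rintro (a | a) (b | b) hab
      · exact congrArg Sum.inl (φ1.injective hab)
      · exact absurd hab (disj h a b)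
      · exact absurd hab.symm (disj h b a)
      · exact congrArg Sum.inr (φ2.injective hab)
    · intro i
      rcases h.cov i with ⟨j, hj⟩ | ⟨j, hj⟩
      · exact ⟨Sum.inl j, hj⟩
      · exact ⟨Sum.inr j, hj⟩
  have := Fintype.card_of_bijective hb
  simpa using this.symm

theorem perm_eq {n : ℕ} (w w' : Equiv.Perm (Fin n)) (h : ∀ j k, w j < w k ↔ w' j < w' k) :
    w = w' := by
  have hf : StrictMono (fun a => w' (w.symm a)) := by
    intro a b hab
    have := (h (w.symm a) (w.symm b)).1 (by simpa using hab)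
    exact this
  have hid : (fun a => w' (w.symm a)) = (fun a => a) := by
    apply (StrictMono.range_inj hf (strictMono_id)).1
    rw [Set.range_eq_univ.2, Set.range_id]
    intro a; exact ⟨w (w'.symm a), by simp⟩
  ext j
  have := congrFun hid (w j)
  simp only [Equiv.symm_apply_apply] at this
  rw [this]

theorem emb_id {n : ℕ} (φ : Fin n ↪o Fin n) (j : Fin n) : φ j = j := by
  have h : (fun j => φ j) = (fun j => j) := by
    apply (StrictMono.range_inj φ.strictMono strictMono_id).1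
    rw [Set.range_eq_univ.2, Set.range_id]
    exact Finite.surjective_of_injective φ.injective
  exact congrFun h j

theorem emb_eq {m n : ℕ} {φ ψ : Fin m ↪o Fin n} (h : ∀ i, i ∈ Set.range φ ↔ i ∈ Set.range ψ) :
    φ = ψ := by
  apply DFunLike.coe_injective
  exact (StrictMono.range_inj φ.strictMono ψ.strictMono).1 (Set.ext h)

end XSHEQ

open XSHEQ

theorem I_SHEQ (hBELOW : St_BELOW) (hEMBP : St_EMBP) : St_SHEQ := by
  intro A1 A2 A B hA hB hp
  obtain ⟨φ1, φ2, hA⟩ := hA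
  obtain ⟨ψ1, ψ2, hB⟩ := hB
  have hn : B.n = A.n := by rw [card hA, card hB]
  obtain ⟨u', h, hu, he⟩ := (hBELOW A B).1 hp
  obtain ⟨φ, hv, hu', -, -⟩ := (hEMBP _ _).1 he
  obtain ⟨n, uA, vA, lA⟩ := A
  obtain ⟨n', uB, vB, lB⟩ := B
  simp only at hn
  subst hn
  have hid := emb_id φ
  have hvv : vA = vB := by
    apply perm_eq
    intro j k
    have := hv j k
    simp only [hid] at this
    exact this
  subst hvv
  have h2 : φ2 = ψ2 := by
    apply emb_eq
    intro i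
    rw [mem2 hA, mem2 hB]
  have h1 : φ1 = ψ1 := by
    apply emb_eq
    intro i
    rw [mem1 hA, mem1 hB]
  subst h1
  subst h2
  have huu : uB = uA := by
    ext i
    rcases hA.cov i with ⟨j, rfl⟩ | ⟨j, rfl⟩
    · rw [hA.u1 j, hB.u1 j]
    · rw [hA.u2 j, hB.u2 j]
  subst huu
  rfl

end Pool.Agent.SH
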