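import Pool.Agent.Work.MP_1c6e58_ag.SH.Defs

/-!
MP_1c6e58_ag, project SH: statements of the items.
-/

set_option autoImplicit false

open Finset

namespace Pool.Agent.SH

/-! ### Block A: Hilbert-Samuel functions -/

/-- ORD. Every finite set of variables has a monomial order. -/
def St_ORD : Prop := ∀ (σ : Type) [Fintype σ], Nonempty (LOrd σ)

/-- OPROD. Product orders. -/
def St_OPROD : Prop := ∀ (σ τ : Type) [Fintype σ] [Fintype τ] (o1 : LOrd σ) (o2 : LOrd τ),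
  ∃ o : LOrd (σ ⊕ τ), IsProdOrd o1 o2 o

/-- HG. The Hilbert-Samuel function counts the exponents outside of `Lset`. -/
def St_HG : Prop := ∀ (σ : Type) [Fintype σ] (o : LOrd σ) (I : Ideal (MvPolynomial σ ℂ)) (t : ℕ),
  Module.finrank ℂ (MvPolynomial σ ℂ ⧸ (I ⊔ (MvPolynomial.idealOfVars σ ℂ) ^ (t + 1))) =
    ∑ i ∈ range (t + 1), gL (Lset o I) i

/-- UP. `Lset` is an upper set. -/
def St_UP : Prop := ∀ (σ : Type) [Fintype σ] (o : LOrd σ) (I : Ideal (MvPolynomial σ ℂ))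
  (α γ : σ →₀ ℕ), α ∈ Lset o I → α + γ ∈ Lset o I

/-- GCNT. The series of all exponents. -/
def St_GCNT : Prop := ∀ (σ : Type) [Fintype σ],
  PowerSeries.mk (fun i => (gL (∅ : Set (σ →₀ ℕ)) i : ℤ)) *
    (1 - PowerSeries.X) ^ (Fintype.card σ) = 1

/-- DICK. The series of the complement of an upper set. -/
def St_DICK : Prop := ∀ (σ : Type) [Fintype σ] (L : Set (σ →₀ ℕ)),
  (∀ α γ : σ →₀ ℕ, α ∈ L → α + γ ∈ L) →
  ∃ Q : Polynomial ℤ, PowerSeries.mk (fun i => (gL L i : ℤ)) *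
    (1 - PowerSeries.X) ^ (Fintype.card σ) = (Q : PowerSeries ℤ)

/-- EX0. Every set which contains the origin has a multiplicity. -/
def St_EX0 : Prop := ∀ (σ : Type) [Fintype σ] (Z : Set (σ → ℂ)), (0 : σ → ℂ) ∈ Z →
  ∃ d e, MQ Z d e

/-- MQM. -/
def St_MQM : Prop := ∀ (σ : Type) [Fintype σ] (Z : Set (σ → ℂ)) (d e : ℕ), MQ Z d e → IsMult Z e

/-- UNI. Uniqueness of the multiplicity. -/
def St_UNI : Prop := ∀ (σ : Type) [Fintype σ] (Z : Set (σ → ℂ)) (e e' : ℕ),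
  IsMult Z e → IsMult Z e' → e = e'

/-- LPROD. Lowest exponents of a product. -/
def St_LPROD : Prop := ∀ (σ τ : Type) [Fintype σ] [Fintype τ] (o1 : LOrd σ) (o2 : LOrd τ)
  (o : LOrd (σ ⊕ τ)), IsProdOrd o1 o2 o → ∀ (Z : Set (σ → ℂ)) (Z' : Set (τ → ℂ)),
  Lset o (MvPolynomial.vanishingIdeal ℂ (prodS Z Z')) =
    LsetProd (Lset o1 (MvPolynomial.vanishingIdeal ℂ Z))
      (Lset o2 (MvPolynomial.vanishingIdeal ℂ Z'))

/-- GPROD. -/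
def St_GPROD : Prop := ∀ (σ τ : Type) [Fintype σ] [Fintype τ] (L : Set (σ →₀ ℕ))
  (L' : Set (τ →₀ ℕ)) (i : ℕ),
  gL (LsetProd L L') i = ∑ p ∈ antidiagonal i, gL L p.1 * gL L' p.2

/-- HPROD. -/
def St_HPROD : Prop := ∀ (σ τ : Type) [Fintype σ] [Fintype τ] (Z : Set (σ → ℂ))
  (Z' : Set (τ → ℂ)), HS (prodS Z Z') = HS Z * HS Z' * (1 - PowerSeries.X)

/-- MPROD. -/
def St_MPROD : Prop := ∀ (σ τ : Type) [Fintype σ] [Fintype τ] (Z : Set (σ → ℂ))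
  (Z' : Set (τ → ℂ)) (d e d' e' : ℕ), MQ Z d e → MQ Z' d' e' → MQ (prodS Z Z') (d + d') (e * e')

/-- AUT. Invariance under polynomial isomorphisms which fix the origin. -/
def St_AUT : Prop := ∀ (σ τ : Type) [Fintype σ] [Fintype τ] (p : τ → MvPolynomial σ ℂ)
  (q : σ → MvPolynomial τ ℂ), (∀ j, MvPolynomial.constantCoeff (p j) = 0) →
  (∀ i, MvPolynomial.constantCoeff (q i) = 0) →
  (∀ (z : σ → ℂ) i, MvPolynomial.eval (fun j => MvPolynomial.eval z (p j)) (q i) = z i) →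
  (∀ (y : τ → ℂ) j, MvPolynomial.eval (fun i => MvPolynomial.eval y (q i)) (p j) = y j) →
  ∀ (Z : Set (σ → ℂ)) (Z' : Set (τ → ℂ)),
    (∀ z, z ∈ Z ↔ (fun j => MvPolynomial.eval z (p j)) ∈ Z') → HS Z = HS Z'

/-- REI. Invariance under renaming of the coordinates. -/
def St_REI : Prop := ∀ (σ τ : Type) [Fintype σ] [Fintype τ] (f : σ ≃ τ) (Z : Set (σ → ℂ))
  (Z' : Set (τ → ℂ)), (∀ z, z ∈ Z ↔ (fun j => z (f.symm j)) ∈ Z') → HS Z = HS Z'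

/-- COORD. Coordinate subspaces. -/
def St_COORD : Prop := ∀ (σ : Type) [Fintype σ] (T : Finset σ),
  MQ (coordS (T : Set σ)) (Fintype.card σ - T.card) 1

/-- QUAD. The quadric. -/
def St_QUAD : Prop := ∀ (J : Type) [Fintype J], 2 ≤ Fintype.card J →
  MQ (quadS J) (2 * Fintype.card J - 1) 2

/-! ### Block B: charts -/

/-- KP. -/
def St_KP : Prop := ∀ (n : ℕ) (x : Equiv.Perm (Fin n)) (z : Co n → ℂ) (p q : Fin n),
  Module.finrank ℂ (Fl x z p ⊓ Est q : Submodule ℂ (Fin n → ℂ)) = Module.finrank ℂ (Kp x z p q)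

/-- ORIG. The origin of the chart belongs to the Schubert variety. -/
def St_ORIG : Prop := ∀ (n : ℕ) (x w : Equiv.Perm (Fin n)), Br x w → (0 : Co n → ℂ) ∈ SV x w

/-- DIMB. Lower bound for the dimensions of the intersections. -/
def St_DIMB : Prop := ∀ (n : ℕ) (x : Equiv.Perm (Fin n)) (z : Co n → ℂ) (p q : Fin n),
  (p : ℕ) + q + 2 ≤
    n + Module.finrank ℂ (Fl x z p ⊓ Est q : Submodule ℂ (Fin n → ℂ))

/-- RKS. Ranks of shuffles. -/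
def St_RKS : Prop := ∀ (n n1 n2 : ℕ) (φ1 : Fin n1 ↪o Fin n) (φ2 : Fin n2 ↪o Fin n)
  (w : Equiv.Perm (Fin n)) (w1 : Equiv.Perm (Fin n1)) (w2 : Equiv.Perm (Fin n2)),
  (∀ i, i ∈ Set.range φ1 ∨ i ∈ Set.range φ2) → (∀ j, (w (φ1 j) : ℕ) = n2 + (w1 j : ℕ)) →
  (∀ j, (w (φ2 j) : ℕ) = (w2 j : ℕ)) → ∀ p q : Fin n,
  ((q : ℕ) < n2 → rk w p q =
    (univ.filter (fun j : Fin n2 => φ2 j ≤ p ∧ (w2 j : ℕ) ≤ q)).card) ∧
  (n2 ≤ (q : ℕ) → rk w p q = (univ.filter (fun j : Fin n2 => φ2 j ≤ p)).card +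
    (univ.filter (fun j : Fin n1 => φ1 j ≤ p ∧ n2 + (w1 j : ℕ) ≤ q)).card)

/-- ZERO. The mixed coordinates (high row, low column) vanish. -/
def St_ZERO : Prop := ∀ (A1 A2 A : Itv) (φ1 : Fin A1.n ↪o Fin A.n) (φ2 : Fin A2.n ↪o Fin A.n),
  ShufAt A1 A2 A φ1 φ2 → ∀ z ∈ SV A.u A.v, ∀ (i : Fin A1.n) (j : Fin A2.n) (h : φ2 j < φ1 i),
    z ⟨(φ1 i, φ2 j), h⟩ = 0

/-- KS. The spaces `Kp` for vanishing mixed coordinates. -/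
def St_KS : Prop := ∀ (A1 A2 A : Itv) (φ1 : Fin A1.n ↪o Fin A.n) (φ2 : Fin A2.n ↪o Fin A.n),
  ShufAt A1 A2 A φ1 φ2 → ∀ z : Co A.n → ℂ,
  (∀ (i : Fin A1.n) (j : Fin A2.n) (h : φ2 j < φ1 i), z ⟨(φ1 i, φ2 j), h⟩ = 0) →
  ∀ p q : Fin A.n,
  ((q : ℕ) < A2.n →
    ((∀ j, p < φ2 j) → Module.finrank ℂ (Kp A.u z p q) = 0) ∧
    (∀ p2 q2 : Fin A2.n, φ2 p2 ≤ p → (∀ j, φ2 j ≤ p → j ≤ p2) → (q2 : ℕ) = q →
      Module.finrank ℂ (Kp A.u z p q) = Module.finrank ℂ (Kp A2.u (resC φ2 z) p2 q2))) ∧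
  (A2.n ≤ (q : ℕ) →
    ((∀ j, p < φ1 j) → Module.finrank ℂ (Kp A.u z p q) =
      (univ.filter (fun j : Fin A2.n => φ2 j ≤ p)).card) ∧
    (∀ p1 q1 : Fin A1.n, φ1 p1 ≤ p → (∀ j, φ1 j ≤ p → j ≤ p1) → A2.n + (q1 : ℕ) = q →
      Module.finrank ℂ (Kp A.u z p q) = (univ.filter (fun j : Fin A2.n => φ2 j ≤ p)).card +
        Module.finrank ℂ (Kp A1.u (resC φ1 z) p1 q1)))

/-- SVS. The Schubert variety of a shuffle in the chart. -/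
def St_SVS : Prop := ∀ (A1 A2 A : Itv) (φ1 : Fin A1.n ↪o Fin A.n) (φ2 : Fin A2.n ↪o Fin A.n),
  ShufAt A1 A2 A φ1 φ2 → ∀ z : Co A.n → ℂ, z ∈ SV A.u A.v ↔
    (resC φ1 z ∈ SV A1.u A1.v ∧ resC φ2 z ∈ SV A2.u A2.v ∧
      ∀ (i : Fin A1.n) (j : Fin A2.n) (h : φ2 j < φ1 i), z ⟨(φ1 i, φ2 j), h⟩ = 0)

/-- MULTS. Multiplicities of shuffles. -/
def St_MULTS : Prop := ∀ (A1 A2 A : Itv) (d1 e1 d2 e2 : ℕ), Shuf A1 A2 A →
  MQ (SV A1.u A1.v) d1 e1 → MQ (SV A2.u A2.v) d2 e2 → ∃ d, MQ (SV A.u A.v) d (e1 * e2)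

/-! ### Block C: Bruhat order and patterns -/

/-- BPO. Bruhat order is a partial order. -/
def St_BPO : Prop := ∀ n : ℕ, (∀ x : Equiv.Perm (Fin n), Br x x) ∧
  (∀ x y z : Equiv.Perm (Fin n), Br x y → Br y z → Br x z) ∧
  (∀ x y : Equiv.Perm (Fin n), Br x y → Br y x → x = y)

/-- COVER. Bruhat order has covers of length difference 1. -/
def St_COVER : Prop := ∀ (n : ℕ) (x w : Equiv.Perm (Fin n)), Br x w → x ≠ w →
  ∃ a b : Fin n, a < b ∧ x a < x b ∧ (∀ i, a < i → i < b → ¬ (x a < x i ∧ x i < x b)) ∧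
    Br (x * Equiv.swap a b) w

/-- LSW. Length after a transposition. -/
def St_LSW : Prop := ∀ (n : ℕ) (x : Equiv.Perm (Fin n)) (a b : Fin n), a < b → x a < x b →
  len x + 1 ≤ len (x * Equiv.swap a b) ∧
  ((∀ i, a < i → i < b → ¬ (x a < x i ∧ x i < x b)) → len (x * Equiv.swap a b) = len x + 1)

/-- LMON. Length is strictly monotone. -/
def St_LMON : Prop := ∀ (n : ℕ) (x w : Equiv.Perm (Fin n)), Br x w →
  len x ≤ len w ∧ (len x = len w → x = w)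

/-- PHI. Permutations which agree with `v` outside of the positions `φ`. -/
def St_PHI : Prop := ∀ (m n : ℕ) (φ : Fin m ↪o Fin n) (v : Equiv.Perm (Fin n))
  (w : Equiv.Perm (Fin m)), IsPat w v φ →
  (∀ x : Equiv.Perm (Fin m), ∃ u : Equiv.Perm (Fin n), IsPat x u φ ∧
    ∀ i, i ∉ Set.range φ → u i = v i) ∧
  (∀ (u : Equiv.Perm (Fin n)) (x : Equiv.Perm (Fin m)), (∀ i, i ∉ Set.range φ → u i = v i) →
    (IsPat x u φ ↔ ∀ j, u (φ j) = v (φ (w.symm (x j)))))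

/-- PEX. Existence and uniqueness of the pattern. -/
def St_PEX : Prop := ∀ (m n : ℕ) (φ : Fin m ↪o Fin n) (v : Equiv.Perm (Fin n)),
  (∃ w : Equiv.Perm (Fin m), IsPat w v φ) ∧
  (∀ w w' : Equiv.Perm (Fin m), IsPat w v φ → IsPat w' v φ → w = w')

/-- PBR. Bruhat order of patterns of permutations which agree outside. -/
def St_PBR : Prop := ∀ (m n : ℕ) (φ : Fin m ↪o Fin n) (u v : Equiv.Perm (Fin n))
  (x w : Equiv.Perm (Fin m)), IsPat w v φ → IsPat x u φ → (∀ i, i ∉ Set.range φ → u i = v i) →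
  (Br x w ↔ Br u v)

/-- PLEN. Length differences of patterns. -/
def St_PLEN : Prop := ∀ (m n : ℕ) (φ : Fin m ↪o Fin n) (u v : Equiv.Perm (Fin n))
  (x w : Equiv.Perm (Fin m)), IsPat w v φ → IsPat x u φ → (∀ i, i ∉ Set.range φ → u i = v i) →
  Br x w → (len w : ℤ) - len x ≤ (len v : ℤ) - len u

/-- EMBP. Another form of interval pattern embeddings. -/
def St_EMBP : Prop := ∀ A B : Itv, Emb A B ↔ ∃ φ : Fin A.n ↪o Fin B.n, IsPat A.v B.v φ ∧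
  IsPat A.u B.u φ ∧ (∀ i, i ∉ Set.range φ → B.u i = B.v i) ∧
  (len A.v : ℤ) - len A.u = (len B.v : ℤ) - len B.u

/-- EMBT. Composition of embeddings. -/
def St_EMBT : Prop := (∀ A : Itv, Emb A A) ∧ ∀ A B C : Itv, Emb A B → Emb B C → Emb A C

/-- BELOW. The elements below an interval. -/
def St_BELOW : Prop := ∀ A B : Itv, Prec B A ↔
  ∃ (u' : Equiv.Perm (Fin A.n)) (h : Br u' A.v), Br A.u u' ∧ Emb B ⟨A.n, u', A.v, h⟩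

/-! ### Block S: shuffles -/

/-- SHLEN. -/
def St_SHLEN : Prop := ∀ A1 A2 A : Itv, Shuf A1 A2 A →
  (len A.v : ℤ) - len A.u = ((len A1.v : ℤ) - len A1.u) + ((len A2.v : ℤ) - len A2.u)

/-- SHBR. Bruhat order of shuffles. -/
def St_SHBR : Prop := ∀ (n n1 n2 : ℕ) (φ1 : Fin n1 ↪o Fin n) (φ2 : Fin n2 ↪o Fin n)
  (w x : Equiv.Perm (Fin n)) (w1 x1 : Equiv.Perm (Fin n1)) (w2 x2 : Equiv.Perm (Fin n2)),
  (∀ i, i ∈ Set.range φ1 ∨ i ∈ Set.range φ2) → (∀ j, (w (φ1 j) : ℕ) = n2 + (w1 j : ℕ)) →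
  (∀ j, (w (φ2 j) : ℕ) = (w2 j : ℕ)) → (∀ j, (x (φ1 j) : ℕ) = n2 + (x1 j : ℕ)) →
  (∀ j, (x (φ2 j) : ℕ) = (x2 j : ℕ)) → (Br x w ↔ (Br x1 w1 ∧ Br x2 w2))

/-- SHMID. Elements between the ends of a shuffle are shuffles. -/
def St_SHMID : Prop := ∀ (A1 A2 A : Itv) (φ1 : Fin A1.n ↪o Fin A.n) (φ2 : Fin A2.n ↪o Fin A.n),
  ShufAt A1 A2 A φ1 φ2 → ∀ (u' : Equiv.Perm (Fin A.n)) (h : Br u' A.v), Br A.u u' →
  ∃ (u1 : Equiv.Perm (Fin A1.n)) (u2 : Equiv.Perm (Fin A2.n)) (h1 : Br u1 A1.v)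
    (h2 : Br u2 A2.v), Br A1.u u1 ∧ Br A2.u u2 ∧
    ShufAt ⟨A1.n, u1, A1.v, h1⟩ ⟨A2.n, u2, A2.v, h2⟩ ⟨A.n, u', A.v, h⟩ φ1 φ2

/-- SHEX. Existence of shuffles. -/
def St_SHEX : Prop := ∀ (A1 A2 : Itv) (n : ℕ) (φ1 : Fin A1.n ↪o Fin n) (φ2 : Fin A2.n ↪o Fin n),
  (∀ i, i ∈ Set.range φ1 ∨ i ∈ Set.range φ2) → (∀ i j, φ1 i ≠ φ2 j) →
  ∃ (u v : Equiv.Perm (Fin n)) (h : Br u v), ShufAt A1 A2 ⟨n, u, v, h⟩ φ1 φ2

/-- SHEMB. Embeddings into a shuffle split. -/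
def St_SHEMB : Prop := ∀ A1 A2 A B : Itv, Shuf A1 A2 A → Emb B A →
  ∃ B1 B2 : Itv, Shuf B1 B2 B ∧ Emb B1 A1 ∧ Emb B2 A2

/-- SHEMB2. Shuffles of embeddings. -/
def St_SHEMB2 : Prop := ∀ A1 A2 A B1 B2 : Itv, Shuf A1 A2 A → Emb B1 A1 → Emb B2 A2 →
  ∃ B : Itv, Shuf B1 B2 B ∧ Emb B A

/-- SHEQ. -/
def St_SHEQ : Prop := ∀ A1 A2 A B : Itv, Shuf A1 A2 A → Shuf A1 A2 B → Prec B A → B = A

/-- SHEQ2. -/
def St_SHEQ2 : Prop := ∀ A1 A2 A B1 B2 : Itv, Shuf A1 A2 A → Shuf B1 B2 A → Prec B1 A1 →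
  Prec B2 A2 → B1 = A1 ∧ B2 = A2

/-- SHPREC. The elements below a shuffle. -/
def St_SHPREC : Prop := ∀ A1 A2 A : Itv, Shuf A1 A2 A →
  (∀ B, Prec B A → ∃ B1 B2, Shuf B1 B2 B ∧ Prec B1 A1 ∧ Prec B2 A2) ∧
  (∀ B1 B2, Prec B1 A1 → Prec B2 A2 → ∃ B, Shuf B1 B2 B ∧ Prec B A)

/-- EXM. Every interval has a unique multiplicity. -/
def St_EXM : Prop := ∀ A : Itv, (∃ d e, MQ (SV A.u A.v) d e) ∧
  ∃ e, 0 < e ∧ MultAt A e ∧ ∀ e', MultAt A e' → e' = e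

/-- WIN. Multiplicity and minimality of shuffles. -/
def St_WIN : Prop := ∀ A1 A2 A : Itv, Shuf A1 A2 A →
  (∀ e1 e2, MultAt A1 e1 → MultAt A2 e2 → MultAt A (e1 * e2)) ∧
  (∀ k, MinI k A ↔ ((∀ e1 e2, MultAt A1 e1 → MultAt A2 e2 → k ≤ e1 * e2) ∧
    ∀ B1 B2, Prec B1 A1 → Prec B2 A2 → (B1 ≠ A1 ∨ B2 ≠ A2) →
      ∀ e1 e2, MultAt B1 e1 → MultAt B2 e2 → e1 * e2 < k))

/-! ### Block D: the quadric family -/

/-- IIIEX. -/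
def St_IIIEX : Prop := ∀ m, 4 ≤ m → ∃ A, IsIII m A

/-- IIILEN. -/
def St_IIILEN : Prop := ∀ m A, IsIII m A → (len A.v : ℤ) - len A.u = 2 * (m : ℤ) - 5

/-- BREL. The relation between the coordinates. -/
def St_BREL : Prop := ∀ (k : ℕ) (z : Co (k + 1) → ℂ), bv z (Fin.last k) = 1 ∧
  ∀ j : Fin (k + 1), j < Fin.last k → ∑ i, bv z i * Um z i j = 0

/-- AUT1. The change of coordinates `Tb`. -/
def St_AUT1 : Prop := ∀ (k : ℕ) (Z' : Set (Co (k + 1) → ℂ)), HS {z | Tb z ∈ Z'} = HS Z'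

/-- AUT2. The change of coordinates `Tb2`. -/
def St_AUT2 : Prop := ∀ (k : ℕ) (Z' : Set (Co (k + 1) → ℂ)), HS {z | Tb2 z ∈ Z'} = HS Z'

/-- LINE. The line `F_1` is in the hyperplane `E_(n-1)`, the line `E_1` in `F_(n-1)`. -/
def St_LINE : Prop := ∀ (k : ℕ) (x : Equiv.Perm (Fin (k + 2))) (z : Co (k + 2) → ℂ),
  (1 ≤ Module.finrank ℂ (Fl x z 0 ⊓ Est ⟨k, by omega⟩ : Submodule ℂ (Fin (k + 2) → ℂ)) ↔
    Um z (x.symm (Fin.last (k + 1))) 0 = 0) ∧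
  (1 ≤ Module.finrank ℂ (Fl x z ⟨k, by omega⟩ ⊓ Est 0 : Submodule ℂ (Fin (k + 2) → ℂ)) ↔
    bv z (x.symm 0) = 0)

/-- IIISV. Schubert varieties of the patterns of the quadric family. -/
def St_IIISV : Prop := ∀ (m k : ℕ) (A : Itv) (θ : Fin (k + 1) ↪o Fin A.n)
  (w x : Equiv.Perm (Fin (k + 1))), IsIII m A → IsPat w A.v θ → ∀ z, z ∈ SV x w ↔
  (((∃ a b, ((θ a : ℕ) = 0 ∧ (θ b : ℕ) = 1)) → Um z (x.symm (Fin.last k)) 0 = 0) ∧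
    ((∃ a b, ((θ a : ℕ) = m - 2 ∧ (θ b : ℕ) = m - 1)) → bv z (x.symm 0) = 0))

/-- LIN. The smooth cases. -/
def St_LIN : Prop := ∀ (k : ℕ) (x : Equiv.Perm (Fin (k + 1))) (c1 c2 : Prop),
  (c1 → x 0 ≠ Fin.last k) → (c2 → x (Fin.last k) ≠ 0) →
  ¬ (c1 ∧ c2 ∧ x 0 = 0 ∧ x (Fin.last k) = Fin.last k) →
  ∃ d, MQ {z : Co (k + 1) → ℂ | (c1 → Um z (x.symm (Fin.last k)) 0 = 0) ∧
    (c2 → bv z (x.symm 0) = 0)} d 1

/-- SING. The singular case. -/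
def St_SING : Prop := ∀ k : ℕ, 3 ≤ k →
  ∃ d, MQ {z : Co (k + 1) → ℂ | Um z (Fin.last k) 0 = 0 ∧ bv z 0 = 0} d 2

/-- IIIM. Multiplicity of the quadric family. -/
def St_IIIM : Prop := ∀ m A, IsIII m A → ∃ d, MQ (SV A.u A.v) d 2

/-- IIIB. Everything below has multiplicity 1. -/
def St_IIIB : Prop := ∀ m A B, IsIII m A → Prec B A → B ≠ A → ∃ d, MQ (SV B.u B.v) d 1

/-! ### Block R: shuffles of several intervals of the quadric family -/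

/-- RSM. -/
def St_RSM : Prop := ∀ r A, RS r A → (∃ d, MQ (SV A.u A.v) d (2 ^ r)) ∧
  ∀ B, Prec B A → B ≠ A → ∃ d e, MQ (SV B.u B.v) d e ∧ 2 * e ≤ 2 ^ r

/-- RSMIN. -/
def St_RSMIN : Prop := ∀ r k A, RS (r + 1) A → 2 ^ r < k → k ≤ 2 ^ (r + 1) → MinI k A

/-- REC. The low block of a shuffle with an interval of the quadric family is determined. -/
def St_REC : Prop := ∀ (A A1 A2 A1' A2' : Itv) (m m' : ℕ) (φ1 : Fin A1.n ↪o Fin A.n)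
  (φ2 : Fin A2.n ↪o Fin A.n) (φ1' : Fin A1'.n ↪o Fin A.n) (φ2' : Fin A2'.n ↪o Fin A.n),
  ShufAt A1 A2 A φ1 φ2 → ShufAt A1' A2' A φ1' φ2' → IsIII m A2 → IsIII m' A2' →
  m = m' ∧ Set.range φ2 = Set.range φ2' ∧ ∃ h : A1 = A1', ∀ j, φ1 j = φ1' (h ▸ j)

/-- MRS. -/
def St_MRS : Prop := ∀ r A c, Match r A c → RS r A

/-- MINJ. The colouring is determined. -/
def St_MINJ : Prop := ∀ r A c c', Match r A c → Match r A c' → c = c'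

/-- MEX. Every colouring with large classes occurs. -/
def St_MEX : Prop := ∀ (r n : ℕ) (c : Fin n → ℕ), (∀ i, c i < r) →
  (∀ a, a < r → 4 ≤ (univ.filter (fun i => c i = a)).card) →
  ∃ (u v : Equiv.Perm (Fin n)) (h : Br u v), Match r ⟨n, u, v, h⟩ c

/-- CNT. The number of colourings with large classes. -/
def St_CNT : Prop := ∀ r : ℕ, 1 ≤ r → ∃ n0 : ℕ, ∀ n, n0 ≤ n →
  r ^ n ≤ 2 * (univ.filter (fun c : Fin n → Fin r =>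
    ∀ a, 4 ≤ (univ.filter (fun i => c i = a)).card)).card

/-- CNTI. The number of shuffles. -/
def St_CNTI : Prop := ∀ r : ℕ, 1 ≤ r → ∃ n0 : ℕ, ∀ n, n0 ≤ n →
  r ^ n ≤ 2 * Nat.card {A : Itv // A.n = n ∧ RS r A}

/-- FIN. -/
def St_FIN : Prop :=
  (∀ A : Itv, ∃ e, 0 < e ∧ MultAt A e ∧ ∀ e', MultAt A e' → e' = e) ∧
  (∀ A1 A2 A : Itv, Shuf A1 A2 A →
    (∀ e1 e2, MultAt A1 e1 → MultAt A2 e2 → MultAt A (e1 * e2)) ∧
    (∀ B, Prec B A → ∃ B1 B2, Shuf B1 B2 B ∧ Prec B1 A1 ∧ Prec B2 A2) ∧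
    (∀ k, MinI k A ↔ ((∀ e1 e2, MultAt A1 e1 → MultAt A2 e2 → k ≤ e1 * e2) ∧
      ∀ B1 B2, Prec B1 A1 → Prec B2 A2 → (B1 ≠ A1 ∨ B2 ≠ A2) →
        ∀ e1 e2, MultAt B1 e1 → MultAt B2 e2 → e1 * e2 < k))) ∧
  (∀ r k, 2 ^ r < k → k ≤ 2 ^ (r + 1) → ∀ A, RS (r + 1) A → MinI k A) ∧
  (∀ k, 2 ≤ k → ∃ n0 : ℕ, ∀ n, n0 ≤ n →
    (Nat.clog 2 k) ^ n ≤ 2 * Nat.card {A : Itv // A.n = n ∧ MinI k A})

end Pool.Agent.SH
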