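import Pool.Agent.Work.MP_1c6e58_ag.SH.Stmts

/-!
MP_1c6e58_ag, project SH: assembly.
-/

set_option autoImplicit false

open Finset

namespace Pool.Agent.SH

namespace XFIN

theorem finite_itv (n : ℕ) (p : Itv → Prop) : Finite {A : Itv // A.n = n ∧ p A} := by
  let g : {A : Itv // A.n = n ∧ p A} → Equiv.Perm (Fin n) × Equiv.Perm (Fin n) := fun A =>
    (((finCongr A.2.1).permCongr A.1.u), ((finCongr A.2.1).permCongr A.1.v))
  refine Finite.of_injective g ?_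
  rintro ⟨⟨n1, u1, v1, h1⟩, e1, p1⟩ ⟨⟨n2, u2, v2, h2⟩, e2, p2⟩ h
  dsimp only at e1 e2
  subst e1
  subst e2
  have hu := congrArg Prod.fst h
  have hv := congrArg Prod.snd h
  have hu' : u1 = u2 := (Equiv.injective _) hu
  have hv' : v1 = v2 := (Equiv.injective _) hv
  subst hu'
  subst hv'
  rfl

end XFIN

theorem A_FIN (hEXM : St_EXM) (hWIN : St_WIN) (hSHPREC : St_SHPREC) (hRSMIN : St_RSMIN)
    (hCNTI : St_CNTI) : St_FIN := by
  refine ⟨fun A => (hEXM A).2, fun A1 A2 A h => ⟨(hWIN A1 A2 A h).1, (hSHPREC A1 A2 A h).1,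
    (hWIN A1 A2 A h).2⟩, fun r k h1 h2 A hA => hRSMIN r k A hA h1 h2, ?_⟩
  intro k hk
  obtain ⟨r, hr⟩ : ∃ r, Nat.clog 2 k = r + 1 :=
    Nat.exists_eq_add_one.2 (Nat.clog_pos (by norm_num) hk)
  have h1 : 2 ^ r < k := by
    have := Nat.pow_pred_clog_lt_self (b := 2) (by norm_num) (by omega : 1 < k)
    rw [hr] at this
    simpa using this
  have h2 : k ≤ 2 ^ (r + 1) := by
    rw [← hr]
    exact Nat.le_pow_clog (by norm_num) k
  obtain ⟨n0, hn0⟩ := hCNTI (r + 1) (by omega)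
  refine ⟨n0, fun n hn => ?_⟩
  rw [hr]
  refine (hn0 n hn).trans (Nat.mul_le_mul_left 2 ?_)
  have := XFIN.finite_itv n (MinI k)
  refine Nat.card_le_card_of_injective
    (fun A : {A : Itv // A.n = n ∧ RS (r + 1) A} =>
      (⟨A.1, A.2.1, hRSMIN r k A.1 A.2.2 h1 h2⟩ : {A : Itv // A.n = n ∧ MinI k A})) ?_
  intro A B h
  have h' : A.1 = B.1 := Subtype.mk.inj h
  exact Subtype.ext h'

end Pool.Agent.SH
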