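import Pool.Agent.Work.MP_1c6e58_ag.SH.Stmts

set_option autoImplicit false

open Finset

namespace Pool.Agent.SH

namespace XAUT

open MvPolynomial

lemma mem_iov {σ : Type} (f : MvPolynomial σ ℂ) (h : constantCoeff f = 0) :
    f ∈ idealOfVars σ ℂ := by
  have := (mem_pow_idealOfVars_iff' (σ := σ) (R := ℂ) 1 f)
  rw [pow_one] at this
  rw [this]
  intro x hx
  have hx0 : x = 0 := by
    have : x.degree = 0 := by omega
    exact (Finsupp.degree_eq_zero_iff x).1 this
  subst hx0
  simpa [constantCoeff_eq] using h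

lemma eval_ae {σ τ : Type} (q : σ → MvPolynomial τ ℂ) (y : τ → ℂ) (f : MvPolynomial σ ℂ) :
    eval y (aeval q f) = eval (fun i => eval y (q i)) f := by
  have : (eval y).comp (aeval q : MvPolynomial σ ℂ →ₐ[ℂ] MvPolynomial τ ℂ).toRingHom =
      eval (fun i => eval y (q i)) := by
    apply ringHom_ext
    · intro r; simp
    · intro i; simp
  exact congrArg (fun g : MvPolynomial σ ℂ →+* ℂ => g f) this

end XAUT

open MvPolynomial in
theorem I_AUT : St_AUT := by
  intro σ τ _ _ p q hp hq hqp hpq Z Z' hZ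
  have h1 : (aeval q : MvPolynomial σ ℂ →ₐ[ℂ] MvPolynomial τ ℂ).comp
      (aeval p : MvPolynomial τ ℂ →ₐ[ℂ] MvPolynomial σ ℂ) = AlgHom.id ℂ _ := by
    apply algHom_ext
    intro j
    apply MvPolynomial.funext
    intro y
    simp only [AlgHom.coe_comp, Function.comp_apply, aeval_X, AlgHom.coe_id, id_eq]
    rw [XAUT.eval_ae, hpq, eval_X]
  have h2 : (aeval p : MvPolynomial τ ℂ →ₐ[ℂ] MvPolynomial σ ℂ).comp
      (aeval q : MvPolynomial σ ℂ →ₐ[ℂ] MvPolynomial τ ℂ) = AlgHom.id ℂ _ := by
    apply algHom_ext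
    intro j
    apply MvPolynomial.funext
    intro y
    simp only [AlgHom.coe_comp, Function.comp_apply, aeval_X, AlgHom.coe_id, id_eq]
    rw [XAUT.eval_ae, hqp, eval_X]
  let E : MvPolynomial σ ℂ ≃ₐ[ℂ] MvPolynomial τ ℂ :=
    AlgEquiv.ofAlgHom (aeval q) (aeval p) h1 h2
  have hE : ∀ f, E f = aeval q f := fun f => rfl
  have hEs : ∀ f, E.symm f = aeval p f := fun f => rfl
  have m1 : Ideal.map (E : MvPolynomial σ ℂ →+* MvPolynomial τ ℂ) (vanishingIdeal ℂ Z) =
      vanishingIdeal ℂ Z' := by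
    apply le_antisymm
    · rw [Ideal.map_le_iff_le_comap]
      intro f hf
      rw [Ideal.mem_comap, mem_vanishingIdeal_iff]
      intro y hy
      rw [mem_vanishingIdeal_iff] at hf
      have hz : (fun i => eval y (q i)) ∈ Z := by
        rw [hZ]
        have : (fun j => eval (fun i => eval y (q i)) (p j)) = y := _root_.funext (hpq y)
        rw [this]; exact hy
      have h3 := hf _ hz
      rw [aeval_eq_eval] at h3
      rw [aeval_eq_eval]
      change eval y (aeval q f) = 0
      rw [XAUT.eval_ae]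
      exact h3
    · intro g hg
      rw [mem_vanishingIdeal_iff] at hg
      have h4 : E.symm g ∈ vanishingIdeal ℂ Z := by
        rw [mem_vanishingIdeal_iff]
        intro z hz
        rw [aeval_eq_eval, hEs]
        change eval z (aeval p g) = 0
        rw [XAUT.eval_ae]
        have := hg _ ((hZ z).1 hz)
        rw [aeval_eq_eval] at this
        exact this
      have h5 := Ideal.mem_map_of_mem (E : MvPolynomial σ ℂ →+* MvPolynomial τ ℂ) h4
      have h6 : (E : MvPolynomial σ ℂ →+* MvPolynomial τ ℂ) (E.symm g) = g :=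
        E.apply_symm_apply g
      rw [h6] at h5
      exact h5
  have m2 : Ideal.map (E : MvPolynomial σ ℂ →+* MvPolynomial τ ℂ) (idealOfVars σ ℂ) =
      idealOfVars τ ℂ := by
    apply le_antisymm
    · rw [Ideal.map_le_iff_le_comap]
      unfold idealOfVars
      rw [Ideal.span_le]
      rintro _ ⟨i, rfl⟩
      change E (X i) ∈ idealOfVars τ ℂ
      rw [hE, aeval_X]
      exact XAUT.mem_iov _ (hq i)
    · conv_lhs => unfold idealOfVars
      rw [Ideal.span_le]
      rintro _ ⟨j, rfl⟩
      have h4 : E.symm (X j) ∈ idealOfVars σ ℂ := by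
        rw [hEs, aeval_X]
        exact XAUT.mem_iov _ (hp j)
      have h5 := Ideal.mem_map_of_mem (E : MvPolynomial σ ℂ →+* MvPolynomial τ ℂ) h4
      have h6 : (E : MvPolynomial σ ℂ →+* MvPolynomial τ ℂ) (E.symm (X j)) = X j :=
        E.apply_symm_apply _
      rw [h6] at h5
      exact h5
  have m3 : ∀ t : ℕ, Hf Z t = Hf Z' t := by
    intro t
    unfold Hf
    have h7 : (vanishingIdeal ℂ Z' ⊔ idealOfVars τ ℂ ^ (t + 1)) =
        Ideal.map (E : MvPolynomial σ ℂ →+* MvPolynomial τ ℂ)
          (vanishingIdeal ℂ Z ⊔ idealOfVars σ ℂ ^ (t + 1)) := by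
      rw [Ideal.map_sup, Ideal.map_pow, m1, m2]
    exact (Ideal.quotientEquivAlg _ _ E h7).toLinearEquiv.finrank_eq
  unfold HS
  congr 1
  funext t
  rw [m3 t]

end Pool.Agent.SH
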