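import Pool.Agent.Work.MP_1c6e58_ag.SH.Stmts

/-!
MP_1c6e58_ag, project SH: the change of coordinates `Tb`.
-/

set_option autoImplicit false

open Finset

namespace Pool.Agent.SH

namespace XAUT1

open MvPolynomial

/-- the generic lower unipotent matrix -/
noncomputable def GU (n : ℕ) : Matrix (Fin n) (Fin n) (MvPolynomial (Co n) ℂ) := fun i j =>
  if h : j < i then X ⟨(i, j), h⟩ else if i = j then 1 else 0

lemma map_GU {n : ℕ} (z : Co n → ℂ) : (eval z).mapMatrix (GU n) = Um z := by
  ext i j
  simp only [RingHom.mapMatrix_apply, Matrix.map_apply, GU, Um]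
  split_ifs <;> simp

lemma det_Um {n : ℕ} (z : Co n → ℂ) : (Um z).det = 1 := by
  rw [Matrix.det_of_lowerTriangular (Um z) (fun i j h => ?_)]
  · refine Finset.prod_eq_one fun i _ => ?_
    simp [Um]
  · have h' : i < j := by simpa using h
    simp [Um, not_lt.2 h'.le, h'.ne]

lemma inv_Um {n : ℕ} (z : Co n → ℂ) : (Um z)⁻¹ = (Um z).adjugate := by
  rw [Matrix.inv_def, det_Um, Ring.inverse_one, one_smul]

lemma eval_adj {n : ℕ} (z : Co n → ℂ) (i j : Fin n) :
    eval z ((GU n).adjugate i j) = ((Um z)⁻¹ : Matrix (Fin n) (Fin n) ℂ) i j := by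
  rw [inv_Um, ← map_GU, ← RingHom.map_adjugate]
  rfl

lemma Um_zero (n : ℕ) : Um (fun _ : Co n => (0 : ℂ)) = 1 := by
  ext i j
  simp only [Um, Matrix.one_apply]
  split_ifs with h1 h2 <;> first | rfl | skip
  exact absurd h2 h1.ne'

lemma const_adj {n : ℕ} (i j : Fin n) (h : i ≠ j) :
    constantCoeff ((GU n).adjugate i j) = 0 := by
  rw [← eval_zero', eval_adj, Um_zero, inv_one, Matrix.one_apply_ne h]

/-- the middle part of a column of a product with `Um z` -/
noncomputable def mid {R : Type} [CommRing R] {k : ℕ} (b : Fin (k + 1) → R)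
    (z : Co (k + 1) → R) (j : Fin (k + 1)) : R :=
  ∑ i, if h : j < i ∧ i < Fin.last k then b i * z ⟨(i, j), h.1⟩ else 0

lemma col_sum {k : ℕ} (b : Fin (k + 1) → ℂ) (z : Co (k + 1) → ℂ) (j : Fin (k + 1))
    (hj : j < Fin.last k) : ∑ i, b i * Um z i j =
      b j + mid b z j + b (Fin.last k) * z ⟨(Fin.last k, j), hj⟩ := by
  have h : ∀ i, b i * Um z i j = (if i = j then b j else 0) +
      (if h : j < i ∧ i < Fin.last k then b i * z ⟨(i, j), h.1⟩ else 0) +
      (if i = Fin.last k then b (Fin.last k) * z ⟨(Fin.last k, j), hj⟩ else 0) := by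
    intro i
    rcases lt_trichotomy i j with hij | hij | hij
    · have h1 : ¬ (j < i) := not_lt.2 hij.le
      have h2 : i ≠ j := hij.ne
      have h3 : i ≠ Fin.last k := (hij.trans hj).ne
      simp [Um, h1, h2, h3]
    · subst hij
      have h3 : i ≠ Fin.last k := hj.ne
      simp [Um, h3]
    · by_cases hl : i = Fin.last k
      · subst hl
        have h2 : Fin.last k ≠ j := hij.ne'
        simp [Um, hij, h2]
      · have h2 : i ≠ j := hij.ne'
        have h4 : i < Fin.last k := lt_of_le_of_ne (Fin.le_last i) hl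
        simp [Um, hij, h2, hl, h4]
  rw [Finset.sum_congr rfl fun i _ => h i, Finset.sum_add_distrib, Finset.sum_add_distrib,
    Finset.sum_ite_eq' univ j, Finset.sum_ite_eq' univ (Fin.last k)]
  simp [mid]

/-- the last row is determined by the relation with the columns -/
lemma bv_eq {k : ℕ} (b : Fin (k + 1) → ℂ) (z : Co (k + 1) → ℂ)
    (h1 : b (Fin.last k) = 1) (h2 : ∀ j, j < Fin.last k → ∑ i, b i * Um z i j = 0) :
    ∀ j, bv z j = b j := by
  have hb : Matrix.vecMul b (Um z) = Pi.single (Fin.last k) 1 := by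
    ext j
    rw [Matrix.vecMul, dotProduct]
    rcases eq_or_ne j (Fin.last k) with rfl | hj
    · rw [Pi.single_eq_same, Finset.sum_eq_single (Fin.last k)]
      · simp [Um, h1]
      · intro i _ hi
        have h3 : i < Fin.last k := lt_of_le_of_ne (Fin.le_last i) hi
        simp [Um, not_lt.2 h3.le, hi]
      · simp
    · rw [Pi.single_eq_of_ne hj]
      exact h2 j (lt_of_le_of_ne (Fin.le_last j) hj)
  have hu : IsUnit (Um z).det := by rw [det_Um]; exact isUnit_one
  intro j
  have h3 : Matrix.vecMul (Matrix.vecMul b (Um z)) (Um z)⁻¹ = b := by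
    rw [Matrix.vecMul_vecMul, Matrix.mul_nonsing_inv _ hu, Matrix.vecMul_one]
  rw [hb] at h3
  have h4 := congrFun h3 j
  rw [← h4, Matrix.single_one_vecMul]
  rfl

end XAUT1

open XAUT1 MvPolynomial in
theorem I_AUT1 (hAUT : St_AUT) (hBREL : St_BREL) : St_AUT1 := by
  intro k Z'
  have hB : ∀ (z : Co (k + 1) → ℂ) (j : Fin (k + 1)) (hj : j < Fin.last k),
      bv z j + mid (bv z) z j + z ⟨(Fin.last k, j), hj⟩ = 0 := by
    intro z j hj
    have h := (hBREL k z).2 j hj
    rw [col_sum _ _ _ hj, (hBREL k z).1, one_mul] at h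
    exact h
  refine hAUT (Co (k + 1)) (Co (k + 1))
    (fun c => if c.1.1 = Fin.last k then (GU (k + 1)).adjugate (Fin.last k) c.1.2 else X c)
    (fun c => if c.1.1 = Fin.last k then
      - X c - ∑ i, (if h : c.1.2 < i ∧ i < Fin.last k then
        X ⟨(Fin.last k, i), h.2⟩ * X ⟨(i, c.1.2), h.1⟩ else 0) else X c)
    ?_ ?_ ?_ ?_ _ _ ?_
  · intro c
    split_ifs with h
    · exact const_adj _ _ (by rw [← h]; exact c.2.ne')
    · simp
  · intro c
    split_ifs with h
    · rw [map_sub, map_neg, map_sum, constantCoeff_X, neg_zero, zero_sub, neg_eq_zero]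
      refine Finset.sum_eq_zero fun i _ => ?_
      split_ifs <;> simp
    · simp
  · intro z c
    obtain ⟨⟨a, j⟩, hc⟩ := c
    simp only at hc
    by_cases h : a = Fin.last k
    · subst h
      have h1 := hB z j hc
      simp only [if_true, map_sub, map_neg, map_sum, eval_X, eval_adj]
      have h2 : ∑ i, eval (fun c : Co (k + 1) => eval z (if c.1.1 = Fin.last k then
          (GU (k + 1)).adjugate (Fin.last k) c.1.2 else X c))
          (if h : j < i ∧ i < Fin.last k then
          X (⟨(Fin.last k, i), h.2⟩ : Co (k + 1)) * X ⟨(i, j), h.1⟩ else 0) =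
          mid (bv z) z j := by
        unfold mid
        refine Finset.sum_congr rfl fun i _ => ?_
        split_ifs with h3
        · rw [map_mul, eval_X, eval_X]
          simp only [if_true, if_neg h3.2.ne, eval_adj, eval_X]
          rfl
        · simp
      rw [h2]
      have h4 : ((Um z)⁻¹ : Matrix (Fin (k + 1)) (Fin (k + 1)) ℂ) (Fin.last k) j = bv z j := rfl
      rw [h4]
      linear_combination -h1
    · simp [h]
  · intro y c
    set z : Co (k + 1) → ℂ := fun c => eval y (if c.1.1 = Fin.last k then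
      - X c - ∑ i, (if h : c.1.2 < i ∧ i < Fin.last k then
        X ⟨(Fin.last k, i), h.2⟩ * X ⟨(i, c.1.2), h.1⟩ else 0) else X c) with hz
    set b : Fin (k + 1) → ℂ := fun i =>
      if h : i < Fin.last k then y ⟨(Fin.last k, i), h⟩ else 1 with hb
    have hbv : ∀ j, bv z j = b j := by
      refine bv_eq b z (by simp [hb]) fun j hj => ?_
      rw [col_sum _ _ _ hj]
      have h1 : b (Fin.last k) = 1 := by simp [hb]
      have h2 : b j = y ⟨(Fin.last k, j), hj⟩ := by simp [hb, hj]
      have h3 : z ⟨(Fin.last k, j), hj⟩ = - y ⟨(Fin.last k, j), hj⟩ - mid b z j := by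
        rw [hz]
        simp only [if_true, map_sub, map_neg, map_sum, eval_X]
        congr 1
        unfold mid
        refine Finset.sum_congr rfl fun i _ => ?_
        split_ifs with h3
        · rw [map_mul, eval_X, eval_X]
          have h4 : b i = y ⟨(Fin.last k, i), h3.2⟩ := by simp [hb, h3.2]
          have h5 : i ≠ Fin.last k := h3.2.ne
          simp [h4, h5]
        · simp
      rw [h1, h2, h3]
      ring
    obtain ⟨⟨a, j⟩, hc⟩ := c
    simp only at hc
    by_cases h : a = Fin.last k
    · subst h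
      simp only [if_true, eval_adj]
      have h4 : ((Um z)⁻¹ : Matrix (Fin (k + 1)) (Fin (k + 1)) ℂ) (Fin.last k) j = bv z j := rfl
      rw [h4, hbv j]
      simp [hb, hc]
    · simp [h, hz]
  · intro z
    have h1 : Tb z = fun c : Co (k + 1) => eval z (if c.1.1 = Fin.last k then
        (GU (k + 1)).adjugate (Fin.last k) c.1.2 else X c) := by
      funext c
      unfold Tb bv
      split_ifs with h
      · rw [eval_adj]
      · rw [eval_X]
    rw [Set.mem_ofPred_eq, h1]

end Pool.Agent.SH
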