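import Pool.Agent.Work.MP_1c6e58_ag.SH.Stmts

set_option autoImplicit false

open Finset

namespace Pool.Agent.SH

namespace XAUT2

variable {k : ℕ}

/-- The generic matrix. -/
noncomputable def UX (k : ℕ) :
    Matrix (Fin (k + 1)) (Fin (k + 1)) (MvPolynomial (Co (k + 1)) ℂ) := fun i j =>
  if h : j < i then MvPolynomial.X ⟨(i, j), h⟩ else if i = j then 1 else 0

theorem map_UX (z : Co (k + 1) → ℂ) : (MvPolynomial.eval z).mapMatrix (UX k) = Um z := by
  ext i j
  simp only [RingHom.mapMatrix_apply, Matrix.map_apply, UX, Um]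
  split_ifs <;> simp

theorem det_Um (z : Co (k + 1) → ℂ) : (Um z).det = 1 := by
  rw [Matrix.det_of_lowerTriangular]
  · simp [Um]
  · intro i j hij
    have h : i < j := hij
    unfold Um
    rw [dif_neg (not_lt.2 h.le), if_neg h.ne]

theorem bv_eq (z : Co (k + 1) → ℂ) (j : Fin (k + 1)) :
    bv z j = (Um z).adjugate (Fin.last k) j := by
  unfold bv
  rw [Matrix.inv_def, det_Um, Ring.inverse_one, one_smul]

/-- The polynomials of `Tb2`. -/
noncomputable def pp (c : Co (k + 1)) : MvPolynomial (Co (k + 1)) ℂ :=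
  if c.1.1 = Fin.last k ∧ c.1.2 ≠ 0 then (UX k).adjugate (Fin.last k) c.1.2
  else MvPolynomial.X c

theorem eval_pp (z : Co (k + 1) → ℂ) (c : Co (k + 1)) :
    MvPolynomial.eval z (pp c) = Tb2 z c := by
  unfold pp Tb2
  split_ifs with h
  · rw [bv_eq, ← map_UX z, ← RingHom.map_adjugate]
    rfl
  · simp

/-- The polynomials of the inverse. -/
noncomputable def qq (c : Co (k + 1)) : MvPolynomial (Co (k + 1)) ℂ :=
  if c.1.1 = Fin.last k ∧ c.1.2 ≠ 0 then
    - MvPolynomial.X c - ∑ i : Fin (k + 1), (if h : c.1.2 < i ∧ i < Fin.last k then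
      MvPolynomial.X ⟨(Fin.last k, i), h.2⟩ * MvPolynomial.X ⟨(i, c.1.2), h.1⟩ else 0)
  else MvPolynomial.X c

theorem eval_qq (y : Co (k + 1) → ℂ) (c : Co (k + 1)) (hc : c.1.1 = Fin.last k ∧ c.1.2 ≠ 0) :
    MvPolynomial.eval y (qq c) = - y c - ∑ i : Fin (k + 1),
      (if h : c.1.2 < i ∧ i < Fin.last k then
        y ⟨(Fin.last k, i), h.2⟩ * y ⟨(i, c.1.2), h.1⟩ else 0) := by
  unfold qq
  rw [if_pos hc]
  simp only [map_sub, map_neg, MvPolynomial.eval_X, map_sum]
  congr 1
  refine Finset.sum_congr rfl fun i _ => ?_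
  split_ifs with h
  · simp
  · simp

theorem eval_qq' (y : Co (k + 1) → ℂ) (c : Co (k + 1))
    (hc : ¬ (c.1.1 = Fin.last k ∧ c.1.2 ≠ 0)) : MvPolynomial.eval y (qq c) = y c := by
  unfold qq
  rw [if_neg hc]
  simp

/-- Expansion of a column. -/
theorem col_sum (b : Fin (k + 1) → ℂ) (hb : b (Fin.last k) = 1) (z : Co (k + 1) → ℂ)
    (j : Fin (k + 1)) (hj : j < Fin.last k) :
    ∑ i, b i * Um z i j = b j + z ⟨(Fin.last k, j), hj⟩ + ∑ i : Fin (k + 1),
      (if h : j < i ∧ i < Fin.last k then b i * z ⟨(i, j), h.1⟩ else 0) := by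
  have h1 : ∀ i, b i * Um z i j = (if i = j then b j else 0) +
      (if i = Fin.last k then z ⟨(Fin.last k, j), hj⟩ else 0) +
      (if h : j < i ∧ i < Fin.last k then b i * z ⟨(i, j), h.1⟩ else 0) := by
    intro i
    unfold Um
    rcases lt_trichotomy i j with h | h | h
    · rw [dif_neg (not_lt.2 h.le), if_neg h.ne, if_neg h.ne, if_neg (h.trans hj).ne,
        dif_neg (fun h' => absurd h'.1 (not_lt.2 h.le))]
      ring
    · subst h
      rw [dif_neg (lt_irrefl _), if_pos rfl, if_pos rfl, if_neg hj.ne,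
        dif_neg (fun h' => absurd h'.1 (lt_irrefl _))]
      ring
    · rw [dif_pos h, if_neg h.ne']
      by_cases h2 : i = Fin.last k
      · subst h2
        rw [if_pos rfl, dif_neg (fun h' => absurd h'.2 (lt_irrefl _)), hb]
        ring
      · rw [if_neg h2, dif_pos ⟨h, lt_of_le_of_ne (Fin.le_last i) h2⟩]
        ring
  simp only [h1, Finset.sum_add_distrib]
  simp

theorem col_last (b : Fin (k + 1) → ℂ) (hb : b (Fin.last k) = 1) (z : Co (k + 1) → ℂ) :
    ∑ i, b i * Um z i (Fin.last k) = 1 := by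
  rw [Finset.sum_eq_single (Fin.last k)]
  · unfold Um
    rw [dif_neg (lt_irrefl _), if_pos rfl, hb, mul_one]
  · intro i _ hi
    unfold Um
    rw [dif_neg (not_lt.2 (Fin.le_last i)), if_neg hi, mul_zero]
  · intro h
    exact absurd (Finset.mem_univ _) h

theorem bv_unique (b : Fin (k + 1) → ℂ) (z : Co (k + 1) → ℂ)
    (h : ∀ j, ∑ i, b i * Um z i j = if j = Fin.last k then 1 else 0) (j : Fin (k + 1)) :
    bv z j = b j := by
  have h1 : Matrix.vecMul b (Um z) = Pi.single (Fin.last k) 1 := by
    funext j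
    rw [Pi.single_apply, ← h j]
    rfl
  have hu : IsUnit (Um z).det := by rw [det_Um]; exact isUnit_one
  have h2 : b = Matrix.vecMul (Pi.single (Fin.last k) 1) (Um z)⁻¹ := by
    rw [← h1, Matrix.vecMul_vecMul, Matrix.mul_nonsing_inv _ hu, Matrix.vecMul_one]
  have h3 := congrFun h2 j
  rw [h3, Matrix.single_one_vecMul]
  rfl

end XAUT2

open XAUT2 in
theorem I_AUT2 (hAUT : St_AUT) (hBREL : St_BREL) : St_AUT2 := by
  intro k Z'
  have c0 : ∀ f : MvPolynomial (Co (k + 1)) ℂ, MvPolynomial.constantCoeff f =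
      MvPolynomial.eval (fun _ => (0 : ℂ)) f := by
    intro f
    exact (RingHom.congr_fun (MvPolynomial.eval_zero' (R := ℂ) (σ := Co (k + 1))) f).symm
  refine hAUT (Co (k + 1)) (Co (k + 1)) pp qq ?_ ?_ ?_ ?_ _ _ ?_
  · intro c
    rw [c0, eval_pp]
    unfold Tb2
    split_ifs with h
    · refine bv_unique (fun i => if i = Fin.last k then 1 else 0) _ ?_ c.1.2 |>.trans ?_
      · intro j
        rw [Finset.sum_eq_single (Fin.last k)]
        · rw [if_pos rfl, one_mul]
          unfold Um
          by_cases hj : j = Fin.last k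
          · subst hj
            simp
          · rw [dif_pos (lt_of_le_of_ne (Fin.le_last j) hj), if_neg hj]
        · intro i _ hi
          rw [if_neg hi, zero_mul]
        · intro h'
          exact absurd (Finset.mem_univ _) h'
      · have h2 : c.1.2 ≠ Fin.last k := by
          have := c.2
          rw [h.1] at this
          exact this.ne
        rw [if_neg h2]
    · rfl
  · intro c
    rw [c0]
    by_cases hc : c.1.1 = Fin.last k ∧ c.1.2 ≠ 0
    · rw [eval_qq _ _ hc]
      simp
    · rw [eval_qq' _ _ hc]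
  · intro z c
    simp only [eval_pp]
    by_cases hc : c.1.1 = Fin.last k ∧ c.1.2 ≠ 0
    · rw [eval_qq _ _ hc]
      obtain ⟨⟨i0, j⟩, hij⟩ := c
      simp only at hc hij ⊢
      obtain ⟨hi0, hj0⟩ := hc
      subst hi0
      have hj : j < Fin.last k := hij
      have hb := (hBREL k z).1
      have h1 := (hBREL k z).2 j hj
      rw [col_sum (bv z) hb z j hj] at h1
      have h2 : Tb2 z ⟨(Fin.last k, j), hij⟩ = bv z j := by
        unfold Tb2
        rw [if_pos ⟨rfl, hj0⟩]
      have h3 : ∀ i : Fin (k + 1), (if h : j < i ∧ i < Fin.last k then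
          Tb2 z ⟨(Fin.last k, i), h.2⟩ * Tb2 z ⟨(i, j), h.1⟩ else 0) =
          (if h : j < i ∧ i < Fin.last k then bv z i * z ⟨(i, j), h.1⟩ else 0) := by
        intro i
        split_ifs with h
        · congr 1
          · unfold Tb2
            rw [if_pos ⟨rfl, fun h' => by
              have h'' : i = 0 := h'
              rw [h''] at h
              exact absurd h.1 (Fin.not_lt_zero j)⟩]
          · unfold Tb2
            rw [if_neg (fun h' => absurd h'.1 h.2.ne)]
        · rfl
      simp only [h2, h3]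
      linear_combination (-1) * h1
    · rw [eval_qq' _ _ hc]
      unfold Tb2
      rw [if_neg hc]
  · intro y c
    rw [eval_pp]
    set z : Co (k + 1) → ℂ := fun i => MvPolynomial.eval y (qq i) with hz
    by_cases hc : c.1.1 = Fin.last k ∧ c.1.2 ≠ 0
    · obtain ⟨⟨i0, j⟩, hij⟩ := c
      simp only at hc hij
      obtain ⟨hi0, hj0⟩ := hc
      subst hi0
      have hj : j < Fin.last k := hij
      have h0 : (0 : Fin (k + 1)) < Fin.last k := lt_of_le_of_lt (Fin.zero_le j) hj
      have h2 : Tb2 z ⟨(Fin.last k, j), hij⟩ = bv z j := by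
        unfold Tb2
        rw [if_pos ⟨rfl, hj0⟩]
      rw [h2]
      have hlow : ∀ (i l : Fin (k + 1)) (h : l < i), i < Fin.last k → z ⟨(i, l), h⟩ = y ⟨(i, l), h⟩ := by
        intro i l h hi
        rw [hz]
        exact eval_qq' _ _ (fun h' => absurd h'.1 hi.ne)
      set b0 : ℂ := - (z ⟨(Fin.last k, 0), h0⟩ + ∑ i : Fin (k + 1),
        (if h : 0 < i ∧ i < Fin.last k then y ⟨(Fin.last k, i), h.2⟩ * z ⟨(i, 0), h.1⟩ else 0))
        with hb0
      set b : Fin (k + 1) → ℂ := fun i => if h : i < Fin.last k then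
        (if i = 0 then b0 else y ⟨(Fin.last k, i), h⟩) else 1 with hb
      have hbl : b (Fin.last k) = 1 := by
        rw [hb]
        simp
      have hb1 : ∀ (i : Fin (k + 1)) (h : i < Fin.last k), i ≠ 0 →
          b i = y ⟨(Fin.last k, i), h⟩ := by
        intro i h hi
        rw [hb]
        simp only
        rw [dif_pos h, if_neg hi]
      have hb00 : b 0 = b0 := by
        rw [hb]
        simp only
        rw [dif_pos h0, if_pos trivial]
      have hsum : ∀ l : Fin (k + 1), ∑ i : Fin (k + 1), (if h : l < i ∧ i < Fin.last k then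
          b i * z ⟨(i, l), h.1⟩ else 0) = ∑ i : Fin (k + 1), (if h : l < i ∧ i < Fin.last k then
          y ⟨(Fin.last k, i), h.2⟩ * z ⟨(i, l), h.1⟩ else 0) := by
        intro l
        refine Finset.sum_congr rfl fun i _ => ?_
        split_ifs with h
        · rw [hb1 i h.2 (fun h' => by
            rw [h'] at h
            exact absurd h.1 (Fin.not_lt_zero l))]
        · rfl
      have key : ∀ l, ∑ i, b i * Um z i l = if l = Fin.last k then 1 else 0 := by
        intro l
        by_cases hl : l = Fin.last k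
        · subst hl
          rw [if_pos rfl, col_last b hbl z]
        · rw [if_neg hl]
          have hl' : l < Fin.last k := lt_of_le_of_ne (Fin.le_last l) hl
          rw [col_sum b hbl z l hl', hsum l]
          by_cases hl0 : l = 0
          · subst hl0
            rw [hb00, hb0]
            ring
          · rw [hb1 l hl' hl0]
            have h5 : z ⟨(Fin.last k, l), hl'⟩ = - y ⟨(Fin.last k, l), hl'⟩ -
                ∑ i : Fin (k + 1), (if h : l < i ∧ i < Fin.last k then
                  y ⟨(Fin.last k, i), h.2⟩ * y ⟨(i, l), h.1⟩ else 0) := by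
              rw [hz]
              exact eval_qq y ⟨(Fin.last k, l), hl'⟩ ⟨rfl, hl0⟩
            have h6 : ∑ i : Fin (k + 1), (if h : l < i ∧ i < Fin.last k then
                y ⟨(Fin.last k, i), h.2⟩ * z ⟨(i, l), h.1⟩ else 0) =
                ∑ i : Fin (k + 1), (if h : l < i ∧ i < Fin.last k then
                y ⟨(Fin.last k, i), h.2⟩ * y ⟨(i, l), h.1⟩ else 0) := by
              refine Finset.sum_congr rfl fun i _ => ?_
              split_ifs with h
              · rw [hlow i l h.1 h.2]
              · rfl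
            rw [h5, h6]
            ring
      rw [bv_unique b z key j]
      exact hb1 j hj hj0
    · unfold Tb2
      rw [if_neg hc, hz]
      exact eval_qq' _ _ hc
  · intro z
    simp only [eval_pp]
    rfl

end Pool.Agent.SH
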