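import Pool.Agent.Work.MP_1c6e58_ag.SH.Stmts

set_option autoImplicit false

open Finset

namespace Pool.Agent.SH

theorem I_BELOW (hBPO : St_BPO) (hPHI : St_PHI) (hPBR : St_PBR) (hPLEN : St_PLEN)
    (hEMBP : St_EMBP) (hEMBT : St_EMBT) : St_BELOW := by
  intro A B
  constructor
  · intro hBA
    refine Relation.ReflTransGen.head_induction_on
      (motive := fun B _ => ∃ (u' : Equiv.Perm (Fin A.n)) (h : Br u' A.v), Br A.u u' ∧
        Emb B ⟨A.n, u', A.v, h⟩) hBA ?_ ?_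
    · exact ⟨A.u, A.le, (hBPO A.n).1 A.u, hEMBT.1 A⟩
    · intro B C hBC _ hC
      obtain ⟨u', hu', hAu, hE⟩ := hC
      rcases hBC with hBC | hBC
      · exact ⟨u', hu', hAu, hEMBT.2 _ _ _ hBC hE⟩
      · obtain ⟨n, x, x0, w, h, h', hx0x, rfl, rfl⟩ := hBC
        obtain ⟨φ, hpv, hpu, hoff, hlen⟩ := (hEMBP _ _).1 hE
        obtain ⟨u'', hx, hoff''⟩ := (hPHI n A.n φ A.v w hpv).1 x
        have hoff3 : ∀ i, i ∉ Set.range φ → u' i = u'' i := by
          intro i hi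
          rw [hoff'' i hi]
          exact hoff i hi
        have hb1 : Br u' u'' := (hPBR n A.n φ u' u'' x0 x hx hpu hoff3).1 hx0x
        have hb2 : Br u'' A.v := (hPBR n A.n φ u'' A.v x w hpv hx hoff'').1 h
        have hl1 := hPLEN n A.n φ u'' A.v x w hpv hx hoff'' h
        have hl2 := hPLEN n A.n φ u' u'' x0 x hx hpu hoff3 hx0x
        refine ⟨u'', hb2, (hBPO A.n).2.1 _ _ _ hAu hb1, (hEMBP _ _).2 ⟨φ, hpv, hx, hoff'', ?_⟩⟩
        have hlen' : (len w : ℤ) - len x0 = (len A.v : ℤ) - len u' := hlen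
        show (len w : ℤ) - len x = (len A.v : ℤ) - len u''
        linarith
  · rintro ⟨u', h, hAu, hE⟩
    refine Relation.ReflTransGen.head (Or.inl hE) (Relation.ReflTransGen.single (Or.inr ?_))
    exact ⟨A.n, u', A.u, A.v, h, A.le, hAu, rfl, rfl⟩

end Pool.Agent.SH
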