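import Pool.Agent.Work.MP_1c6e58_ag.SH.Stmts

/-!
Item BREL (problem MP_1c6e58_ag, project SH): the relation between the entries of `U` and the last
row of its inverse.
-/

set_option autoImplicit false

open Finset

namespace Pool.Agent.SH

namespace XBREL

theorem Um_diag {n : ℕ} (z : Co n → ℂ) (i : Fin n) : Um z i i = 1 := by
  simp [Um]

theorem Um_upper {n : ℕ} (z : Co n → ℂ) {i j : Fin n} (h : i < j) : Um z i j = 0 := by
  have h1 : ¬ j < i := not_lt.mpr h.le
  have h2 : i ≠ j := h.ne
  simp [Um, h1, h2]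

theorem det_Um {n : ℕ} (z : Co n → ℂ) : (Um z).det = 1 := by
  rw [Matrix.det_of_lowerTriangular (Um z) (fun i j hij => Um_upper z (by simpa using hij))]
  exact Finset.prod_eq_one (fun i _ => Um_diag z i)

end XBREL

open XBREL

theorem I_BREL : St_BREL := by
  intro k z
  have h1 : (Um z)⁻¹ * Um z = 1 := Matrix.nonsing_inv_mul _ (by rw [det_Um]; exact isUnit_one)
  have h2 : ∀ j, ∑ i, bv z i * Um z i j
      = (1 : Matrix (Fin (k + 1)) (Fin (k + 1)) ℂ) (Fin.last k) j := by
    intro j
    rw [← h1, Matrix.mul_apply]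
    rfl
  refine ⟨?_, ?_⟩
  · have h3 := h2 (Fin.last k)
    rw [Finset.sum_eq_single (Fin.last k), Um_diag, mul_one, Matrix.one_apply_eq] at h3
    · exact h3
    · intro i _ hi
      rw [Um_upper z (lt_of_le_of_ne (Fin.le_last i) hi), mul_zero]
    · intro h; exact absurd (Finset.mem_univ _) h
  · intro j hj
    rw [h2 j, Matrix.one_apply_ne hj.ne']

end Pool.Agent.SH
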