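import Pool.Agent.Work.MP_1c6e58_ag.SH.Stmts

/-!
# MP_1c6e58_ag, item CNT: counting colourings
-/

set_option autoImplicit false

open Finset

namespace Pool.Agent.SH

namespace XCNT

/-- weight of a colour -/
def wt {r : ℕ} (a x : Fin r) : ℕ := if x = a then 1 else 2

lemma sum_wt {r : ℕ} (a : Fin r) : ∑ x : Fin r, wt a x = 2 * r - 1 := by
  have hr : 1 ≤ r := by have := a.isLt; omega
  have h : ∀ x : Fin r, wt a x + (if x = a then 1 else 0) = 2 := by
    intro x; unfold wt; split_ifs <;> rfl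
  have h2 : ∑ x : Fin r, wt a x + ∑ x : Fin r, (if x = a then 1 else 0) = 2 * r := by
    rw [← sum_add_distrib, sum_congr rfl fun x _ => h x]
    simp [mul_comm]
  rw [Finset.sum_ite_eq' univ a, if_pos (mem_univ _)] at h2
  omega

lemma prod_wt {n r : ℕ} (a : Fin r) (c : Fin n → Fin r) :
    (∏ i, wt a (c i)) * 2 ^ (univ.filter (fun i => c i = a)).card = 2 ^ n := by
  have h : ∀ i : Fin n, wt a (c i) * (if c i = a then 2 else 1) = 2 := by
    intro i; unfold wt; split_ifs <;> rfl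
  have h2 : (2 : ℕ) ^ (univ.filter (fun i => c i = a)).card =
      ∏ i : Fin n, (if c i = a then 2 else 1) := by
    rw [prod_ite]
    simp
  rw [h2, ← prod_mul_distrib, prod_congr rfl fun i _ => h i]
  simp

lemma card_bad {n r : ℕ} (a : Fin r) :
    (univ.filter (fun c : Fin n → Fin r => (univ.filter (fun i => c i = a)).card ≤ 3)).card
      * 2 ^ n ≤ 8 * (2 * r - 1) ^ n := by
  have h1 : (2 * r - 1) ^ n = ∑ c : Fin n → Fin r, ∏ i, wt a (c i) := by
    rw [← sum_wt a]
    have := Finset.prod_univ_sum (fun _ : Fin n => (univ : Finset (Fin r)))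
      (fun _ x => wt a x)
    rw [Fintype.piFinset_univ] at this
    rw [← this]
    simp
  rw [h1, card_eq_sum_ones, sum_mul, mul_sum]
  refine le_trans ?_ (sum_le_sum_of_subset (filter_subset
    (fun c : Fin n → Fin r => (univ.filter (fun i => c i = a)).card ≤ 3) univ))
  refine sum_le_sum fun c hc => ?_
  rw [mem_filter] at hc
  rw [one_mul, ← prod_wt a c, mul_comm 8]
  refine Nat.mul_le_mul_left _ ?_
  calc 2 ^ (univ.filter (fun i => c i = a)).card ≤ 2 ^ 3 :=
        Nat.pow_le_pow_right (by norm_num) hc.2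
    _ = 8 := by norm_num

lemma ev (r : ℕ) (hr : 1 ≤ r) : ∃ n0 : ℕ, ∀ n, n0 ≤ n →
    16 * r * (2 * r - 1) ^ n ≤ (2 * r) ^ n := by
  have hr' : (1 : ℝ) ≤ r := by exact_mod_cast hr
  have hq0 : (0 : ℝ) ≤ (2 * r - 1) / (2 * r) := by
    apply div_nonneg <;> linarith
  have hq1 : ((2 * r - 1) / (2 * r) : ℝ) < 1 := by
    rw [div_lt_one (by linarith)]; linarith
  have ht := tendsto_pow_atTop_nhds_zero_of_lt_one hq0 hq1
  have hpos : (0 : ℝ) < 1 / (16 * r) := by positivity
  obtain ⟨n0, h0⟩ := Filter.eventually_atTop.1 (ht.eventually (gt_mem_nhds hpos))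
  refine ⟨n0, fun n hn => ?_⟩
  have h := h0 n hn
  rw [div_pow, div_lt_div_iff₀ (by positivity) (by positivity), one_mul] at h
  have h2 : (16 * r * (2 * r - 1) ^ n : ℝ) ≤ (2 * r) ^ n := by
    have : (16 * r * (2 * r - 1) ^ n : ℝ) = (2 * r - 1) ^ n * (16 * r) := by ring
    rw [this]; exact h.le
  have h3 : ((16 * r * (2 * r - 1) ^ n : ℕ) : ℝ) ≤ (((2 * r) ^ n : ℕ) : ℝ) := by
    push_cast [Nat.cast_sub (show 1 ≤ 2 * r by omega)]
    exact h2
  exact_mod_cast h3

end XCNT

theorem I_CNT : St_CNT := by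
  intro r hr
  obtain ⟨n0, h0⟩ := XCNT.ev r hr
  refine ⟨n0, fun n hn => ?_⟩
  have h := h0 n hn
  set good := univ.filter (fun c : Fin n → Fin r =>
    ∀ a, 4 ≤ (univ.filter (fun i => c i = a)).card) with hgood
  set bad := univ.filter (fun c : Fin n → Fin r =>
    ¬ ∀ a, 4 ≤ (univ.filter (fun i => c i = a)).card) with hbad
  have hsum : good.card + bad.card = r ^ n := by
    rw [hgood, hbad, card_filter_add_card_filter_not]
    simp
  have hb : bad.card ≤ ∑ a : Fin r, (univ.filter (fun c : Fin n → Fin r =>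
      (univ.filter (fun i => c i = a)).card ≤ 3)).card := by
    refine le_trans (card_le_card ?_) card_biUnion_le
    intro c hc
    rw [hbad, mem_filter] at hc
    obtain ⟨a, ha⟩ := not_forall.1 hc.2
    rw [mem_biUnion]
    exact ⟨a, mem_univ _, by rw [mem_filter]; exact ⟨mem_univ _, by omega⟩⟩
  have hb2 : bad.card * 2 ^ n ≤ r * (8 * (2 * r - 1) ^ n) := by
    calc bad.card * 2 ^ n ≤ (∑ a : Fin r, (univ.filter (fun c : Fin n → Fin r =>
          (univ.filter (fun i => c i = a)).card ≤ 3)).card) * 2 ^ n :=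
          Nat.mul_le_mul_right _ hb
      _ = ∑ a : Fin r, (univ.filter (fun c : Fin n → Fin r =>
          (univ.filter (fun i => c i = a)).card ≤ 3)).card * 2 ^ n := by rw [sum_mul]
      _ ≤ ∑ _a : Fin r, 8 * (2 * r - 1) ^ n := sum_le_sum fun a _ => XCNT.card_bad a
      _ = r * (8 * (2 * r - 1) ^ n) := by simp
  have hb3 : 2 * bad.card * 2 ^ n ≤ r ^ n * 2 ^ n := by
    calc 2 * bad.card * 2 ^ n = 2 * (bad.card * 2 ^ n) := by ring
      _ ≤ 2 * (r * (8 * (2 * r - 1) ^ n)) := Nat.mul_le_mul_left _ hb2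
      _ = 16 * r * (2 * r - 1) ^ n := by ring
      _ ≤ (2 * r) ^ n := h
      _ = r ^ n * 2 ^ n := by rw [mul_pow]; ring
  have hb4 : 2 * bad.card ≤ r ^ n := Nat.le_of_mul_le_mul_right hb3 (by positivity)
  omega

end Pool.Agent.SH
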