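import Pool.Agent.Work.MP_1c6e58_ag.SH.Stmts

set_option autoImplicit false

open Finset

namespace Pool.Agent.SH

namespace XCNTI

theorem inj {n r : ℕ} (hMINJ : St_MINJ) {u v u' v' : Equiv.Perm (Fin n)} {h : Br u v}
    {h' : Br u' v'} {c c' : Fin n → ℕ} (e : (⟨n, u, v, h⟩ : Itv) = ⟨n, u', v', h'⟩)
    (m : Match r ⟨n, u, v, h⟩ c) (m' : Match r ⟨n, u', v', h'⟩ c') : c = c' := by
  have h1 : u = u' ∧ v = v' := by simpa using e
  obtain ⟨rfl, rfl⟩ := h1
  exact hMINJ r ⟨n, u, v, h⟩ c c' m m'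

theorem fin1 (n : ℕ) : Finite {A : Itv // A.n = n} :=
  Finite.of_surjective (α := {p : Equiv.Perm (Fin n) × Equiv.Perm (Fin n) // Br p.1 p.2})
    (fun p => ⟨⟨n, p.1.1, p.1.2, p.2⟩, rfl⟩) (by
      rintro ⟨⟨m, u, v, h⟩, hm⟩
      dsimp at hm
      subst hm
      exact ⟨⟨(u, v), h⟩, rfl⟩)

theorem fin2 (n r : ℕ) : Finite {A : Itv // A.n = n ∧ RS r A} := by
  have := fin1 n
  exact Finite.of_injective (fun A : {A : Itv // A.n = n ∧ RS r A} =>
    (⟨A.1, A.2.1⟩ : {A : Itv // A.n = n})) (fun A B h => by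
      simp only [Subtype.mk.injEq] at h
      exact Subtype.ext h)

end XCNTI

theorem I_CNTI (hMEX : St_MEX) (hMINJ : St_MINJ) (hMRS : St_MRS) (hCNT : St_CNT) : St_CNTI := by
  intro r hr
  obtain ⟨n0, hn0⟩ := hCNT r hr
  refine ⟨n0, fun n hn => (hn0 n hn).trans (Nat.mul_le_mul_left 2 ?_)⟩
  have := XCNTI.fin2 n r
  have key : ∀ c : {c : Fin n → Fin r // ∀ a, 4 ≤ (univ.filter (fun i => c i = a)).card},
      ∃ (u v : Equiv.Perm (Fin n)) (h : Br u v), Match r ⟨n, u, v, h⟩ (fun i => (c.1 i : ℕ)) := by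
    intro c
    refine hMEX r n (fun i => (c.1 i : ℕ)) (fun i => (c.1 i).2) fun a ha => ?_
    have h1 := c.2 ⟨a, ha⟩
    have h2 : (univ.filter (fun i => c.1 i = ⟨a, ha⟩)) =
        (univ.filter (fun i => (c.1 i : ℕ) = a)) := by
      ext i
      simp [Fin.ext_iff]
    rw [h2] at h1
    exact h1
  choose u v h hM using key
  have h1 : Nat.card {c : Fin n → Fin r // ∀ a, 4 ≤ (univ.filter (fun i => c i = a)).card} =
      (univ.filter (fun c : Fin n → Fin r =>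
        ∀ a, 4 ≤ (univ.filter (fun i => c i = a)).card)).card := by
    rw [Nat.card_eq_fintype_card, Fintype.card_subtype]
  rw [← h1]
  refine Nat.card_le_card_of_injective
    (fun c => (⟨⟨n, u c, v c, h c⟩, rfl, hMRS _ _ _ (hM c)⟩ : {A : Itv // A.n = n ∧ RS r A})) ?_
  intro c c' e
  have e1 : (⟨n, u c, v c, h c⟩ : Itv) = ⟨n, u c', v c', h c'⟩ := congrArg Subtype.val e
  have e2 := XCNTI.inj hMINJ e1 (hM c) (hM c')
  exact Subtype.ext (funext fun i => Fin.ext (congrFun e2 i))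

end Pool.Agent.SH
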