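import Pool.Agent.Work.MP_1c6e58_ag.SH.Stmts

/-!
MP_1c6e58_ag, project SH, item COORD: coordinate subspaces.
-/

set_option autoImplicit false

open Finset

namespace Pool.Agent.SH

namespace XCOORD

/-- Partial sums and the factor `1 - X`. -/
theorem mk_sum_mul (a : ℕ → ℤ) :
    (PowerSeries.mk (fun t => ∑ i ∈ range (t + 1), a i) : PowerSeries ℤ) *
      (1 - PowerSeries.X) = PowerSeries.mk a := by
  ext n
  rw [mul_sub, mul_one, map_sub]
  cases n with
  | zero => simp
  | succ n =>
    rw [PowerSeries.coeff_succ_mul_X, PowerSeries.coeff_mk, PowerSeries.coeff_mk,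
      PowerSeries.coeff_mk, Finset.sum_range_succ]
    ring

open Classical in
/-- Setting the variables of `T` to zero. -/
noncomputable def kill {σ : Type} (T : Finset σ) : MvPolynomial σ ℂ →ₐ[ℂ] MvPolynomial σ ℂ :=
  MvPolynomial.aeval (fun i => if i ∈ T then 0 else MvPolynomial.X i)

theorem coeff_kill {σ : Type} (T : Finset σ) (f : MvPolynomial σ ℂ) (α : σ →₀ ℕ)
    (hα : ∀ i ∈ T, α i = 0) :
    MvPolynomial.coeff α (kill T f) = MvPolynomial.coeff α f := by
  classical
  induction f using MvPolynomial.induction_on' with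
  | monomial u a =>
    by_cases hu : ∀ i ∈ T, u i = 0
    · have : kill T (MvPolynomial.monomial u a) = MvPolynomial.monomial u a := by
        unfold kill
        rw [MvPolynomial.aeval_monomial, MvPolynomial.monomial_eq]
        congr 1
        refine Finsupp.prod_congr ?_
        intro i hi
        have hiT : i ∉ T := fun h => (Finsupp.mem_support_iff.1 hi) (hu i h)
        rw [if_neg hiT]
      rw [this]
    · push Not at hu
      obtain ⟨i, hiT, hi⟩ := hu
      have h0 : kill T (MvPolynomial.monomial u a) = 0 := by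
        unfold kill
        rw [MvPolynomial.aeval_monomial]
        have : (u.prod fun i k => (if i ∈ T then (0 : MvPolynomial σ ℂ)
            else MvPolynomial.X i) ^ k) = 0 := by
          unfold Finsupp.prod
          refine Finset.prod_eq_zero (Finsupp.mem_support_iff.2 hi) ?_
          change (if i ∈ T then (0 : MvPolynomial σ ℂ) else MvPolynomial.X i) ^ (u i) = 0
          rw [if_pos hiT, zero_pow hi]
        rw [this, mul_zero]
      rw [h0, MvPolynomial.coeff_zero, MvPolynomial.coeff_monomial, if_neg]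
      intro h
      rw [h] at hi
      exact hi (hα i hiT)
  | add p q hp hq => rw [map_add, MvPolynomial.coeff_add, MvPolynomial.coeff_add, hp, hq]

theorem kill_eq_zero {σ : Type} (T : Finset σ) (f : MvPolynomial σ ℂ)
    (hf : f ∈ MvPolynomial.vanishingIdeal ℂ (coordS (T : Set σ))) : kill T f = 0 := by
  classical
  apply MvPolynomial.funext
  intro z
  rw [map_zero]
  have h0 : (MvPolynomial.aeval z : MvPolynomial σ ℂ →ₐ[ℂ] ℂ).comp (kill T) =
      MvPolynomial.aeval (fun i => if i ∈ T then 0 else z i) := by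
    refine MvPolynomial.algHom_ext ?_
    intro i
    unfold kill
    rw [AlgHom.comp_apply, MvPolynomial.aeval_X, MvPolynomial.aeval_X]
    split_ifs
    · exact map_zero _
    · exact MvPolynomial.aeval_X _ _
  have h1 : MvPolynomial.aeval z (kill T f) =
      MvPolynomial.aeval (fun i => if i ∈ T then 0 else z i) f :=
    DFunLike.congr_fun h0 f
  have h1' : MvPolynomial.eval z (kill T f) =
      MvPolynomial.aeval (fun i => if i ∈ T then 0 else z i) f := by
    rw [← h1]; rfl
  rw [h1']
  have h2 := (MvPolynomial.mem_vanishingIdeal_iff.1 hf) (fun i => if i ∈ T then 0 else z i) (by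
    intro i hi
    simp only [Finset.mem_coe] at hi
    simp [hi])
  exact h2

theorem lset {σ : Type} (T : Finset σ) (o : LOrd σ) :
    Lset o (MvPolynomial.vanishingIdeal ℂ (coordS (T : Set σ))) =
      {α : σ →₀ ℕ | ∃ i ∈ T, α i ≠ 0} := by
  classical
  ext α
  constructor
  · rintro ⟨f, hf, hα, -⟩
    by_contra hcon
    have h1 : ∀ i ∈ T, α i = 0 := by
      intro i hi
      by_contra h
      exact hcon ⟨i, hi, h⟩
    have h2 := coeff_kill T f α h1
    rw [kill_eq_zero T f hf, MvPolynomial.coeff_zero] at h2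
    exact (MvPolynomial.mem_support_iff.1 hα) h2.symm
  · rintro ⟨i, hiT, hi⟩
    refine ⟨MvPolynomial.monomial α 1, ?_, ?_, ?_⟩
    · rw [MvPolynomial.mem_vanishingIdeal_iff]
      intro z hz
      rw [MvPolynomial.aeval_monomial]
      have : (α.prod fun i k => z i ^ k) = 0 := by
        unfold Finsupp.prod
        refine Finset.prod_eq_zero (Finsupp.mem_support_iff.2 hi) ?_
        change z i ^ (α i) = 0
        rw [hz i (by simpa using hiT), zero_pow hi]
      rw [this, mul_zero]
    · rw [MvPolynomial.mem_support_iff, MvPolynomial.coeff_monomial, if_pos rfl]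
      exact one_ne_zero
    · intro β hβ
      rw [MvPolynomial.mem_support_iff, MvPolynomial.coeff_monomial] at hβ
      have : α = β := by
        by_contra h
        exact hβ (if_neg h)
      rw [this]

open Classical in
theorem gL_card {σ : Type} [Fintype σ] (L : Set (σ →₀ ℕ)) (i : ℕ) :
    gL L i = Nat.card {α : σ →₀ ℕ // (∑ j, α j = i) ∧ α ∉ L} := by
  unfold gL
  refine (Nat.subtype_card _ ?_).symm
  intro α
  refine Iff.trans Finset.mem_filter ?_
  refine Iff.trans (and_congr_left' Finset.mem_finsuppAntidiag) ?_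
  constructor
  · rintro ⟨⟨h1, -⟩, h2⟩
    exact ⟨h1, h2⟩
  · rintro ⟨h1, h2⟩
    exact ⟨⟨h1, Finset.subset_univ _⟩, h2⟩

theorem sum_off {σ : Type} [Fintype σ] (T : Finset σ) [Fintype {j : σ // ¬ j ∈ T}] (α : σ → ℕ)
    (h : ∀ j ∈ T, α j = 0) : ∑ j : {j : σ // ¬ j ∈ T}, α j = ∑ j, α j := by
  classical
  rw [← Finset.sum_subtype (univ.filter (fun j => ¬ j ∈ T)) (by simp) α]
  exact Finset.sum_filter_of_ne (fun j _ hne hT => hne (h j hT))

/-- The exponents off `T`. -/
theorem gL_off {σ : Type} [Fintype σ] (T : Finset σ) [Fintype {j : σ // ¬ j ∈ T}] (i : ℕ) :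
    gL {α : σ →₀ ℕ | ∃ i ∈ T, α i ≠ 0} i =
      gL (∅ : Set ({j : σ // ¬ j ∈ T} →₀ ℕ)) i := by
  classical
  rw [gL_card, gL_card]
  have off : ∀ α : σ →₀ ℕ, α ∉ {α : σ →₀ ℕ | ∃ i ∈ T, α i ≠ 0} → ∀ j ∈ T, α j = 0 := by
    intro α h j hj
    by_contra h'
    exact h ⟨j, hj, h'⟩
  have ext0 : ∀ (β : {j : σ // ¬ j ∈ T} →₀ ℕ), ∀ j ∈ T, β.extendDomain j = 0 := by
    intro β j hj
    rw [Finsupp.extendDomain_apply, dif_neg (not_not.2 hj)]
  refine Nat.card_congr
    { toFun := fun α => ⟨α.1.subtypeDomain (fun j => ¬ j ∈ T), ?_, Set.notMem_empty _⟩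
      invFun := fun β => ⟨β.1.extendDomain, ?_, ?_⟩
      left_inv := ?_
      right_inv := ?_ }
  · have h1 := sum_off T α.1 (off α.1 α.2.2)
    rw [α.2.1] at h1
    exact h1
  · have h1 := sum_off T β.1.extendDomain (ext0 β.1)
    rw [← h1]
    refine Eq.trans (Finset.sum_congr rfl ?_) β.2.1
    intro j _
    rw [Finsupp.extendDomain_apply, dif_pos j.2]
  · rintro ⟨j, hj, h⟩
    exact h (ext0 β.1 j hj)
  · intro α
    apply Subtype.ext
    refine Finsupp.extendDomain_subtypeDomain α.1 ?_
    intro j hj hT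
    exact (Finsupp.mem_support_iff.1 hj) (off α.1 α.2.2 j hT)
  · intro β
    apply Subtype.ext
    exact Finsupp.subtypeDomain_extendDomain β.1

end XCOORD

set_option linter.unusedVariables false in
open XCOORD in
theorem I_COORD (hORD : St_ORD) (hHG : St_HG) (hGCNT : St_GCNT) (hHPROD : St_HPROD)
    (hREI : St_REI) : St_COORD := by
  classical
  intro σ _ T
  obtain ⟨o⟩ := hORD σ
  refine ⟨one_pos, 1, by simp, ?_⟩
  have h1 : HS (coordS (T : Set σ)) =
      PowerSeries.mk (fun t => ∑ i ∈ range (t + 1),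
        (gL (∅ : Set ({j : σ // ¬ j ∈ T} →₀ ℕ)) i : ℤ)) := by
    unfold HS
    congr 1
    funext t
    unfold Hf
    rw [hHG σ o, lset T o]
    push_cast
    refine Finset.sum_congr rfl ?_
    intro i _
    rw [gL_off T i]
  have h2 := hGCNT {j : σ // ¬ j ∈ T}
  have h3 : Fintype.card {j : σ // ¬ j ∈ T} = Fintype.card σ - T.card := by
    rw [Fintype.card_subtype_compl, Fintype.card_coe]
  rw [h3] at h2
  rw [h1, pow_succ', ← mul_assoc, mk_sum_mul, h2]
  simp

end Pool.Agent.SH
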