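import Pool.Agent.Work.MP_1c6e58_ag.SH.Stmts

set_option autoImplicit false

open Finset

namespace Pool.Agent.SH

namespace XDICK

variable {σ : Type} [Fintype σ]

/-- Upper set generated by `S`. -/
def ups (S : Finset (σ →₀ ℕ)) : Set (σ →₀ ℕ) := {α | ∃ s ∈ S, s ≤ α}

theorem mem_fa (i : ℕ) (α : σ →₀ ℕ) [DecidableEq σ] :
    α ∈ Finset.univ.finsuppAntidiag i ↔ α.degree = i := by
  rw [Finset.mem_finsuppAntidiag]
  constructor
  · rintro ⟨h, -⟩
    rw [Finsupp.degree_eq_sum]
    exact h
  · intro h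
    refine ⟨?_, Finset.subset_univ _⟩
    rw [Finsupp.degree_eq_sum] at h
    exact h

theorem step (T : Finset (σ →₀ ℕ)) (γ : σ →₀ ℕ) (i : ℕ) [DecidableEq (σ →₀ ℕ)] :
    gL (ups (insert γ T)) i +
      (if γ.degree ≤ i then gL (ups (T.image (fun s => s - γ))) (i - γ.degree) else 0) =
      gL (ups T) i := by
  classical
  unfold gL
  have h1 : (Finset.univ.finsuppAntidiag i).filter (fun α : σ →₀ ℕ => α ∉ ups T) =
      (Finset.univ.finsuppAntidiag i).filter (fun α : σ →₀ ℕ => α ∉ ups (insert γ T)) ∪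
      (Finset.univ.finsuppAntidiag i).filter (fun α : σ →₀ ℕ => α ∉ ups T ∧ γ ≤ α) := by
    ext α
    simp only [mem_filter, mem_union, ups, Set.mem_ofPred_eq, mem_insert, not_exists, not_and]
    constructor
    · rintro ⟨ha, hb⟩
      by_cases hγ : γ ≤ α
      · exact Or.inr ⟨ha, hb, hγ⟩
      · refine Or.inl ⟨ha, fun s hs => ?_⟩
        rcases hs with rfl | hs
        · exact hγ
        · exact hb s hs
    · rintro (⟨ha, hb⟩ | ⟨ha, hb, -⟩)
      · exact ⟨ha, fun s hs => hb s (Or.inr hs)⟩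
      · exact ⟨ha, hb⟩
  have h2 : Disjoint
      ((Finset.univ.finsuppAntidiag i).filter (fun α : σ →₀ ℕ => α ∉ ups (insert γ T)))
      ((Finset.univ.finsuppAntidiag i).filter (fun α : σ →₀ ℕ => α ∉ ups T ∧ γ ≤ α)) := by
    rw [Finset.disjoint_left]
    intro α ha hb
    rw [mem_filter] at ha hb
    exact ha.2 ⟨γ, mem_insert_self _ _, hb.2.2⟩
  rw [h1, card_union_of_disjoint h2]
  congr 1
  split_ifs with hi
  · refine Finset.card_bij (fun β _ => γ + β) ?_ ?_ ?_
    · intro β hβ
      rw [mem_filter, mem_fa] at hβ ⊢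
      refine ⟨?_, ?_, ?_⟩
      · rw [map_add, hβ.1]
        omega
      · rintro ⟨s, hs, hle⟩
        apply hβ.2
        refine ⟨s - γ, mem_image_of_mem _ hs, ?_⟩
        rw [tsub_le_iff_left]
        exact hle
      · exact le_self_add
    · intro β _ β' _ h
      exact add_left_cancel h
    · intro α hα
      rw [mem_filter, mem_fa] at hα
      obtain ⟨β, rfl⟩ := exists_add_of_le hα.2.2
      refine ⟨β, ?_, rfl⟩
      rw [mem_filter, mem_fa]
      refine ⟨?_, ?_⟩
      · have := hα.1
        rw [map_add] at this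
        omega
      · rintro ⟨s, hs, hle⟩
        rw [mem_image] at hs
        obtain ⟨s', hs', rfl⟩ := hs
        rw [tsub_le_iff_left] at hle
        exact hα.2.1 ⟨s', hs', hle⟩
  · symm
    rw [Finset.card_eq_zero, Finset.filter_eq_empty_iff]
    intro α hα hn
    rw [mem_fa] at hα
    obtain ⟨β, rfl⟩ := exists_add_of_le hn.2
    rw [map_add] at hα
    omega

theorem fin_case (hGCNT : St_GCNT) (k : ℕ) : ∀ S : Finset (σ →₀ ℕ), S.card ≤ k →
    ∃ Q : Polynomial ℤ, PowerSeries.mk (fun i => (gL (ups S) i : ℤ)) *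
      (1 - PowerSeries.X) ^ (Fintype.card σ) = (Q : PowerSeries ℤ) := by
  classical
  induction k with
  | zero =>
    intro S hS
    have hS' : S = ∅ := Finset.card_eq_zero.1 (Nat.le_zero.1 hS)
    subst hS'
    refine ⟨1, ?_⟩
    have h : ups (∅ : Finset (σ →₀ ℕ)) = ∅ := by
      ext α
      simp [ups]
    rw [h, hGCNT σ, Polynomial.coe_one]
  | succ k ih =>
    intro S hS
    by_cases h0 : S = ∅
    · exact ih S (by rw [h0, Finset.card_empty]; exact Nat.zero_le k)
    obtain ⟨γ, hγ⟩ := Finset.nonempty_iff_ne_empty.2 h0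
    have hT : (S.erase γ).card ≤ k := by
      rw [Finset.card_erase_of_mem hγ]
      omega
    obtain ⟨Q1, h1⟩ := ih _ hT
    obtain ⟨Q2, h2⟩ := ih ((S.erase γ).image (fun s => s - γ)) (Finset.card_image_le.trans hT)
    refine ⟨Q1 - Polynomial.X ^ γ.degree * Q2, ?_⟩
    have key : PowerSeries.mk (fun i => (gL (ups S) i : ℤ)) =
        PowerSeries.mk (fun i => (gL (ups (S.erase γ)) i : ℤ)) - PowerSeries.X ^ γ.degree *
          PowerSeries.mk (fun i => (gL (ups ((S.erase γ).image (fun s => s - γ))) i : ℤ)) := by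
      ext i
      rw [map_sub, PowerSeries.coeff_mk, PowerSeries.coeff_mk, PowerSeries.coeff_X_pow_mul']
      have hs := step (S.erase γ) γ i
      rw [Finset.insert_erase hγ] at hs
      split_ifs at hs ⊢ with hi
      · rw [PowerSeries.coeff_mk, ← hs]
        push_cast
        ring
      · rw [← hs]
        push_cast
        ring
    rw [key, sub_mul, mul_assoc, h1, h2]
    push_cast
    rfl

end XDICK

theorem I_DICK (hGCNT : St_GCNT) : St_DICK := by
  classical
  intro σ _ L hL
  have hpwo : L.IsPWO := Set.isPWO_of_wellQuasiOrderedLE L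
  have hfin : {α | Minimal (· ∈ L) α}.Finite :=
    WellQuasiOrderedLE.finite_of_isAntichain (setOfPred_minimal_antichain _)
  have hLS : L = XDICK.ups hfin.toFinset := by
    ext α
    constructor
    · intro hα
      obtain ⟨z, hz, hz'⟩ := hpwo.exists_le_minimal hα
      exact ⟨z, by simpa using hz', hz⟩
    · rintro ⟨s, hs, hle⟩
      obtain ⟨γ, rfl⟩ := exists_add_of_le hle
      have hs' : Minimal (· ∈ L) s := by simpa using hs
      exact hL s γ hs'.1
  rw [hLS]
  exact XDICK.fin_case hGCNT _ _ le_rfl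

end Pool.Agent.SH
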