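import Pool.Agent.Work.MP_1c6e58_ag.SH.Stmts

/-!
MP_1c6e58_ag, project SH, item DIMB: lower bound for the dimensions of the intersections.
-/

set_option autoImplicit false

open Finset

namespace Pool.Agent.SH

namespace XDIMB

lemma card_le (n : ℕ) (p : Fin n) : Fintype.card {j : Fin n // j ≤ p} = (p : ℕ) + 1 := by
  rw [Fintype.card_subtype]
  have h : univ.filter (fun j : Fin n => j ≤ p) = Finset.Iic p := by
    ext j
    simp
  rw [h, Fin.card_Iic]

lemma finrank_ge {n : ℕ} (p : Fin n) (b : Fin n → (Fin n → ℂ)) (hb : LinearIndependent ℂ b)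
    (W : Submodule ℂ (Fin n → ℂ)) (hW : ∀ j, j ≤ p → b j ∈ W) :
    (p : ℕ) + 1 ≤ Module.finrank ℂ W := by
  have h1 : LinearIndependent ℂ (fun j : {j : Fin n // j ≤ p} => b j) :=
    hb.comp (fun j : {j : Fin n // j ≤ p} => (j : Fin n)) Subtype.val_injective
  have h2 := finrank_span_eq_card h1
  rw [card_le] at h2
  rw [← h2]
  apply Submodule.finrank_mono
  rw [Submodule.span_le]
  rintro _ ⟨j, rfl⟩
  exact hW j j.2

lemma det_Um {n : ℕ} (z : Co n → ℂ) : (Um z).det = 1 := by
  have h : (Um z).BlockTriangular OrderDual.toDual := by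
    intro i j hij
    have hij' : i < j := OrderDual.toDual_lt_toDual.1 hij
    unfold Um
    rw [dif_neg (not_lt.2 hij'.le), if_neg hij'.ne]
  rw [Matrix.det_of_isLowerTriangular _ h]
  apply Finset.prod_eq_one
  intro i _
  unfold Um
  rw [dif_neg (lt_irrefl i), if_pos rfl]

lemma colV_li {n : ℕ} (x : Equiv.Perm (Fin n)) (z : Co n → ℂ) :
    LinearIndependent ℂ (fun j => colV x z j) := by
  have h : IsUnit ((Um z).submatrix x.symm id) := by
    rw [Matrix.isUnit_iff_isUnit_det, Matrix.det_permute, det_Um, mul_one]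
    have : IsUnit ((Equiv.Perm.sign x.symm : ℤ) : ℂ) := by
      rcases Int.units_eq_one_or (Equiv.Perm.sign x.symm) with h | h <;> simp [h]
    exact this
  exact Matrix.linearIndependent_cols_iff_isUnit.2 h

end XDIMB

theorem I_DIMB : St_DIMB := by
  intro n x z p q
  have h1 : (p : ℕ) + 1 ≤ Module.finrank ℂ (Fl x z p) :=
    XDIMB.finrank_ge p _ (XDIMB.colV_li x z) _
      (fun j hj => Submodule.subset_span ⟨j, hj, rfl⟩)
  have h2 : (q : ℕ) + 1 ≤ Module.finrank ℂ (Est q) := by
    refine XDIMB.finrank_ge q _ (Pi.basisFun ℂ (Fin n)).linearIndependent _ ?_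
    intro j hj a ha
    rw [Pi.basisFun_apply, Pi.single_apply, if_neg]
    rintro rfl
    exact absurd ha (not_lt.2 hj)
  have h3 := Submodule.finrank_sup_add_finrank_inf_eq (Fl x z p) (Est q)
  have h4 := Submodule.finrank_le (Fl x z p ⊔ Est q)
  rw [Module.finrank_fin_fun] at h4
  omega

end Pool.Agent.SH
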