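import Pool.Agent.Work.MP_1c6e58_ag.SH.Stmts

set_option autoImplicit false

open Finset

namespace Pool.Agent.SH

theorem I_EMBP (hPHI : St_PHI) : St_EMBP := by
  intro A B
  unfold Emb
  refine exists_congr fun φ => and_congr_right fun hv => ?_
  constructor
  · rintro ⟨h1, h2, h3⟩
    exact ⟨((hPHI _ _ φ B.v A.v hv).2 B.u A.u h2).2 h1, h2, h3⟩
  · rintro ⟨h1, h2, h3⟩
    exact ⟨((hPHI _ _ φ B.v A.v hv).2 B.u A.u h2).1 h1, h2, h3⟩

end Pool.Agent.SH
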