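import Pool.Agent.Work.MP_1c6e58_ag.SH.Stmts

set_option autoImplicit false

open Finset

namespace Pool.Agent.SH

namespace XEMBT

theorem refl (A : Itv) : Emb A A := by
  refine ⟨RelEmbedding.refl _, fun j k => Iff.rfl, fun j => ?_, fun i hi => ?_, rfl⟩
  · simp
  · exact absurd ⟨i, rfl⟩ hi

theorem trans {A B C : Itv} (hAB : Emb A B) (hBC : Emb B C) : Emb A C := by
  obtain ⟨φ, h1, h2, h3, h4⟩ := hAB
  obtain ⟨ψ, k1, k2, k3, k4⟩ := hBC
  refine ⟨φ.trans ψ, fun j k => ?_, fun j => ?_, fun i hi => ?_, h4.trans k4⟩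
  · show C.v (ψ (φ j)) < C.v (ψ (φ k)) ↔ _
    rw [k1, h1]
  · show C.u (ψ (φ j)) = C.v (ψ (φ (A.v.symm (A.u j))))
    rw [k2, h2]
    simp
  · by_cases hr : i ∈ Set.range ψ
    · obtain ⟨j, rfl⟩ := hr
      have hj : j ∉ Set.range φ := by
        rintro ⟨l, rfl⟩
        exact hi ⟨l, rfl⟩
      rw [k2, h3 j hj]
      simp
    · exact k3 i hr

end XEMBT

theorem I_EMBT (_hEMBP : St_EMBP) : St_EMBT :=
  ⟨XEMBT.refl, fun _ _ _ => XEMBT.trans⟩

end Pool.Agent.SH
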