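import Pool.Agent.Work.MP_1c6e58_ag.SH.Stmts

/-!
MP_1c6e58_ag, project SH, item EX0: existence of the multiplicity (series form).
-/

set_option autoImplicit false

open Finset

namespace Pool.Agent.SH

namespace XEX0

lemma coeff_succ (F : PowerSeries ℤ) (t : ℕ) :
    PowerSeries.coeff (t + 1) (F * (1 - PowerSeries.X)) =
      PowerSeries.coeff (t + 1) F - PowerSeries.coeff t F := by
  rw [mul_sub, mul_one, map_sub, PowerSeries.coeff_succ_mul_X]

lemma coeff_zero' (F : PowerSeries ℤ) :
    PowerSeries.coeff 0 (F * (1 - PowerSeries.X)) = PowerSeries.coeff 0 F := by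
  rw [mul_sub, mul_one, map_sub, PowerSeries.coeff_zero_mul_X, sub_zero]

/-- If the coefficients of `F (1 - X)^d` are eventually negative, those of `F` are too. -/
lemma neg_of_neg (d : ℕ) : ∀ F : PowerSeries ℤ,
    (∃ T : ℕ, ∀ t, T ≤ t → PowerSeries.coeff t (F * (1 - PowerSeries.X) ^ d) ≤ -1) →
    ∃ T : ℕ, ∀ t, T ≤ t → PowerSeries.coeff t F ≤ -1 := by
  induction d with
  | zero =>
    intro F h
    simpa using h
  | succ d ih =>
    intro F h
    have h1 : ∃ T : ℕ, ∀ t, T ≤ t →
        PowerSeries.coeff t ((F * (1 - PowerSeries.X)) * (1 - PowerSeries.X) ^ d) ≤ -1 := by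
      obtain ⟨T, hT⟩ := h
      refine ⟨T, fun t ht => ?_⟩
      have := hT t ht
      rwa [pow_succ', ← mul_assoc] at this
    obtain ⟨T, hT⟩ := ih _ h1
    have h2 : ∀ k : ℕ, PowerSeries.coeff (T + k) F ≤ PowerSeries.coeff T F - k := by
      intro k
      induction k with
      | zero => simp
      | succ k ihk =>
        have h3 := hT (T + k + 1) (by omega)
        rw [coeff_succ] at h3
        have e : T + (k + 1) = T + k + 1 := by ring
        rw [e]
        push_cast
        linarith
    refine ⟨T + (PowerSeries.coeff T F).natAbs + 1, fun t ht => ?_⟩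
    obtain ⟨k, rfl⟩ := Nat.exists_eq_add_of_le (show T ≤ t by omega)
    have h3 := h2 k
    have h4 : (PowerSeries.coeff T F).natAbs + 1 ≤ k := by omega
    have h5 : ((PowerSeries.coeff T F).natAbs : ℤ) + 1 ≤ k := by exact_mod_cast h4
    have h6 : PowerSeries.coeff T F ≤ ((PowerSeries.coeff T F).natAbs : ℤ) := Int.le_natAbs
    linarith

lemma one_sub_ne : (1 - PowerSeries.X : PowerSeries ℤ) ≠ 0 := by
  intro h
  have := congrArg (PowerSeries.coeff 0) h
  simp at this

lemma poly_eventually_zero (Q : Polynomial ℤ) : ∀ t, Q.natDegree + 1 ≤ t →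
    PowerSeries.coeff t (Q : PowerSeries ℤ) = 0 := by
  intro t ht
  rw [Polynomial.coeff_coe]
  exact Polynomial.coeff_eq_zero_of_natDegree_lt (by omega)

/-- The abstract statement: a series with positive coefficients which becomes a polynomial
after multiplication by a power of `1 - X`. -/
lemma main (F : PowerSeries ℤ) (hF : ∀ t, 1 ≤ PowerSeries.coeff t F) (N : ℕ) (Q0 : Polynomial ℤ)
    (h : F * (1 - PowerSeries.X) ^ (N + 1) = (Q0 : PowerSeries ℤ)) :
    ∃ d e : ℕ, 0 < e ∧ ∃ Q : Polynomial ℤ, Q.eval 1 = (e : ℤ) ∧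
      F * (1 - PowerSeries.X) ^ (d + 1) = (Q : PowerSeries ℤ) := by
  have hF0 : F ≠ 0 := by
    intro h0
    have := hF 0
    rw [h0] at this
    simp at this
  have hQ0 : Q0 ≠ 0 := by
    intro h0
    rw [h0] at h
    have h1 : F * (1 - PowerSeries.X) ^ (N + 1) = 0 := by rw [h]; simp
    rcases mul_eq_zero.1 h1 with h2 | h2
    · exact hF0 h2
    · exact one_sub_ne (pow_eq_zero_iff (by omega) |>.1 h2)
  obtain ⟨q, hq, hnd⟩ := Polynomial.exists_eq_pow_rootMultiplicity_mul_and_not_dvd Q0 hQ0 1
  set s := Q0.rootMultiplicity 1 with hs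
  have hq1 : q.eval 1 ≠ 0 := by
    intro h0
    exact hnd (Polynomial.dvd_iff_isRoot.2 h0)
  have hcoe : (Q0 : PowerSeries ℤ) =
      (((-1 : Polynomial ℤ) ^ s * q : Polynomial ℤ) : PowerSeries ℤ) * (1 - PowerSeries.X) ^ s := by
    have e1 : Q0 = ((-1 : Polynomial ℤ) ^ s * q) * (1 - Polynomial.X) ^ s := by
      rw [hq]
      have : (Polynomial.X - Polynomial.C (1 : ℤ)) = (-1) * (1 - Polynomial.X) := by
        simp
      rw [this, mul_pow]
      ring
    have e2 := congrArg (fun P : Polynomial ℤ => Polynomial.coeToPowerSeries.ringHom P) e1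
    simp only [map_mul, map_pow, map_sub, map_one, map_neg] at e2
    simpa using e2
  rw [hcoe] at h
  set Q : Polynomial ℤ := (-1 : Polynomial ℤ) ^ s * q with hQ
  have hQ1 : Q.eval 1 ≠ 0 := by
    rw [hQ, Polynomial.eval_mul]
    simp [hq1]
  rcases Nat.lt_or_ge N s with hlt | hge
  · -- `F` would be a polynomial
    exfalso
    obtain ⟨k, hk⟩ := Nat.exists_eq_add_of_le (show N + 1 ≤ s by omega)
    have h' : F * (1 - PowerSeries.X) ^ (N + 1) =
        ((Q : PowerSeries ℤ) * (1 - PowerSeries.X) ^ k) * (1 - PowerSeries.X) ^ (N + 1) := by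
      rw [h, hk, pow_add (1 - PowerSeries.X : PowerSeries ℤ) (N + 1) k]
      ring
    have h2 := mul_right_cancel₀ (pow_ne_zero _ one_sub_ne) h'
    have h3 : F = ((Q * (1 - Polynomial.X) ^ k : Polynomial ℤ) : PowerSeries ℤ) := by
      rw [h2]
      have e2 : Polynomial.coeToPowerSeries.ringHom (Q * (1 - Polynomial.X) ^ k) =
          Polynomial.coeToPowerSeries.ringHom Q *
            (1 - Polynomial.coeToPowerSeries.ringHom Polynomial.X) ^ k := by
        simp only [map_mul, map_pow, map_sub, map_one]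
      simpa using e2.symm
    have h4 := hF ((Q * (1 - Polynomial.X) ^ k).natDegree + 1)
    rw [h3, poly_eventually_zero _ _ le_rfl] at h4
    omega
  · obtain ⟨d, hd⟩ := Nat.exists_eq_add_of_le hge
    have h2 : F * (1 - PowerSeries.X) ^ (d + 1) = (Q : PowerSeries ℤ) := by
      have e : N + 1 = (d + 1) + s := by omega
      rw [e, pow_add, ← mul_assoc] at h
      exact mul_right_cancel₀ (pow_ne_zero _ one_sub_ne) h
    -- positivity
    have hpos : 0 < Q.eval 1 := by
      by_contra hcon
      have hneg : Q.eval 1 ≤ -1 := by omega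
      obtain ⟨R, hR⟩ : ∃ R : Polynomial ℤ, Q = Polynomial.C (Q.eval 1) + (1 - Polynomial.X) * R := by
        have : (Polynomial.X - Polynomial.C (1 : ℤ)) ∣ Q - Polynomial.C (Q.eval 1) := by
          rw [Polynomial.dvd_iff_isRoot]
          simp
        obtain ⟨R, hR⟩ := this
        refine ⟨-R, ?_⟩
        have e : Q = Polynomial.C (Q.eval 1) + (Q - Polynomial.C (Q.eval 1)) := by ring
        calc Q = Polynomial.C (Q.eval 1) + (Q - Polynomial.C (Q.eval 1)) := e
          _ = _ := by
            rw [hR]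
            simp only [map_one]
            ring
      -- coefficients of F (1-X)^d
      have h5 : ∃ T : ℕ, ∀ t, T ≤ t →
          PowerSeries.coeff t (F * (1 - PowerSeries.X) ^ d) ≤ -1 := by
        refine ⟨R.natDegree + 1, fun t ht => ?_⟩
        have h6 : (F * (1 - PowerSeries.X) ^ d) * (1 - PowerSeries.X) =
            (PowerSeries.C (Q.eval 1)) + (1 - PowerSeries.X) * (R : PowerSeries ℤ) := by
          rw [mul_assoc, ← pow_succ, h2]
          conv_lhs => rw [hR]
          push_cast
          rfl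
        have h7 : (F * (1 - PowerSeries.X) ^ d) =
            PowerSeries.C (Q.eval 1) * PowerSeries.mk (fun _ => (1 : ℤ)) + (R : PowerSeries ℤ) := by
          apply mul_right_cancel₀ one_sub_ne
          have hgeo : PowerSeries.mk (fun _ => (1 : ℤ)) * (1 - PowerSeries.X) = 1 :=
            PowerSeries.mk_one_mul_one_sub_eq_one ℤ
          rw [h6, add_mul, mul_assoc, hgeo, mul_one]
          ring
        rw [h7, map_add, PowerSeries.coeff_C_mul, PowerSeries.coeff_mk, mul_one,
          poly_eventually_zero R t ht, add_zero]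
        exact hneg
      obtain ⟨T, hT⟩ := neg_of_neg d F h5
      have h8 := hT T le_rfl
      have h9 := hF T
      linarith
    refine ⟨d, (Q.eval 1).toNat, ?_, Q, ?_, h2⟩
    · omega
    · omega

end XEX0

open XEX0 in
theorem I_EX0 (hORD : St_ORD) (hHG : St_HG) (hUP : St_UP) (hDICK : St_DICK) : St_EX0 := by
  classical
  intro σ _ Z hZ
  obtain ⟨o⟩ := hORD σ
  set L := Lset o (MvPolynomial.vanishingIdeal ℂ Z) with hL
  have hHf : ∀ t, Hf Z t = ∑ i ∈ range (t + 1), gL L i := fun t => hHG σ o _ t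
  obtain ⟨Q0, hQ0⟩ := hDICK σ L (fun α γ h => hUP σ o _ α γ h)
  have hser : HS Z * (1 - PowerSeries.X) = PowerSeries.mk (fun i => (gL L i : ℤ)) := by
    ext t
    cases t with
    | zero =>
      rw [coeff_zero', PowerSeries.coeff_mk]
      unfold HS
      rw [PowerSeries.coeff_mk, hHf]
      simp
    | succ t =>
      rw [coeff_succ, PowerSeries.coeff_mk]
      unfold HS
      rw [PowerSeries.coeff_mk, PowerSeries.coeff_mk, hHf, hHf, Finset.sum_range_succ]
      push_cast
      ring
  have hprod : HS Z * (1 - PowerSeries.X) ^ (Fintype.card σ + 1) = (Q0 : PowerSeries ℤ) := by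
    rw [← hQ0, ← hser, pow_succ']
    ring
  have h0L : (0 : σ →₀ ℕ) ∉ L := by
    rintro ⟨f, hf, hs, -⟩
    have h1 : MvPolynomial.eval (0 : σ → ℂ) f = 0 := by
      rw [MvPolynomial.mem_vanishingIdeal_iff] at hf
      have := hf 0 hZ
      simpa [MvPolynomial.aeval_def, MvPolynomial.eval] using this
    rw [MvPolynomial.mem_support_iff] at hs
    apply hs
    have h2 : MvPolynomial.eval (0 : σ → ℂ) f = MvPolynomial.constantCoeff f :=
      RingHom.congr_fun MvPolynomial.eval_zero f
    rw [h2] at h1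
    exact h1
  have hg0 : gL L 0 = 1 := by
    unfold gL
    rw [Finset.finsuppAntidiag_zero, Finset.filter_singleton, if_pos h0L, Finset.card_singleton]
  have hpos : ∀ t, 1 ≤ Hf Z t := by
    intro t
    rw [hHf]
    have h1 := Finset.single_le_sum (f := fun i => gL L i) (fun _ _ => Nat.zero_le _)
      (Finset.mem_range.2 (Nat.succ_pos t))
    simp only [hg0] at h1
    exact h1
  have hF : ∀ t, 1 ≤ PowerSeries.coeff t (HS Z) := by
    intro t
    unfold HS
    rw [PowerSeries.coeff_mk]
    exact_mod_cast hpos t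
  obtain ⟨d, e, he, Q, hQe, hQ⟩ := main (HS Z) hF _ Q0 hprod
  exact ⟨d, e, he, Q, hQe, hQ⟩

end Pool.Agent.SH
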