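import Pool.Agent.Work.MP_1c6e58_ag.SH.Stmts

/-!
Item EXM (problem MP_1c6e58_ag, project SH): every interval has a unique multiplicity.
-/

set_option autoImplicit false

open Finset

namespace Pool.Agent.SH

theorem I_EXM (hEX0 : St_EX0) (hORIG : St_ORIG) (hMQM : St_MQM) (hUNI : St_UNI) : St_EXM := by
  intro A
  obtain ⟨d, e, h⟩ := hEX0 (Co A.n) (SV A.u A.v) (hORIG A.n A.u A.v A.le)
  have hm : MultAt A e := hMQM (Co A.n) (SV A.u A.v) d e h
  exact ⟨⟨d, e, h⟩, e, h.1, hm, fun e' he' => hUNI (Co A.n) (SV A.u A.v) e' e he' hm⟩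

end Pool.Agent.SH
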