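import Pool.Agent.Work.MP_1c6e58_ag.SH.Stmts

set_option autoImplicit false

open Finset

namespace Pool.Agent.SH

theorem I_GCNT : St_GCNT := by
  classical
  intro σ _
  have h1 : PowerSeries.mk (fun i => (gL (∅ : Set (σ →₀ ℕ)) i : ℤ)) =
      ∏ _j : σ, (PowerSeries.mk 1 : PowerSeries ℤ) := by
    ext i
    rw [PowerSeries.coeff_prod, PowerSeries.coeff_mk]
    simp only [PowerSeries.coeff_mk, Pi.one_apply, Finset.prod_const_one, Finset.sum_const,
      nsmul_eq_mul, mul_one]
    unfold gL
    congr 1
    simp only [Set.mem_empty_iff_false, not_false_eq_true, Finset.filter_true]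
  rw [h1, Finset.prod_const, Finset.card_univ, ← mul_pow, PowerSeries.mk_one_mul_one_sub_eq_one,
    one_pow]

end Pool.Agent.SH
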