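import Pool.Agent.Work.MP_1c6e58_ag.SH.Stmts

set_option autoImplicit false

open Finset

namespace Pool.Agent.SH

namespace XGPROD

theorem mem_gL {σ : Type} [Fintype σ] (α : σ →₀ ℕ) {D : DecidableEq σ} (i : ℕ) :
    α ∈ (Finset.univ : Finset σ).finsuppAntidiag i ↔ ∑ a, α a = i := by
  rw [Finset.mem_finsuppAntidiag]
  constructor
  · exact fun h => h.1
  · exact fun h => ⟨h, Finset.subset_univ _⟩

theorem sum_parts {σ τ : Type} [Fintype σ] [Fintype τ] (γ : σ ⊕ τ →₀ ℕ) :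
    ∑ a, γ a = ∑ a, inlP γ a + ∑ b, inrP γ b := by
  rw [Fintype.sum_sum_type]
  rfl

end XGPROD

open XGPROD in
theorem I_GPROD : St_GPROD := by
  classical
  intro σ τ _ _ L L' i
  unfold gL
  simp_rw [← Finset.card_product]
  rw [← Finset.card_sigma]
  refine Finset.card_bij' (fun γ _ => ⟨(∑ a, inlP γ a, ∑ b, inrP γ b), (inlP γ, inrP γ)⟩)
    (fun q _ => Finsupp.sumFinsuppEquivProdFinsupp.symm q.2) ?_ ?_ ?_ ?_
  · intro γ hγ
    rw [Finset.mem_filter] at hγ
    have h1 := (mem_gL γ i).1 hγ.1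
    rw [sum_parts] at h1
    have h2 : inlP γ ∉ L ∧ inrP γ ∉ L' := by
      have := hγ.2
      unfold LsetProd at this
      rw [Set.mem_ofPred_eq] at this
      push Not at this
      exact this
    rw [Finset.mem_sigma, Finset.mem_product]
    refine ⟨?_, ?_, ?_⟩
    · rw [HasAntidiagonal.mem_antidiagonal]
      exact h1
    · rw [Finset.mem_filter]
      exact ⟨(mem_gL (inlP γ) _).2 rfl, h2.1⟩
    · rw [Finset.mem_filter]
      exact ⟨(mem_gL (inrP γ) _).2 rfl, h2.2⟩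
  · rintro ⟨⟨p1, p2⟩, ⟨α, β⟩⟩ hq
    rw [Finset.mem_sigma, Finset.mem_product] at hq
    obtain ⟨hp, h1, h2⟩ := hq
    rw [HasAntidiagonal.mem_antidiagonal] at hp
    rw [Finset.mem_filter] at h1 h2
    have e1 := (mem_gL α p1).1 h1.1
    have e2 := (mem_gL β p2).1 h2.1
    have f1 : inlP (Finsupp.sumFinsuppEquivProdFinsupp.symm (α, β) : σ ⊕ τ →₀ ℕ) = α := by
      unfold inlP
      rw [Equiv.apply_symm_apply]
    have f2 : inrP (Finsupp.sumFinsuppEquivProdFinsupp.symm (α, β) : σ ⊕ τ →₀ ℕ) = β := by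
      unfold inrP
      rw [Equiv.apply_symm_apply]
    rw [Finset.mem_filter]
    constructor
    · refine (mem_gL _ _).2 ?_
      rw [sum_parts, f1, f2, e1, e2]
      exact hp
    · unfold LsetProd
      rw [Set.mem_ofPred_eq, f1, f2]
      push Not
      exact ⟨h1.2, h2.2⟩
  · intro γ _
    exact Equiv.symm_apply_apply _ _
  · rintro ⟨⟨p1, p2⟩, ⟨α, β⟩⟩ hq
    rw [Finset.mem_sigma, Finset.mem_product] at hq
    obtain ⟨hp, h1, h2⟩ := hq
    rw [Finset.mem_filter] at h1 h2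
    have e1 := (mem_gL α p1).1 h1.1
    have e2 := (mem_gL β p2).1 h2.1
    have f1 : inlP (Finsupp.sumFinsuppEquivProdFinsupp.symm (α, β) : σ ⊕ τ →₀ ℕ) = α := by
      unfold inlP
      rw [Equiv.apply_symm_apply]
    have f2 : inrP (Finsupp.sumFinsuppEquivProdFinsupp.symm (α, β) : σ ⊕ τ →₀ ℕ) = β := by
      unfold inrP
      rw [Equiv.apply_symm_apply]
    simp only [f1, f2, e1, e2]

end Pool.Agent.SH
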