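import Pool.Agent.Work.MP_1c6e58_ag.SH.Stmts

/-!
MP_1c6e58_ag, project SH: the Hilbert-Samuel series of a product.
-/

set_option autoImplicit false

open Finset

namespace Pool.Agent.SH

namespace XHPROD

lemma series (hHG : St_HG) {σ : Type} [Fintype σ] (o : LOrd σ) (Z : Set (σ → ℂ)) :
    HS Z * (1 - PowerSeries.X) =
      PowerSeries.mk (fun i => (gL (Lset o (MvPolynomial.vanishingIdeal ℂ Z)) i : ℤ)) := by
  have hf : ∀ t, Hf Z t =
      ∑ i ∈ range (t + 1), gL (Lset o (MvPolynomial.vanishingIdeal ℂ Z)) i := fun t =>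
    hHG σ o (MvPolynomial.vanishingIdeal ℂ Z) t
  ext t
  rw [mul_sub, mul_one, map_sub, PowerSeries.coeff_mk]
  cases t with
  | zero =>
    rw [PowerSeries.coeff_zero_mul_X, HS, PowerSeries.coeff_mk, hf]
    simp
  | succ t =>
    rw [PowerSeries.coeff_succ_mul_X, HS, PowerSeries.coeff_mk, PowerSeries.coeff_mk, hf, hf,
      sum_range_succ _ (t + 1)]
    push_cast
    ring

end XHPROD

open XHPROD in
theorem I_HPROD (hORD : St_ORD) (hOPROD : St_OPROD) (hHG : St_HG) (hLPROD : St_LPROD)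
    (hGPROD : St_GPROD) : St_HPROD := by
  intro σ τ _ _ Z Z'
  obtain ⟨o1⟩ := hORD σ
  obtain ⟨o2⟩ := hORD τ
  obtain ⟨o, ho⟩ := hOPROD σ τ o1 o2
  have h1 := series hHG o1 Z
  have h2 := series hHG o2 Z'
  have h3 := series hHG o (prodS Z Z')
  have h4 : HS (prodS Z Z') * (1 - PowerSeries.X) =
      (HS Z * (1 - PowerSeries.X)) * (HS Z' * (1 - PowerSeries.X)) := by
    rw [h1, h2, h3, hLPROD σ τ o1 o2 o ho Z Z']
    ext i
    rw [PowerSeries.coeff_mul, PowerSeries.coeff_mk, hGPROD σ τ]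
    push_cast
    refine sum_congr rfl fun p _ => ?_
    rw [PowerSeries.coeff_mk, PowerSeries.coeff_mk]
  have h5 : (1 - PowerSeries.X : PowerSeries ℤ) ≠ 0 := by
    intro h
    have := congrArg (PowerSeries.constantCoeff) h
    simp at this
  apply mul_right_cancel₀ h5
  rw [h4]
  ring

end Pool.Agent.SH
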