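import Pool.Agent.Work.MP_1c6e58_ag.SH.Stmts

/-!
MP_1c6e58_ag, project SH, item IIIB: everything strictly below an interval of the quadric family has
multiplicity one.
-/

set_option autoImplicit false

open Finset

namespace Pool.Agent.SH

namespace XIIIB

/-! ### The two value functions -/

theorem u_lt {N : ℕ} (hN : 4 ≤ N) {j : ℕ} (hj : j < N) : uIIIf N j < N := by
  unfold uIIIf
  split_ifs <;> omega

theorem v_lt {N : ℕ} (hN : 4 ≤ N) {j : ℕ} (hj : j < N) : vIIIf N j < N := by
  unfold vIIIf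
  split_ifs <;> omega

theorem u_inj {N : ℕ} (hN : 4 ≤ N) {i j : ℕ} (hi : i < N) (hj : j < N)
    (h : uIIIf N i = uIIIf N j) : i = j := by
  unfold uIIIf at h
  split_ifs at h <;> omega

theorem v_inj {N : ℕ} (hN : 4 ≤ N) {i j : ℕ} (hi : i < N) (hj : j < N)
    (h : vIIIf N i = vIIIf N j) : i = j := by
  unfold vIIIf at h
  split_ifs at h <;> omega

theorem v_0 (m : ℕ) : vIIIf m 0 = m - 2 := by
  unfold vIIIf
  rw [if_pos rfl]

theorem v_1 (m : ℕ) : vIIIf m 1 = m - 1 := by
  unfold vIIIf
  rw [if_neg (by omega), if_pos rfl]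

theorem v_2 {m : ℕ} (hm : 4 ≤ m) : vIIIf m (m - 2) = 0 := by
  unfold vIIIf
  rw [if_neg (by omega), if_neg (by omega), if_pos rfl]

theorem v_3 {m : ℕ} (hm : 4 ≤ m) : vIIIf m (m - 1) = 1 := by
  unfold vIIIf
  rw [if_neg (by omega), if_neg (by omega), if_neg (by omega), if_pos rfl]

theorem u_iff {N i j : ℕ} (hN : 4 ≤ N) (hi : i < N) (hj : j < N) :
    uIIIf N i < uIIIf N j ↔ ((i = 0 ∧ ¬ j = 0) ∨ (j = N - 1 ∧ ¬ i = N - 1) ∨
      (j < i ∧ ¬ j = 0 ∧ ¬ i = N - 1)) := by
  unfold uIIIf
  split_ifs <;> omega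

theorem v_iff {N i j : ℕ} (hN : 4 ≤ N) (hi : i < N) (hj : j < N) :
    vIIIf N i < vIIIf N j ↔ ((i = 0 ∧ j = 1) ∨ (i = N - 2 ∧ j = N - 1) ∨
      (j < i ∧ ¬ (j = 0 ∧ i = 1) ∧ ¬ (j = N - 2 ∧ i = N - 1))) := by
  unfold vIIIf
  split_ifs <;> omega

/-- The permutation with given values. -/
theorem perm_of {N : ℕ} (f : ℕ → ℕ) (hb : ∀ j, j < N → f j < N)
    (hi : ∀ i j, i < N → j < N → f i = f j → i = j) :
    ∃ w : Equiv.Perm (Fin N), ∀ j, (w j : ℕ) = f j := by
  have hinj : Function.Injective (fun j : Fin N => (⟨f j, hb j j.2⟩ : Fin N)) := by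
    intro i j h
    exact Fin.ext (hi i j i.2 j.2 (congrArg Fin.val h))
  exact ⟨Equiv.ofBijective _ (Finite.injective_iff_bijective.1 hinj), fun j => rfl⟩

/-- Two intervals of the quadric family of the same size are equal. -/
theorem isIII_unique {m : ℕ} {A B : Itv} (hA : IsIII m A) (hB : IsIII m B) : A = B := by
  obtain ⟨n, u, v, h⟩ := A
  obtain ⟨n', u', v', h'⟩ := B
  obtain ⟨_, hn, hu, hv⟩ := hA
  obtain ⟨_, hn', hu', hv'⟩ := hB
  simp only at hn hn' hu hv hu' hv'
  subst hn
  subst hn'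
  have e1 : u = u' := Equiv.ext fun j => Fin.ext ((hu j).trans (hu' j).symm)
  have e2 : v = v' := Equiv.ext fun j => Fin.ext ((hv j).trans (hv' j).symm)
  subst e1
  subst e2
  rfl

/-! ### Ranks -/

theorem rk_pos {n : ℕ} (w : Equiv.Perm (Fin n)) (p q j : Fin n) (h1 : j ≤ p) (h2 : w j ≤ q) :
    1 ≤ rk w p q :=
  Finset.card_pos.2 ⟨j, Finset.mem_filter.2 ⟨Finset.mem_univ _, h1, h2⟩⟩

theorem exists_of_rk_pos {n : ℕ} {w : Equiv.Perm (Fin n)} {p q : Fin n} (h : 1 ≤ rk w p q) :
    ∃ j, j ≤ p ∧ w j ≤ q := by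
  obtain ⟨j, hj⟩ := Finset.card_pos.1 h
  exact ⟨j, (Finset.mem_filter.1 hj).2⟩

theorem rk_lastp {n : ℕ} (w : Equiv.Perm (Fin n)) (p q : Fin n) (hp : (p : ℕ) + 1 = n) :
    rk w p q = q + 1 := by
  unfold rk
  have h : (univ.filter (fun j : Fin n => j ≤ p ∧ w j ≤ q)) =
      (Finset.Iic q).map w.symm.toEmbedding := by
    ext j
    rw [Finset.mem_filter, Finset.mem_map]
    constructor
    · rintro ⟨_, _, h⟩
      exact ⟨w j, Finset.mem_Iic.2 h, by simp⟩
    · rintro ⟨x, hx, rfl⟩
      refine ⟨Finset.mem_univ _, ?_, ?_⟩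
      · have := (w.symm.toEmbedding x).2
        rw [Fin.le_def]
        omega
      · simpa using Finset.mem_Iic.1 hx
  rw [h, Finset.card_map, Fin.card_Iic]

theorem rk_lastq {n : ℕ} (w : Equiv.Perm (Fin n)) (p q : Fin n) (hq : (q : ℕ) + 1 = n) :
    rk w p q = p + 1 := by
  unfold rk
  have h : (univ.filter (fun j : Fin n => j ≤ p ∧ w j ≤ q)) = Finset.Iic p := by
    ext j
    rw [Finset.mem_filter, Finset.mem_Iic]
    constructor
    · exact fun h => h.2.1
    · intro h
      refine ⟨Finset.mem_univ _, h, ?_⟩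
      have := (w j).2
      rw [Fin.le_def]
      omega
  rw [h, Fin.card_Iic]

/-- Lower bound of the ranks of permutations which fix the two ends. -/
theorem rk_lower {n : ℕ} (w : Equiv.Perm (Fin n)) (a b : Fin n) (ha : (a : ℕ) = 0)
    (hb : (b : ℕ) + 1 = n) (wa : w a = a) (wb : w b = b) (p q : Fin n) (hp : (p : ℕ) + 1 < n)
    (hq : (q : ℕ) + 1 < n) :
    1 ≤ rk w p q ∧ (p : ℕ) + q + 3 ≤ n + rk w p q := by
  refine ⟨rk_pos w p q a (by rw [Fin.le_def]; omega) (by rw [wa, Fin.le_def]; omega), ?_⟩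
  have h1 : (Finset.Iic p).card = rk w p q +
      ((Finset.Iic p).filter (fun j => ¬ w j ≤ q)).card := by
    rw [← Finset.card_filter_add_card_filter_not (s := Finset.Iic p) (fun j => w j ≤ q)]
    congr 1
    unfold rk
    congr 1
    ext j
    simp only [Finset.mem_filter, Finset.mem_Iic, Finset.mem_univ, true_and]
  have h2 : ((Finset.Iic p).filter (fun j => ¬ w j ≤ q)).card ≤ (Finset.Ioo q b).card := by
    refine Finset.card_le_card_of_injOn w ?_ (fun x _ y _ h => w.injective h)
    intro j hj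
    obtain ⟨h3, h4⟩ := Finset.mem_filter.1 (Finset.mem_coe.1 hj)
    rw [Finset.mem_Iic] at h3
    rw [Finset.mem_coe, Finset.mem_Ioo]
    refine ⟨not_le.1 h4, ?_⟩
    have h5 : w j ≠ b := by
      intro h
      have h6 : j = b := w.injective (h.trans wb.symm)
      rw [h6, Fin.le_def] at h3
      omega
    have h7 : (w j : ℕ) ≠ b := fun h => h5 (Fin.ext h)
    have h8 := (w j).2
    rw [Fin.lt_def]
    omega
  rw [Fin.card_Iic] at h1
  rw [Fin.card_Ioo] at h2
  omega

/-- Upper bound of the ranks of the lower end of the quadric family. -/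
theorem rk_upper {n : ℕ} (w : Equiv.Perm (Fin n)) (hw : ∀ j, (w j : ℕ) = uIIIf n j)
    (p q : Fin n) (hp : (p : ℕ) + 1 < n) :
    rk w p q ≤ (p : ℕ) + 1 - (n - 1 - q) + 1 := by
  have hn : 0 < n := by omega
  have h1 : (univ.filter (fun j : Fin n => j ≤ p ∧ w j ≤ q)) ⊆
      insert (⟨0, hn⟩ : Fin n) (Finset.Icc (⟨n - 1 - q, by omega⟩ : Fin n) p) := by
    intro j hj
    obtain ⟨_, h2, h3⟩ := Finset.mem_filter.1 hj
    rw [Finset.mem_insert, Finset.mem_Icc]
    by_cases hj0 : (j : ℕ) = 0
    · exact Or.inl (Fin.ext hj0)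
    · refine Or.inr ⟨?_, h2⟩
      rw [Fin.le_def] at h2 h3 ⊢
      have h4 := hw j
      unfold uIIIf at h4
      rw [if_neg hj0, if_neg (by omega)] at h4
      show n - 1 - (q : ℕ) ≤ j
      omega
  have h2 := (Finset.card_le_card h1).trans (Finset.card_insert_le _ _)
  rw [Fin.card_Icc] at h2
  exact h2

/-- A permutation which fixes the two ends and lies above `A.u` is equal to `A.u`. -/
theorem eq_of_ends (hBPO : St_BPO) {n : ℕ} (u w : Equiv.Perm (Fin n))
    (hu : ∀ j, (u j : ℕ) = uIIIf n j) (a b : Fin n) (ha : (a : ℕ) = 0)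
    (hb : (b : ℕ) + 1 = n) (wa : w a = a) (wb : w b = b) (h : Br u w) : w = u := by
  symm
  refine (hBPO n).2.2 u w h ?_
  intro p q
  by_cases hp : (p : ℕ) + 1 = n
  · rw [rk_lastp u p q hp, rk_lastp w p q hp]
  · have hp' : (p : ℕ) + 1 < n := by
      have := p.2
      omega
    by_cases hq : (q : ℕ) + 1 = n
    · rw [rk_lastq u p q hq, rk_lastq w p q hq]
    · have hq' : (q : ℕ) + 1 < n := by
        have := q.2
        omega
      have h1 := rk_upper u hu p q hp'
      have h2 := rk_lower w a b ha hb wa wb p q hp' hq'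
      omega

end XIIIB

open XIIIB in
theorem I_IIIB (hBPO : St_BPO) (hPEX : St_PEX) (hPHI : St_PHI) (hEMBP : St_EMBP)
    (hBELOW : St_BELOW) (hIIISV : St_IIISV) (hLIN : St_LIN) (hCOORD : St_COORD)
    (hIIILEN : St_IIILEN) : St_IIIB := by
  have _ := hPHI
  intro m A B hA hBA hne
  obtain ⟨u', h', hu', hemb⟩ := (hBELOW A B).1 hBA
  obtain ⟨θ, pv, pu, hoff, hlen⟩ := (hEMBP B ⟨A.n, u', A.v, h'⟩).1 hemb
  simp only at θ pv pu hoff hlen
  obtain ⟨N, bu, bw, hb⟩ := B
  simp only at θ pv pu hoff hlen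
  rcases N with _ | k
  · -- no position
    have h1 := hCOORD (Co 0) ∅
    have h2 : SV bu bw = coordS ((∅ : Finset (Co 0)) : Set (Co 0)) := by
      ext z
      constructor
      · intro _ i hi
        exact absurd hi (by simp)
      · intro _ p
        exact p.elim0
    exact ⟨_, by rw [h2]; exact h1⟩
  · have hSV := hIIISV m k A θ bw bu hA pv
    have hmono : ∀ i j : Fin (k + 1), (θ i : ℕ) < θ j ↔ (i : ℕ) < j := fun i j =>
      (θ.lt_iff_lt (a := i) (b := j))
    obtain ⟨hm4, hAn, hAu, hAv⟩ := id hA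
    set c1 : Prop := ∃ a b, ((θ a : ℕ) = 0 ∧ (θ b : ℕ) = 1) with hc1
    set c2 : Prop := ∃ a b, ((θ a : ℕ) = m - 2 ∧ (θ b : ℕ) = m - 1) with hc2
    have hle := hb
    -- first hypothesis
    have g1 : c1 → bu 0 ≠ Fin.last k := by
      rintro ⟨a, b, ha, hb1⟩ h0
      have ea : a = 0 := by
        by_contra hne0
        have : (0 : ℕ) < a := Nat.pos_of_ne_zero (fun h => hne0 (Fin.ext h))
        have := (hmono 0 a).2 this
        omega
      subst ea
      have h1 : bw 0 < bw b := by
        refine (pv 0 b).1 ?_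
        rw [Fin.lt_def, hAv, hAv, ha, hb1, v_0, v_1]
        omega
      have h2 : 1 ≤ rk bw 0 (bw 0) := rk_pos bw 0 (bw 0) 0 le_rfl le_rfl
      obtain ⟨j, hj, hj2⟩ := exists_of_rk_pos (h2.trans (hle 0 (bw 0)))
      have ej : j = 0 := nonpos_iff_eq_zero.1 hj
      rw [ej, h0] at hj2
      exact absurd (h1.trans_le (Fin.le_last _)) (not_lt.2 hj2)
    -- second hypothesis
    have g2 : c2 → bu (Fin.last k) ≠ 0 := by
      rintro ⟨a, b, ha, hb1⟩ h0
      have eb : b = Fin.last k := by
        by_contra hneb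
        have h1 : (b : ℕ) < Fin.last k := by
          have := Fin.le_last b
          rw [Fin.le_def] at this
          have h2 : (b : ℕ) ≠ Fin.last k := fun h => hneb (Fin.ext h)
          omega
        have h2 := (hmono b (Fin.last k)).2 h1
        have h3 := (θ (Fin.last k)).2
        omega
      subst eb
      have h1 : bw a < bw (Fin.last k) := by
        refine (pv a (Fin.last k)).1 ?_
        rw [Fin.lt_def, hAv, hAv, ha, hb1, v_2 hm4, v_3 hm4]
        omega
      have h2 : 1 ≤ rk bw (bw.symm 0) 0 := rk_pos bw _ 0 (bw.symm 0) le_rfl (by simp)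
      obtain ⟨j, hj, hj2⟩ := exists_of_rk_pos (h2.trans (hle _ 0))
      have ej : j = Fin.last k := by
        apply bu.injective
        rw [h0]
        exact nonpos_iff_eq_zero.1 hj2
      rw [ej] at hj
      have h3 : bw.symm 0 = Fin.last k := le_antisymm (Fin.le_last _) hj
      have h4 : bw (Fin.last k) = 0 := by rw [← h3]; simp
      rw [h4] at h1
      exact absurd h1 (not_lt.2 (Fin.zero_le _))
    -- third hypothesis
    have g3 : ¬ (c1 ∧ c2 ∧ bu 0 = 0 ∧ bu (Fin.last k) = Fin.last k) := by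
      rintro ⟨⟨a0, b0, ha0, hb0⟩, ⟨a1, b1, ha1, hb1⟩, x0, x1⟩
      have hlast : ((Fin.last k : Fin (k + 1)) : ℕ) = k := rfl
      have hzero : ((0 : Fin (k + 1)) : ℕ) = 0 := rfl
      have ea0 : (a0 : ℕ) = 0 := by
        by_contra h
        have := (hmono 0 a0).2 (Nat.pos_of_ne_zero h)
        omega
      have eb1 : (b1 : ℕ) = k := by
        by_contra h
        have h1 := b1.2
        have h2 := (hmono b1 (Fin.last k)).2 (by omega)
        have h3 := (θ (Fin.last k)).2
        omega
      have eb0 : (b0 : ℕ) = 1 := by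
        have h1 := (hmono a0 b0).1 (by omega)
        by_contra h
        have h2 := b0.2
        have h3 := (hmono a0 ⟨1, by omega⟩).2 (by simp only; omega)
        have h4 := (hmono ⟨1, by omega⟩ b0).2 (by simp only; omega)
        omega
      have ea1 : (a1 : ℕ) + 1 = k := by
        have h1 := (hmono a1 b1).1 (by omega)
        by_contra h
        have h3 := (hmono a1 ⟨k - 1, by omega⟩).2 (by simp only; omega)
        have h4 := (hmono ⟨k - 1, by omega⟩ b1).2 (by simp only; omega)
        omega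
      have hk : 3 ≤ k := by
        have h1 := (hmono b0 a1).1 (by omega)
        omega
      have hinj : ∀ i j : Fin (k + 1), (θ i : ℕ) = θ j ↔ (i : ℕ) = j := fun i j =>
        ⟨fun h => congrArg Fin.val (θ.injective (Fin.ext h)), fun h => by rw [Fin.ext h]⟩
      have s0 : ∀ j : Fin (k + 1), (θ j : ℕ) = 0 ↔ (j : ℕ) = 0 := by
        intro j
        have h1 := hinj j a0
        rw [ha0, ea0] at h1
        exact h1
      have s1 : ∀ j : Fin (k + 1), (θ j : ℕ) = 1 ↔ (j : ℕ) = 1 := by
        intro j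
        have h1 := hinj j b0
        rw [hb0, eb0] at h1
        exact h1
      have s2 : ∀ j : Fin (k + 1), (θ j : ℕ) = m - 2 ↔ (j : ℕ) = k + 1 - 2 := by
        intro j
        have h1 := hinj j a1
        rw [ha1] at h1
        rw [h1]
        omega
      have s3 : ∀ j : Fin (k + 1), (θ j : ℕ) = m - 1 ↔ (j : ℕ) = k + 1 - 1 := by
        intro j
        have h1 := hinj j b1
        rw [hb1] at h1
        rw [h1]
        omega
      have t0 : (θ 0 : ℕ) = 0 := (s0 0).2 rfl
      have tl : (θ (Fin.last k) : ℕ) = m - 1 := (s3 (Fin.last k)).2 (by omega)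
      have hθm : ∀ j : Fin (k + 1), (θ j : ℕ) < m := fun j => by
        have := (θ j).2
        omega
      -- the two ends of `u'`
      have wa : u' (θ 0) = θ 0 := by
        have h1 : u' (u'.symm (θ 0)) = θ 0 := by simp
        have hi : u'.symm (θ 0) ∈ Set.range θ := by
          by_contra hni
          have h2 := hoff _ hni
          rw [h1] at h2
          have h3 := hAv (u'.symm (θ 0))
          rw [← h2, t0] at h3
          have h4 : ((u'.symm (θ 0) : Fin A.n) : ℕ) = m - 2 := by
            refine v_inj hm4 ?_ (by omega) (h3.symm.trans (v_2 hm4).symm)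
            have := (u'.symm (θ 0)).2
            omega
          exact hni ⟨a1, Fin.ext (ha1.trans h4.symm)⟩
        obtain ⟨j0, hj0⟩ := hi
        by_cases hj : j0 = 0
        · rw [hj] at hj0
          rw [← hj0] at h1
          exact h1
        · exfalso
          have h2 : bu 0 < bu j0 := by
            rw [x0]
            refine Fin.pos_iff_ne_zero.2 fun h => hj (bu.injective (h.trans x0.symm))
          have h3 := (pu 0 j0).2 h2
          rw [hj0, h1, Fin.lt_def, t0] at h3
          omega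
      have wb : u' (θ (Fin.last k)) = θ (Fin.last k) := by
        have h1 : u' (u'.symm (θ (Fin.last k))) = θ (Fin.last k) := by simp
        have hi : u'.symm (θ (Fin.last k)) ∈ Set.range θ := by
          by_contra hni
          have h2 := hoff _ hni
          rw [h1] at h2
          have h3 := hAv (u'.symm (θ (Fin.last k)))
          rw [← h2, tl] at h3
          have h4 : ((u'.symm (θ (Fin.last k)) : Fin A.n) : ℕ) = 1 := by
            refine v_inj hm4 ?_ (by omega) (h3.symm.trans (v_1 m).symm)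
            have := (u'.symm (θ (Fin.last k))).2
            omega
          exact hni ⟨b0, Fin.ext (hb0.trans h4.symm)⟩
        obtain ⟨j0, hj0⟩ := hi
        by_cases hj : j0 = Fin.last k
        · rw [hj] at hj0
          rw [← hj0] at h1
          exact h1
        · exfalso
          have h2 : bu j0 < bu (Fin.last k) := by
            rw [x1]
            refine lt_of_le_of_ne (Fin.le_last _) fun h => hj (bu.injective (h.trans x1.symm))
          have h3 := (pu j0 (Fin.last k)).2 h2
          rw [hj0, h1, Fin.lt_def, tl] at h3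
          have h4 := (u' (θ (Fin.last k))).2
          omega
      have hAu' : ∀ j, (A.u j : ℕ) = uIIIf A.n j := fun j =>
        (hAu j).trans (congrArg (fun N => uIIIf N j) hAn.symm)
      have hEq := eq_of_ends hBPO A.u u' hAu' (θ 0) (θ (Fin.last k)) t0
        (by rw [tl, hAn]; omega) wa wb hu'
      -- `B` belongs to the quadric family
      have hN4 : 4 ≤ k + 1 := by omega
      obtain ⟨Cv, hCv⟩ := perm_of (N := k + 1) (vIIIf (k + 1)) (fun j hj => v_lt hN4 hj)
        (fun i j hi hj h => v_inj hN4 hi hj h)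
      obtain ⟨Cu, hCu⟩ := perm_of (N := k + 1) (uIIIf (k + 1)) (fun j hj => u_lt hN4 hj)
        (fun i j hi hj h => u_inj hN4 hi hj h)
      have patv : IsPat Cv A.v θ := by
        intro i j
        rw [Fin.lt_def, Fin.lt_def, hAv, hAv, hCv, hCv, v_iff hm4 (hθm i) (hθm j),
          v_iff hN4 i.2 j.2, s0 i, s1 j, s2 i, s3 j, s0 j, s1 i, s2 j, s3 i, hmono j i]
      have patu : IsPat Cu A.u θ := by
        intro i j
        rw [Fin.lt_def, Fin.lt_def, hAu, hAu, hCu, hCu, u_iff hm4 (hθm i) (hθm j),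
          u_iff hN4 i.2 j.2, s0 i, s3 j, s0 j, s3 i, hmono j i]
      have ev : bw = Cv := (hPEX (k + 1) A.n θ A.v).2 bw Cv pv patv
      have eu : bu = Cu := by
        rw [hEq] at pu
        exact (hPEX (k + 1) A.n θ A.u).2 bu Cu pu patu
      have hB : IsIII (k + 1) ⟨k + 1, bu, bw, hb⟩ :=
        ⟨hN4, rfl, fun j => (congrArg (fun w : Equiv.Perm (Fin (k + 1)) => (w j : ℕ)) eu).trans
          (hCu j), fun j => (congrArg (fun w : Equiv.Perm (Fin (k + 1)) => (w j : ℕ)) ev).trans
          (hCv j)⟩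
      have l1 := hIIILEN m A hA
      have l2 := hIIILEN (k + 1) _ hB
      simp only at l2
      rw [hEq] at hlen
      have hkm : k + 1 = m := by
        push_cast at l2
        omega
      apply hne
      rw [← hkm] at hA
      exact isIII_unique hB hA
    obtain ⟨d, hd⟩ := hLIN k bu c1 c2 g1 g2 g3
    refine ⟨d, ?_⟩
    have hEq : SV bu bw = {z : Co (k + 1) → ℂ | (c1 → Um z (bu.symm (Fin.last k)) 0 = 0) ∧
      (c2 → bv z (bu.symm 0) = 0)} := Set.ext hSV
    show MQ (SV bu bw) d 1
    rw [hEq]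
    exact hd

end Pool.Agent.SH
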