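import Pool.Agent.Work.MP_1c6e58_ag.SH.Stmts

set_option autoImplicit false

open Finset

namespace Pool.Agent.SH

namespace XIIIEX

theorem u_lt {m : ℕ} (hm : 4 ≤ m) (j : ℕ) (hj : j < m) : uIIIf m j < m := by
  unfold uIIIf; split_ifs <;> omega

theorem v_lt {m : ℕ} (hm : 4 ≤ m) (j : ℕ) (hj : j < m) : vIIIf m j < m := by
  unfold vIIIf; split_ifs <;> omega

theorem u_inj {m : ℕ} (_hm : 4 ≤ m) (j k : ℕ) (hj : j < m) (hk : k < m)
    (h : uIIIf m j = uIIIf m k) : j = k := by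
  unfold uIIIf at h; split_ifs at h <;> omega

theorem v_inj {m : ℕ} (_hm : 4 ≤ m) (j k : ℕ) (hj : j < m) (hk : k < m)
    (h : vIIIf m j = vIIIf m k) : j = k := by
  unfold vIIIf at h; split_ifs at h <;> omega

theorem exists_perm {m : ℕ} (f : ℕ → ℕ) (h1 : ∀ j, j < m → f j < m)
    (h2 : ∀ j k, j < m → k < m → f j = f k → j = k) :
    ∃ w : Equiv.Perm (Fin m), ∀ j : Fin m, (w j : ℕ) = f j := by
  let g : Fin m → Fin m := fun j => ⟨f j, h1 j j.2⟩
  have hg : Function.Injective g := by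
    intro j k h
    have : f j = f k := congrArg Fin.val h
    exact Fin.ext (h2 j k j.2 k.2 this)
  exact ⟨Equiv.ofBijective g (Finite.injective_iff_bijective.mp hg), fun j => rfl⟩

theorem rk_sum {n : ℕ} (w : Equiv.Perm (Fin n)) (p q : Fin n) :
    rk w p q = ∑ j : Fin n, if j ≤ p ∧ w j ≤ q then 1 else 0 := by
  unfold rk
  rw [Finset.card_filter]

theorem uv_val {m : ℕ} (hm : 4 ≤ m) : uIIIf m 0 = 0 ∧ uIIIf m 1 = m - 2 ∧ uIIIf m (m - 2) = 1 ∧
    uIIIf m (m - 1) = m - 1 ∧ vIIIf m 0 = m - 2 ∧ vIIIf m 1 = m - 1 ∧ vIIIf m (m - 2) = 0 ∧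
    vIIIf m (m - 1) = 1 := by
  obtain ⟨k, rfl⟩ : ∃ k, m = k + 4 := ⟨m - 4, by omega⟩
  refine ⟨?_, ?_, ?_, ?_, ?_, ?_, ?_, ?_⟩
  · simp [uIIIf]
  · simp [uIIIf]
  · have h1 : k + 4 - 2 ≠ 0 := by omega
    have h2 : k + 4 - 2 ≠ k + 4 - 1 := by omega
    rw [uIIIf, if_neg h1, if_neg h2]
    omega
  · have h1 : k + 4 - 1 ≠ 0 := by omega
    rw [uIIIf, if_neg h1, if_pos rfl]
  · simp [vIIIf]
  · simp [vIIIf]
  · have h1 : k + 4 - 2 ≠ 0 := by omega
    have h2 : k + 4 - 2 ≠ 1 := by omega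
    rw [vIIIf, if_neg h1, if_neg h2, if_pos rfl]
  · have h1 : k + 4 - 1 ≠ 0 := by omega
    have h2 : k + 4 - 1 ≠ 1 := by omega
    have h3 : k + 4 - 1 ≠ k + 4 - 2 := by omega
    rw [vIIIf, if_neg h1, if_neg h2, if_neg h3, if_pos rfl]

theorem br {m : ℕ} (hm : 4 ≤ m) (u v : Equiv.Perm (Fin m)) (hu : ∀ j, (u j : ℕ) = uIIIf m j)
    (hv : ∀ j, (v j : ℕ) = vIIIf m j) : Br u v := by
  intro p q
  rw [rk_sum, rk_sum]
  let a0 : Fin m := ⟨0, by omega⟩
  let a1 : Fin m := ⟨1, by omega⟩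
  let a2 : Fin m := ⟨m - 2, by omega⟩
  let a3 : Fin m := ⟨m - 1, by omega⟩
  rw [← Finset.sum_add_sum_compl ({a0, a1, a2, a3} : Finset (Fin m))
    (fun j => if j ≤ p ∧ v j ≤ q then 1 else 0),
    ← Finset.sum_add_sum_compl ({a0, a1, a2, a3} : Finset (Fin m))
    (fun j => if j ≤ p ∧ u j ≤ q then 1 else 0)]
  apply add_le_add
  · have n01 : a0 ∉ ({a1, a2, a3} : Finset (Fin m)) := by
      simp only [mem_insert, mem_singleton, a0, a1, a2, a3, Fin.mk.injEq]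
      omega
    have n12 : a1 ∉ ({a2, a3} : Finset (Fin m)) := by
      simp only [mem_insert, mem_singleton, a1, a2, a3, Fin.mk.injEq]
      omega
    have n23 : a2 ∉ ({a3} : Finset (Fin m)) := by
      simp only [mem_singleton, a2, a3, Fin.mk.injEq]
      omega
    rw [Finset.sum_insert n01, Finset.sum_insert n12, Finset.sum_insert n23,
      Finset.sum_singleton, Finset.sum_insert n01, Finset.sum_insert n12,
      Finset.sum_insert n23, Finset.sum_singleton]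
    have hp := p.2
    have hq := q.2
    simp only [Fin.le_def, hu, hv]
    have g0 : (a0 : ℕ) = 0 := rfl
    have g1 : (a1 : ℕ) = 1 := rfl
    have g2 : (a2 : ℕ) = m - 2 := rfl
    have g3 : (a3 : ℕ) = m - 1 := rfl
    rw [g0, g1, g2, g3]
    obtain ⟨e0, e1, e2, e3, f0, f1, f2, f3⟩ := uv_val hm
    rw [e0, e1, e2, e3, f0, f1, f2, f3]
    generalize (p : ℕ) = P at *
    generalize (q : ℕ) = Q at *
    split_ifs <;> omega
  · apply le_of_eq
    apply Finset.sum_congr rfl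
    intro j hj
    have hj' : (j : ℕ) ≠ 0 ∧ (j : ℕ) ≠ 1 ∧ (j : ℕ) ≠ m - 2 ∧ (j : ℕ) ≠ m - 1 := by
      simp only [mem_compl, mem_insert, mem_singleton, not_or] at hj
      refine ⟨fun h => hj.1 (Fin.ext h), fun h => hj.2.1 (Fin.ext h),
        fun h => hj.2.2.1 (Fin.ext h), fun h => hj.2.2.2 (Fin.ext h)⟩
    have : v j = u j := by
      apply Fin.ext
      rw [hu, hv]
      unfold uIIIf vIIIf
      rw [if_neg hj'.1, if_neg hj'.2.1, if_neg hj'.2.2.1, if_neg hj'.2.2.2, if_neg hj'.1,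
        if_neg hj'.2.2.2]
    rw [this]

end XIIIEX

open XIIIEX in
theorem I_IIIEX : St_IIIEX := by
  intro m hm
  obtain ⟨u, hu⟩ := exists_perm (m := m) (uIIIf m) (u_lt hm) (u_inj hm)
  obtain ⟨v, hv⟩ := exists_perm (m := m) (vIIIf m) (v_lt hm) (v_inj hm)
  exact ⟨⟨m, u, v, br hm u v hu hv⟩, hm, rfl, hu, hv⟩

end Pool.Agent.SH
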