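import Pool.Agent.Work.MP_1c6e58_ag.SH.Stmts

/-!
MP_1c6e58_ag, project SH, item IIIM: multiplicity of the quadric family.
-/

set_option autoImplicit false

open Finset

namespace Pool.Agent.SH

theorem I_IIIM (hIIISV : St_IIISV) (hSING : St_SING) : St_IIIM := by
  intro m A hA
  obtain ⟨n, u, v, h⟩ := A
  have hA' := hA
  obtain ⟨hm, hn, hu, hv⟩ := hA
  dsimp only at hn
  subst hn
  obtain ⟨k, rfl⟩ : ∃ k, n = k + 1 := ⟨n - 1, by omega⟩
  have hk : 3 ≤ k := by omega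
  have hu0 : u 0 = 0 := by
    apply Fin.ext
    have := hu 0
    simpa [uIIIf] using this
  have hul : u (Fin.last k) = Fin.last k := by
    apply Fin.ext
    have h1 := hu (Fin.last k)
    have h2 : ¬ (k = 0) := by omega
    simpa [uIIIf, h2] using h1
  have hs0 : u.symm 0 = 0 := by
    rw [Equiv.symm_apply_eq]
    exact hu0.symm
  have hsl : u.symm (Fin.last k) = Fin.last k := by
    rw [Equiv.symm_apply_eq]
    exact hul.symm
  obtain ⟨d, hd⟩ := hSING k hk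
  refine ⟨d, ?_⟩
  have hset : SV u v = {z : Co (k + 1) → ℂ | Um z (Fin.last k) 0 = 0 ∧ bv z 0 = 0} := by
    ext z
    have key := hIIISV (k + 1) k ⟨k + 1, u, v, h⟩ (RelEmbedding.refl _) v u hA'
      (fun j l => Iff.rfl) z
    rw [key, hs0, hsl]
    have c1 : ∃ a b : Fin (k + 1), (((RelEmbedding.refl (· ≤ · : Fin (k + 1) → Fin (k + 1) → Prop)) a
        : Fin (k + 1)) : ℕ) = 0 ∧ (((RelEmbedding.refl (· ≤ · : Fin (k + 1) → Fin (k + 1) → Prop)) b
        : Fin (k + 1)) : ℕ) = 1 := ⟨⟨0, by omega⟩, ⟨1, by omega⟩, rfl, rfl⟩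
    have c2 : ∃ a b : Fin (k + 1), (((RelEmbedding.refl (· ≤ · : Fin (k + 1) → Fin (k + 1) → Prop)) a
        : Fin (k + 1)) : ℕ) = k + 1 - 2 ∧
        (((RelEmbedding.refl (· ≤ · : Fin (k + 1) → Fin (k + 1) → Prop)) b
        : Fin (k + 1)) : ℕ) = k + 1 - 1 := ⟨⟨k + 1 - 2, by omega⟩, ⟨k + 1 - 1, by omega⟩, rfl, rfl⟩
    constructor
    · rintro ⟨h1, h2⟩
      exact ⟨h1 c1, h2 c2⟩
    · rintro ⟨h1, h2⟩
      exact ⟨fun _ => h1, fun _ => h2⟩
  change MQ (SV u v) d 2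
  rw [hset]
  exact hd

end Pool.Agent.SH
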