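import Pool.Agent.Work.MP_1c6e58_ag.SH.Stmts

/-!
MP_1c6e58_ag, project SH, item IIISV: Schubert varieties of the patterns of the quadric family.
-/

set_option autoImplicit false

open Finset

namespace Pool.Agent.SH

namespace XIIISV

theorem lb {n : ℕ} (w : Equiv.Perm (Fin n)) (j : Fin n) (S : Finset (Fin n))
    (h : ∀ i ∈ S, w i < w j) : S.card ≤ (w j : ℕ) := by
  have h1 : (S.image w).card = S.card := Finset.card_image_of_injective _ w.injective
  have h2 : S.image w ⊆ Finset.Iio (w j) := by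
    intro a ha
    obtain ⟨i, hi, rfl⟩ := Finset.mem_image.1 ha
    exact Finset.mem_Iio.2 (h i hi)
  have h3 := Finset.card_le_card h2
  rw [Fin.card_Iio] at h3
  omega

theorem ub {n : ℕ} (w : Equiv.Perm (Fin n)) (j : Fin n) (T : Finset (Fin n))
    (h : ∀ i, w i < w j → i ∈ T) : (w j : ℕ) ≤ T.card := by
  have h2 : Finset.Iio (w j) ⊆ T.image w := by
    intro a ha
    refine Finset.mem_image.2 ⟨w.symm a, h _ ?_, ?_⟩
    · rw [Equiv.apply_symm_apply]; exact Finset.mem_Iio.1 ha
    · rw [Equiv.apply_symm_apply]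
  have h3 := Finset.card_le_card h2
  rw [Fin.card_Iio] at h3
  exact h3.trans Finset.card_image_le

/-- the only non-inversions are `(0,1)` (if `c1`) and `(k,k+1)` (if `c2`) -/
def Sp {k : ℕ} (w : Equiv.Perm (Fin (k + 2))) (c1 c2 : Prop) : Prop :=
  ∀ i j : Fin (k + 2), i < j → w i < w j →
    (c1 ∧ (i : ℕ) = 0 ∧ (j : ℕ) = 1) ∨ (c2 ∧ (i : ℕ) = k ∧ (j : ℕ) = k + 1)

variable {k : ℕ} {w : Equiv.Perm (Fin (k + 2))} {c1 c2 : Prop}

theorem w_zero (H : Sp w c1 c2) : k ≤ (w 0 : ℕ) := by
  have h : ∀ i ∈ (Finset.univ \ {0, 1} : Finset (Fin (k + 2))), w i < w 0 := by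
    intro i hi
    rw [Finset.mem_sdiff, Finset.mem_insert, Finset.mem_singleton, not_or] at hi
    obtain ⟨_, h0, h1⟩ := hi
    have hi0 : (0 : Fin (k + 2)) < i := Fin.pos_iff_ne_zero.2 h0
    rcases lt_trichotomy (w i) (w 0) with h | h | h
    · exact h
    · exact absurd (w.injective h) h0
    · exfalso
      rcases H 0 i hi0 h with ⟨_, _, h3⟩ | ⟨_, h2, h3⟩
      · exact h1 (Fin.ext (by simpa using h3))
      · apply h1
        apply Fin.ext
        have : (0 : ℕ) = k := by simpa using h2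
        rw [h3, ← this]
        simp
  have h2 := lb w 0 _ h
  have h3 := Finset.le_card_sdiff ({0, 1} : Finset (Fin (k + 2))) Finset.univ
  have h4 : ({0, 1} : Finset (Fin (k + 2))).card ≤ 2 := Finset.card_le_two
  rw [Finset.card_univ, Fintype.card_fin] at h3
  omega

theorem w_last (H : Sp w c1 c2) : (w (Fin.last (k + 1)) : ℕ) ≤ 1 := by
  have h := ub w (Fin.last (k + 1)) {⟨k, by omega⟩} (by
    intro i hi
    rw [Finset.mem_singleton]
    have hne : i ≠ Fin.last (k + 1) := by
      rintro rfl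
      exact lt_irrefl _ hi
    have hlt : i < Fin.last (k + 1) := Fin.lt_last_iff_ne_last.2 hne
    apply Fin.ext
    rcases H i _ hlt hi with ⟨_, h2, h3⟩ | ⟨_, h2, _⟩
    · rw [Fin.val_last] at h3
      show (i : ℕ) = k
      omega
    · exact h2)
  rwa [Finset.card_singleton] at h

theorem w_ge (j : Fin (k + 2)) (h : ∀ i, j < i → ¬ w j < w i) :
    k + 1 ≤ (w j : ℕ) + j := by
  have h1 := lb w j (Finset.Ioi j) (by
    intro i hi
    have hij : j < i := Finset.mem_Ioi.1 hi
    rcases lt_trichotomy (w i) (w j) with h2 | h2 | h2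
    · exact h2
    · exact absurd (w.injective h2) (ne_of_gt hij)
    · exact absurd h2 (h i hij))
  rw [Fin.card_Ioi] at h1
  omega

theorem rk_le (H : Sp w c1 c2) (p q : Fin (k + 2)) (e1 : ¬ (c1 ∧ (p : ℕ) = 0 ∧ (q : ℕ) = k))
    (e2 : ¬ (c2 ∧ (p : ℕ) = k ∧ (q : ℕ) = 0)) : rk w p q ≤ (p : ℕ) + q + 2 - (k + 2) := by
  have hp := p.isLt
  have hq := q.isLt
  by_cases h1 : c1 ∧ (p : ℕ) = 0
  · obtain ⟨hc, hp0⟩ := h1
    have hsub : univ.filter (fun j : Fin (k + 2) => j ≤ p ∧ w j ≤ q) ⊆ {0} := by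
      intro j hj
      rw [Finset.mem_filter] at hj
      rw [Finset.mem_singleton]
      apply Fin.ext
      have : (j : ℕ) ≤ p := hj.2.1
      have e : ((0 : Fin (k + 2)) : ℕ) = 0 := rfl
      omega
    have hq1 : (q : ℕ) ≠ k := fun h => e1 ⟨hc, hp0, h⟩
    by_cases hq2 : (q : ℕ) = k + 1
    · have := Finset.card_le_card hsub
      rw [Finset.card_singleton] at this
      unfold rk
      omega
    · have h0 : univ.filter (fun j : Fin (k + 2) => j ≤ p ∧ w j ≤ q) = ∅ := by
        rw [Finset.eq_empty_iff_forall_notMem]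
        intro j hj
        have hj0 : j = 0 := Finset.mem_singleton.1 (hsub hj)
        rw [Finset.mem_filter] at hj
        have h3 : (w j : ℕ) ≤ q := hj.2.2
        have h4 := w_zero H
        rw [hj0] at h3
        omega
      unfold rk
      rw [h0, Finset.card_empty]
      omega
  · by_cases h2 : c2 ∧ (p : ℕ) = k
    · obtain ⟨hc, hpk⟩ := h2
      have hq0 : (q : ℕ) ≠ 0 := fun h => e2 ⟨hc, hpk, h⟩
      have hsub : (univ.filter (fun j : Fin (k + 2) => j ≤ p ∧ w j ≤ q)).image w ⊆
          (Finset.Iic q).erase (w (Fin.last (k + 1))) := by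
        intro a ha
        obtain ⟨j, hj, rfl⟩ := Finset.mem_image.1 ha
        rw [Finset.mem_filter] at hj
        rw [Finset.mem_erase, Finset.mem_Iic]
        refine ⟨fun h => ?_, hj.2.2⟩
        have h3 := w.injective h
        have h4 : (j : ℕ) ≤ p := hj.2.1
        rw [h3, Fin.val_last] at h4
        omega
      have h5 := Finset.card_le_card hsub
      have hmem : w (Fin.last (k + 1)) ∈ Finset.Iic q := by
        rw [Finset.mem_Iic]
        show (w (Fin.last (k + 1)) : ℕ) ≤ q
        have := w_last H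
        omega
      rw [Finset.card_erase_of_mem hmem, Fin.card_Iic,
        Finset.card_image_of_injective _ w.injective] at h5
      unfold rk
      omega
    · have hmap : ∀ j ∈ univ.filter (fun j : Fin (k + 2) => j ≤ p ∧ w j ≤ q),
          k + 1 - (w j : ℕ) ∈ Finset.Icc (k + 1 - (q : ℕ)) (p : ℕ) := by
        intro j hj
        rw [Finset.mem_filter] at hj
        have hjp : (j : ℕ) ≤ p := hj.2.1
        have hjq : (w j : ℕ) ≤ q := hj.2.2
        rw [Finset.mem_Icc]
        refine ⟨by omega, ?_⟩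
        by_cases h3 : ∃ i, j < i ∧ w j < w i
        · obtain ⟨i, hi, hw⟩ := h3
          rcases H j i hi hw with ⟨hc, h4, h5⟩ | ⟨hc, h4, h5⟩
          · have hp0 : (p : ℕ) ≠ 0 := fun h => h1 ⟨hc, h⟩
            have h6 := w_zero H
            have h7 : j = 0 := Fin.ext (by simpa using h4)
            rw [h7]
            omega
          · have hpk : (p : ℕ) ≠ k := fun h => h2 ⟨hc, h⟩
            omega
        · push Not at h3
          have h4 := w_ge j (fun i hi => not_lt.2 (h3 i hi))
          omega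
      have hinj : Set.InjOn (fun j : Fin (k + 2) => k + 1 - (w j : ℕ))
          (univ.filter (fun j : Fin (k + 2) => j ≤ p ∧ w j ≤ q) : Finset (Fin (k + 2))) := by
        intro i _ j _ hij
        have hi := (w i).isLt
        have hj := (w j).isLt
        simp only at hij
        exact w.injective (Fin.ext (by omega))
      have h5 := Finset.card_le_card_of_injOn _ hmap hinj
      rw [Nat.card_Icc] at h5
      unfold rk
      omega

theorem rk_le_one_left (w : Equiv.Perm (Fin (k + 2))) (p q : Fin (k + 2)) (hp : (p : ℕ) = 0) :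
    rk w p q ≤ 1 := by
  unfold rk
  rw [Finset.card_le_one]
  intro i hi j hj
  rw [Finset.mem_filter] at hi hj
  have h1 : (i : ℕ) ≤ p := hi.2.1
  have h2 : (j : ℕ) ≤ p := hj.2.1
  exact Fin.ext (by omega)

theorem rk_le_one_right (w : Equiv.Perm (Fin (k + 2))) (p q : Fin (k + 2)) (hq : (q : ℕ) = 0) :
    rk w p q ≤ 1 := by
  unfold rk
  rw [Finset.card_le_one]
  intro i hi j hj
  rw [Finset.mem_filter] at hi hj
  have h1 : (w i : ℕ) ≤ q := hi.2.2
  have h2 : (w j : ℕ) ≤ q := hj.2.2
  exact w.injective (Fin.ext (by omega))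

/-- the non-inversions of `v` -/
theorem v_lt {m i j : ℕ} (hm : 4 ≤ m) (hij : i < j) (hj : j < m)
    (h : vIIIf m i < vIIIf m j) : (i = 0 ∧ j = 1) ∨ (i = m - 2 ∧ j = m - 1) := by
  unfold vIIIf at h
  split_ifs at h <;> omega

theorem v_lt_left {m : ℕ} (hm : 4 ≤ m) : vIIIf m 0 < vIIIf m 1 := by
  have h0 : vIIIf m 0 = m - 2 := by simp [vIIIf]
  have h1 : vIIIf m 1 = m - 1 := by simp [vIIIf]
  omega

theorem v_lt_right {m : ℕ} (hm : 4 ≤ m) : vIIIf m (m - 2) < vIIIf m (m - 1) := by
  have h0 : vIIIf m (m - 2) = 0 := by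
    unfold vIIIf
    rw [if_neg (by omega), if_neg (by omega), if_pos rfl]
  have h1 : vIIIf m (m - 1) = 1 := by
    unfold vIIIf
    rw [if_neg (by omega), if_neg (by omega), if_neg (by omega), if_pos rfl]
  omega

end XIIISV

open XIIISV in
theorem I_IIISV (hLINE : St_LINE) (hDIMB : St_DIMB) : St_IIISV := by
  intro m k A θ w x hA hw z
  obtain ⟨hm, hn, -, hv⟩ := hA
  have hθ : ∀ i j, i < j → (θ i : ℕ) < θ j := fun i j h => θ.strictMono h
  have hθm : ∀ i, (θ i : ℕ) < m := fun i => by have := (θ i).isLt; omega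
  -- the order of the positions
  have hab : ∀ a b, (θ a : ℕ) < θ b → a < b := fun a b h => θ.lt_iff_lt.1 h
  have hwv : ∀ a b, w a < w b ↔ vIIIf m (θ a) < vIIIf m (θ b) := by
    intro a b
    rw [← hw a b, ← hv, ← hv]
    exact Iff.rfl
  have hR : ∀ p q : Fin (k + 1), (p : ℕ) + q + 2 - (k + 1) ≤
      Module.finrank ℂ (Fl x z p ⊓ Est q : Submodule ℂ (Fin (k + 1) → ℂ)) := by
    intro p q
    have := hDIMB (k + 1) x z p q
    omega
  rcases k with _ | k
  · have hall : ∀ a b : Fin (0 + 1), a = b := fun a b => Fin.ext (by omega)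
    constructor
    · intro _
      refine ⟨?_, ?_⟩
      · rintro ⟨a, b, h1, h2⟩
        rw [hall a b] at h1
        omega
      · rintro ⟨a, b, h1, h2⟩
        rw [hall a b] at h1
        omega
    · intro _ p q
      refine le_trans ?_ (hR p q)
      have hp : (p : ℕ) = 0 := by have := p.isLt; omega
      have hq : (q : ℕ) = 0 := by have := q.isLt; omega
      rw [hp, hq]
      unfold rk
      refine (Finset.card_le_univ _).trans ?_
      simp
  · -- positions of the special pairs
    have s1 : ∀ a b : Fin (k + 1 + 1), (θ a : ℕ) = 0 → (θ b : ℕ) = 1 →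
        (a : ℕ) = 0 ∧ (b : ℕ) = 1 := by
      intro a b h1 h2
      have ha : (a : ℕ) = 0 := by
        by_contra h
        have h3 : (0 : Fin (k + 1 + 1)) < a := Fin.pos_iff_ne_zero.2 (fun e => h (by rw [e]; rfl))
        have := hθ _ _ h3
        omega
      refine ⟨ha, ?_⟩
      have hab' : a < b := hab a b (by omega)
      have hab2 : (a : ℕ) < b := hab'
      by_contra h
      have h3 : (1 : Fin (k + 1 + 1)) < b := by
        rw [Fin.lt_def, Fin.val_one]
        omega
      have h4 : a < (1 : Fin (k + 1 + 1)) := by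
        rw [Fin.lt_def, Fin.val_one]
        omega
      have h5 := hθ _ _ h3
      have h6 := hθ _ _ h4
      omega
    have s2 : ∀ a b : Fin (k + 1 + 1), (θ a : ℕ) = m - 2 → (θ b : ℕ) = m - 1 →
        (a : ℕ) = k ∧ (b : ℕ) = k + 1 := by
      intro a b h1 h2
      have hb : (b : ℕ) = k + 1 := by
        by_contra h
        have h3 : b < Fin.last (k + 1) := by
          rw [Fin.lt_def, Fin.val_last]
          have := b.isLt
          omega
        have h4 := hθ _ _ h3
        have h5 := hθm (Fin.last (k + 1))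
        omega
      refine ⟨?_, hb⟩
      have hab' : a < b := hab a b (by omega)
      have hab2 : (a : ℕ) < b := hab'
      by_contra h
      have h3 : a < (⟨k, by omega⟩ : Fin (k + 1 + 1)) := by
        rw [Fin.lt_def]
        show (a : ℕ) < k
        omega
      have h4 : (⟨k, by omega⟩ : Fin (k + 1 + 1)) < b := by
        rw [Fin.lt_def]
        show k < (b : ℕ)
        omega
      have h5 := hθ _ _ h3
      have h6 := hθ _ _ h4
      omega
    have H : Sp w (∃ a b, ((θ a : ℕ) = 0 ∧ (θ b : ℕ) = 1))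
        (∃ a b, ((θ a : ℕ) = m - 2 ∧ (θ b : ℕ) = m - 1)) := by
      intro i j hij hwij
      rcases v_lt hm (hθ i j hij) (hθm j) ((hwv i j).1 hwij) with ⟨h1, h2⟩ | ⟨h1, h2⟩
      · exact Or.inl ⟨⟨i, j, h1, h2⟩, s1 i j h1 h2⟩
      · exact Or.inr ⟨⟨i, j, h1, h2⟩, s2 i j h1 h2⟩
    obtain ⟨L1, L2⟩ := hLINE k x z
    constructor
    · intro hz
      refine ⟨?_, ?_⟩
      · rintro ⟨a, b, h1, h2⟩
        refine L1.1 (le_trans ?_ (hz 0 ⟨k, by omega⟩))
        obtain ⟨h3, h4⟩ := s1 a b h1 h2
        have h5 : w a < w b := by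
          rw [hwv, h1, h2]
          exact v_lt_left hm
        have h6 : (w a : ℕ) < w b := h5
        have h7 := (w b).isLt
        unfold rk
        rw [Nat.one_le_iff_ne_zero, Finset.card_ne_zero]
        refine ⟨a, Finset.mem_filter.2 ⟨Finset.mem_univ _, ?_, ?_⟩⟩
        · rw [Fin.le_def, h3]
          exact Nat.zero_le _
        · rw [Fin.le_def]
          show (w a : ℕ) ≤ k
          omega
      · rintro ⟨a, b, h1, h2⟩
        refine L2.1 (le_trans ?_ (hz ⟨k, by omega⟩ 0))
        obtain ⟨h3, h4⟩ := s2 a b h1 h2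
        have h5 : w a < w b := by
          rw [hwv, h1, h2]
          exact v_lt_right hm
        have h6 : (w a : ℕ) < w b := h5
        have h7 : (w (Fin.last (k + 1)) : ℕ) ≤ 1 := w_last H
        have h8 : b = Fin.last (k + 1) := Fin.ext (by rw [Fin.val_last]; exact h4)
        rw [h8] at h6
        unfold rk
        rw [Nat.one_le_iff_ne_zero, Finset.card_ne_zero]
        refine ⟨a, Finset.mem_filter.2 ⟨Finset.mem_univ _, ?_, ?_⟩⟩
        · rw [Fin.le_def]
          show (a : ℕ) ≤ k
          omega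
        · rw [Fin.le_def]
          have : (w a : ℕ) = 0 := by omega
          rw [this]
          exact Nat.zero_le _
    · rintro ⟨C1, C2⟩ p q
      by_cases e1 : (∃ a b, ((θ a : ℕ) = 0 ∧ (θ b : ℕ) = 1)) ∧ (p : ℕ) = 0 ∧ (q : ℕ) = k
      · obtain ⟨hc, hp, hq⟩ := e1
        have hp' : p = 0 := Fin.ext (by simpa using hp)
        have hq' : q = ⟨k, by omega⟩ := Fin.ext hq
        refine (rk_le_one_left w p q hp).trans ?_
        rw [hp', hq']
        exact L1.2 (C1 hc)
      by_cases e2 : (∃ a b, ((θ a : ℕ) = m - 2 ∧ (θ b : ℕ) = m - 1)) ∧ (p : ℕ) = k ∧ (q : ℕ) = 0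
      · obtain ⟨hc, hp, hq⟩ := e2
        have hp' : p = ⟨k, by omega⟩ := Fin.ext hp
        have hq' : q = 0 := Fin.ext (by simpa using hq)
        refine (rk_le_one_right w p q hq).trans ?_
        rw [hp', hq']
        exact L2.2 (C2 hc)
      exact (rk_le H p q e1 e2).trans (hR p q)

end Pool.Agent.SH
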