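import Pool.Agent.Work.MP_1c6e58_ag.SH.Stmts

set_option autoImplicit false

open Finset

namespace Pool.Agent.SH

namespace XKP

variable {n : ℕ}

/-- The linear map given by the columns of `x U`. -/
def L (x : Equiv.Perm (Fin n)) (z : Co n → ℂ) : (Fin n → ℂ) →ₗ[ℂ] (Fin n → ℂ) where
  toFun c a := ∑ j, Um z (x.symm a) j * c j
  map_add' c c' := by
    funext a
    simp only [Pi.add_apply, mul_add, Finset.sum_add_distrib]
  map_smul' r c := by
    funext a
    simp only [Pi.smul_apply, smul_eq_mul, RingHom.id_apply, Finset.mul_sum]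
    refine Finset.sum_congr rfl fun j _ => by ring

theorem L_apply (x : Equiv.Perm (Fin n)) (z : Co n → ℂ) (c : Fin n → ℂ) (a : Fin n) :
    L x z c a = ∑ j, Um z (x.symm a) j * c j := rfl

theorem L_eq_sum (x : Equiv.Perm (Fin n)) (z : Co n → ℂ) (c : Fin n → ℂ) :
    L x z c = ∑ j, c j • colV x z j := by
  funext a
  rw [L_apply, Finset.sum_apply]
  refine Finset.sum_congr rfl fun j _ => ?_
  simp only [Pi.smul_apply, smul_eq_mul, colV]
  ring

theorem L_single (x : Equiv.Perm (Fin n)) (z : Co n → ℂ) (j : Fin n) :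
    L x z (Pi.single j 1) = colV x z j := by
  funext a
  rw [L_apply, Finset.sum_eq_single j]
  · simp [colV]
  · intro b _ hb
    simp [Pi.single_eq_of_ne hb]
  · intro h
    exact absurd (Finset.mem_univ j) h

theorem Um_self (z : Co n → ℂ) (i : Fin n) : Um z i i = 1 := by
  simp [Um]

theorem Um_upper (z : Co n → ℂ) (i j : Fin n) (h : i < j) : Um z i j = 0 := by
  unfold Um
  rw [dif_neg (not_lt.mpr h.le), if_neg h.ne]

theorem eq_zero (z : Co n → ℂ) (c : Fin n → ℂ) (h : ∀ i, ∑ j, Um z i j * c j = 0) (i : Fin n) :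
    c i = 0 := by
  induction i using WellFoundedLT.induction with
  | ind i ih =>
    have h1 := h i
    rw [Finset.sum_eq_single i] at h1
    · rwa [Um_self, one_mul] at h1
    · intro b _ hb
      rcases lt_or_gt_of_ne hb with hb | hb
      · rw [ih b hb, mul_zero]
      · rw [Um_upper z i b hb, zero_mul]
    · intro h
      exact absurd (Finset.mem_univ i) h

theorem L_inj (x : Equiv.Perm (Fin n)) (z : Co n → ℂ) : Function.Injective (L x z) := by
  rw [injective_iff_map_eq_zero]
  intro c hc
  funext i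
  refine eq_zero z c (fun i => ?_) i
  have := congrFun hc (x i)
  rwa [L_apply, Equiv.symm_apply_apply] at this

/-- Vectors with support in `j ≤ p`. -/
def K0 (p : Fin n) : Submodule ℂ (Fin n → ℂ) where
  carrier := {c | ∀ j, p < j → c j = 0}
  zero_mem' := fun _ _ => rfl
  add_mem' := by
    intro c c' h h' j hj
    simp only [Pi.add_apply, h j hj, h' j hj, add_zero]
  smul_mem' := by
    intro a c h j hj
    simp only [Pi.smul_apply, h j hj, smul_zero]

theorem map_eq (x : Equiv.Perm (Fin n)) (z : Co n → ℂ) (p q : Fin n) :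
    (Kp x z p q).map (L x z) = Fl x z p ⊓ Est q := by
  apply le_antisymm
  · rintro y ⟨c, hc, rfl⟩
    refine ⟨?_, ?_⟩
    · rw [L_eq_sum]
      refine Submodule.sum_mem _ fun j _ => ?_
      by_cases hj : j ≤ p
      · exact Submodule.smul_mem _ _ (Submodule.subset_span ⟨j, hj, rfl⟩)
      · rw [hc.1 j (not_le.mp hj), zero_smul]
        exact Submodule.zero_mem _
    · intro a ha
      rw [L_apply]
      exact hc.2 (x.symm a) (by rwa [Equiv.apply_symm_apply])
  · rintro y ⟨hy1, hy2⟩
    have h : Fl x z p ≤ (K0 p).map (L x z) := by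
      refine Submodule.span_le.mpr ?_
      rintro y ⟨j, hj, rfl⟩
      refine ⟨Pi.single j 1, ?_, L_single x z j⟩
      intro b hb
      exact Pi.single_eq_of_ne (lt_of_le_of_lt hj hb).ne' _
    obtain ⟨c, hc, rfl⟩ := h hy1
    refine ⟨c, ⟨hc, fun i hi => ?_⟩, rfl⟩
    have := hy2 (x i) hi
    rwa [L_apply, Equiv.symm_apply_apply] at this

end XKP

theorem I_KP : St_KP := by
  intro n x z p q
  rw [← XKP.map_eq x z p q]
  exact (LinearEquiv.finrank_eq (Submodule.equivMapOfInjective (XKP.L x z) (XKP.L_inj x z)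
    (Kp x z p q))).symm

end Pool.Agent.SH
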