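import Pool.Agent.Work.MP_1c6e58_ag.SH.Stmts

/-!
MP_1c6e58_ag, project SH, item KS: the spaces `Kp` of a shuffle for vanishing mixed coordinates.
-/

set_option autoImplicit false

open Finset

namespace Pool.Agent.SH

namespace XKS

/-- Entries of `Um` at the positions of an order embedding. -/
theorem Um_res {m n : ℕ} (φ : Fin m ↪o Fin n) (z : Co n → ℂ) (i j : Fin m) :
    Um z (φ i) (φ j) = Um (resC φ z) i j := by
  unfold Um
  by_cases h : j < i
  · have h' : φ j < φ i := φ.strictMono h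
    rw [dif_pos h, dif_pos h']
    rfl
  · have h' : ¬ φ j < φ i := fun h' => h (φ.lt_iff_lt.1 h')
    rw [dif_neg h, dif_neg h']
    by_cases he : i = j
    · rw [if_pos he, if_pos (congrArg φ he)]
    · rw [if_neg he, if_neg (fun h => he (φ.injective h))]

/-- Unipotent systems have only the trivial solution. -/
theorem unip {n : ℕ} (z : Co n → ℂ) (c : Fin n → ℂ) (h : ∀ i, ∑ j, Um z i j * c j = 0) :
    ∀ i, c i = 0 := by
  have key : ∀ (N : ℕ) (i : Fin n), (i : ℕ) = N → c i = 0 := by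
    intro N
    induction N using Nat.strong_induction_on with
    | _ N ih =>
      intro i hi
      have h1 := h i
      rw [Finset.sum_eq_single i] at h1
      · have h2 : Um z i i = 1 := by
          unfold Um
          rw [dif_neg (lt_irrefl i), if_pos rfl]
        rwa [h2, one_mul] at h1
      · intro j _ hj
        rcases lt_or_gt_of_ne hj with hlt | hgt
        · rw [ih (j : ℕ) (by rw [← hi]; exact hlt) j rfl, mul_zero]
        · have h3 : Um z i j = 0 := by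
            unfold Um
            rw [dif_neg (not_lt.2 hgt.le), if_neg (ne_of_lt hgt)]
          rw [h3, zero_mul]
      · intro hn
        exact absurd (Finset.mem_univ i) hn
  intro i
  exact key _ i rfl

section split

variable {n n1 n2 : ℕ} (φ1 : Fin n1 ↪o Fin n) (φ2 : Fin n2 ↪o Fin n)

/-- The positions split into two blocks. -/
noncomputable def E (hcov : ∀ i, i ∈ Set.range φ1 ∨ i ∈ Set.range φ2)
    (hdis : ∀ i j, φ1 i ≠ φ2 j) : Fin n1 ⊕ Fin n2 ≃ Fin n :=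
  Equiv.ofBijective (Sum.elim φ1 φ2) (by
    constructor
    · rintro (i | i) (j | j) h
      · exact congrArg Sum.inl (φ1.injective h)
      · exact absurd h (hdis i j)
      · exact absurd h.symm (hdis j i)
      · exact congrArg Sum.inr (φ2.injective h)
    · intro i
      rcases hcov i with ⟨j, hj⟩ | ⟨j, hj⟩
      · exact ⟨Sum.inl j, hj⟩
      · exact ⟨Sum.inr j, hj⟩)

variable {φ1 φ2}

theorem sum_split (hcov : ∀ i, i ∈ Set.range φ1 ∨ i ∈ Set.range φ2)
    (hdis : ∀ i j, φ1 i ≠ φ2 j) (F : Fin n → ℂ) :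
    ∑ j, F j = ∑ j, F (φ1 j) + ∑ j, F (φ2 j) := by
  rw [← Equiv.sum_comp (E φ1 φ2 hcov hdis) F, Fintype.sum_sum_type]
  rfl

/-- Glueing of two functions. -/
theorem exists_glue (hcov : ∀ i, i ∈ Set.range φ1 ∨ i ∈ Set.range φ2)
    (hdis : ∀ i j, φ1 i ≠ φ2 j) (w1 : Fin n1 → ℂ) (w2 : Fin n2 → ℂ) :
    ∃ c : Fin n → ℂ, (∀ j, c (φ1 j) = w1 j) ∧ ∀ j, c (φ2 j) = w2 j := by
  refine ⟨fun i => Sum.elim w1 w2 ((E φ1 φ2 hcov hdis).symm i), fun j => ?_, fun j => ?_⟩
  · have h : (E φ1 φ2 hcov hdis).symm (φ1 j) = Sum.inl j :=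
      (Equiv.symm_apply_eq _).2 rfl
    simp only [h, Sum.elim_inl]
  · have h : (E φ1 φ2 hcov hdis).symm (φ2 j) = Sum.inr j :=
      (Equiv.symm_apply_eq _).2 rfl
    simp only [h, Sum.elim_inr]

end split

section rows

variable {n n1 n2 : ℕ} {φ1 : Fin n1 ↪o Fin n} {φ2 : Fin n2 ↪o Fin n}
  (hcov : ∀ i, i ∈ Set.range φ1 ∨ i ∈ Set.range φ2) (hdis : ∀ i j, φ1 i ≠ φ2 j)
  {z : Co n → ℂ}
  (hz : ∀ (i : Fin n1) (j : Fin n2) (h : φ2 j < φ1 i), z ⟨(φ1 i, φ2 j), h⟩ = 0)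

include hdis hz in
theorem Um_mixed (i : Fin n1) (j : Fin n2) : Um z (φ1 i) (φ2 j) = 0 := by
  unfold Um
  by_cases h : φ2 j < φ1 i
  · rw [dif_pos h]
    exact hz i j h
  · rw [dif_neg h, if_neg (hdis i j)]

include hcov hdis hz in
theorem row1 (c : Fin n → ℂ) (i : Fin n1) :
    ∑ j, Um z (φ1 i) j * c j = ∑ j, Um (resC φ1 z) i j * c (φ1 j) := by
  rw [sum_split hcov hdis]
  have h1 : ∑ j, Um z (φ1 i) (φ2 j) * c (φ2 j) = 0 :=
    Finset.sum_eq_zero fun j _ => by rw [Um_mixed hdis hz, zero_mul]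
  rw [h1, add_zero]
  exact Finset.sum_congr rfl fun j _ => by rw [Um_res]

include hcov hdis in
theorem row2 (c : Fin n → ℂ) (hc : ∀ j, c (φ1 j) = 0) (i : Fin n2) :
    ∑ j, Um z (φ2 i) j * c j = ∑ j, Um (resC φ2 z) i j * c (φ2 j) := by
  rw [sum_split hcov hdis]
  have h1 : ∑ j, Um z (φ2 i) (φ1 j) * c (φ1 j) = 0 :=
    Finset.sum_eq_zero fun j _ => by rw [hc, mul_zero]
  rw [h1, zero_add]
  exact Finset.sum_congr rfl fun j _ => by rw [Um_res]

end rows

theorem mem_Kp {n : ℕ} {x : Equiv.Perm (Fin n)} {z : Co n → ℂ} {p q : Fin n}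
    {c : Fin n → ℂ} : c ∈ Kp x z p q ↔
      (∀ j, p < j → c j = 0) ∧ ∀ i, q < x i → ∑ j, Um z i j * c j = 0 := Iff.rfl

section main

variable {A1 A2 A : Itv} {φ1 : Fin A1.n ↪o Fin A.n} {φ2 : Fin A2.n ↪o Fin A.n}
  (hS : ShufAt A1 A2 A φ1 φ2) {z : Co A.n → ℂ}
  (hz : ∀ (i : Fin A1.n) (j : Fin A2.n) (h : φ2 j < φ1 i), z ⟨(φ1 i, φ2 j), h⟩ = 0)
  (p q : Fin A.n)

include hS in
theorem dis (i : Fin A1.n) (j : Fin A2.n) : φ1 i ≠ φ2 j := by
  intro h
  have h1 := hS.u1 i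
  have h2 := hS.u2 j
  rw [h] at h1
  have h3 := (A2.u j).2
  omega

include hS hz in
/-- For small `q` the high part of the elements of `Kp` vanishes. -/
theorem high_zero (hq : (q : ℕ) < A2.n) {c : Fin A.n → ℂ} (hc : c ∈ Kp A.u z p q) :
    ∀ j, c (φ1 j) = 0 := by
  refine unip (resC φ1 z) (fun j => c (φ1 j)) fun i => ?_
  have h1 := (mem_Kp.1 hc).2 (φ1 i) (by
    rw [Fin.lt_def, hS.u1]
    omega)
  rwa [row1 hS.cov (dis hS) hz] at h1

include hS hz in
theorem case1a (hq : (q : ℕ) < A2.n) (hp : ∀ j, p < φ2 j) :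
    Module.finrank ℂ (Kp A.u z p q) = 0 := by
  have h : Kp A.u z p q = ⊥ := by
    rw [Submodule.eq_bot_iff]
    intro c hc
    funext i
    rcases hS.cov i with ⟨j, rfl⟩ | ⟨j, rfl⟩
    · exact high_zero hS hz p q hq hc j
    · exact (mem_Kp.1 hc).1 _ (hp j)
  rw [h]
  exact finrank_bot ℂ _

include hS hz in
theorem case1b (hq : (q : ℕ) < A2.n) (p2 q2 : Fin A2.n) (hp2 : φ2 p2 ≤ p)
    (hp2' : ∀ j, φ2 j ≤ p → j ≤ p2) (hq2 : (q2 : ℕ) = q) :
    Module.finrank ℂ (Kp A.u z p q) = Module.finrank ℂ (Kp A2.u (resC φ2 z) p2 q2) := by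
  have hmap : ∀ c ∈ Kp A.u z p q, LinearMap.funLeft ℂ ℂ φ2 c ∈ Kp A2.u (resC φ2 z) p2 q2 := by
    intro c hc
    have h0 := high_zero hS hz p q hq hc
    refine mem_Kp.2 ⟨fun j hj => ?_, fun i hi => ?_⟩
    · have h1 : p < φ2 j := by
        rw [← not_le]
        intro h2
        exact absurd (hp2' j h2) (not_le.2 hj)
      exact (mem_Kp.1 hc).1 _ h1
    · have h1 := (mem_Kp.1 hc).2 (φ2 i) (by
        rw [Fin.lt_def, hS.u2, ← hq2]
        exact hi)
      rw [row2 hS.cov (dis hS) c h0] at h1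
      exact h1
  refine LinearEquiv.finrank_eq (LinearEquiv.ofBijective
    ((LinearMap.funLeft ℂ ℂ φ2).restrict hmap) ⟨?_, ?_⟩)
  · rw [injective_iff_map_eq_zero]
    rintro ⟨c, hc⟩ h
    have h0 := high_zero hS hz p q hq hc
    have h1 : LinearMap.funLeft ℂ ℂ φ2 c = 0 := congrArg Subtype.val h
    apply Subtype.ext
    funext i
    rcases hS.cov i with ⟨j, rfl⟩ | ⟨j, rfl⟩
    · exact h0 j
    · exact congrFun h1 j
  · rintro ⟨d, hd⟩
    obtain ⟨c, hc1, hc2⟩ := exists_glue hS.cov (dis hS) (fun _ => 0) d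
    have hc : c ∈ Kp A.u z p q := by
      refine mem_Kp.2 ⟨fun i hi => ?_, fun i hi => ?_⟩
      · rcases hS.cov i with ⟨j, rfl⟩ | ⟨j, rfl⟩
        · exact hc1 j
        · rw [hc2]
          exact (mem_Kp.1 hd).1 j (φ2.lt_iff_lt.1 (lt_of_le_of_lt hp2 hi))
      · rcases hS.cov i with ⟨j, rfl⟩ | ⟨j, rfl⟩
        · rw [row1 hS.cov (dis hS) hz]
          exact Finset.sum_eq_zero fun k _ => by rw [hc1, mul_zero]
        · rw [row2 hS.cov (dis hS) c hc1]
          rw [Fin.lt_def, hS.u2, ← hq2] at hi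
          have h1 := (mem_Kp.1 hd).2 j hi
          simpa only [hc2] using h1
    refine ⟨⟨c, hc⟩, Subtype.ext ?_⟩
    funext j
    exact hc2 j

include hS hz in
theorem case2 (hq : A2.n ≤ (q : ℕ)) (W : Submodule ℂ (Fin A1.n → ℂ))
    (hW : ∀ c, c ∈ W ↔ (∀ j, p < φ1 j → c j = 0) ∧ ∀ i, (q : ℕ) < A2.n + (A1.u i : ℕ) →
      ∑ j, Um (resC φ1 z) i j * c j = 0) :
    Module.finrank ℂ (Kp A.u z p q) =
      (univ.filter (fun j : Fin A2.n => φ2 j ≤ p)).card + Module.finrank ℂ W := by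
  classical
  have hmap : ∀ c ∈ Kp A.u z p q, LinearMap.funLeft ℂ ℂ φ1 c ∈ W := by
    intro c hc
    refine (hW _).2 ⟨fun j hj => (mem_Kp.1 hc).1 _ hj, fun i hi => ?_⟩
    have h1 := (mem_Kp.1 hc).2 (φ1 i) (by
      rw [Fin.lt_def, hS.u1]
      exact hi)
    rwa [row1 hS.cov (dis hS) hz] at h1
  have e : (Kp A.u z p q) ≃ₗ[ℂ] (({j : Fin A2.n // φ2 j ≤ p} → ℂ) × W) := by
    refine LinearEquiv.ofBijective (LinearMap.prod
      ((LinearMap.funLeft ℂ ℂ (fun j : {j : Fin A2.n // φ2 j ≤ p} => φ2 j.1)).comp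
        (Kp A.u z p q).subtype)
      ((LinearMap.funLeft ℂ ℂ φ1).restrict hmap)) ⟨?_, ?_⟩
    · rw [injective_iff_map_eq_zero]
      rintro ⟨c, hc⟩ h
      have h1 := congrArg Prod.fst h
      have h2 := congrArg Subtype.val (congrArg Prod.snd h)
      apply Subtype.ext
      funext i
      rcases hS.cov i with ⟨j, rfl⟩ | ⟨j, rfl⟩
      · exact congrFun h2 j
      · by_cases hj : φ2 j ≤ p
        · exact congrFun h1 ⟨j, hj⟩
        · exact (mem_Kp.1 hc).1 _ (not_le.1 hj)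
    · rintro ⟨f, ⟨w, hw⟩⟩
      obtain ⟨c, hc1, hc2⟩ := exists_glue hS.cov (dis hS) w
        (fun j => if h : φ2 j ≤ p then f ⟨j, h⟩ else 0)
      have hw' := (hW w).1 hw
      have hc : c ∈ Kp A.u z p q := by
        refine mem_Kp.2 ⟨fun i hi => ?_, fun i hi => ?_⟩
        · rcases hS.cov i with ⟨j, rfl⟩ | ⟨j, rfl⟩
          · rw [hc1]
            exact hw'.1 j hi
          · rw [hc2, dif_neg (not_le.2 hi)]
        · rcases hS.cov i with ⟨j, rfl⟩ | ⟨j, rfl⟩
          · rw [row1 hS.cov (dis hS) hz]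
            rw [Fin.lt_def, hS.u1] at hi
            simpa only [hc1] using hw'.2 j hi
          · rw [Fin.lt_def, hS.u2] at hi
            have := (A2.u j).2
            omega
      refine ⟨⟨c, hc⟩, Prod.ext ?_ (Subtype.ext ?_)⟩
      · funext j
        change c (φ2 j.1) = f j
        rw [hc2, dif_pos j.2]
      · funext j
        exact hc1 j
  rw [LinearEquiv.finrank_eq e, Module.finrank_prod, Module.finrank_fintype_fun_eq_card,
    Fintype.card_subtype]

end main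

end XKS

theorem I_KS : St_KS := by
  intro A1 A2 A φ1 φ2 hS z hz p q
  refine ⟨fun hq => ⟨fun hp => XKS.case1a hS hz p q hq hp, fun p2 q2 h1 h2 h3 =>
    XKS.case1b hS hz p q hq p2 q2 h1 h2 h3⟩, fun hq => ⟨fun hp => ?_, fun p1 q1 h1 h2 h3 => ?_⟩⟩
  · have h := XKS.case2 hS hz p q hq (⊥ : Submodule ℂ (Fin A1.n → ℂ)) (by
      intro c
      rw [Submodule.mem_bot]
      constructor
      · rintro rfl
        exact ⟨fun _ _ => rfl, fun i _ => by simp⟩
      · rintro ⟨h1, _⟩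
        funext j
        exact h1 j (hp j))
    rwa [finrank_bot, add_zero] at h
  · refine XKS.case2 hS hz p q hq _ ?_
    intro c
    rw [XKS.mem_Kp]
    have e1 : ∀ j, p1 < j ↔ p < φ1 j := by
      intro j
      constructor
      · intro hj
        rw [← not_le]
        intro h4
        exact absurd (h2 j h4) (not_le.2 hj)
      · intro hj
        exact φ1.lt_iff_lt.1 (lt_of_le_of_lt h1 hj)
    have e2 : ∀ i, q1 < A1.u i ↔ (q : ℕ) < A2.n + (A1.u i : ℕ) := by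
      intro i
      rw [Fin.lt_def]
      omega
    simp only [e1, e2]

end Pool.Agent.SH
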