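import Pool.Agent.Work.MP_1c6e58_ag.SH.Stmts

/-!
MP_1c6e58_ag, project SH, item LIN: the smooth cases.
-/

set_option autoImplicit false

open Finset

namespace Pool.Agent.SH.XLIN

theorem mq_of_hs {σ τ : Type} {Z : Set (σ → ℂ)} {Z' : Set (τ → ℂ)} {d e : ℕ}
    (h : HS Z = HS Z') (hm : MQ Z' d e) : MQ Z d e := by
  obtain ⟨h0, Q, h1, h2⟩ := hm
  exact ⟨h0, Q, h1, by rw [h]; exact h2⟩

theorem um_lt {n : ℕ} (z : Co n → ℂ) {i j : Fin n} (h : j < i) : Um z i j = z ⟨(i, j), h⟩ := by
  unfold Um
  rw [dif_pos h]

end Pool.Agent.SH.XLIN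

namespace Pool.Agent.SH

open XLIN in
theorem I_LIN (hAUT1 : St_AUT1) (hAUT2 : St_AUT2) (hCOORD : St_COORD) : St_LIN := by
  intro k x c1 c2 h1 h2 h3
  have hP : c1 → 0 < x.symm (Fin.last k) := by
    intro hc
    rw [Fin.pos_iff_ne_zero]
    intro he
    apply h1 hc
    rw [Equiv.symm_apply_eq] at he
    exact he.symm
  have hp : c2 → x.symm 0 < Fin.last k := by
    intro hc
    rw [Fin.lt_last_iff_ne_last]
    intro he
    apply h2 hc
    rw [Equiv.symm_apply_eq] at he
    exact he.symm
  by_cases hc1 : c1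
  · have hP' := hP hc1
    by_cases hc2 : c2
    · have hp' := hp hc2
      by_cases hPl : x.symm (Fin.last k) = Fin.last k
      · -- the case `P = last`
        have hp0 : x.symm 0 ≠ 0 := by
          intro he
          apply h3
          refine ⟨hc1, hc2, ?_, ?_⟩
          · rw [Equiv.symm_apply_eq] at he
            exact he.symm
          · rw [Equiv.symm_apply_eq] at hPl
            exact hPl.symm
        have h0l : (0 : Fin (k + 1)) < Fin.last k := by rw [hPl] at hP'; exact hP'
        set T : Finset (Co (k + 1)) := {⟨(Fin.last k, 0), h0l⟩, ⟨(Fin.last k, x.symm 0), hp'⟩}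
          with hT
        refine ⟨_, mq_of_hs ?_ (hCOORD (Co (k + 1)) T)⟩
        rw [← hAUT2 k (coordS (T : Set (Co (k + 1))))]
        congr 1
        ext z
        simp only [Set.mem_ofPred_eq, coordS, hT, Finset.coe_insert, Finset.coe_singleton,
          Set.mem_insert_iff, Set.mem_singleton_iff, forall_eq_or_imp, forall_eq]
        rw [hPl, um_lt z h0l]
        simp only [Tb2, ne_eq, not_true_eq_false, and_false, if_false, hp0, not_false_eq_true,
          and_self, if_true, hc1, hc2, forall_true_left]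
      · set T : Finset (Co (k + 1)) := {⟨(x.symm (Fin.last k), 0), hP'⟩,
          ⟨(Fin.last k, x.symm 0), hp'⟩} with hT
        refine ⟨_, mq_of_hs ?_ (hCOORD (Co (k + 1)) T)⟩
        rw [← hAUT1 k (coordS (T : Set (Co (k + 1))))]
        congr 1
        ext z
        simp only [Set.mem_ofPred_eq, coordS, hT, Finset.coe_insert, Finset.coe_singleton,
          Set.mem_insert_iff, Set.mem_singleton_iff, forall_eq_or_imp, forall_eq]
        rw [um_lt z hP']
        simp only [Tb, hPl, if_false, if_true, hc1, hc2, forall_true_left]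
    · set T : Finset (Co (k + 1)) := {⟨(x.symm (Fin.last k), 0), hP'⟩} with hT
      refine ⟨_, mq_of_hs ?_ (hCOORD (Co (k + 1)) T)⟩
      congr 1
      ext z
      simp only [Set.mem_ofPred_eq, coordS, hT, Finset.coe_singleton,
        Set.mem_singleton_iff, forall_eq]
      rw [um_lt z hP']
      simp only [hc1, hc2, forall_true_left, false_imp_iff, and_true]
  · by_cases hc2 : c2
    · have hp' := hp hc2
      set T : Finset (Co (k + 1)) := {⟨(Fin.last k, x.symm 0), hp'⟩} with hT
      refine ⟨_, mq_of_hs ?_ (hCOORD (Co (k + 1)) T)⟩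
      rw [← hAUT1 k (coordS (T : Set (Co (k + 1))))]
      congr 1
      ext z
      simp only [Set.mem_ofPred_eq, coordS, hT, Finset.coe_singleton,
        Set.mem_singleton_iff, forall_eq]
      simp only [Tb, if_true, hc1, hc2, forall_true_left, false_imp_iff, true_and]
    · refine ⟨_, mq_of_hs ?_ (hCOORD (Co (k + 1)) ∅)⟩
      congr 1
      ext z
      simp only [Set.mem_ofPred_eq, coordS, Finset.coe_empty, Set.mem_empty_iff_false,
        false_imp_iff, hc1, hc2, and_true]
      exact ⟨fun _ _ => trivial, fun _ => trivial⟩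

end Pool.Agent.SH
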