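import Pool.Agent.Work.MP_1c6e58_ag.SH.Stmts

/-!
MP_1c6e58_ag, project SH, item LINE: the two hyperplane conditions.
-/

set_option autoImplicit false

open Finset

namespace Pool.Agent.SH

namespace XLINE

theorem Um_diag {n : ℕ} (z : Co n → ℂ) (i : Fin n) : Um z i i = 1 := by
  unfold Um
  rw [dif_neg (lt_irrefl i), if_pos rfl]

theorem Um_above {n : ℕ} (z : Co n → ℂ) (i j : Fin n) (h : i < j) : Um z i j = 0 := by
  unfold Um
  rw [dif_neg (not_lt.2 h.le), if_neg h.ne]

theorem det_Um {n : ℕ} (z : Co n → ℂ) : (Um z).det = 1 := by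
  rw [Matrix.det_of_isLowerTriangular (Um z) (fun i j h => Um_above z i j h)]
  exact Finset.prod_eq_one fun i _ => Um_diag z i

theorem isUnit_det {n : ℕ} (z : Co n → ℂ) : IsUnit (Um z).det := by
  rw [det_Um z]
  exact isUnit_one

/-- Elements of `Fl` as combinations of the columns. -/
theorem mem_Fl {n : ℕ} (x : Equiv.Perm (Fin n)) (z : Co n → ℂ) (p : Fin n) (y : Fin n → ℂ) :
    y ∈ Fl x z p ↔ ∃ c : Fin n → ℂ, (∀ j, p < j → c j = 0) ∧
      ∀ a, y a = ∑ j, Um z (x.symm a) j * c j := by
  constructor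
  · intro hy
    refine Submodule.span_induction
      (p := fun y _ => ∃ c : Fin n → ℂ, (∀ j, p < j → c j = 0) ∧
        ∀ a, y a = ∑ j, Um z (x.symm a) j * c j) ?_ ?_ ?_ ?_ hy
    · rintro y ⟨j, hj, rfl⟩
      refine ⟨Pi.single j 1, fun l hl => ?_, fun a => ?_⟩
      · refine Pi.single_eq_of_ne ?_ _
        rintro rfl
        exact absurd hl (not_lt.2 hj)
      · rw [Finset.sum_eq_single j]
        · rw [Pi.single_eq_same, mul_one]
          rfl
        · intro l _ hl
          rw [Pi.single_eq_of_ne hl, mul_zero]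
        · intro h
          exact absurd (Finset.mem_univ j) h
    · exact ⟨fun _ => 0, fun _ _ => rfl, fun a => by simp⟩
    · rintro y y' _ _ ⟨c, hc, h⟩ ⟨c', hc', h'⟩
      refine ⟨fun j => c j + c' j, fun j hj => ?_, fun a => ?_⟩
      · change c j + c' j = 0
        rw [hc j hj, hc' j hj, add_zero]
      · rw [Pi.add_apply, h a, h' a, ← Finset.sum_add_distrib]
        exact Finset.sum_congr rfl fun j _ => by ring
    · rintro r y _ ⟨c, hc, h⟩
      refine ⟨fun j => r * c j, fun j hj => ?_, fun a => ?_⟩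
      · change r * c j = 0
        rw [hc j hj, mul_zero]
      · rw [Pi.smul_apply, h a, smul_eq_mul, Finset.mul_sum]
        exact Finset.sum_congr rfl fun j _ => by ring
  · rintro ⟨c, hc, h⟩
    have h1 : y = ∑ j, c j • colV x z j := by
      ext a
      rw [h a, Finset.sum_apply]
      refine Finset.sum_congr rfl fun j _ => ?_
      rw [Pi.smul_apply, smul_eq_mul, mul_comm]
      rfl
    rw [h1]
    refine Submodule.sum_mem _ fun j _ => ?_
    by_cases hj : j ≤ p
    · exact Submodule.smul_mem _ _ (Submodule.subset_span ⟨j, hj, rfl⟩)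
    · rw [hc j (not_le.1 hj), zero_smul]
      exact Submodule.zero_mem _

theorem mem_Est {n : ℕ} (q : Fin n) (y : Fin n → ℂ) : y ∈ Est q ↔ ∀ a, q < a → y a = 0 := Iff.rfl

theorem one_le_iff {n : ℕ} (W : Submodule ℂ (Fin n → ℂ)) :
    1 ≤ Module.finrank ℂ W ↔ ∃ y ∈ W, y ≠ 0 := by
  rw [Submodule.one_le_finrank_iff, Submodule.ne_bot_iff]

theorem eq_last {k : ℕ} {a : Fin (k + 2)} (h : (⟨k, by omega⟩ : Fin (k + 2)) < a) :
    a = Fin.last (k + 1) := by
  have h1 : k < a.val := h
  have h2 := a.isLt
  apply Fin.ext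
  rw [Fin.val_last]
  omega

end XLINE

open XLINE in
theorem I_LINE : St_LINE := by
  intro k x z
  constructor
  · rw [one_le_iff]
    constructor
    · rintro ⟨y, hy, hy0⟩
      rw [Submodule.mem_inf, mem_Fl, mem_Est] at hy
      obtain ⟨⟨c, hc, h⟩, hE⟩ := hy
      have h1 : ∀ a, y a = Um z (x.symm a) 0 * c 0 := by
        intro a
        rw [h a]
        refine Finset.sum_eq_single 0 (fun j _ hj => ?_) (fun h => absurd (Finset.mem_univ _) h)
        rw [hc j (Fin.pos_iff_ne_zero.2 hj), mul_zero]
      have h2 : c 0 ≠ 0 := by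
        intro h3
        apply hy0
        ext a
        rw [h1 a, h3, mul_zero]
        rfl
      have h4 := hE (Fin.last (k + 1)) (by
        rw [Fin.lt_def, Fin.val_last]
        exact Nat.lt_succ_self k)
      rw [h1] at h4
      exact (mul_eq_zero.1 h4).resolve_right h2
    · intro h0
      refine ⟨colV x z 0, ?_, ?_⟩
      · rw [Submodule.mem_inf, mem_Est]
        refine ⟨Submodule.subset_span ⟨0, le_rfl, rfl⟩, fun a ha => ?_⟩
        rw [eq_last ha]
        exact h0
      · intro h1
        have h2 : colV x z 0 (x 0) = 0 := by rw [h1]; rfl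
        unfold colV at h2
        rw [Equiv.symm_apply_apply, Um_diag] at h2
        exact one_ne_zero h2
  · rw [one_le_iff]
    constructor
    · rintro ⟨y, hy, hy0⟩
      rw [Submodule.mem_inf, mem_Fl, mem_Est] at hy
      obtain ⟨⟨c, hc, h⟩, hE⟩ := hy
      have h1 : y 0 ≠ 0 := by
        intro h2
        apply hy0
        ext a
        by_cases ha : a = 0
        · rw [ha, h2]
          rfl
        · rw [hE a (Fin.pos_iff_ne_zero.2 ha)]
          rfl
      have h3 : Matrix.mulVec (Um z) c = Pi.single (x.symm 0) (y 0) := by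
        ext i
        have h4 := h (x i)
        rw [Equiv.symm_apply_apply] at h4
        change ∑ j, Um z i j * c j = _
        rw [← h4]
        by_cases hi : i = x.symm 0
        · rw [hi, Pi.single_eq_same, Equiv.apply_symm_apply]
        · rw [Pi.single_eq_of_ne hi]
          refine hE _ (Fin.pos_iff_ne_zero.2 fun h5 => hi ?_)
          rw [← h5, Equiv.symm_apply_apply]
      have h6 : c = Matrix.mulVec (Um z)⁻¹ (Pi.single (x.symm 0) (y 0)) := by
        rw [← h3, Matrix.mulVec_mulVec, Matrix.nonsing_inv_mul _ (isUnit_det z),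
          Matrix.one_mulVec]
      have h7 : c (Fin.last (k + 1)) = bv z (x.symm 0) * y 0 := by
        rw [h6, Matrix.mulVec_single]
        rfl
      rw [hc (Fin.last (k + 1)) (by
        rw [Fin.lt_def, Fin.val_last]
        exact Nat.lt_succ_self k)] at h7
      exact (mul_eq_zero.1 h7.symm).resolve_right h1
    · intro h0
      have h1 : ∀ a, ∑ j, Um z (x.symm a) j * (Um z)⁻¹ j (x.symm 0) =
          (1 : Matrix (Fin (k + 2)) (Fin (k + 2)) ℂ) (x.symm a) (x.symm 0) := by
        intro a
        rw [← Matrix.mul_nonsing_inv _ (isUnit_det z), Matrix.mul_apply]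
      refine ⟨fun a => ∑ j, Um z (x.symm a) j * (Um z)⁻¹ j (x.symm 0), ?_, ?_⟩
      · rw [Submodule.mem_inf, mem_Fl, mem_Est]
        refine ⟨⟨fun j => (Um z)⁻¹ j (x.symm 0), fun j hj => ?_, fun a => rfl⟩, fun a ha => ?_⟩
        · rw [eq_last hj]
          exact h0
        · rw [h1 a]
          exact Matrix.one_apply_ne fun h2 => ha.ne' (x.symm.injective h2)
      · intro h2
        have h3 := congrFun h2 0
        rw [h1 0, Matrix.one_apply_eq] at h3
        exact one_ne_zero h3

end Pool.Agent.SH
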