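import Pool.Agent.Work.MP_1c6e58_ag.SH.Stmts

/-!
MP_1c6e58_ag, project SH, item LPROD: lowest exponents of the vanishing ideal of a product.
-/

set_option autoImplicit false

open Finset

namespace Pool.Agent.SH

namespace XLPROD

open MvPolynomial

open scoped Classical

variable {σ τ : Type}

/-- join of exponents -/
noncomputable def jn (α : σ →₀ ℕ) (β : τ →₀ ℕ) : σ ⊕ τ →₀ ℕ :=
  Finsupp.sumFinsuppEquivProdFinsupp.symm (α, β)

lemma inlP_jn (α : σ →₀ ℕ) (β : τ →₀ ℕ) : inlP (jn α β) = α := by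
  unfold inlP jn; rw [Equiv.apply_symm_apply]

lemma inrP_jn (α : σ →₀ ℕ) (β : τ →₀ ℕ) : inrP (jn α β) = β := by
  unfold inrP jn; rw [Equiv.apply_symm_apply]

lemma jn_eta (γ : σ ⊕ τ →₀ ℕ) : jn (inlP γ) (inrP γ) = γ := by
  unfold inlP inrP jn
  exact Finsupp.sumFinsuppEquivProdFinsupp.symm_apply_apply γ

lemma ext_P {γ γ' : σ ⊕ τ →₀ ℕ} (h1 : inlP γ = inlP γ') (h2 : inrP γ = inrP γ') : γ = γ' := by
  rw [← jn_eta γ, ← jn_eta γ', h1, h2]

lemma inlP_apply (γ : σ ⊕ τ →₀ ℕ) (i : σ) : inlP γ i = γ (Sum.inl i) := rfl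

lemma inrP_apply (γ : σ ⊕ τ →₀ ℕ) (j : τ) : inrP γ j = γ (Sum.inr j) := rfl

lemma deg_P [Fintype σ] [Fintype τ] (γ : σ ⊕ τ →₀ ℕ) :
    γ.degree = (inlP γ).degree + (inrP γ).degree := by
  rw [Finsupp.degree_eq_sum, Finsupp.degree_eq_sum, Finsupp.degree_eq_sum, Fintype.sum_sum_type]
  rfl

lemma prod_P [Fintype σ] [Fintype τ] (z : σ ⊕ τ → ℂ) (γ : σ ⊕ τ →₀ ℕ) :
    ∏ i, z i ^ γ i = (∏ i, z (Sum.inl i) ^ inlP γ i) * ∏ j, z (Sum.inr j) ^ inrP γ j := by
  rw [Fintype.prod_sum_type]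
  rfl

lemma deg_le (o : LOrd σ) {α β : σ →₀ ℕ} (h : o.f α ≤ o.f β) : α.degree ≤ β.degree := by
  by_contra hc
  exact absurd (o.deg β α (not_le.1 hc)) (not_lt.2 h)

lemma mem_VI [Fintype σ] {Z : Set (σ → ℂ)} {p : MvPolynomial σ ℂ} :
    p ∈ vanishingIdeal ℂ Z ↔ ∀ x ∈ Z, eval x p = 0 := by
  rw [mem_vanishingIdeal_iff]
  rfl

lemma eval_mono [Fintype σ] (x : σ → ℂ) (s : σ →₀ ℕ) (a : ℂ) :
    eval x (monomial s a) = a * ∏ i, x i ^ s i := by
  rw [eval_monomial, Finsupp.prod_fintype]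
  intro i; exact pow_zero _

/-- the sum of the terms `c i x^(e i)` -/
lemma coeff_sum_mono [DecidableEq σ] {ι : Type} (S : Finset ι) (e : ι → (σ →₀ ℕ)) (c : ι → ℂ) (m : σ →₀ ℕ) :
    coeff m (∑ i ∈ S, monomial (e i) (c i)) = ∑ i ∈ S, if e i = m then c i else 0 := by
  rw [coeff_sum]
  refine sum_congr rfl fun i _ => ?_
  rw [coeff_monomial]

/-- left to right for the first factor -/
lemma sup1 [Fintype σ] [Fintype τ] (o1 : LOrd σ) (o2 : LOrd τ) (o : LOrd (σ ⊕ τ))
    (ho : IsProdOrd o1 o2 o) (Z : Set (σ → ℂ)) (Z' : Set (τ → ℂ)) (γ : σ ⊕ τ →₀ ℕ)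
    (h : inlP γ ∈ Lset o1 (vanishingIdeal ℂ Z)) :
    γ ∈ Lset o (vanishingIdeal ℂ (prodS Z Z')) := by
  obtain ⟨f, hf, hfs, hmin⟩ := h
  set β := inrP γ with hβ
  have hinj : ∀ α α' : σ →₀ ℕ, jn α β = jn α' β → α = α' := by
    intro α α' h1
    rw [← inlP_jn α β, h1, inlP_jn]
  have hco : ∀ m, coeff m (∑ α ∈ f.support, monomial (jn α β) (coeff α f)) =
      ∑ α ∈ f.support, if jn α β = m then coeff α f else 0 := fun m => coeff_sum_mono _ _ _ _
  refine ⟨∑ α ∈ f.support, monomial (jn α β) (coeff α f), ?_, ?_, ?_⟩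
  · rw [mem_VI]
    intro z hz
    have h1 := (mem_VI.1 hf) _ hz.1
    rw [eval_eq'] at h1
    rw [map_sum]
    have h2 : ∀ α ∈ f.support, eval z (monomial (jn α β) (coeff α f)) =
        (coeff α f * ∏ i, z (Sum.inl i) ^ α i) * ∏ j, z (Sum.inr j) ^ β j := by
      intro α _
      rw [eval_mono, prod_P, inlP_jn, inrP_jn, mul_assoc]
    rw [sum_congr rfl h2, ← sum_mul, h1, zero_mul]
  · rw [mem_support_iff, hco, sum_eq_single (inlP γ)]
    · rw [if_pos (jn_eta γ)]
      exact mem_support_iff.1 hfs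
    · intro α _ hne
      rw [if_neg]
      intro h1
      apply hne
      rw [← h1, inlP_jn]
    · intro h1; exact absurd hfs h1
  · intro m hm
    rw [mem_support_iff, hco] at hm
    obtain ⟨α, hα, hα2⟩ := exists_ne_zero_of_sum_ne_zero hm
    have h1 : jn α β = m := by
      by_contra h2
      rw [if_neg h2] at hα2
      exact hα2 rfl
    subst h1
    have h3 := hmin α hα
    have h4 := deg_le o1 h3
    rw [ho, deg_P, deg_P, inlP_jn, inrP_jn, ← hβ]
    rcases Nat.lt_or_ge (inlP γ).degree α.degree with h5 | h5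
    · left; omega
    · right
      refine ⟨by omega, ?_⟩
      rcases lt_or_eq_of_le h3 with h6 | h6
      · exact Or.inl h6
      · exact Or.inr ⟨h6, le_rfl⟩

/-- left to right for the second factor -/
lemma sup2 [Fintype σ] [Fintype τ] (o1 : LOrd σ) (o2 : LOrd τ) (o : LOrd (σ ⊕ τ))
    (ho : IsProdOrd o1 o2 o) (Z : Set (σ → ℂ)) (Z' : Set (τ → ℂ)) (γ : σ ⊕ τ →₀ ℕ)
    (h : inrP γ ∈ Lset o2 (vanishingIdeal ℂ Z')) :
    γ ∈ Lset o (vanishingIdeal ℂ (prodS Z Z')) := by
  obtain ⟨f, hf, hfs, hmin⟩ := h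
  set α := inlP γ with hα
  have hco : ∀ m, coeff m (∑ β ∈ f.support, monomial (jn α β) (coeff β f)) =
      ∑ β ∈ f.support, if jn α β = m then coeff β f else 0 := fun m => coeff_sum_mono _ _ _ _
  refine ⟨∑ β ∈ f.support, monomial (jn α β) (coeff β f), ?_, ?_, ?_⟩
  · rw [mem_VI]
    intro z hz
    have h1 := (mem_VI.1 hf) _ hz.2
    rw [eval_eq'] at h1
    rw [map_sum]
    have h2 : ∀ β ∈ f.support, eval z (monomial (jn α β) (coeff β f)) =
        (coeff β f * ∏ j, z (Sum.inr j) ^ β j) * ∏ i, z (Sum.inl i) ^ α i := by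
      intro β _
      rw [eval_mono, prod_P, inlP_jn, inrP_jn]; ring
    rw [sum_congr rfl h2, ← sum_mul, h1, zero_mul]
  · rw [mem_support_iff, hco, sum_eq_single (inrP γ)]
    · rw [if_pos (jn_eta γ)]
      exact mem_support_iff.1 hfs
    · intro β _ hne
      rw [if_neg]
      intro h1
      apply hne
      rw [← h1, inrP_jn]
    · intro h1; exact absurd hfs h1
  · intro m hm
    rw [mem_support_iff, hco] at hm
    obtain ⟨β, hβ, hβ2⟩ := exists_ne_zero_of_sum_ne_zero hm
    have h1 : jn α β = m := by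
      by_contra h2
      rw [if_neg h2] at hβ2
      exact hβ2 rfl
    subst h1
    have h3 := hmin β hβ
    have h4 := deg_le o2 h3
    rw [ho, deg_P, deg_P, inlP_jn, inrP_jn, ← hα]
    rcases Nat.lt_or_ge (inrP γ).degree β.degree with h5 | h5
    · left; omega
    · right
      exact ⟨by omega, Or.inr ⟨rfl, h3⟩⟩

/-- Outside of `Lset` there is a dual functional. -/
lemma dual (o : LOrd σ) (I : Ideal (MvPolynomial σ ℂ)) (α : σ →₀ ℕ) (h : α ∉ Lset o I) :
    ∃ l : MvPolynomial σ ℂ →ₗ[ℂ] ℂ, (∀ f ∈ I, l f = 0) ∧ l (monomial α 1) ≠ 0 ∧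
      ∀ β, l (monomial β 1) ≠ 0 → o.f β ≤ o.f α := by
  let W : Submodule ℂ (MvPolynomial σ ℂ) :=
    Submodule.span ℂ ((fun β : σ →₀ ℕ => (monomial β (1 : ℂ))) '' {β | o.f α < o.f β})
  let J : Submodule ℂ (MvPolynomial σ ℂ) := I.restrictScalars ℂ
  have hW : ∀ w ∈ W, ∀ β ∈ w.support, o.f α < o.f β := by
    intro w hw
    refine Submodule.span_induction ?_ ?_ ?_ ?_ hw
    · rintro _ ⟨β, hβ, rfl⟩ β' hβ'
      have h1 : β' = β := by
        have h2 := support_monomial_subset hβ'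
        simpa using h2
      rw [h1]; exact hβ
    · intro β hβ; simp at hβ
    · intro x y _ _ hx hy β hβ
      classical
      rcases Finset.mem_union.1 (MvPolynomial.support_add hβ) with h1 | h1
      · exact hx β h1
      · exact hy β h1
    · intro a x _ hx β hβ
      exact hx β (support_smul hβ)
  have hno : (monomial α (1 : ℂ)) ∉ J ⊔ W := by
    intro h1
    obtain ⟨f, hf, w, hw, hfw⟩ := Submodule.mem_sup.1 h1
    apply h
    have hcw : coeff α w = 0 := by
      by_contra h2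
      exact absurd (hW w hw α (mem_support_iff.2 h2)) (lt_irrefl _)
    refine ⟨f, hf, ?_, ?_⟩
    · rw [mem_support_iff]
      have h3 : coeff α (f + w) = 1 := by rw [hfw, coeff_monomial, if_pos rfl]
      rw [coeff_add, hcw, add_zero] at h3
      rw [h3]; exact one_ne_zero
    · intro β hβ
      by_cases h4 : α = β
      · rw [h4]
      · have h3 : coeff β (f + w) = 0 := by rw [hfw, coeff_monomial, if_neg h4]
        rw [coeff_add] at h3
        have h5 : coeff β w ≠ 0 := by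
          intro h6
          rw [h6, add_zero] at h3
          exact (mem_support_iff.1 hβ) h3
        exact (hW w hw β (mem_support_iff.2 h5)).le
  obtain ⟨l, hl, hl2⟩ := Submodule.exists_dual_map_eq_bot_of_notMem hno inferInstance
  have hl3 : ∀ x ∈ J ⊔ W, l x = 0 := by
    intro x hx
    have : l x ∈ (J ⊔ W).map l := Submodule.mem_map_of_mem hx
    rw [hl2] at this
    exact (Submodule.mem_bot ℂ).1 this
  refine ⟨l, fun f hf => hl3 f (Submodule.mem_sup_left hf), hl, ?_⟩
  intro β hβ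
  by_contra hc
  apply hβ
  apply hl3
  apply Submodule.mem_sup_right
  apply Submodule.subset_span
  exact ⟨β, not_le.1 hc, rfl⟩

end XLPROD

open XLPROD MvPolynomial in
theorem I_LPROD (_hHG : St_HG) (_hUP : St_UP) : St_LPROD := by
  classical
  intro σ τ _ _ o1 o2 o ho Z Z'
  apply Set.Subset.antisymm
  · rintro γ0 ⟨F, hF, hFs, hmin⟩
    by_cases h0 : inlP γ0 ∈ Lset o1 (vanishingIdeal ℂ Z)
    · exact Or.inl h0
    right
    obtain ⟨l, hlI, hl0, hlle⟩ := dual o1 _ _ h0
    -- the polynomial in the second variables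
    let c : (σ ⊕ τ →₀ ℕ) → ℂ := fun γ => coeff γ F * l (monomial (inlP γ) 1)
    have hco : ∀ m, coeff m (∑ γ ∈ F.support, monomial (inrP γ) (c γ)) =
        ∑ γ ∈ F.support, if inrP γ = m then c γ else 0 := fun m => coeff_sum_mono _ _ _ _
    have hkey : ∀ γ ∈ F.support, c γ ≠ 0 → o2.f (inrP γ0) ≤ o2.f (inrP γ) ∧
        (inrP γ = inrP γ0 → γ = γ0) := by
      intro γ hγ hc
      have h1 : l (monomial (inlP γ) 1) ≠ 0 := by
        intro h2
        apply hc
        simp only [c, h2, mul_zero]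
      have h2 := hlle _ h1
      have h3 := deg_le o1 h2
      have h4 := (ho γ0 γ).1 (hmin γ hγ)
      rw [deg_P, deg_P γ] at h4
      rcases h4 with h4 | ⟨h4, h5⟩
      · have h6 : (inrP γ0).degree < (inrP γ).degree := by omega
        refine ⟨(o2.deg _ _ h6).le, fun h7 => ?_⟩
        rw [h7] at h6
        exact absurd h6 (lt_irrefl _)
      · rcases h5 with h5 | ⟨h5, h6⟩
        · exact absurd h5 (not_lt.2 h2)
        · refine ⟨h6, fun h7 => ?_⟩
          exact (ext_P (o1.inj h5) h7.symm).symm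
    refine ⟨∑ γ ∈ F.support, monomial (inrP γ) (c γ), ?_, ?_, ?_⟩
    · rw [mem_VI]
      intro y hy
      have hFy : (∑ γ ∈ F.support, monomial (inlP γ) (coeff γ F * ∏ j, y j ^ inrP γ j)) ∈
          vanishingIdeal ℂ Z := by
        rw [mem_VI]
        intro x hx
        have h1 : eval (Sum.elim x y) F = 0 := by
          refine (mem_VI.1 hF) _ ⟨?_, ?_⟩
          · simpa using hx
          · simpa using hy
        rw [eval_eq'] at h1
        rw [map_sum, ← h1]
        refine sum_congr rfl fun γ _ => ?_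
        rw [eval_mono, prod_P]
        simp only [Sum.elim_inl, Sum.elim_inr]
        ring
      have h2 := hlI _ hFy
      rw [map_sum] at h2
      rw [map_sum, ← h2]
      refine sum_congr rfl fun γ _ => ?_
      have h3 : (monomial (inlP γ)) (coeff γ F * ∏ j, y j ^ inrP γ j) =
          (coeff γ F * ∏ j, y j ^ inrP γ j) • (monomial (inlP γ) (1 : ℂ)) := by
        rw [smul_monomial, smul_eq_mul, mul_one]
      rw [h3, map_smul, eval_mono, smul_eq_mul]
      simp only [c]
      ring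
    · rw [mem_support_iff, hco, sum_eq_single γ0]
      · rw [if_pos rfl]
        exact mul_ne_zero (mem_support_iff.1 hFs) hl0
      · intro γ hγ hne
        by_cases h1 : inrP γ = inrP γ0
        · rw [if_pos h1]
          by_contra h2
          exact hne ((hkey γ hγ h2).2 h1)
        · rw [if_neg h1]
      · intro h1; exact absurd hFs h1
    · intro m hm
      rw [mem_support_iff, hco] at hm
      obtain ⟨γ, hγ, hγ2⟩ := exists_ne_zero_of_sum_ne_zero hm
      have h1 : inrP γ = m := by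
        by_contra h2
        rw [if_neg h2] at hγ2
        exact hγ2 rfl
      rw [if_pos h1] at hγ2
      rw [← h1]
      exact (hkey γ hγ hγ2).1
  · rintro γ (h | h)
    · exact sup1 o1 o2 o ho Z Z' γ h
    · exact sup2 o1 o2 o ho Z Z' γ h

end Pool.Agent.SH
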