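import Pool.Agent.Work.MP_1c6e58_ag.SH.Stmts

set_option autoImplicit false

open Finset

namespace Pool.Agent.SH

theorem I_MEX (hSHEX : St_SHEX) (hIIIEX : St_IIIEX) : St_MEX := by
  intro r
  induction r with
  | zero =>
    intro n c hc _
    have hn : n = 0 := by
      rcases Nat.eq_zero_or_pos n with h | h
      · exact h
      · exact absurd (hc ⟨0, h⟩) (Nat.not_lt_zero _)
    exact ⟨1, 1, fun _ _ => le_refl _, hn⟩
  | succ r ih =>
    intro n c hc h4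
    obtain ⟨S, hS⟩ : ∃ S : Finset (Fin n), S = univ.filter (fun i => c i = 0) := ⟨_, rfl⟩
    obtain ⟨m, hm⟩ : ∃ m, S.card = m := ⟨_, rfl⟩
    obtain ⟨n1, hn1⟩ : ∃ n1, Sᶜ.card = n1 := ⟨_, rfl⟩
    obtain ⟨φ2, hφ2⟩ : ∃ φ2 : Fin m ↪o Fin n, φ2 = S.orderEmbOfFin hm := ⟨_, rfl⟩
    obtain ⟨φ1, hφ1⟩ : ∃ φ1 : Fin n1 ↪o Fin n, φ1 = Sᶜ.orderEmbOfFin hn1 := ⟨_, rfl⟩
    have hr2 : ∀ i, i ∈ Set.range φ2 ↔ c i = 0 := by
      intro i
      rw [hφ2, Finset.range_orderEmbOfFin, hS]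
      simp
    have hr1 : ∀ i, i ∈ Set.range φ1 ↔ c i ≠ 0 := by
      intro i
      rw [hφ1, Finset.range_orderEmbOfFin, hS]
      simp
    have hm4 : 4 ≤ m := by
      rw [← hm, hS]
      exact h4 0 (Nat.succ_pos r)
    have hc1 : ∀ j, 1 ≤ c (φ1 j) := fun j => Nat.one_le_iff_ne_zero.2 ((hr1 _).1 ⟨j, rfl⟩)
    obtain ⟨u1, v1, h1, hM⟩ := ih n1 (fun j => c (φ1 j) - 1)
      (fun j => by
        have := hc (φ1 j)
        have := hc1 j
        omega)
      (fun a ha => by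
        refine (h4 (a + 1) (by omega)).trans ?_
        rw [← Finset.card_map φ1.toEmbedding]
        apply Finset.card_le_card
        intro i hi
        rw [Finset.mem_filter] at hi
        obtain ⟨j, rfl⟩ := (hr1 i).2 (by omega)
        rw [Finset.mem_map]
        refine ⟨j, ?_, rfl⟩
        rw [Finset.mem_filter]
        refine ⟨mem_univ _, ?_⟩
        rw [hi.2]
        rfl)
    obtain ⟨A2, hA2⟩ := hIIIEX m hm4
    obtain ⟨m', u2, v2, h2⟩ := A2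
    have hmm : m' = m := hA2.2.1
    subst hmm
    obtain ⟨u, v, h, hs⟩ := hSHEX ⟨n1, u1, v1, h1⟩ ⟨m', u2, v2, h2⟩ n φ1 φ2
      (fun i => by
        by_cases hi : c i = 0
        · exact Or.inr ((hr2 i).2 hi)
        · exact Or.inl ((hr1 i).2 hi))
      (fun i j he => by
        have h1 := (hr1 _).1 ⟨i, rfl⟩
        have h2 := (hr2 _).1 ⟨j, rfl⟩
        rw [he] at h1
        exact h1 h2)
    exact ⟨u, v, h, ⟨n1, u1, v1, h1⟩, ⟨m', u2, v2, h2⟩, m', φ1, φ2, hs, hA2,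
      fun j => (hr2 _).1 ⟨j, rfl⟩, hc1, hM⟩

end Pool.Agent.SH
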