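import Pool.Agent.Work.MP_1c6e58_ag.SH.Stmts

/-! MP_1c6e58_ag, item MINJ: the colouring of a shuffle is determined. -/

set_option autoImplicit false

open Finset

namespace Pool.Agent.SH

theorem I_MINJ (hREC : St_REC) : St_MINJ := by
  intro r
  induction r with
  | zero =>
    intro A c c' h _
    funext i
    have h0 : A.n = 0 := h
    exact absurd i.2 (by omega)
  | succ r ih =>
    intro A c c' h h'
    obtain ⟨A1, A2, m, φ1, φ2, hs, hIII, h0, h1, hM⟩ := h
    obtain ⟨A1', A2', m', φ1', φ2', hs', hIII', h0', h1', hM'⟩ := h'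
    obtain ⟨_, hrange, hA, hφ⟩ := hREC A A1 A2 A1' A2' m m' φ1 φ2 φ1' φ2' hs hs' hIII hIII'
    subst hA
    have hφ' : ∀ j, φ1 j = φ1' j := hφ
    have key := ih A1 _ _ hM hM'
    funext i
    rcases hs.cov i with ⟨j, rfl⟩ | ⟨j, rfl⟩
    · have e : c (φ1 j) - 1 = c' (φ1' j) - 1 := congrFun key j
      have e1 := h1 j
      have e2 := h1' j
      rw [← hφ' j] at e e2
      omega
    · have hj : φ2 j ∈ Set.range φ2' := hrange ▸ Set.mem_range_self j
      obtain ⟨j', hj'⟩ := hj
      rw [h0 j, ← hj', h0' j']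

end Pool.Agent.SH
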