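import Pool.Agent.Work.MP_1c6e58_ag.SH.Stmts

/-!
MP_1c6e58_ag, project SH: MPROD, the multiplicity of a product (from HPROD).
-/

set_option autoImplicit false

open Finset

namespace Pool.Agent.SH

theorem I_MPROD (hHPROD : St_HPROD) : St_MPROD := by
  intro σ τ _ _ Z Z' d e d' e' h h'
  obtain ⟨he, Q, hQ1, hQ⟩ := h
  obtain ⟨he', Q', hQ1', hQ'⟩ := h'
  refine ⟨Nat.mul_pos he he', Q * Q', ?_, ?_⟩
  · rw [Polynomial.eval_mul, hQ1, hQ1']
    push_cast
    rfl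
  · rw [hHPROD σ τ Z Z', Polynomial.coe_mul, ← hQ, ← hQ']
    ring

end Pool.Agent.SH
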