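import Pool.Agent.Work.MP_1c6e58_ag.SH.Stmts

/-!
MP_1c6e58_ag, project SH, item MQM: a Hilbert-Samuel series of the form `Q / (1 - x)^(d+1)` with
`Q 1 = e > 0` gives the multiplicity `e`.
-/

set_option autoImplicit false

open Finset

namespace Pool.Agent.SH

namespace XMQM

open Polynomial

/-- The Hilbert polynomial has degree at most `d`. -/
lemma natDegree_hp_le (p : Polynomial ℚ) (d : ℕ) : (hilbertPoly p (d + 1)).natDegree ≤ d := by
  rw [hilbertPoly_succ]
  apply natDegree_sum_le_of_forall_le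
  intro i _
  refine (natDegree_smul_le _ _).trans ?_
  rw [natDegree_preHilbertPoly]

/-- The coefficient of degree `d` of the Hilbert polynomial. -/
lemma coeff_hp (p : Polynomial ℚ) (d : ℕ) :
    (hilbertPoly p (d + 1)).coeff d = p.eval 1 * (d.factorial : ℚ)⁻¹ := by
  rw [hilbertPoly_succ, finsetSum_coeff, eval_eq_sum, sum_def, Finset.sum_mul]
  refine Finset.sum_congr rfl (fun i _ => ?_)
  rw [coeff_smul, coeff_preHilbertPoly_self, smul_eq_mul, one_pow, mul_one]

end XMQM

theorem I_MQM : St_MQM := by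
  intro σ _ Z d e h
  obtain ⟨he, Q, hQ, hS⟩ := h
  set p : Polynomial ℚ := Q.map (Int.castRingHom ℚ) with hp
  have hp1 : p.eval 1 = (e : ℚ) := by
    have h1 : p.eval 1 = ((Q.eval 1 : ℤ) : ℚ) := by
      rw [hp, Polynomial.eval_one_map]
      simp
    rw [h1, hQ]
    simp
  have hdf : ((d.factorial : ℕ) : ℚ) ≠ 0 := by exact_mod_cast d.factorial_ne_zero
  have hcoeff := XMQM.coeff_hp p d
  rw [hp1] at hcoeff
  have hc0 : (Polynomial.hilbertPoly p (d + 1)).coeff d ≠ 0 := by
    rw [hcoeff]
    have : (e : ℚ) ≠ 0 := by exact_mod_cast he.ne'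
    positivity
  have hdeg : (Polynomial.hilbertPoly p (d + 1)).natDegree = d :=
    Polynomial.natDegree_eq_of_le_of_coeff_ne_zero (XMQM.natDegree_hp_le p d) hc0
  refine ⟨Polynomial.hilbertPoly p (d + 1), ?_, ?_, ?_⟩
  · intro h0
    rw [h0] at hc0
    simp at hc0
  · -- the series over `ℚ`
    have hser : PowerSeries.map (Int.castRingHom ℚ) (HS Z) =
        (p : PowerSeries ℚ) * (PowerSeries.invOneSubPow ℚ (d + 1)).val := by
      have h2 := congrArg (PowerSeries.map (Int.castRingHom ℚ)) hS
      rw [map_mul, map_pow, map_sub, map_one, PowerSeries.map_X] at h2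
      have h3 : PowerSeries.map (Int.castRingHom ℚ) (Q : PowerSeries ℤ) = (p : PowerSeries ℚ) := by
        rw [hp, Polynomial.polynomial_map_coe]
      rw [h3] at h2
      have h4 : (1 - PowerSeries.X : PowerSeries ℚ) ^ (d + 1) *
          (PowerSeries.invOneSubPow ℚ (d + 1)).val = 1 := by
        rw [← PowerSeries.invOneSubPow_inv_eq_one_sub_pow]
        exact (PowerSeries.invOneSubPow ℚ (d + 1)).inv_val
      rw [← h2, mul_assoc, h4, mul_one]
    filter_upwards [Filter.eventually_gt_atTop p.natDegree] with t ht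
    have h5 := Polynomial.coeff_mul_invOneSubPow_eq_hilbertPoly_eval (d + 1) ht
    rw [← hser, PowerSeries.coeff_map, HS, PowerSeries.coeff_mk] at h5
    rw [← h5]
    simp
  · rw [hdeg, Polynomial.leadingCoeff, hdeg, hcoeff]
    field_simp

end Pool.Agent.SH
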