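import Pool.Agent.Work.MP_1c6e58_ag.SH.Stmts

set_option autoImplicit false

open Finset

namespace Pool.Agent.SH

theorem I_MRS : St_MRS := by
  intro r
  induction r with
  | zero => intro A c h; exact h
  | succ r ih =>
    intro A c h
    obtain ⟨A1, A2, m, φ1, φ2, hS, hIII, _, _, hM⟩ := h
    exact ⟨A1, A2, m, ih A1 _ hM, hIII, ⟨φ1, φ2, hS⟩⟩

end Pool.Agent.SH
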