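import Pool.Agent.Work.MP_1c6e58_ag.SH.Stmts

set_option autoImplicit false

open Finset

namespace Pool.Agent.SH

namespace XMULTS

/-- The map on coordinates. -/
def eC {m n : ℕ} (φ : Fin m ↪o Fin n) (p : Co m) : Co n :=
  ⟨(φ p.1.1, φ p.1.2), φ.strictMono p.2⟩

theorem eC_inj {m n : ℕ} (φ : Fin m ↪o Fin n) : Function.Injective (eC φ) := by
  intro p q h
  have h1 : (φ p.1.1, φ p.1.2) = (φ q.1.1, φ q.1.2) := congrArg Subtype.val h
  have h2 := φ.injective (congrArg Prod.fst h1)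
  have h3 := φ.injective (congrArg Prod.snd h1)
  exact Subtype.ext (Prod.ext h2 h3)

theorem disj {A1 A2 A : Itv} {φ1 : Fin A1.n ↪o Fin A.n} {φ2 : Fin A2.n ↪o Fin A.n}
    (H : ShufAt A1 A2 A φ1 φ2) (i : Fin A1.n) (j : Fin A2.n) : φ1 i ≠ φ2 j := by
  intro h
  have h1 := H.u1 i
  have h2 := H.u2 j
  rw [h] at h1
  have := (A2.u j).isLt
  omega

theorem h_inj {A1 A2 A : Itv} {φ1 : Fin A1.n ↪o Fin A.n} {φ2 : Fin A2.n ↪o Fin A.n}
    (H : ShufAt A1 A2 A φ1 φ2) : Function.Injective (Sum.elim (eC φ1) (eC φ2)) := by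
  refine (eC_inj φ1).sumElim (eC_inj φ2) fun p q h => ?_
  have h1 : (φ1 p.1.1, φ1 p.1.2) = (φ2 q.1.1, φ2 q.1.2) := congrArg Subtype.val h
  exact disj H _ _ (congrArg Prod.fst h1)

open Classical in
/-- A type as the sum of the image of an injective function and the complement. -/
noncomputable def sE {X Y : Type} (h : X → Y) (hh : Function.Injective h) :
    X ⊕ {y : Y // y ∉ Set.range h} ≃ Y :=
  (Equiv.sumCongr (Equiv.ofInjective h hh) (Equiv.refl _)).trans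
    (Equiv.Set.sumCompl (Set.range h))

theorem sE_inl {X Y : Type} (h : X → Y) (hh : Function.Injective h) (x : X) :
    sE h hh (Sum.inl x) = h x := by
  unfold sE
  rfl

theorem sE_inr {X Y : Type} (h : X → Y) (hh : Function.Injective h)
    (y : {y : Y // y ∉ Set.range h}) : sE h hh (Sum.inr y) = y.1 := by
  unfold sE
  rfl

theorem MQ_congr {σ τ : Type} {Z : Set (σ → ℂ)} {Z' : Set (τ → ℂ)} {d e : ℕ}
    (h : HS Z = HS Z') (h' : MQ Z' d e) : MQ Z d e := by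
  obtain ⟨h1, Q, h2, h3⟩ := h'
  exact ⟨h1, Q, h2, by rw [h]; exact h3⟩

end XMULTS

open XMULTS

theorem I_MULTS (hSVS : St_SVS) (hMPROD : St_MPROD) (hREI : St_REI) (hCOORD : St_COORD) :
    St_MULTS := by
  classical
  rintro A1 A2 A d1 e1 d2 e2 ⟨φ1, φ2, H⟩ hm1 hm2
  let h := Sum.elim (eC φ1) (eC φ2)
  let T : Finset {y : Co A.n // y ∉ Set.range h} :=
    univ.filter (fun c => c.1.1.1 ∈ Set.range φ1 ∧ c.1.1.2 ∈ Set.range φ2)
  have hP := hMPROD _ _ _ _ _ _ _ _ (hMPROD _ _ _ _ _ _ _ _ hm1 hm2)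
    (hCOORD {y : Co A.n // y ∉ Set.range h} T)
  rw [mul_one] at hP
  refine ⟨_, MQ_congr ?_ hP⟩
  refine hREI _ _ (sE h (h_inj H)).symm _ _ fun z => ?_
  rw [hSVS A1 A2 A φ1 φ2 H z, Equiv.symm_symm]
  have g1 : (fun i => z (sE h (h_inj H) (Sum.inl (Sum.inl i)))) = resC φ1 z := by
    funext i
    rw [sE_inl]
    rfl
  have g2 : (fun i => z (sE h (h_inj H) (Sum.inl (Sum.inr i)))) = resC φ2 z := by
    funext i
    rw [sE_inl]
    rfl
  show _ ↔ ((fun i => z (sE h (h_inj H) (Sum.inl (Sum.inl i)))) ∈ SV A1.u A1.v ∧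
    (fun i => z (sE h (h_inj H) (Sum.inl (Sum.inr i)))) ∈ SV A2.u A2.v) ∧
    ∀ c ∈ (T : Set _), z (sE h (h_inj H) (Sum.inr c)) = 0
  rw [g1, g2, and_assoc]
  refine and_congr_right fun _ => and_congr_right fun _ => ?_
  constructor
  · intro hz c hc
    rw [Finset.mem_coe, Finset.mem_filter] at hc
    obtain ⟨-, ⟨i, hi⟩, ⟨j, hj⟩⟩ := hc
    rw [sE_inr]
    have hlt : φ2 j < φ1 i := by rw [hi, hj]; exact c.1.2
    have := hz i j hlt
    rw [← this]
    congr 1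
    exact Subtype.ext (Prod.ext hi.symm hj.symm)
  · intro hz i j hlt
    have hn : (⟨(φ1 i, φ2 j), hlt⟩ : Co A.n) ∉ Set.range h := by
      rintro ⟨x | x, hx⟩
      · have : φ1 x.1.2 = φ2 j := congrArg (fun c : Co A.n => c.1.2) hx
        exact disj H _ _ this
      · have : φ2 x.1.1 = φ1 i := congrArg (fun c : Co A.n => c.1.1) hx
        exact disj H _ _ this.symm
    have := hz ⟨⟨(φ1 i, φ2 j), hlt⟩, hn⟩ (by
      rw [Finset.mem_coe, Finset.mem_filter]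
      exact ⟨mem_univ _, ⟨i, rfl⟩, ⟨j, rfl⟩⟩)
    rw [sE_inr] at this
    exact this

end Pool.Agent.SH
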