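import Pool.Agent.Work.MP_1c6e58_ag.SH.Stmts

set_option autoImplicit false

open Finset

namespace Pool.Agent.SH

namespace XOPROD

variable {σ τ : Type}

theorem inlP_apply (γ : σ ⊕ τ →₀ ℕ) (i : σ) : inlP γ i = γ (Sum.inl i) := rfl

theorem inrP_apply (γ : σ ⊕ τ →₀ ℕ) (j : τ) : inrP γ j = γ (Sum.inr j) := rfl

theorem inlP_add (γ γ' : σ ⊕ τ →₀ ℕ) : inlP (γ + γ') = inlP γ + inlP γ' := by
  ext i
  rw [Finsupp.add_apply, inlP_apply, inlP_apply, inlP_apply, Finsupp.add_apply]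

theorem inrP_add (γ γ' : σ ⊕ τ →₀ ℕ) : inrP (γ + γ') = inrP γ + inrP γ' := by
  ext i
  rw [Finsupp.add_apply, inrP_apply, inrP_apply, inrP_apply, Finsupp.add_apply]

theorem inlP_zero : inlP (0 : σ ⊕ τ →₀ ℕ) = 0 := by
  ext i
  rw [inlP_apply, Finsupp.zero_apply, Finsupp.zero_apply]

theorem inrP_zero : inrP (0 : σ ⊕ τ →₀ ℕ) = 0 := by
  ext i
  rw [inrP_apply, Finsupp.zero_apply, Finsupp.zero_apply]

theorem ext_parts {γ γ' : σ ⊕ τ →₀ ℕ} (h1 : inlP γ = inlP γ') (h2 : inrP γ = inrP γ') :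
    γ = γ' := by
  ext i
  rcases i with i | j
  · rw [← inlP_apply, ← inlP_apply, h1]
  · rw [← inrP_apply, ← inrP_apply, h2]

/-- The map into the lexicographic product. -/
noncomputable def F (o1 : LOrd σ) (o2 : LOrd τ) : (σ ⊕ τ →₀ ℕ) →+ ℕ ×ₗ (o1.S ×ₗ o2.S) where
  toFun γ := toLex (γ.degree, toLex (o1.f (inlP γ), o2.f (inrP γ)))
  map_zero' := by
    rw [inlP_zero, inrP_zero]
    simp only [map_zero]
    rfl
  map_add' γ γ' := by
    rw [inlP_add, inrP_add]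
    simp only [map_add]
    rfl

end XOPROD

theorem I_OPROD : St_OPROD := by
  intro σ τ _ _ o1 o2
  refine ⟨{ S := ℕ ×ₗ (o1.S ×ₗ o2.S), f := XOPROD.F o1 o2, inj := ?_, deg := ?_ }, ?_⟩
  · intro γ γ' h
    have h1 : (γ.degree, toLex (o1.f (inlP γ), o2.f (inrP γ))) =
        (γ'.degree, toLex (o1.f (inlP γ'), o2.f (inrP γ'))) := toLex.injective h
    have h2 := (Prod.mk.inj h1).2
    have h3 : (o1.f (inlP γ), o2.f (inrP γ)) = (o1.f (inlP γ'), o2.f (inrP γ')) :=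
      toLex.injective h2
    exact XOPROD.ext_parts (o1.inj (Prod.mk.inj h3).1) (o2.inj (Prod.mk.inj h3).2)
  · intro γ γ' h
    show toLex (γ.degree, toLex (o1.f (inlP γ), o2.f (inrP γ))) <
      toLex (γ'.degree, toLex (o1.f (inlP γ'), o2.f (inrP γ')))
    rw [Prod.Lex.toLex_lt_toLex]
    exact Or.inl h
  · intro γ γ'
    show toLex (γ.degree, toLex (o1.f (inlP γ), o2.f (inrP γ))) ≤
      toLex (γ'.degree, toLex (o1.f (inlP γ'), o2.f (inrP γ'))) ↔ _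
    rw [Prod.Lex.toLex_le_toLex, Prod.Lex.toLex_le_toLex]

end Pool.Agent.SH
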