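import Pool.Agent.Work.MP_1c6e58_ag.SH.Stmts

/-!
MP_1c6e58_ag, project SH, item PBR: the Bruhat order of the patterns of two permutations which
agree outside of the positions `φ`.
-/

set_option autoImplicit false

open Finset

namespace Pool.Agent.SH

namespace XPBR

variable {m n : ℕ}

/-- The order embedding of the values, as a function. -/
def psi (φ : Fin m ↪o Fin n) (v : Equiv.Perm (Fin n)) (w : Equiv.Perm (Fin m)) (k : Fin m) :
    Fin n := v (φ (w.symm k))

lemma psi_strictMono {φ : Fin m ↪o Fin n} {v : Equiv.Perm (Fin n)} {w : Equiv.Perm (Fin m)}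
    (h : IsPat w v φ) : StrictMono (psi φ v w) := by
  intro k l hkl
  unfold psi
  rw [h]
  simpa using hkl

lemma psi_apply (φ : Fin m ↪o Fin n) (v : Equiv.Perm (Fin n)) (w : Equiv.Perm (Fin m))
    (j : Fin m) : psi φ v w (w j) = v (φ j) := by
  unfold psi
  rw [Equiv.symm_apply_apply]

lemma range_psi (φ : Fin m ↪o Fin n) (v : Equiv.Perm (Fin n)) (w : Equiv.Perm (Fin m)) :
    Set.range (psi φ v w) = v '' Set.range φ := by
  ext y
  constructor
  · rintro ⟨k, rfl⟩
    exact ⟨φ (w.symm k), ⟨w.symm k, rfl⟩, rfl⟩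
  · rintro ⟨_, ⟨j, rfl⟩, rfl⟩
    exact ⟨w j, psi_apply φ v w j⟩

lemma image_eq {φ : Fin m ↪o Fin n} {u v : Equiv.Perm (Fin n)}
    (h : ∀ i, i ∉ Set.range φ → u i = v i) : u '' Set.range φ = v '' Set.range φ := by
  have h1 : u '' (Set.range φ)ᶜ = v '' (Set.range φ)ᶜ :=
    Set.image_congr (fun i hi => h i hi)
  rw [Set.image_compl_eq u.bijective, Set.image_compl_eq v.bijective] at h1
  exact compl_injective h1

/-- The number of positions outside of the range. -/
lemma rk_split (φ : Fin m ↪o Fin n) (v : Equiv.Perm (Fin n)) (w : Equiv.Perm (Fin m))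
    (p q : Fin n) :
    rk v p q = (univ.filter (fun i : Fin n => i ∉ Set.range φ ∧ i ≤ p ∧ v i ≤ q)).card +
      (univ.filter (fun j : Fin m => φ j ≤ p ∧ psi φ v w (w j) ≤ q)).card := by
  classical
  have h1 : (univ.filter (fun j : Fin m => φ j ≤ p ∧ psi φ v w (w j) ≤ q)).card =
      (univ.filter (fun i : Fin n => i ∈ Set.range φ ∧ i ≤ p ∧ v i ≤ q)).card := by
    rw [← Finset.card_image_of_injective _ φ.injective]
    congr 1
    ext i
    simp only [Finset.mem_image, Finset.mem_filter, Finset.mem_univ, true_and, psi_apply,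
      Set.mem_range]
    constructor
    · rintro ⟨j, ⟨h2, h3⟩, rfl⟩
      exact ⟨⟨j, rfl⟩, h2, h3⟩
    · rintro ⟨⟨j, rfl⟩, h2, h3⟩
      exact ⟨j, ⟨h2, h3⟩, rfl⟩
  rw [h1, rk, ← Finset.card_union_of_disjoint]
  · congr 1
    ext i
    simp only [Finset.mem_union, Finset.mem_filter, Finset.mem_univ, true_and]
    tauto
  · rw [Finset.disjoint_left]
    intro i hi hi'
    simp only [Finset.mem_filter, Finset.mem_univ, true_and] at hi hi'
    exact hi.1 hi'.1

/-- An initial piece `f j ≤ p` is empty or of the form `j ≤ p'`. -/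
lemma cut {f : Fin m → Fin n} (hf : StrictMono f) (p : Fin n) :
    (∀ j, ¬ f j ≤ p) ∨ ∃ p' : Fin m, ∀ j, f j ≤ p ↔ j ≤ p' := by
  classical
  by_cases h : (univ.filter (fun j : Fin m => f j ≤ p)).Nonempty
  · right
    refine ⟨(univ.filter (fun j : Fin m => f j ≤ p)).max' h, fun j => ⟨fun hj => ?_, fun hj => ?_⟩⟩
    · exact Finset.le_max' _ _ (by simpa using hj)
    · have h1 := Finset.max'_mem _ h
      simp only [Finset.mem_filter, Finset.mem_univ, true_and] at h1
      exact (hf.monotone hj).trans h1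
  · left
    intro j hj
    exact h ⟨j, by simpa using hj⟩

end XPBR

theorem I_PBR : St_PBR := by
  intro m n φ u v x w hw hx huv
  have hφ : StrictMono φ := φ.strictMono
  set ψ := XPBR.psi φ v w with hψ
  have hψm : StrictMono ψ := XPBR.psi_strictMono hw
  have hψu : XPBR.psi φ u x = ψ := by
    rw [← (XPBR.psi_strictMono hx).range_inj hψm, XPBR.range_psi, XPBR.range_psi,
      XPBR.image_eq huv]
  -- comparison of the rank functions
  have hA : ∀ p q : Fin n, (univ.filter (fun i : Fin n => i ∉ Set.range φ ∧ i ≤ p ∧ u i ≤ q)).card =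
      (univ.filter (fun i : Fin n => i ∉ Set.range φ ∧ i ≤ p ∧ v i ≤ q)).card := by
    intro p q
    congr 1
    ext i
    simp only [Finset.mem_filter, Finset.mem_univ, true_and]
    constructor
    · rintro ⟨h1, h2, h3⟩
      exact ⟨h1, h2, by rw [← huv i h1]; exact h3⟩
    · rintro ⟨h1, h2, h3⟩
      exact ⟨h1, h2, by rw [huv i h1]; exact h3⟩
  have hkey : ∀ p q : Fin n, (rk v p q ≤ rk u p q ↔
      (univ.filter (fun j : Fin m => φ j ≤ p ∧ ψ (w j) ≤ q)).card ≤
        (univ.filter (fun j : Fin m => φ j ≤ p ∧ ψ (x j) ≤ q)).card) := by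
    intro p q
    rw [XPBR.rk_split φ v w p q, XPBR.rk_split φ u x p q, hA p q, hψu, add_le_add_iff_left]
  constructor
  · intro h p q
    rw [hkey]
    rcases XPBR.cut hφ p with h1 | ⟨p', h1⟩
    · have : (univ.filter (fun j : Fin m => φ j ≤ p ∧ ψ (w j) ≤ q)) = ∅ := by
        ext j
        simp [h1 j]
      rw [this]
      simp
    · rcases XPBR.cut hψm q with h2 | ⟨q', h2⟩
      · have : (univ.filter (fun j : Fin m => φ j ≤ p ∧ ψ (w j) ≤ q)) = ∅ := by
          ext j
          simp [h2 (w j)]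
        rw [this]
        simp
      · have h3 := h p' q'
        unfold rk at h3
        simpa only [h1, h2] using h3
  · intro h p' q'
    have h3 := (hkey (φ p') (ψ q')).1 (h (φ p') (ψ q'))
    unfold rk
    simpa only [hφ.le_iff_le, hψm.le_iff_le] using h3

end Pool.Agent.SH
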