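import Pool.Agent.Work.MP_1c6e58_ag.SH.Stmts

set_option autoImplicit false

open Finset

namespace Pool.Agent.SH

namespace XPEX

lemma ex {m n : ℕ} (φ : Fin m ↪o Fin n) (v : Equiv.Perm (Fin n)) :
    ∃ w : Equiv.Perm (Fin m), IsPat w v φ := by
  classical
  let g : Fin m ↪ Fin n := φ.toEmbedding.trans v.toEmbedding
  let S : Finset (Fin n) := univ.map g
  have hS : S.card = m := by simp [S]
  have hm : ∀ j, v (φ j) ∈ S := fun j => by
    simp only [S, mem_map, mem_univ, true_and]
    exact ⟨j, rfl⟩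
  let e := S.orderIsoOfFin hS
  let f : Fin m → Fin m := fun j => e.symm ⟨v (φ j), hm j⟩
  have hf : ∀ j k, f j < f k ↔ v (φ j) < v (φ k) := by
    intro j k
    simp only [f]
    rw [OrderIso.lt_iff_lt]
    exact Iff.rfl
  have hinj : Function.Injective f := by
    intro j k h
    have h1 : ¬ v (φ j) < v (φ k) := by rw [← hf, h]; exact lt_irrefl _
    have h2 : ¬ v (φ k) < v (φ j) := by rw [← hf, h]; exact lt_irrefl _
    have h3 : v (φ j) = v (φ k) := le_antisymm (not_lt.1 h2) (not_lt.1 h1)
    exact φ.injective (v.injective h3)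
  refine ⟨Equiv.ofBijective f (Finite.injective_iff_bijective.1 hinj), ?_⟩
  intro j k
  exact (hf j k).symm

lemma uniq {m n : ℕ} (φ : Fin m ↪o Fin n) (v : Equiv.Perm (Fin n))
    (w w' : Equiv.Perm (Fin m)) (h : IsPat w v φ) (h' : IsPat w' v φ) : w = w' := by
  let e : Fin m ≃o Fin m :=
    { toEquiv := w.symm.trans w'
      map_rel_iff' := by
        intro a b
        have h1 := h (w.symm b) (w.symm a)
        have h2 := h' (w.symm b) (w.symm a)
        have h3 : w (w.symm b) < w (w.symm a) ↔ w' (w.symm b) < w' (w.symm a) := h1.symm.trans h2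
        rw [Equiv.apply_symm_apply, Equiv.apply_symm_apply] at h3
        change w' (w.symm a) ≤ w' (w.symm b) ↔ a ≤ b
        rw [← not_lt, ← not_lt, h3] }
  have he : e = OrderIso.refl _ := Subsingleton.elim _ _
  apply Equiv.ext
  intro j
  have h4 : e (w j) = w j := by rw [he]; rfl
  have h5 : e (w j) = w' j := by
    change w' (w.symm (w j)) = w' j
    rw [Equiv.symm_apply_apply]
  rw [← h4, h5]

end XPEX

theorem I_PEX : St_PEX := fun _ _ φ v =>
  ⟨XPEX.ex φ v, fun w w' h h' => XPEX.uniq φ v w w' h h'⟩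

end Pool.Agent.SH
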