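import Pool.Agent.Work.MP_1c6e58_ag.SH.Stmts

set_option autoImplicit false

open Finset

namespace Pool.Agent.SH

namespace XPHI

variable {m n : ℕ}

theorem pat_of_eq {φ : Fin m ↪o Fin n} {u v : Equiv.Perm (Fin n)} {x w : Equiv.Perm (Fin m)}
    (hw : IsPat w v φ) (h : ∀ j, u (φ j) = v (φ (w.symm (x j)))) : IsPat x u φ := by
  intro j k
  rw [h j, h k, hw, Equiv.apply_symm_apply, Equiv.apply_symm_apply]

theorem strictMono_id {g : Fin m → Fin m} (hg : StrictMono g) (j : Fin m) : g j = j :=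
  le_antisymm hg.apply_le hg.le_apply

theorem eq_of_pat {φ : Fin m ↪o Fin n} {u v : Equiv.Perm (Fin n)} {x w : Equiv.Perm (Fin m)}
    (hw : IsPat w v φ) (huv : ∀ i, i ∉ Set.range φ → u i = v i) (hx : IsPat x u φ) :
    ∀ j, u (φ j) = v (φ (w.symm (x j))) := by
  have hk : ∀ j, ∃ k, v (φ k) = u (φ j) := by
    intro j
    by_cases h : v.symm (u (φ j)) ∈ Set.range φ
    · obtain ⟨k, hk⟩ := h
      exact ⟨k, by rw [hk, Equiv.apply_symm_apply]⟩
    · exfalso
      have h1 := huv _ h
      rw [Equiv.apply_symm_apply] at h1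
      have h2 := u.injective h1
      exact h ⟨j, h2.symm⟩
  choose k hk using hk
  have hmono : StrictMono (fun a : Fin m => w (k (x.symm a))) := by
    intro a b hab
    show w (k (x.symm a)) < w (k (x.symm b))
    rw [← hw, hk, hk, hx, Equiv.apply_symm_apply, Equiv.apply_symm_apply]
    exact hab
  intro j
  have h1 := strictMono_id hmono (x j)
  have h2 : w (k j) = x j := by
    have : (fun a : Fin m => w (k (x.symm a))) (x j) = w (k j) := by simp
    rw [← this]; exact h1
  rw [← h2, Equiv.symm_apply_apply, hk]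

end XPHI

theorem I_PHI : St_PHI := by
  intro m n φ v w hw
  refine ⟨fun x => ?_, fun u x huv => ⟨XPHI.eq_of_pat hw huv, XPHI.pat_of_eq hw⟩⟩
  let σ : Equiv.Perm (Fin n) := Equiv.Perm.viaFintypeEmbedding (w.symm * x) φ.toEmbedding
  refine ⟨v * σ, XPHI.pat_of_eq hw ?_, ?_⟩
  · intro j
    rw [Equiv.Perm.mul_apply]
    congr 1
    exact Equiv.Perm.viaFintypeEmbedding_apply_image (w.symm * x) φ.toEmbedding j
  · intro i hi
    rw [Equiv.Perm.mul_apply]
    congr 1
    exact Equiv.Perm.viaFintypeEmbedding_apply_notMem_range (w.symm * x) φ.toEmbedding hi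

end Pool.Agent.SH
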