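import Pool.Agent.Work.MP_1c6e58_ag.SH.Stmts

/-!
MP_1c6e58_ag, project SH, item PLEN: length differences of patterns.
-/

set_option autoImplicit false

open Finset

namespace Pool.Agent.SH

namespace XPLEN

theorem len_le {m : ℕ} (x : Equiv.Perm (Fin m)) : len x ≤ m * m := by
  unfold len
  refine (Finset.card_le_univ _).trans ?_
  simp

theorem u'_apply {m n : ℕ} (φ : Fin m ↪o Fin n) (u : Equiv.Perm (Fin n)) (a b j : Fin m) :
    (u * Equiv.swap (φ a) (φ b)) (φ j) = u (φ (Equiv.swap a b j)) := by
  rw [Equiv.Perm.mul_apply, φ.injective.map_swap]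

end XPLEN

theorem I_PLEN (hCOVER : St_COVER) (hLSW : St_LSW) (hPHI : St_PHI) (hPBR : St_PBR) : St_PLEN := by
  intro m n φ u v x w hw hx hag hBr
  obtain ⟨k, hk⟩ : ∃ k, m * m - len x = k := ⟨_, rfl⟩
  induction k using Nat.strong_induction_on generalizing x u with
  | _ k ih =>
    by_cases hxw : x = w
    · subst hxw
      have h1 := ((hPHI m n φ v x hw).2 u x hag).1 hx
      have h2 : u = v := by
        ext i
        by_cases hi : i ∈ Set.range φ
        · obtain ⟨j, rfl⟩ := hi
          rw [h1 j, Equiv.symm_apply_apply]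
        · rw [hag i hi]
      rw [h2]
      simp
    · obtain ⟨a, b, hab, hxab, hno, hBr'⟩ := hCOVER m x w hBr hxw
      have hlx := (hLSW m x a b hab hxab).2 hno
      have hlu := (hLSW n u (φ a) (φ b) (φ.strictMono hab) ((hx a b).2 hxab)).1
      have hle := XPLEN.len_le (x * Equiv.swap a b)
      have hx' : IsPat (x * Equiv.swap a b) (u * Equiv.swap (φ a) (φ b)) φ := by
        intro j l
        rw [XPLEN.u'_apply, XPLEN.u'_apply, Equiv.Perm.mul_apply, Equiv.Perm.mul_apply]
        exact hx _ _
      have hag' : ∀ i, i ∉ Set.range φ → (u * Equiv.swap (φ a) (φ b)) i = v i := by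
        intro i hi
        rw [Equiv.Perm.mul_apply, Equiv.swap_apply_of_ne_of_ne (fun h => hi ⟨a, h.symm⟩)
          (fun h => hi ⟨b, h.symm⟩)]
        exact hag i hi
      have h3 := ih (m * m - len (x * Equiv.swap a b)) (by omega) _ _ hx' hag' hBr' rfl
      omega

end Pool.Agent.SH
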