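import Pool.Agent.Work.MP_1c6e58_ag.SH.Stmts

/-!
QUAD: the multiplicity of the quadric.
-/

set_option autoImplicit false

open Finset

namespace Pool.Agent.SH

namespace XQUAD

open MvPolynomial

/-- the quadric -/
noncomputable def qq (J : Type) [Fintype J] : MvPolynomial (J ⊕ J) ℂ :=
  ∑ i, X (Sum.inl i) * X (Sum.inr i)

theorem qq_irr (J : Type) [Fintype J] (h : 2 ≤ Fintype.card J) : Irreducible (qq J) := by
  classical
  have h1 : qq J = sumSMulXSMulY (Finsupp.equivFunOnFinite.symm (fun _ : J => (1 : ℂ))) := by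
    unfold qq sumSMulXSMulY
    rw [Finsupp.linearCombination_apply, Finsupp.sum_fintype]
    · refine Finset.sum_congr rfl fun i _ => ?_
      simp
    · intro i
      simp
  rw [h1]
  apply irreducible_sumSMulXSMulY
  · obtain ⟨a, b, hab⟩ := Fintype.exists_pair_of_one_lt_card (by omega : 1 < Fintype.card J)
    exact ⟨a, by simp, b, by simp, hab⟩
  · intro r hr
    obtain ⟨a, b, hab⟩ := Fintype.exists_pair_of_one_lt_card (by omega : 1 < Fintype.card J)
    have := hr a
    simp only [Finsupp.equivFunOnFinite_symm_apply_apply] at this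
    exact isUnit_of_dvd_one this

theorem vI (J : Type) [Fintype J] (h : 2 ≤ Fintype.card J) :
    vanishingIdeal ℂ (quadS J) = Ideal.span {qq J} := by
  have hp : (Ideal.span {qq J}).IsPrime := by
    rw [Ideal.span_singleton_prime (qq_irr J h).ne_zero]
    exact (qq_irr J h).prime
  have e : quadS J = zeroLocus ℂ (Ideal.span {qq J}) := by
    ext z
    rw [mem_zeroLocus_iff]
    have hz : aeval z (qq J) = ∑ i, z (Sum.inl i) * z (Sum.inr i) := by
      unfold qq
      rw [map_sum]
      refine Finset.sum_congr rfl fun i _ => ?_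
      rw [map_mul, aeval_X, aeval_X]
    constructor
    · intro h1 p hp
      obtain ⟨a, rfl⟩ := Ideal.mem_span_singleton'.1 hp
      rw [map_mul, hz]
      have : ∑ i, z (Sum.inl i) * z (Sum.inr i) = 0 := h1
      rw [this, mul_zero]
    · intro h1
      have := h1 (qq J) (Ideal.mem_span_singleton_self _)
      rw [hz] at this
      exact this
  rw [e]
  exact IsPrime.vanishingIdeal_zeroLocus _

section low
variable {σ : Type} (o : LOrd σ)

/-- `α` is the lowest exponent of `f` -/
def IsLow (f : MvPolynomial σ ℂ) (α : σ →₀ ℕ) : Prop :=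
  α ∈ f.support ∧ ∀ β ∈ f.support, o.f α ≤ o.f β

theorem exists_low {f : MvPolynomial σ ℂ} (hf : f ≠ 0) : ∃ α, IsLow o f α := by
  have hne : f.support.Nonempty := by
    rw [Finset.nonempty_iff_ne_empty]
    intro h
    exact hf (support_eq_empty.1 h)
  obtain ⟨α, h1, h2⟩ := Finset.exists_min_image f.support o.f hne
  exact ⟨α, h1, h2⟩

theorem low_unique {f : MvPolynomial σ ℂ} {α β : σ →₀ ℕ} (h1 : IsLow o f α) (h2 : IsLow o f β) :
    α = β :=
  o.inj (le_antisymm (h1.2 β h2.1) (h2.2 α h1.1))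

theorem low_mul {f g : MvPolynomial σ ℂ} {α β : σ →₀ ℕ} (h1 : IsLow o f α) (h2 : IsLow o g β) :
    IsLow o (f * g) (α + β) := by
  classical
  constructor
  · rw [mem_support_iff, coeff_mul]
    have hz : ∀ x ∈ antidiagonal (α + β), x ≠ (α, β) → coeff x.1 f * coeff x.2 g = 0 := by
      intro x hx hne
      by_contra hcon
      have hf : x.1 ∈ f.support := mem_support_iff.2 (left_ne_zero_of_mul hcon)
      have hg : x.2 ∈ g.support := mem_support_iff.2 (right_ne_zero_of_mul hcon)
      have l1 := h1.2 _ hf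
      have l2 := h2.2 _ hg
      rw [HasAntidiagonal.mem_antidiagonal] at hx
      have e1 : o.f x.1 + o.f x.2 = o.f α + o.f β := by rw [← map_add, ← map_add, hx]
      have e2 : o.f x.1 = o.f α := by
        rcases l1.lt_or_eq with h | h
        · exfalso
          have := add_lt_add_of_lt_of_le h l2
          exact absurd e1 this.ne'
        · exact h.symm
      have e3 : x.1 = α := o.inj e2
      have e4 : x.2 = β := by
        rw [e3] at hx
        exact add_left_cancel hx
      exact hne (Prod.ext e3 e4)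
    rw [Finset.sum_eq_single_of_mem (α, β) (HasAntidiagonal.mem_antidiagonal.2 rfl) hz]
    exact mul_ne_zero (mem_support_iff.1 h1.1) (mem_support_iff.1 h2.1)
  · intro γ hγ
    have := support_mul f g hγ
    obtain ⟨μ, hμ, ν, hν, rfl⟩ := Finset.mem_add.1 this
    rw [map_add, map_add]
    exact add_le_add (h1.2 μ hμ) (h2.2 ν hν)

theorem low_monomial (α : σ →₀ ℕ) : IsLow o (monomial α (1 : ℂ)) α := by
  classical
  constructor
  · rw [mem_support_iff, coeff_monomial, if_pos rfl]; exact one_ne_zero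
  · intro β hβ
    rw [mem_support_iff, coeff_monomial] at hβ
    by_cases h : α = β
    · rw [h]
    · rw [if_neg h] at hβ; exact absurd rfl hβ

theorem Lset_span {q : MvPolynomial σ ℂ} {α0 : σ →₀ ℕ} (h : IsLow o q α0) (γ : σ →₀ ℕ) :
    γ ∈ Lset o (Ideal.span {q}) ↔ α0 ≤ γ := by
  constructor
  · rintro ⟨g, hg, hγ, hmin⟩
    obtain ⟨a, rfl⟩ := Ideal.mem_span_singleton'.1 hg
    have hg0 : a ≠ 0 := by
      rintro rfl
      simp at hγ
    obtain ⟨α, hα⟩ := exists_low o hg0
    have h1 := low_mul o hα h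
    have h2 : IsLow o (a * q) γ := ⟨hγ, hmin⟩
    have h3 := low_unique o h2 h1
    rw [h3]
    exact le_add_self
  · intro hle
    obtain ⟨δ, rfl⟩ := exists_add_of_le hle
    have h1 := low_mul o h (low_monomial o δ)
    exact ⟨q * monomial δ 1, Ideal.mul_mem_right _ _ (Ideal.mem_span_singleton_self _), h1.1, h1.2⟩

end low

theorem low_deg {J : Type} [Fintype J] (o : LOrd (J ⊕ J)) {α0 : J ⊕ J →₀ ℕ}
    (h : IsLow o (qq J) α0) : α0.degree = 2 := by
  have hh : (qq J).IsHomogeneous 2 := by
    unfold qq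
    apply IsHomogeneous.sum
    intro i _
    exact (isHomogeneous_X ℂ (Sum.inl i)).mul (isHomogeneous_X ℂ (Sum.inr i))
  have := hh (mem_support_iff.1 h.1)
  rw [← this, Finsupp.degree_eq_weight_one]
  rfl

theorem gL_eq {σ : Type} [Fintype σ] (L : Set (σ →₀ ℕ)) (α0 : σ →₀ ℕ) (h2 : α0.degree = 2)
    (hL : ∀ γ, γ ∈ L ↔ α0 ≤ γ) (i : ℕ) :
    gL (∅ : Set (σ →₀ ℕ)) i = gL L i + (if 2 ≤ i then gL (∅ : Set (σ →₀ ℕ)) (i - 2) else 0) := by
  classical
  have e0 : ∀ j, gL (∅ : Set (σ →₀ ℕ)) j = (Finset.univ.finsuppAntidiag j : Finset (σ →₀ ℕ)).card := by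
    intro j
    unfold gL
    congr 1
    ext α
    simp
  have hmem : ∀ (j : ℕ) (α : σ →₀ ℕ), α ∈ (Finset.univ.finsuppAntidiag j : Finset (σ →₀ ℕ)) ↔
      α.degree = j := by
    intro j α
    rw [Finset.mem_finsuppAntidiag]
    have : α.degree = ∑ x, α x := by
      rw [Finsupp.degree_eq_sum]
    rw [this]
    constructor
    · rintro ⟨h, -⟩; exact h
    · intro h; exact ⟨h, Finset.subset_univ _⟩
  have e1 := Finset.card_filter_add_card_filter_not (s := (Finset.univ.finsuppAntidiag i : Finset (σ →₀ ℕ)))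
    (fun α => α ∉ L)
  rw [e0 i, ← e1]
  have e2 : gL L i = ((Finset.univ.finsuppAntidiag i : Finset (σ →₀ ℕ)).filter (fun α => α ∉ L)).card := by
    unfold gL
    congr 1
  rw [e2]
  congr 1
  split_ifs with hi
  · rw [e0]
    symm
    apply Finset.card_bij (fun β _ => α0 + β)
    · intro β hβ
      rw [hmem] at hβ
      rw [Finset.mem_filter, hmem]
      constructor
      · rw [map_add, h2, hβ]; omega
      · rw [not_not, hL]; exact le_self_add
    · intro a _ b _ hab
      exact add_left_cancel hab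
    · intro γ hγ
      rw [Finset.mem_filter, hmem, not_not, hL] at hγ
      obtain ⟨δ, rfl⟩ := exists_add_of_le hγ.2
      refine ⟨δ, ?_, rfl⟩
      rw [hmem]
      have := hγ.1
      rw [map_add, h2] at this
      omega
  · rw [Finset.card_eq_zero, Finset.filter_eq_empty_iff]
    intro γ hγ
    rw [hmem] at hγ
    rw [not_not, hL]
    intro hle
    obtain ⟨δ, rfl⟩ := exists_add_of_le hle
    rw [map_add, h2] at hγ
    omega

end XQUAD

open XQUAD in
theorem I_QUAD (hORD : St_ORD) (hHG : St_HG) (hGCNT : St_GCNT) : St_QUAD := by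
  intro J _ hJ
  classical
  obtain ⟨o⟩ := hORD (J ⊕ J)
  obtain ⟨α0, hα0⟩ := exists_low o (qq_irr J hJ).ne_zero
  have hdeg := low_deg o hα0
  have hL : ∀ γ, γ ∈ Lset o (MvPolynomial.vanishingIdeal ℂ (quadS J)) ↔ α0 ≤ γ := by
    intro γ
    rw [vI J hJ]
    exact Lset_span o hα0 γ
  obtain ⟨L, hLdef⟩ : ∃ L, L = Lset o (MvPolynomial.vanishingIdeal ℂ (quadS J)) := ⟨_, rfl⟩
  rw [← hLdef] at hL
  have hHf : ∀ t, Hf (quadS J) t = ∑ i ∈ range (t + 1), gL L i := by
    intro t
    unfold Hf
    rw [hHG (J ⊕ J) o _ t, hLdef]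
  have hcard : Fintype.card (J ⊕ J) = 2 * Fintype.card J := by
    rw [Fintype.card_sum]; ring
  have hG := hGCNT (J ⊕ J)
  rw [hcard] at hG
  -- partial sums
  have hPS : HS (quadS J) * (1 - PowerSeries.X) = PowerSeries.mk (fun i => (gL L i : ℤ)) := by
    ext t
    rw [mul_sub, mul_one, map_sub]
    unfold HS
    rw [PowerSeries.coeff_mk, PowerSeries.coeff_mk]
    rcases t with _ | t
    · rw [PowerSeries.coeff_zero_mul_X, hHf]
      simp
    · rw [PowerSeries.coeff_succ_mul_X, PowerSeries.coeff_mk, hHf, hHf, Finset.sum_range_succ]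
      push_cast
      ring
  -- complement of the multiples
  have hmk : PowerSeries.mk (fun i => (gL L i : ℤ)) =
      (1 - PowerSeries.X ^ 2) * PowerSeries.mk (fun i => (gL (∅ : Set (J ⊕ J →₀ ℕ)) i : ℤ)) := by
    ext i
    rw [sub_mul, one_mul, map_sub, PowerSeries.coeff_X_pow_mul', PowerSeries.coeff_mk,
      PowerSeries.coeff_mk, gL_eq L α0 hdeg hL i]
    split_ifs with h
    · rw [PowerSeries.coeff_mk]; push_cast; ring
    · push_cast; ring
  refine ⟨by norm_num, 1 + Polynomial.X, by simp, ?_⟩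
  have hd : 2 * Fintype.card J - 1 + 1 = 2 * Fintype.card J := by omega
  rw [hd]
  have hne : (1 - PowerSeries.X : PowerSeries ℤ) ≠ 0 := by
    intro h
    have := congrArg (PowerSeries.coeff 0) h
    simp at this
  apply mul_right_cancel₀ hne
  calc HS (quadS J) * (1 - PowerSeries.X) ^ (2 * Fintype.card J) * (1 - PowerSeries.X)
      = (HS (quadS J) * (1 - PowerSeries.X)) * (1 - PowerSeries.X) ^ (2 * Fintype.card J) := by ring
    _ = (1 - PowerSeries.X ^ 2) * (PowerSeries.mk (fun i => (gL (∅ : Set (J ⊕ J →₀ ℕ)) i : ℤ)) *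
          (1 - PowerSeries.X) ^ (2 * Fintype.card J)) := by rw [hPS, hmk]; ring
    _ = (1 - PowerSeries.X ^ 2) := by rw [hG, mul_one]
    _ = ((1 + Polynomial.X : Polynomial ℤ) : PowerSeries ℤ) * (1 - PowerSeries.X) := by
        rw [Polynomial.coe_add, Polynomial.coe_one, Polynomial.coe_X]
        ring

end Pool.Agent.SH
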