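import Pool.Agent.Work.MP_1c6e58_ag.SH.Stmts

set_option autoImplicit false

open Finset

namespace Pool.Agent.SH

namespace XREC

theorem low_iff {A A1 A2 : Itv} {φ1 : Fin A1.n ↪o Fin A.n} {φ2 : Fin A2.n ↪o Fin A.n}
    (S : ShufAt A1 A2 A φ1 φ2) (i : Fin A.n) : i ∈ Set.range φ2 ↔ (A.u i : ℕ) < A2.n := by
  constructor
  · rintro ⟨j, rfl⟩
    rw [S.u2]
    exact (A2.u j).isLt
  · intro h
    rcases S.cov i with ⟨j, rfl⟩ | h'
    · have := S.u1 j
      omega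
    · exact h'

theorem high_iff {A A1 A2 : Itv} {φ1 : Fin A1.n ↪o Fin A.n} {φ2 : Fin A2.n ↪o Fin A.n}
    (S : ShufAt A1 A2 A φ1 φ2) (i : Fin A.n) : i ∈ Set.range φ1 ↔ A2.n ≤ (A.u i : ℕ) := by
  constructor
  · rintro ⟨j, rfl⟩
    rw [S.u1]
    omega
  · intro h
    rcases S.cov i with h' | ⟨j, rfl⟩
    · exact h'
    · have := S.u2 j
      have := (A2.u j).isLt
      omega

theorem high_eq {A A1 A1' : Itv} {N : ℕ} {φ1 : Fin A1.n ↪o Fin A.n}
    {φ1' : Fin A1'.n ↪o Fin A.n} (hr : Set.range φ1 = Set.range φ1')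
    (hu : ∀ j, (A.u (φ1 j) : ℕ) = N + (A1.u j : ℕ)) (hv : ∀ j, (A.v (φ1 j) : ℕ) = N + (A1.v j : ℕ))
    (hu' : ∀ j, (A.u (φ1' j) : ℕ) = N + (A1'.u j : ℕ))
    (hv' : ∀ j, (A.v (φ1' j) : ℕ) = N + (A1'.v j : ℕ)) :
    ∃ h : A1 = A1', ∀ j, φ1 j = φ1' (h ▸ j) := by
  obtain ⟨n1, u1, v1, h1⟩ := A1
  obtain ⟨n1', u1', v1', h1'⟩ := A1'
  dsimp only at φ1 φ1' hr hu hv hu' hv'
  have hn : n1 = n1' := by
    have e1 : Nat.card (Set.range φ1) = n1 := by
      rw [Nat.card_range_of_injective φ1.injective, Nat.card_eq_fintype_card, Fintype.card_fin]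
    have e2 : Nat.card (Set.range φ1') = n1' := by
      rw [Nat.card_range_of_injective φ1'.injective, Nat.card_eq_fintype_card, Fintype.card_fin]
    rw [← e1, ← e2, hr]
  subst hn
  have hφ : (φ1 : Fin n1 → Fin A.n) = φ1' :=
    (StrictMono.range_inj φ1.strictMono φ1'.strictMono).mp hr
  have eu : u1 = u1' := by
    apply Equiv.ext
    intro j
    apply Fin.ext
    have a := hu j
    have b := hu' j
    rw [hφ] at a
    omega
  have ev : v1 = v1' := by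
    apply Equiv.ext
    intro j
    apply Fin.ext
    have a := hv j
    have b := hv' j
    rw [hφ] at a
    omega
  subst eu
  subst ev
  exact ⟨rfl, fun j => congrFun hφ j⟩

end XREC

theorem I_REC : St_REC := by
  intro A A1 A2 A1' A2' m m' φ1 φ2 φ1' φ2' S S' H H'
  obtain ⟨hm, hn, hu, hv⟩ := H
  obtain ⟨hm', hn', hu', hv'⟩ := H'
  have e0 : φ2 ⟨0, by omega⟩ = φ2' ⟨0, by omega⟩ := by
    apply A.u.injective
    apply Fin.ext
    rw [S.u2, S'.u2, hu, hu']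
    simp [uIIIf]
  have e1 : m = m' := by
    have a := S.v2 ⟨0, by omega⟩
    have b := S'.v2 ⟨0, by omega⟩
    rw [e0, b, hv, hv'] at a
    simp only [vIIIf, if_true] at a
    omega
  subst e1
  refine ⟨rfl, ?_, ?_⟩
  · ext i
    rw [XREC.low_iff S, XREC.low_iff S', hn, hn']
  · refine XREC.high_eq (N := m) ?_ ?_ ?_ ?_ ?_
    · ext i
      rw [XREC.high_iff S, XREC.high_iff S', hn, hn']
    · intro j; rw [S.u1, hn]
    · intro j; rw [S.v1, hn]
    · intro j; rw [S'.u1, hn']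
    · intro j; rw [S'.v1, hn']

end Pool.Agent.SH
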