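import Pool.Agent.Work.MP_1c6e58_ag.SH.Stmts

set_option autoImplicit false

open Finset

namespace Pool.Agent.SH

theorem I_REI (hAUT : St_AUT) : St_REI := by
  intro σ τ _ _ f Z Z' h
  refine hAUT σ τ (fun j => MvPolynomial.X (f.symm j)) (fun i => MvPolynomial.X (f i))
    (fun j => MvPolynomial.constantCoeff_X ℂ _) (fun i => MvPolynomial.constantCoeff_X ℂ _) ?_ ?_ Z Z' ?_
  · intro z i
    simp
  · intro y j
    simp
  · intro z
    rw [h z]
    simp

end Pool.Agent.SH
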