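import Pool.Agent.Work.MP_1c6e58_ag.SH.Stmts

/-!
Item RKS: ranks of shuffles.
-/

set_option autoImplicit false

open Finset

namespace Pool.Agent.SH

theorem I_RKS : St_RKS := by
  intro n n1 n2 φ1 φ2 w w1 w2 hcov h1 h2 p q
  constructor
  · intro hq
    have he : univ.filter (fun j : Fin n => j ≤ p ∧ w j ≤ q) =
        (univ.filter (fun j : Fin n2 => φ2 j ≤ p ∧ (w2 j : ℕ) ≤ q)).map φ2.toEmbedding := by
      ext i
      simp only [mem_filter, mem_univ, true_and, mem_map, RelEmbedding.coe_toEmbedding]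
      constructor
      · rintro ⟨ha, hb⟩
        rw [Fin.le_def] at hb
        rcases hcov i with ⟨j, rfl⟩ | ⟨j, rfl⟩
        · have := h1 j
          omega
        · refine ⟨j, ⟨ha, ?_⟩, rfl⟩
          rw [← h2 j]
          exact hb
      · rintro ⟨j, ⟨ha, hb⟩, rfl⟩
        refine ⟨ha, ?_⟩
        rw [Fin.le_def, h2 j]
        exact hb
    unfold rk
    rw [he, card_map]
  · intro hq
    have he : univ.filter (fun j : Fin n => j ≤ p ∧ w j ≤ q) =
        (univ.filter (fun j : Fin n2 => φ2 j ≤ p)).map φ2.toEmbedding ∪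
        (univ.filter (fun j : Fin n1 => φ1 j ≤ p ∧ n2 + (w1 j : ℕ) ≤ q)).map φ1.toEmbedding := by
      ext i
      simp only [mem_filter, mem_univ, true_and, mem_map, mem_union, RelEmbedding.coe_toEmbedding]
      constructor
      · rintro ⟨ha, hb⟩
        rw [Fin.le_def] at hb
        rcases hcov i with ⟨j, rfl⟩ | ⟨j, rfl⟩
        · refine Or.inr ⟨j, ⟨ha, ?_⟩, rfl⟩
          rw [← h1 j]
          exact hb
        · exact Or.inl ⟨j, ha, rfl⟩
      · rintro (⟨j, ha, rfl⟩ | ⟨j, ⟨ha, hb⟩, rfl⟩)
        · refine ⟨ha, ?_⟩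
          rw [Fin.le_def, h2 j]
          have := (w2 j).2
          omega
        · refine ⟨ha, ?_⟩
          rw [Fin.le_def, h1 j]
          exact hb
    have hd : Disjoint ((univ.filter (fun j : Fin n2 => φ2 j ≤ p)).map φ2.toEmbedding)
        ((univ.filter (fun j : Fin n1 => φ1 j ≤ p ∧ n2 + (w1 j : ℕ) ≤ q)).map
          φ1.toEmbedding) := by
      rw [Finset.disjoint_left]
      intro i hi hi'
      simp only [mem_filter, mem_univ, true_and, mem_map, RelEmbedding.coe_toEmbedding] at hi hi'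
      obtain ⟨j, _, rfl⟩ := hi
      obtain ⟨k, _, hk⟩ := hi'
      have e1 := h2 j
      have e2 := h1 k
      rw [hk] at e2
      have := (w2 j).2
      omega
    unfold rk
    rw [he, card_union_of_disjoint hd, card_map, card_map]

end Pool.Agent.SH
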