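import Pool.Agent.Work.MP_1c6e58_ag.SH.Stmts

set_option autoImplicit false

open Finset

namespace Pool.Agent.SH

theorem I_RSMIN (hRSM : St_RSM) (hMQM : St_MQM) (hUNI : St_UNI) : St_RSMIN := by
  intro r k A hA hk1 hk2
  obtain ⟨⟨d, hd⟩, hB⟩ := hRSM (r + 1) A hA
  refine ⟨⟨2 ^ (r + 1), hk2, hMQM _ _ _ _ hd⟩, ?_⟩
  rintro B ⟨e', hke, he'⟩ hBA
  by_contra hne
  obtain ⟨d', e, hMQ, he⟩ := hB B hBA hne
  have h1 : e = e' := hUNI _ _ _ _ (hMQM _ _ _ _ hMQ) he'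
  subst h1
  rw [pow_succ] at he
  omega

end Pool.Agent.SH
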