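import Pool.Agent.Work.MP_1c6e58_ag.SH.Stmts

set_option autoImplicit false

open Finset

namespace Pool.Agent.SH

namespace XSHBR

theorem top_or {m n : ℕ} (φ : Fin m ↪o Fin n) (p : Fin n) :
    (∀ j, ¬ φ j ≤ p) ∨ ∃ p' : Fin m, ∀ j, φ j ≤ p ↔ j ≤ p' := by
  classical
  by_cases h : ∃ j, φ j ≤ p
  · right
    have hne : (univ.filter (fun j : Fin m => φ j ≤ p)).Nonempty := by
      obtain ⟨j, hj⟩ := h
      exact ⟨j, by simpa using hj⟩
    refine ⟨(univ.filter (fun j : Fin m => φ j ≤ p)).max' hne, fun j => ⟨fun hj => ?_, fun hj => ?_⟩⟩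
    · exact Finset.le_max' _ _ (by simpa using hj)
    · have h1 := Finset.max'_mem _ hne
      have h2 : φ ((univ.filter (fun j : Fin m => φ j ≤ p)).max' hne) ≤ p :=
        (Finset.mem_filter.1 h1).2
      exact (φ.monotone hj).trans h2
  · left
    push Not at h
    intro j
    exact not_le.2 (h j)

end XSHBR

theorem I_SHBR (hRKS : St_RKS) : St_SHBR := by
  classical
  intro n n1 n2 φ1 φ2 w x w1 x1 w2 x2 hcov hw1 hw2 hx1 hx2
  have Rw := hRKS n n1 n2 φ1 φ2 w w1 w2 hcov hw1 hw2
  have Rx := hRKS n n1 n2 φ1 φ2 x x1 x2 hcov hx1 hx2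
  constructor
  · intro h
    constructor
    · intro p1 q1
      obtain ⟨q, hq⟩ : ∃ q : Fin n, (q : ℕ) = n2 + q1 := by
        refine ⟨w (φ1 (w1.symm q1)), ?_⟩
        rw [hw1, Equiv.apply_symm_apply]
      have h1 := h (φ1 p1) q
      rw [(Rw (φ1 p1) q).2 (by omega), (Rx (φ1 p1) q).2 (by omega)] at h1
      have e : ∀ y : Equiv.Perm (Fin n1),
          (univ.filter (fun j : Fin n1 => φ1 j ≤ φ1 p1 ∧ n2 + (y j : ℕ) ≤ q)).card = rk y p1 q1 := by
        intro y
        unfold rk
        congr 1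
        ext j
        simp only [mem_filter, mem_univ, true_and, φ1.le_iff_le, hq, Fin.le_def]
        constructor
        · rintro ⟨a, b⟩; exact ⟨a, by omega⟩
        · rintro ⟨a, b⟩; exact ⟨a, by omega⟩
      rw [e, e] at h1
      omega
    · intro p2 q2
      obtain ⟨q, hq⟩ : ∃ q : Fin n, (q : ℕ) = q2 := by
        refine ⟨w (φ2 (w2.symm q2)), ?_⟩
        rw [hw2, Equiv.apply_symm_apply]
      have h1 := h (φ2 p2) q
      have hlt : (q : ℕ) < n2 := by rw [hq]; exact q2.2
      rw [(Rw (φ2 p2) q).1 hlt, (Rx (φ2 p2) q).1 hlt] at h1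
      have e : ∀ y : Equiv.Perm (Fin n2),
          (univ.filter (fun j : Fin n2 => φ2 j ≤ φ2 p2 ∧ (y j : ℕ) ≤ q)).card = rk y p2 q2 := by
        intro y
        unfold rk
        congr 1
        ext j
        simp only [mem_filter, mem_univ, true_and, φ2.le_iff_le, hq, Fin.le_def]
      rw [e, e] at h1
      exact h1
  · rintro ⟨h1, h2⟩ p q
    rcases Nat.lt_or_ge (q : ℕ) n2 with hlt | hge
    · rw [(Rw p q).1 hlt, (Rx p q).1 hlt]
      rcases XSHBR.top_or φ2 p with h0 | ⟨p2, hp2⟩
      · rw [Finset.filter_false_of_mem (fun j _ hj => h0 j hj.1)]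
        simp
      · have e : ∀ y : Equiv.Perm (Fin n2),
            (univ.filter (fun j : Fin n2 => φ2 j ≤ p ∧ (y j : ℕ) ≤ q)).card =
              rk y p2 ⟨q, hlt⟩ := by
          intro y
          unfold rk
          congr 1
          ext j
          simp only [mem_filter, mem_univ, true_and, hp2, Fin.le_def]
        rw [e, e]
        exact h2 _ _
    · rw [(Rw p q).2 hge, (Rx p q).2 hge]
      apply Nat.add_le_add_left
      rcases XSHBR.top_or φ1 p with h0 | ⟨p1, hp1⟩
      · rw [Finset.filter_false_of_mem (fun j _ hj => h0 j hj.1)]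
        simp
      · obtain ⟨q1, hq1⟩ : ∃ q1 : Fin n1, (q : ℕ) = n2 + q1 := by
          rcases hcov (w.symm q) with ⟨j, hj⟩ | ⟨j, hj⟩
          · refine ⟨w1 j, ?_⟩
            rw [← hw1, hj, Equiv.apply_symm_apply]
          · exfalso
            have h3 := hw2 j
            rw [hj, Equiv.apply_symm_apply] at h3
            have := (w2 j).2
            omega
        have e : ∀ y : Equiv.Perm (Fin n1),
            (univ.filter (fun j : Fin n1 => φ1 j ≤ p ∧ n2 + (y j : ℕ) ≤ q)).card =
              rk y p1 q1 := by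
          intro y
          unfold rk
          congr 1
          ext j
          simp only [mem_filter, mem_univ, true_and, hp1, Fin.le_def, hq1]
          constructor
          · rintro ⟨a, b⟩; exact ⟨a, by omega⟩
          · rintro ⟨a, b⟩; exact ⟨a, by omega⟩
        rw [e, e]
        exact h1 _ _

end Pool.Agent.SH
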