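import Pool.Agent.Work.MP_1c6e58_ag.SH.Stmts

set_option autoImplicit false

/-! MP_1c6e58_ag, project SH, item SHEMB: embeddings into a shuffle split. -/

open Finset

namespace Pool.Agent.SH

namespace XSHEMB

theorem count_lt {n : ℕ} (w : Equiv.Perm (Fin n)) (c : Fin n) :
    (univ.filter (fun k => w k < c)).card = (c : ℕ) := by
  have h1 : (univ.filter (fun k => w k < c)) = (Finset.Iio c).map w.symm.toEmbedding := by
    ext k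
    simp only [mem_filter, mem_univ, true_and, mem_map, mem_Iio, Equiv.coe_toEmbedding]
    constructor
    · intro h
      exact ⟨w k, h, by simp⟩
    · rintro ⟨a, ha, rfl⟩
      simpa using ha
  rw [h1, card_map, Fin.card_Iio]

theorem valsplit {n n1 n2 : ℕ} (ψ1 : Fin n1 ↪o Fin n) (ψ2 : Fin n2 ↪o Fin n)
    (hcov : ∀ i, i ∈ Set.range ψ1 ∨ i ∈ Set.range ψ2) (hdis : ∀ i j, ψ1 i ≠ ψ2 j)
    (w : Equiv.Perm (Fin n)) (w1 : Equiv.Perm (Fin n1)) (w2 : Equiv.Perm (Fin n2))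
    (h1 : IsPat w1 w ψ1) (h2 : IsPat w2 w ψ2) (hlow : ∀ i j, w (ψ2 j) < w (ψ1 i)) :
    (∀ j, (w (ψ1 j) : ℕ) = n2 + (w1 j : ℕ)) ∧ (∀ j, (w (ψ2 j) : ℕ) = (w2 j : ℕ)) := by
  classical
  constructor
  · intro j
    rw [← count_lt w (w (ψ1 j)), ← count_lt w1 (w1 j)]
    have h3 : (univ.filter (fun k => w k < w (ψ1 j))) =
        (univ : Finset (Fin n2)).map ψ2.toEmbedding ∪
          (univ.filter (fun l => w1 l < w1 j)).map ψ1.toEmbedding := by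
      ext k
      simp only [mem_filter, mem_univ, true_and, mem_union, mem_map, RelEmbedding.coe_toEmbedding]
      constructor
      · intro h
        rcases hcov k with ⟨a, rfl⟩ | ⟨a, rfl⟩
        · exact Or.inr ⟨a, (h1 a j).1 h, rfl⟩
        · exact Or.inl ⟨a, rfl⟩
      · rintro (⟨a, rfl⟩ | ⟨a, ha, rfl⟩)
        · exact hlow j a
        · exact (h1 a j).2 ha
    rw [h3, card_union_of_disjoint, card_map, card_map, card_univ, Fintype.card_fin]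
    rw [Finset.disjoint_left]
    intro k hk hk'
    simp only [mem_filter, mem_univ, true_and, mem_map, RelEmbedding.coe_toEmbedding] at hk hk'
    obtain ⟨a, rfl⟩ := hk
    obtain ⟨b, -, hb⟩ := hk'
    exact hdis b a hb
  · intro j
    rw [← count_lt w (w (ψ2 j)), ← count_lt w2 (w2 j)]
    have h3 : (univ.filter (fun k => w k < w (ψ2 j))) =
          (univ.filter (fun l => w2 l < w2 j)).map ψ2.toEmbedding := by
      ext k
      simp only [mem_filter, mem_univ, true_and, mem_map, RelEmbedding.coe_toEmbedding]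
      constructor
      · intro h
        rcases hcov k with ⟨a, rfl⟩ | ⟨a, rfl⟩
        · exact absurd h (lt_asymm (hlow a j))
        · exact ⟨a, (h2 a j).1 h, rfl⟩
      · rintro ⟨a, ha, rfl⟩
        exact (h2 a j).2 ha
    rw [h3, card_map]

/-- factorisation of an order embedding through another one -/
theorem factor {l m n : ℕ} (φ : Fin l ↪o Fin n) (θ : Fin m ↪o Fin n)
    (h : ∀ j, θ j ∈ Set.range φ) : ∃ χ : Fin m ↪o Fin l, ∀ j, φ (χ j) = θ j := by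
  choose f hf using h
  refine ⟨OrderEmbedding.ofStrictMono f ?_, hf⟩
  intro a b hab
  have h1 : φ (f a) < φ (f b) := by
    rw [hf, hf]
    exact θ.strictMono hab
  exact φ.lt_iff_lt.1 h1

theorem emb_of_subset {n : ℕ} (T : Finset (Fin n)) :
    ∃ (m : ℕ) (ψ : Fin m ↪o Fin n), ∀ i, i ∈ Set.range ψ ↔ i ∈ T := by
  refine ⟨T.card, T.orderEmbOfFin rfl, fun i => ?_⟩
  rw [Finset.range_orderEmbOfFin]
  rfl

end XSHEMB

open XSHEMB in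
theorem I_SHEMB (hEMBP : St_EMBP) (hPEX : St_PEX) (hPBR : St_PBR) (hPLEN : St_PLEN)
    (hSHLEN : St_SHLEN) (hSHBR : St_SHBR) (hSHEX : St_SHEX) : St_SHEMB := by
  classical
  intro A1 A2 A B hSh hE
  have hSh' := hSh
  obtain ⟨φ1, φ2, S⟩ := hSh'
  obtain ⟨θ, hθv, hθu, hθo, hθl⟩ := (hEMBP B A).1 hE
  have hdisA : ∀ i j, φ1 i ≠ φ2 j := by
    intro i j h
    have h1 := S.u1 i
    have h2 := S.u2 j
    rw [h, h2] at h1
    have := (A2.u j).isLt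
    omega
  obtain ⟨m1, ψ1, hψ1⟩ := emb_of_subset (univ.filter (fun k : Fin B.n => θ k ∈ Set.range φ1))
  obtain ⟨m2, ψ2, hψ2⟩ := emb_of_subset (univ.filter (fun k : Fin B.n => θ k ∈ Set.range φ2))
  simp only [mem_filter, mem_univ, true_and] at hψ1 hψ2
  obtain ⟨χ1, hχ1⟩ := factor φ1 (ψ1.trans θ) (fun j => (hψ1 (ψ1 j)).1 ⟨j, rfl⟩)
  obtain ⟨χ2, hχ2⟩ := factor φ2 (ψ2.trans θ) (fun j => (hψ2 (ψ2 j)).1 ⟨j, rfl⟩)
  have hχ1' : ∀ j, φ1 (χ1 j) = θ (ψ1 j) := hχ1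
  have hχ2' : ∀ j, φ2 (χ2 j) = θ (ψ2 j) := hχ2
  have hcov : ∀ i, i ∈ Set.range ψ1 ∨ i ∈ Set.range ψ2 := by
    intro i
    rw [hψ1, hψ2]
    exact S.cov (θ i)
  have hdis : ∀ i j, ψ1 i ≠ ψ2 j := by
    intro i j h
    apply hdisA (χ1 i) (χ2 j)
    rw [hχ1', hχ2', h]
  obtain ⟨B1u, hB1u⟩ := (hPEX m1 A1.n χ1 A1.u).1
  obtain ⟨B1v, hB1v⟩ := (hPEX m1 A1.n χ1 A1.v).1
  obtain ⟨B2u, hB2u⟩ := (hPEX m2 A2.n χ2 A2.u).1
  obtain ⟨B2v, hB2v⟩ := (hPEX m2 A2.n χ2 A2.v).1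
  -- a general statement for u and v
  have key : ∀ (w : Equiv.Perm (Fin B.n)) (a : Equiv.Perm (Fin A.n)) (a1 : Equiv.Perm (Fin A1.n))
      (a2 : Equiv.Perm (Fin A2.n)) (w1 : Equiv.Perm (Fin m1)) (w2 : Equiv.Perm (Fin m2)),
      IsPat w a θ → (∀ j, (a (φ1 j) : ℕ) = A2.n + (a1 j : ℕ)) →
      (∀ j, (a (φ2 j) : ℕ) = (a2 j : ℕ)) → IsPat w1 a1 χ1 → IsPat w2 a2 χ2 →
      (∀ j, (w (ψ1 j) : ℕ) = m2 + (w1 j : ℕ)) ∧ (∀ j, (w (ψ2 j) : ℕ) = (w2 j : ℕ)) := by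
    intro w a a1 a2 w1 w2 hw ha1 ha2 hw1 hw2
    refine valsplit ψ1 ψ2 hcov hdis w w1 w2 ?_ ?_ ?_
    · intro j k
      rw [← hw (ψ1 j) (ψ1 k), ← hw1 j k, ← hχ1' j, ← hχ1' k, Fin.lt_def, ha1, ha1, Fin.lt_def]
      omega
    · intro j k
      rw [← hw (ψ2 j) (ψ2 k), ← hw2 j k, ← hχ2' j, ← hχ2' k, Fin.lt_def, ha2, ha2, Fin.lt_def]
    · intro i j
      rw [← hw (ψ2 j) (ψ1 i), ← hχ2' j, ← hχ1' i, Fin.lt_def, ha1, ha2]
      have := (a2 (χ2 j)).isLt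
      omega
  obtain ⟨hu1, hu2⟩ := key B.u A.u A1.u A2.u B1u B2u hθu S.u1 S.u2 hB1u hB2u
  obtain ⟨hv1, hv2⟩ := key B.v A.v A1.v A2.v B1v B2v hθv S.v1 S.v2 hB1v hB2v
  obtain ⟨hb1, hb2⟩ := (hSHBR B.n m1 m2 ψ1 ψ2 B.v B.u B1v B1u B2v B2u hcov hv1 hv2 hu1 hu2).1 B.le
  have ho1 : ∀ i, i ∉ Set.range χ1 → A1.u i = A1.v i := by
    intro i hi
    have h1 : φ1 i ∉ Set.range θ := by
      rintro ⟨k, hk⟩
      obtain ⟨j, hj⟩ := (hψ1 k).2 ⟨i, hk.symm⟩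
      apply hi
      refine ⟨j, φ1.injective ?_⟩
      rw [hχ1', hj, hk]
    have h2 := congrArg (fun x : Fin A.n => (x : ℕ)) (hθo _ h1)
    simp only [S.u1, S.v1] at h2
    exact Fin.ext (by omega)
  have ho2 : ∀ i, i ∉ Set.range χ2 → A2.u i = A2.v i := by
    intro i hi
    have h1 : φ2 i ∉ Set.range θ := by
      rintro ⟨k, hk⟩
      obtain ⟨j, hj⟩ := (hψ2 k).2 ⟨i, hk.symm⟩
      apply hi
      refine ⟨j, φ2.injective ?_⟩
      rw [hχ2', hj, hk]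
    have h2 := congrArg (fun x : Fin A.n => (x : ℕ)) (hθo _ h1)
    simp only [S.u2, S.v2] at h2
    exact Fin.ext h2
  have hShB : Shuf ⟨m1, B1u, B1v, hb1⟩ ⟨m2, B2u, B2v, hb2⟩ B :=
    ⟨ψ1, ψ2, { cov := hcov, u1 := hu1, v1 := hv1, u2 := hu2, v2 := hv2 }⟩
  have hl1 := hPLEN m1 A1.n χ1 A1.u A1.v B1u B1v hB1v hB1u ho1 hb1
  have hl2 := hPLEN m2 A2.n χ2 A2.u A2.v B2u B2v hB2v hB2u ho2 hb2
  have hlA := hSHLEN A1 A2 A hSh
  have hlB := hSHLEN _ _ B hShB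
  simp only at hlB
  refine ⟨⟨m1, B1u, B1v, hb1⟩, ⟨m2, B2u, B2v, hb2⟩, hShB, ?_, ?_⟩
  · rw [hEMBP]
    refine ⟨χ1, hB1v, hB1u, ho1, ?_⟩
    show (len B1v : ℤ) - len B1u = _
    omega
  · rw [hEMBP]
    refine ⟨χ2, hB2v, hB2u, ho2, ?_⟩
    show (len B2v : ℤ) - len B2u = _
    omega

end Pool.Agent.SH
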