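import Pool.Agent.Work.MP_1c6e58_ag.SH.Stmts

/-!
MP_1c6e58_ag, project SH, item SHEMB2: shuffles of embeddings.
-/

set_option autoImplicit false

open Finset

namespace Pool.Agent.SH

namespace XSHEMB2

/-- The parts of a shuffle have disjoint ranges. -/
lemma disj {A1 A2 A : Itv} {φ1 : Fin A1.n ↪o Fin A.n} {φ2 : Fin A2.n ↪o Fin A.n}
    (h : ShufAt A1 A2 A φ1 φ2) (i : Fin A1.n) (j : Fin A2.n) : φ1 i ≠ φ2 j := by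
  intro he
  have h1 := h.u1 i
  have h2 := h.u2 j
  rw [he] at h1
  have h3 := (A2.u j).isLt
  omega

/-- Factorization of order embeddings. -/
lemma factor {m n N : ℕ} (θ : Fin n ↪o Fin N) (f : Fin m ↪o Fin N)
    (hf : ∀ j, f j ∈ Set.range θ) : ∃ ψ : Fin m ↪o Fin n, ∀ j, θ (ψ j) = f j := by
  choose ψ hψ using hf
  exact ⟨OrderEmbedding.ofMapLEIff ψ (fun a b => by
    rw [← θ.le_iff_le, hψ, hψ, f.le_iff_le]), hψ⟩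

/-- The pattern of a shuffle. -/
lemma pat {n1 n2 N a1 a2 n : ℕ} {θ : Fin n ↪o Fin N} {φ1 : Fin a1 ↪o Fin N}
    {φ2 : Fin a2 ↪o Fin N} {χ1 : Fin n1 ↪o Fin a1} {χ2 : Fin n2 ↪o Fin a2}
    {ψ1 : Fin n1 ↪o Fin n} {ψ2 : Fin n2 ↪o Fin n}
    {W : Equiv.Perm (Fin N)} {W1 : Equiv.Perm (Fin a1)} {W2 : Equiv.Perm (Fin a2)}
    {w : Equiv.Perm (Fin n)} {w1 : Equiv.Perm (Fin n1)} {w2 : Equiv.Perm (Fin n2)}
    (h1 : ∀ j, θ (ψ1 j) = φ1 (χ1 j)) (h2 : ∀ j, θ (ψ2 j) = φ2 (χ2 j))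
    (hW1 : ∀ j, (W (φ1 j) : ℕ) = a2 + (W1 j : ℕ)) (hW2 : ∀ j, (W (φ2 j) : ℕ) = (W2 j : ℕ))
    (hw1 : ∀ j, (w (ψ1 j) : ℕ) = n2 + (w1 j : ℕ)) (hw2 : ∀ j, (w (ψ2 j) : ℕ) = (w2 j : ℕ))
    (hp1 : IsPat w1 W1 χ1) (hp2 : IsPat w2 W2 χ2)
    (hcov : ∀ i, i ∈ Set.range ψ1 ∨ i ∈ Set.range ψ2) : IsPat w W θ := by
  intro k l
  rw [Fin.lt_def, Fin.lt_def]
  rcases hcov k with ⟨i, rfl⟩ | ⟨i, rfl⟩ <;> rcases hcov l with ⟨j, rfl⟩ | ⟨j, rfl⟩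
  · rw [h1, h1, hW1, hW1, hw1, hw1]
    have := hp1 i j
    rw [Fin.lt_def, Fin.lt_def] at this
    omega
  · rw [h1, h2, hW1, hW2, hw1, hw2]
    have h3 := (W2 (χ2 j)).isLt
    have h4 := (w2 j).isLt
    omega
  · rw [h1, h2, hW1, hW2, hw1, hw2]
    have h3 := (W2 (χ2 i)).isLt
    have h4 := (w2 i).isLt
    omega
  · rw [h2, h2, hW2, hW2, hw2, hw2]
    have := hp2 i j
    rw [Fin.lt_def, Fin.lt_def] at this
    omega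

end XSHEMB2

open XSHEMB2 in
set_option linter.unusedVariables false in
/-- SHEMB2. Shuffles of embeddings. -/
theorem I_SHEMB2 (hEMBP : St_EMBP) (hPEX : St_PEX) (hSHLEN : St_SHLEN) (hSHEX : St_SHEX) :
    St_SHEMB2 := by
  classical
  rintro A1 A2 A B1 B2 ⟨φ1, φ2, hA⟩ hE1 hE2
  obtain ⟨χ1, hv1, hu1, ho1, hl1⟩ := (hEMBP B1 A1).1 hE1
  obtain ⟨χ2, hv2, hu2, ho2, hl2⟩ := (hEMBP B2 A2).1 hE2
  have hdis := disj hA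
  set R1 : Finset (Fin A.n) := univ.map (χ1.trans φ1).toEmbedding with hR1
  set R2 : Finset (Fin A.n) := univ.map (χ2.trans φ2).toEmbedding with hR2
  have hRd : Disjoint R1 R2 := by
    rw [Finset.disjoint_left]
    intro i hi1 hi2
    rw [hR1, Finset.mem_map] at hi1
    rw [hR2, Finset.mem_map] at hi2
    obtain ⟨j1, _, rfl⟩ := hi1
    obtain ⟨j2, _, hj2⟩ := hi2
    exact hdis (χ1 j1) (χ2 j2) hj2.symm
  have hcard : (R1 ∪ R2).card = B1.n + B2.n := by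
    rw [Finset.card_union_of_disjoint hRd, hR1, hR2, Finset.card_map, Finset.card_map,
      Finset.card_univ, Finset.card_univ, Fintype.card_fin, Fintype.card_fin]
  set θ : Fin (B1.n + B2.n) ↪o Fin A.n := (R1 ∪ R2).orderEmbOfFin hcard with hθ
  have hrange : ∀ i, i ∈ Set.range θ ↔ i ∈ R1 ∨ i ∈ R2 := by
    intro i
    rw [hθ, Finset.range_orderEmbOfFin, Finset.mem_coe, Finset.mem_union]
  obtain ⟨ψ1, hψ1⟩ := factor θ (χ1.trans φ1) (fun j => (hrange _).2 (Or.inl (by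
    rw [hR1, Finset.mem_map]; exact ⟨j, Finset.mem_univ _, rfl⟩)))
  obtain ⟨ψ2, hψ2⟩ := factor θ (χ2.trans φ2) (fun j => (hrange _).2 (Or.inr (by
    rw [hR2, Finset.mem_map]; exact ⟨j, Finset.mem_univ _, rfl⟩)))
  have hψ1' : ∀ j, θ (ψ1 j) = φ1 (χ1 j) := hψ1
  have hψ2' : ∀ j, θ (ψ2 j) = φ2 (χ2 j) := hψ2
  have hcov : ∀ i, i ∈ Set.range ψ1 ∨ i ∈ Set.range ψ2 := by
    intro i
    rcases (hrange (θ i)).1 ⟨i, rfl⟩ with h | h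
    · left
      rw [hR1, Finset.mem_map] at h
      obtain ⟨j, _, hj⟩ := h
      exact ⟨j, θ.injective ((hψ1 j).trans hj)⟩
    · right
      rw [hR2, Finset.mem_map] at h
      obtain ⟨j, _, hj⟩ := h
      exact ⟨j, θ.injective ((hψ2 j).trans hj)⟩
  have hne : ∀ i j, ψ1 i ≠ ψ2 j := by
    intro i j h
    apply hdis (χ1 i) (χ2 j)
    rw [← hψ1', ← hψ2', h]
  obtain ⟨u, v, h, hB⟩ := hSHEX B1 B2 (B1.n + B2.n) ψ1 ψ2 hcov hne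
  refine ⟨⟨B1.n + B2.n, u, v, h⟩, ⟨ψ1, ψ2, hB⟩, ?_⟩
  rw [hEMBP]
  refine ⟨θ, ?_, ?_, ?_, ?_⟩
  · exact pat hψ1' hψ2' hA.v1 hA.v2 hB.v1 hB.v2 hv1 hv2 hcov
  · exact pat hψ1' hψ2' hA.u1 hA.u2 hB.u1 hB.u2 hu1 hu2 hcov
  · intro i hi
    apply Fin.ext
    rcases hA.cov i with ⟨j, rfl⟩ | ⟨j, rfl⟩
    · rw [hA.u1, hA.v1, ho1 j]
      rintro ⟨k, rfl⟩
      exact hi ⟨ψ1 k, hψ1' k⟩
    · rw [hA.u2, hA.v2, ho2 j]
      rintro ⟨k, rfl⟩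
      exact hi ⟨ψ2 k, hψ2' k⟩
  · have h3 := hSHLEN B1 B2 ⟨B1.n + B2.n, u, v, h⟩ ⟨ψ1, ψ2, hB⟩
    have h4 := hSHLEN A1 A2 A ⟨φ1, φ2, hA⟩
    rw [h3, h4, hl1, hl2]

end Pool.Agent.SH
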