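import Pool.Agent.Work.MP_1c6e58_ag.SH.P_SHEQ

set_option autoImplicit false

open Finset

namespace Pool.Agent.SH

open XSHEQ

namespace XSHEQ2

theorem n_le (hBELOW : St_BELOW) {B A : Itv} (h : Prec B A) : B.n ≤ A.n := by
  obtain ⟨u', h, hu, φ, -⟩ := (hBELOW A B).1 h
  simpa using Fintype.card_le_of_injective φ φ.injective

theorem eq1 {A1 A2 A B1 B2 : Itv} {φ1 : Fin A1.n ↪o Fin A.n} {φ2 : Fin A2.n ↪o Fin A.n}
    {ψ1 : Fin B1.n ↪o Fin A.n} {ψ2 : Fin B2.n ↪o Fin A.n} (hA : ShufAt A1 A2 A φ1 φ2)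
    (hB : ShufAt B1 B2 A ψ1 ψ2) (h1 : B1.n = A1.n) (h2 : B2.n = A2.n) : B1 = A1 := by
  obtain ⟨n1, u1, v1, l1⟩ := A1
  obtain ⟨m1, x1, y1, k1⟩ := B1
  simp only at h1
  subst h1
  have h : φ1 = ψ1 := by
    apply emb_eq
    intro i
    rw [mem1 hA, mem1 hB, h2]
  subst h
  have hu : x1 = u1 := by
    ext j
    have e1 := hA.u1 j
    have e2 := hB.u1 j
    simp only at e1 e2
    omega
  have hv : y1 = v1 := by
    ext j
    have e1 := hA.v1 j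
    have e2 := hB.v1 j
    simp only at e1 e2
    omega
  subst hu
  subst hv
  rfl

theorem eq2 {A1 A2 A B1 B2 : Itv} {φ1 : Fin A1.n ↪o Fin A.n} {φ2 : Fin A2.n ↪o Fin A.n}
    {ψ1 : Fin B1.n ↪o Fin A.n} {ψ2 : Fin B2.n ↪o Fin A.n} (hA : ShufAt A1 A2 A φ1 φ2)
    (hB : ShufAt B1 B2 A ψ1 ψ2) (h2 : B2.n = A2.n) : B2 = A2 := by
  obtain ⟨n2, u2, v2, l2⟩ := A2
  obtain ⟨m2, x2, y2, k2⟩ := B2
  simp only at h2
  subst h2
  have h : φ2 = ψ2 := by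
    apply emb_eq
    intro i
    rw [mem2 hA, mem2 hB]
  subst h
  have hu : x2 = u2 := by
    ext j
    have e1 := hA.u2 j
    have e2 := hB.u2 j
    simp only at e1 e2
    omega
  have hv : y2 = v2 := by
    ext j
    have e1 := hA.v2 j
    have e2 := hB.v2 j
    simp only at e1 e2
    omega
  subst hu
  subst hv
  rfl

end XSHEQ2

open XSHEQ2

theorem I_SHEQ2 (hBELOW : St_BELOW) : St_SHEQ2 := by
  intro A1 A2 A B1 B2 hA hB hp1 hp2
  obtain ⟨φ1, φ2, hA⟩ := hA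
  obtain ⟨ψ1, ψ2, hB⟩ := hB
  have h1 := n_le hBELOW hp1
  have h2 := n_le hBELOW hp2
  have h3 := card hA
  have h4 := card hB
  exact ⟨eq1 hA hB (by omega) (by omega), eq2 hA hB (by omega)⟩

end Pool.Agent.SH
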