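import Pool.Agent.Work.MP_1c6e58_ag.SH.Stmts

/-!
MP_1c6e58_ag, project SH, item SHEX: existence of shuffles.
-/

set_option autoImplicit false

open Finset

namespace Pool.Agent.SH

namespace XSHEX

lemma exists_perm (n n1 n2 : ℕ) (φ1 : Fin n1 ↪o Fin n) (φ2 : Fin n2 ↪o Fin n)
    (hc : ∀ i, i ∈ Set.range φ1 ∨ i ∈ Set.range φ2) (hd : ∀ i j, φ1 i ≠ φ2 j)
    (w1 : Equiv.Perm (Fin n1)) (w2 : Equiv.Perm (Fin n2)) :
    ∃ w : Equiv.Perm (Fin n), (∀ j, (w (φ1 j) : ℕ) = n2 + (w1 j : ℕ)) ∧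
      ∀ j, (w (φ2 j) : ℕ) = (w2 j : ℕ) := by
  have hb : Function.Bijective (Sum.elim (fun j => φ1 j) (fun j => φ2 j) :
      Fin n1 ⊕ Fin n2 → Fin n) := by
    constructor
    · rintro (a | a) (b | b) h
      · exact congrArg _ (φ1.injective h)
      · exact absurd h (hd a b)
      · exact absurd h.symm (hd b a)
      · exact congrArg _ (φ2.injective h)
    · intro i
      rcases hc i with ⟨j, rfl⟩ | ⟨j, rfl⟩
      · exact ⟨Sum.inl j, rfl⟩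
      · exact ⟨Sum.inr j, rfl⟩
  set e : Fin n1 ⊕ Fin n2 ≃ Fin n := Equiv.ofBijective _ hb with he
  have hn : n2 + n1 = n := by
    have h := Fintype.card_congr e
    rw [Fintype.card_sum, Fintype.card_fin, Fintype.card_fin, Fintype.card_fin] at h
    omega
  set f : Fin n1 ⊕ Fin n2 ≃ Fin n :=
    (Equiv.sumComm _ _).trans (finSumFinEquiv.trans (finCongr hn)) with hf
  have he1 : ∀ j, e.symm (φ1 j) = Sum.inl j := by
    intro j
    rw [Equiv.symm_apply_eq]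
    rfl
  have he2 : ∀ j, e.symm (φ2 j) = Sum.inr j := by
    intro j
    rw [Equiv.symm_apply_eq]
    rfl
  refine ⟨e.symm.trans ((Equiv.sumCongr w1 w2).trans f), ?_, ?_⟩
  · intro j
    simp [he1, hf]
  · intro j
    simp [he2, hf]

end XSHEX

theorem I_SHEX (hSHBR : St_SHBR) : St_SHEX := by
  intro A1 A2 n φ1 φ2 hc hd
  obtain ⟨u, hu1, hu2⟩ := XSHEX.exists_perm n A1.n A2.n φ1 φ2 hc hd A1.u A2.u
  obtain ⟨v, hv1, hv2⟩ := XSHEX.exists_perm n A1.n A2.n φ1 φ2 hc hd A1.v A2.v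
  have h : Br u v := (hSHBR n A1.n A2.n φ1 φ2 v u A1.v A1.u A2.v A2.u hc hv1 hv2 hu1 hu2).2
    ⟨A1.le, A2.le⟩
  exact ⟨u, v, h, ⟨hc, hu1, hv1, hu2, hv2⟩⟩

end Pool.Agent.SH
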