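import Pool.Agent.Work.MP_1c6e58_ag.SH.Stmts

set_option autoImplicit false

open Finset

namespace Pool.Agent.SH

namespace XSHLEN

lemma len_shuf (n n1 n2 : ℕ) (φ1 : Fin n1 ↪o Fin n) (φ2 : Fin n2 ↪o Fin n)
    (w : Equiv.Perm (Fin n)) (w1 : Equiv.Perm (Fin n1)) (w2 : Equiv.Perm (Fin n2))
    (hcov : ∀ i, i ∈ Set.range φ1 ∨ i ∈ Set.range φ2)
    (h1 : ∀ j, (w (φ1 j) : ℕ) = n2 + (w1 j : ℕ))
    (h2 : ∀ j, (w (φ2 j) : ℕ) = (w2 j : ℕ)) :
    len w = len w1 + len w2 +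
      (univ.filter (fun p : Fin n1 × Fin n2 => φ1 p.1 < φ2 p.2)).card := by
  classical
  have hne : ∀ i j, φ1 i ≠ φ2 j := by
    intro i j h
    have e1 := h1 i
    have e2 := h2 j
    rw [h] at e1
    have := (w2 j).isLt
    omega
  have key : (univ.filter (fun p : Fin n × Fin n => p.1 < p.2 ∧ w p.2 < w p.1)) =
      (univ.filter (fun p : Fin n1 × Fin n1 => p.1 < p.2 ∧ w1 p.2 < w1 p.1)).image
          (fun p => (φ1 p.1, φ1 p.2)) ∪
        ((univ.filter (fun p : Fin n2 × Fin n2 => p.1 < p.2 ∧ w2 p.2 < w2 p.1)).image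
          (fun p => (φ2 p.1, φ2 p.2)) ∪
        (univ.filter (fun p : Fin n1 × Fin n2 => φ1 p.1 < φ2 p.2)).image
          (fun p => (φ1 p.1, φ2 p.2))) := by
    ext ⟨a, b⟩
    simp only [mem_filter, mem_univ, true_and, mem_union, mem_image, Prod.exists, Prod.mk.injEq]
    constructor
    · rintro ⟨hab, hw⟩
      have hw' : (w b : ℕ) < w a := hw
      rcases hcov a with ⟨i, rfl⟩ | ⟨i, rfl⟩ <;> rcases hcov b with ⟨j, rfl⟩ | ⟨j, rfl⟩
      · left
        refine ⟨i, j, ⟨φ1.lt_iff_lt.1 hab, ?_⟩, rfl, rfl⟩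
        rw [Fin.lt_def]
        have := h1 i; have := h1 j; omega
      · right; right
        exact ⟨i, j, hab, rfl, rfl⟩
      · exfalso
        have := h2 i; have := h1 j; have := (w2 i).isLt; omega
      · right; left
        refine ⟨i, j, ⟨φ2.lt_iff_lt.1 hab, ?_⟩, rfl, rfl⟩
        rw [Fin.lt_def]
        have := h2 i; have := h2 j; omega
    · rintro (⟨i, j, ⟨hij, hw⟩, rfl, rfl⟩ | ⟨i, j, ⟨hij, hw⟩, rfl, rfl⟩ | ⟨i, j, hij, rfl, rfl⟩)
      · refine ⟨φ1.lt_iff_lt.2 hij, ?_⟩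
        rw [Fin.lt_def] at hw ⊢
        have := h1 i; have := h1 j; omega
      · refine ⟨φ2.lt_iff_lt.2 hij, ?_⟩
        rw [Fin.lt_def] at hw ⊢
        have := h2 i; have := h2 j; omega
      · refine ⟨hij, ?_⟩
        rw [Fin.lt_def]
        have := h1 i; have := h2 j; have := (w2 j).isLt; omega
  unfold len
  rw [key, card_union_of_disjoint, card_union_of_disjoint, card_image_of_injective,
    card_image_of_injective, card_image_of_injective, add_assoc]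
  · rintro ⟨a, b⟩ ⟨c, d⟩ h
    simp only [Prod.mk.injEq, EmbeddingLike.apply_eq_iff_eq] at h ⊢
    exact h
  · rintro ⟨a, b⟩ ⟨c, d⟩ h
    simp only [Prod.mk.injEq, EmbeddingLike.apply_eq_iff_eq] at h ⊢
    exact h
  · rintro ⟨a, b⟩ ⟨c, d⟩ h
    simp only [Prod.mk.injEq, EmbeddingLike.apply_eq_iff_eq] at h ⊢
    exact h
  · rw [Finset.disjoint_left]
    rintro ⟨a, b⟩ ha hb
    simp only [mem_filter, mem_univ, true_and, mem_image, Prod.exists, Prod.mk.injEq] at ha hb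
    obtain ⟨i, j, -, h3, h4⟩ := ha
    obtain ⟨i', j', -, h5, h6⟩ := hb
    exact hne i' i (by rw [h5, h3])
  · rw [Finset.disjoint_left]
    rintro ⟨a, b⟩ ha hb
    simp only [mem_filter, mem_univ, true_and, mem_image, mem_union, Prod.exists,
      Prod.mk.injEq] at ha hb
    obtain ⟨i, j, -, h3, h4⟩ := ha
    rcases hb with ⟨i', j', -, h5, h6⟩ | ⟨i', j', -, h5, h6⟩
    · exact hne i i' (by rw [h5, h3])
    · exact hne j j' (by rw [h6, h4])

end XSHLEN

theorem I_SHLEN : St_SHLEN := by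
  rintro A1 A2 A ⟨φ1, φ2, h⟩
  have hu := XSHLEN.len_shuf A.n A1.n A2.n φ1 φ2 A.u A1.u A2.u h.cov h.u1 h.u2
  have hv := XSHLEN.len_shuf A.n A1.n A2.n φ1 φ2 A.v A1.v A2.v h.cov h.v1 h.v2
  rw [hu, hv]
  push_cast
  ring

end Pool.Agent.SH
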