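import Pool.Agent.Work.MP_1c6e58_ag.SH.P_SHEQ

set_option autoImplicit false

open Finset

namespace Pool.Agent.SH

open XSHEQ

theorem I_SHPREC (hBELOW : St_BELOW) (hSHMID : St_SHMID) (hSHEMB : St_SHEMB)
    (hSHEMB2 : St_SHEMB2) (hSHEX : St_SHEX) (hSHBR : St_SHBR) : St_SHPREC := by
  intro A1 A2 A hA
  obtain ⟨φ1, φ2, hA⟩ := hA
  constructor
  · intro B hB
    obtain ⟨u', h, hu, he⟩ := (hBELOW A B).1 hB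
    obtain ⟨u1, u2, h1, h2, hu1, hu2, hs⟩ := hSHMID A1 A2 A φ1 φ2 hA u' h hu
    obtain ⟨B1, B2, hs2, he1, he2⟩ := hSHEMB ⟨A1.n, u1, A1.v, h1⟩ ⟨A2.n, u2, A2.v, h2⟩
      ⟨A.n, u', A.v, h⟩ B ⟨φ1, φ2, hs⟩ he
    exact ⟨B1, B2, hs2, (hBELOW A1 B1).2 ⟨u1, h1, hu1, he1⟩, (hBELOW A2 B2).2 ⟨u2, h2, hu2, he2⟩⟩
  · intro B1 B2 hB1 hB2
    obtain ⟨u1, h1, hu1, he1⟩ := (hBELOW A1 B1).1 hB1
    obtain ⟨u2, h2, hu2, he2⟩ := (hBELOW A2 B2).1 hB2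
    have hdis : ∀ (i : Fin A1.n) (j : Fin A2.n), φ1 i ≠ φ2 j := disj hA
    obtain ⟨u, v, h, hs⟩ := hSHEX ⟨A1.n, u1, A1.v, h1⟩ ⟨A2.n, u2, A2.v, h2⟩ A.n φ1 φ2 hA.cov
      hdis
    have hv : v = A.v := by
      ext i
      rcases hA.cov i with ⟨j, rfl⟩ | ⟨j, rfl⟩
      · rw [hA.v1 j]; exact hs.v1 j
      · rw [hA.v2 j]; exact hs.v2 j
    subst hv
    have hbr : Br A.u u := by
      refine (hSHBR A.n A1.n A2.n φ1 φ2 u A.u u1 A1.u u2 A2.u hA.cov hs.u1 hs.u2 hA.u1 hA.u2).2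
        ⟨hu1, hu2⟩
    obtain ⟨B, hB, hE⟩ := hSHEMB2 ⟨A1.n, u1, A1.v, h1⟩ ⟨A2.n, u2, A2.v, h2⟩
      ⟨A.n, u, A.v, h⟩ B1 B2 ⟨φ1, φ2, hs⟩ he1 he2
    exact ⟨B, hB, (hBELOW A B).2 ⟨u, h, hbr, hE⟩⟩

end Pool.Agent.SH
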