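import Pool.Agent.Work.MP_1c6e58_ag.SH.Stmts

/-!
MP_1c6e58_ag, project SH, item SING: the singular case.
-/

set_option autoImplicit false

open Finset

namespace Pool.Agent.SH.XSING

theorem mq_of_hs {σ τ : Type} {Z : Set (σ → ℂ)} {Z' : Set (τ → ℂ)} {d e : ℕ}
    (h : HS Z = HS Z') (hm : MQ Z' d e) : MQ Z d e := by
  obtain ⟨h0, Q, h1, h2⟩ := hm
  exact ⟨h0, Q, h1, by rw [h]; exact h2⟩

theorem um_lt {n : ℕ} (z : Co n → ℂ) {i j : Fin n} (h : j < i) : Um z i j = z ⟨(i, j), h⟩ := by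
  unfold Um
  rw [dif_pos h]

theorem um_self {n : ℕ} (z : Co n → ℂ) (i : Fin n) : Um z i i = 1 := by
  unfold Um
  rw [dif_neg (lt_irrefl _), if_pos rfl]

theorem mid_lt {K : ℕ} (i : Fin K) : (i.castSucc.succ : Fin (K + 2)) < Fin.last (K + 1) := by
  rw [Fin.lt_def]
  simp

/-- The coordinates of the quadric. -/
def gm (K : ℕ) : Fin K ⊕ Fin K → Co (K + 2) :=
  Sum.elim (fun i => ⟨(Fin.last (K + 1), i.castSucc.succ), mid_lt i⟩)
    (fun i => ⟨(i.castSucc.succ, 0), Fin.succ_pos _⟩)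

theorem gm_inj (K : ℕ) : Function.Injective (gm K) := by
  intro a b hab
  rcases a with i | i <;> rcases b with j | j
  · simp only [gm, Sum.elim_inl, Subtype.mk.injEq, Prod.mk.injEq, true_and] at hab
    rw [Fin.succ_inj, Fin.castSucc_inj] at hab
    rw [hab]
  · simp only [gm, Sum.elim_inl, Sum.elim_inr, Subtype.mk.injEq, Prod.mk.injEq] at hab
    exact absurd hab.2 (Fin.succ_ne_zero _)
  · simp only [gm, Sum.elim_inl, Sum.elim_inr, Subtype.mk.injEq, Prod.mk.injEq] at hab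
    exact absurd hab.2.symm (Fin.succ_ne_zero _)
  · simp only [gm, Sum.elim_inr, Subtype.mk.injEq, Prod.mk.injEq, and_true] at hab
    rw [Fin.succ_inj, Fin.castSucc_inj] at hab
    rw [hab]

/-- The corner coordinate. -/
def c0 (K : ℕ) : Co (K + 2) := ⟨(Fin.last (K + 1), 0), Fin.last_pos⟩

theorem c0_notMem (K : ℕ) : c0 K ∈ (Set.range (gm K))ᶜ := by
  rintro ⟨a, ha⟩
  rcases a with i | i
  · simp only [gm, Sum.elim_inl, c0, Subtype.mk.injEq, Prod.mk.injEq, true_and] at ha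
    exact absurd ha (Fin.succ_ne_zero _)
  · simp only [gm, Sum.elim_inr, c0, Subtype.mk.injEq, Prod.mk.injEq, and_true] at ha
    exact absurd ha (mid_lt i).ne

/-- The set in the new coordinates. -/
def Zn (K : ℕ) : Set (Co (K + 2) → ℂ) :=
  {y | y (c0 K) = 0 ∧ ∑ i : Fin K, y (gm K (Sum.inl i)) * y (gm K (Sum.inr i)) = 0}

/-- Splitting of the coordinates. -/
noncomputable def fE (K : ℕ) : Co (K + 2) ≃ (Fin K ⊕ Fin K) ⊕ ↥(Set.range (gm K))ᶜ :=
  (by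
    classical
    exact (Equiv.Set.sumCompl (Set.range (gm K))).symm.trans
      (Equiv.sumCongr (Equiv.ofInjective (gm K) (gm_inj K)).symm (Equiv.refl _)))

theorem fE_inl (K : ℕ) (a : Fin K ⊕ Fin K) : (fE K).symm (Sum.inl a) = gm K a := by
  simp [fE]

theorem fE_inr (K : ℕ) (c : ↥(Set.range (gm K))ᶜ) : (fE K).symm (Sum.inr c) = c.1 := by
  simp [fE]


/-- The rest of the coordinates. -/
abbrev Rs (K : ℕ) : Type := ↥(Set.range (gm K))ᶜ

noncomputable instance (K : ℕ) : Fintype (Rs K) := Fintype.ofFinite _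

theorem step1 (hAUT2 : St_AUT2) (hBREL : St_BREL) (K : ℕ) :
    HS {z : Co (K + 1 + 1) → ℂ | Um z (Fin.last (K + 1)) 0 = 0 ∧ bv z 0 = 0} = HS (Zn K) := by
  rw [← hAUT2 (K + 1) (Zn K)]
  congr 1
  ext z
  have e1 : Um z (Fin.last (K + 1)) 0 = z (c0 K) := um_lt z _
  have e2 : Tb2 z (c0 K) = z (c0 K) := by
    simp [Tb2, c0]
  have e3 : ∀ i : Fin K, Tb2 z (gm K (Sum.inl i)) = bv z i.castSucc.succ := by
    intro i
    simp [Tb2, gm, Fin.succ_ne_zero]
  have e4 : ∀ i : Fin K, Tb2 z (gm K (Sum.inr i)) = z (gm K (Sum.inr i)) := by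
    intro i
    simp [Tb2, gm]
  obtain ⟨b1, b2⟩ := hBREL (K + 1) z
  have b3 := b2 0 Fin.last_pos
  rw [Fin.sum_univ_succ, Fin.sum_univ_castSucc, um_self, Fin.succ_last, b1, mul_one, one_mul,
    e1] at b3
  have e5 : ∀ i : Fin K, Um z i.castSucc.succ 0 = z (gm K (Sum.inr i)) := by
    intro i
    exact um_lt z _
  simp only [e5] at b3
  change (Um z (Fin.last (K + 1)) 0 = 0 ∧ bv z 0 = 0) ↔ (Tb2 z (c0 K) = 0 ∧
    ∑ i : Fin K, Tb2 z (gm K (Sum.inl i)) * Tb2 z (gm K (Sum.inr i)) = 0)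
  simp only [e1, e2, e3, e4]
  constructor
  · rintro ⟨h1, h2⟩
    refine ⟨h1, ?_⟩
    rw [h1, h2] at b3
    simpa using b3
  · rintro ⟨h1, h2⟩
    refine ⟨h1, ?_⟩
    rw [h1, h2] at b3
    simpa using b3

/-- The corner in the rest. -/
def cR (K : ℕ) : Rs K := ⟨c0 K, c0_notMem K⟩

theorem step2 (hREI : St_REI) (K : ℕ) : HS (Zn K) = HS (prodS (quadS (Fin K))
    (coordS (({cR K} : Finset (Rs K)) : Set (Rs K)))) := by
  apply hREI _ _ (fE K)
  intro z
  simp only [Zn, prodS, quadS, coordS, Set.mem_ofPred_eq, fE_inl, fE_inr, Finset.coe_singleton,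
    Set.mem_singleton_iff, forall_eq, cR]
  exact and_comm

theorem step3 (hQUAD : St_QUAD) (hCOORD : St_COORD)
    (hMPROD : St_MPROD) (K : ℕ) (hK : 2 ≤ K) : ∃ d, MQ (prodS (quadS (Fin K))
    (coordS (({cR K} : Finset (Rs K)) : Set (Rs K)))) d 2 := by
  have h1 := hQUAD (Fin K) (by rw [Fintype.card_fin]; exact hK)
  have h2 := hCOORD (Rs K) {cR K}
  have h3 := hMPROD _ _ _ _ _ _ _ _ h1 h2
  rw [mul_one] at h3
  exact ⟨_, h3⟩

end Pool.Agent.SH.XSING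

namespace Pool.Agent.SH

theorem I_SING (hAUT2 : St_AUT2) (hBREL : St_BREL) (hQUAD : St_QUAD) (hCOORD : St_COORD)
    (hMPROD : St_MPROD) (hREI : St_REI) : St_SING := by
  intro k hk
  obtain ⟨K, rfl⟩ : ∃ K, k = K + 1 := ⟨k - 1, by omega⟩
  have hK : 2 ≤ K := by omega
  obtain ⟨d, hd⟩ := XSING.step3 hQUAD hCOORD hMPROD K hK
  exact ⟨d, XSING.mq_of_hs ((XSING.step1 hAUT2 hBREL K).trans (XSING.step2 hREI K)) hd⟩

end Pool.Agent.SH
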