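import Pool.Agent.Work.MP_1c6e58_ag.SH.Stmts

set_option autoImplicit false

open Finset

namespace Pool.Agent.SH

namespace XSVS

theorem mem_SV_iff (hKP : St_KP) {n : ℕ} (x w : Equiv.Perm (Fin n)) (z : Co n → ℂ) :
    z ∈ SV x w ↔ ∀ p q : Fin n, rk w p q ≤ Module.finrank ℂ (Kp x z p q) := by
  unfold SV
  simp only [Set.mem_setOf_eq]
  constructor
  · intro h p q
    rw [← hKP n x z p q]
    exact h p q
  · intro h p q
    rw [hKP n x z p q]
    exact h p q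

/-- The largest index with image `≤ p`. -/
theorem exists_largest {m n : ℕ} (φ : Fin m ↪o Fin n) (p : Fin n) (h : ¬ ∀ j, p < φ j) :
    ∃ p2 : Fin m, φ p2 ≤ p ∧ ∀ j, φ j ≤ p → j ≤ p2 := by
  push Not at h
  obtain ⟨j0, hj0⟩ := h
  have hne : (univ.filter (fun j : Fin m => φ j ≤ p)).Nonempty := ⟨j0, by simp [hj0]⟩
  refine ⟨(univ.filter (fun j : Fin m => φ j ≤ p)).max' hne, ?_, ?_⟩
  · have := Finset.max'_mem _ hne
    simpa using this
  · intro j hj
    exact Finset.le_max' _ _ (by simp [hj])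

theorem le_iff_of_largest {m n : ℕ} (φ : Fin m ↪o Fin n) (p : Fin n) (p2 : Fin m)
    (h1 : φ p2 ≤ p) (h2 : ∀ j, φ j ≤ p → j ≤ p2) (j : Fin m) : φ j ≤ p ↔ j ≤ p2 := by
  constructor
  · exact h2 j
  · intro h
    exact le_trans (φ.monotone h) h1

end XSVS

open XSVS

theorem I_SVS (hKP : St_KP) (hRKS : St_RKS) (hZERO : St_ZERO) (hKS : St_KS) (hDIMB : St_DIMB) :
    St_SVS := by
  have _ := hDIMB
  intro A1 A2 A φ1 φ2 hS z
  have hR := hRKS A.n A1.n A2.n φ1 φ2 A.v A1.v A2.v hS.cov hS.v1 hS.v2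
  -- the ranks in terms of the largest indices
  have rkLow : ∀ (p q : Fin A.n) (p2 q2 : Fin A2.n), φ2 p2 ≤ p → (∀ j, φ2 j ≤ p → j ≤ p2) →
      (q2 : ℕ) = q → rk A.v p q = rk A2.v p2 q2 := by
    intro p q p2 q2 hp1 hp2 hq
    rw [(hR p q).1 (by rw [← hq]; exact q2.isLt)]
    unfold rk
    congr 1
    ext j
    simp only [mem_filter, mem_univ, true_and]
    rw [le_iff_of_largest φ2 p p2 hp1 hp2 j, ← hq, Fin.val_fin_le]
  have rkHigh : ∀ (p q : Fin A.n) (p1 q1 : Fin A1.n), φ1 p1 ≤ p → (∀ j, φ1 j ≤ p → j ≤ p1) →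
      A2.n + (q1 : ℕ) = q → rk A.v p q =
        (univ.filter (fun j : Fin A2.n => φ2 j ≤ p)).card + rk A1.v p1 q1 := by
    intro p q p1 q1 hp1 hp2 hq
    rw [(hR p q).2 (by rw [← hq]; exact Nat.le_add_right _ _)]
    congr 1
    unfold rk
    congr 1
    ext j
    simp only [mem_filter, mem_univ, true_and]
    rw [le_iff_of_largest φ1 p p1 hp1 hp2 j, ← hq, Nat.add_le_add_iff_left, Fin.val_fin_le]
  constructor
  · intro hz
    have hM := hZERO A1 A2 A φ1 φ2 hS z hz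
    have hK := hKS A1 A2 A φ1 φ2 hS z hM
    rw [mem_SV_iff hKP] at hz
    refine ⟨?_, ?_, hM⟩
    · rw [mem_SV_iff hKP]
      intro p1 q1
      have hq : A2.n + (q1 : ℕ) = ((A.v (φ1 (A1.v.symm q1)) : Fin A.n) : ℕ) := by
        rw [hS.v1, Equiv.apply_symm_apply]
      have hle : ∀ j, φ1 j ≤ φ1 p1 → j ≤ p1 := fun j hj => by simpa using hj
      have h := hz (φ1 p1) (A.v (φ1 (A1.v.symm q1)))
      rw [rkHigh _ _ p1 q1 le_rfl hle hq,
        ((hK (φ1 p1) (A.v (φ1 (A1.v.symm q1)))).2 (by omega)).2 p1 q1 le_rfl hle hq] at h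
      omega
    · rw [mem_SV_iff hKP]
      intro p2 q2
      have hq : (q2 : ℕ) = ((A.v (φ2 (A2.v.symm q2)) : Fin A.n) : ℕ) := by
        rw [hS.v2, Equiv.apply_symm_apply]
      have hle : ∀ j, φ2 j ≤ φ2 p2 → j ≤ p2 := fun j hj => by simpa using hj
      have h := hz (φ2 p2) (A.v (φ2 (A2.v.symm q2)))
      have hlt : ((A.v (φ2 (A2.v.symm q2)) : Fin A.n) : ℕ) < A2.n := by
        rw [← hq]; exact q2.isLt
      rw [rkLow _ _ p2 q2 le_rfl hle hq,
        ((hK (φ2 p2) (A.v (φ2 (A2.v.symm q2)))).1 hlt).2 p2 q2 le_rfl hle hq] at h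
      exact h
  · rintro ⟨h1, h2, hM⟩
    have hK := hKS A1 A2 A φ1 φ2 hS z hM
    rw [mem_SV_iff hKP] at h1 h2 ⊢
    intro p q
    by_cases hqn : (q : ℕ) < A2.n
    · by_cases hp : ∀ j, p < φ2 j
      · rw [(hR p q).1 hqn]
        have : (univ.filter (fun j : Fin A2.n => φ2 j ≤ p ∧ (A2.v j : ℕ) ≤ q)) = ∅ := by
          rw [Finset.filter_eq_empty_iff]
          intro j _ hj
          exact absurd hj.1 (not_le.mpr (hp j))
        rw [this, Finset.card_empty]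
        exact Nat.zero_le _
      · obtain ⟨p2, hp1, hp2⟩ := exists_largest φ2 p hp
        rw [rkLow p q p2 ⟨q, hqn⟩ hp1 hp2 rfl, ((hK p q).1 hqn).2 p2 ⟨q, hqn⟩ hp1 hp2 rfl]
        exact h2 p2 ⟨q, hqn⟩
    · have hqn' : A2.n ≤ (q : ℕ) := not_lt.mp hqn
      by_cases hp : ∀ j, p < φ1 j
      · rw [(hR p q).2 hqn', ((hK p q).2 hqn').1 hp]
        have : (univ.filter (fun j : Fin A1.n => φ1 j ≤ p ∧ A2.n + (A1.v j : ℕ) ≤ q)) = ∅ := by
          rw [Finset.filter_eq_empty_iff]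
          intro j _ hj
          exact absurd hj.1 (not_le.mpr (hp j))
        rw [this, Finset.card_empty, Nat.add_zero]
      · obtain ⟨p1, hp1, hp2⟩ := exists_largest φ1 p hp
        obtain ⟨q1, hq1⟩ : ∃ q1 : Fin A1.n, A2.n + (q1 : ℕ) = q := by
          rcases hS.cov (A.v.symm q) with ⟨j, hj⟩ | ⟨j, hj⟩
          · refine ⟨A1.v j, ?_⟩
            rw [← hS.v1 j, hj, Equiv.apply_symm_apply]
          · exfalso
            have h := hS.v2 j
            rw [hj, Equiv.apply_symm_apply] at h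
            have := (A2.v j).isLt
            omega
        rw [rkHigh p q p1 q1 hp1 hp2 hq1, ((hK p q).2 hqn').2 p1 q1 hp1 hp2 hq1]
        have := h1 p1 q1
        omega

end Pool.Agent.SH
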