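import Pool.Agent.Work.MP_1c6e58_ag.SH.Stmts

/-! MP_1c6e58_ag, item UP: the set of lowest exponents is an upper set. -/

set_option autoImplicit false

open Finset

namespace Pool.Agent.SH

theorem I_UP : St_UP := by
  intro σ _ o I α γ h
  obtain ⟨f, hf, hα, hmin⟩ := h
  refine ⟨f * MvPolynomial.monomial γ 1, I.mul_mem_right _ hf, ?_, ?_⟩
  · rw [MvPolynomial.mem_support_iff, MvPolynomial.coeff_mul_monomial, mul_one]
    exact MvPolynomial.mem_support_iff.mp hα
  · intro β hβ
    rw [MvPolynomial.mem_support_iff, MvPolynomial.coeff_mul_monomial'] at hβ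
    split_ifs at hβ with hle
    · rw [mul_one] at hβ
      have h1 := hmin (β - γ) (MvPolynomial.mem_support_iff.mpr hβ)
      have h2 : β - γ + γ = β := tsub_add_cancel_of_le hle
      rw [map_add, ← h2, map_add]
      exact add_le_add_left h1 _
    · exact absurd rfl hβ

end Pool.Agent.SH
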