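import Pool.Agent.Work.MP_1c6e58_ag.SH.Stmts

/-!
MP_1c6e58_ag, project SH: item WIN (multiplicity and minimality of shuffles).
-/

set_option autoImplicit false

open Finset

namespace Pool.Agent.SH

namespace XWIN

theorem mult (hMULTS : St_MULTS) (hMQM : St_MQM) (hUNI : St_UNI) (hEXM : St_EXM)
    {A1 A2 A : Itv} (hA : Shuf A1 A2 A) {e1 e2 : ℕ} (h1 : MultAt A1 e1) (h2 : MultAt A2 e2) :
    MultAt A (e1 * e2) := by
  obtain ⟨⟨d1, f1, hf1⟩, -⟩ := hEXM A1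
  obtain ⟨⟨d2, f2, hf2⟩, -⟩ := hEXM A2
  have h3 : e1 = f1 := hUNI _ _ _ _ h1 (hMQM _ _ _ _ hf1)
  have h4 : e2 = f2 := hUNI _ _ _ _ h2 (hMQM _ _ _ _ hf2)
  subst h3 h4
  obtain ⟨d, hd⟩ := hMULTS A1 A2 A d1 e1 d2 e2 hA hf1 hf2
  exact hMQM _ _ _ _ hd

theorem ini (hMULTS : St_MULTS) (hMQM : St_MQM) (hUNI : St_UNI) (hEXM : St_EXM)
    {A1 A2 A : Itv} (hA : Shuf A1 A2 A) {e1 e2 : ℕ} (h1 : MultAt A1 e1) (h2 : MultAt A2 e2)
    (k : ℕ) : InI k A ↔ k ≤ e1 * e2 := by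
  have h := mult hMULTS hMQM hUNI hEXM hA h1 h2
  constructor
  · rintro ⟨e, hk, he⟩
    have h5 : e = e1 * e2 := hUNI _ _ _ _ he h
    rw [← h5]
    exact hk
  · intro hk
    exact ⟨_, hk, h⟩

end XWIN

theorem I_WIN (hMULTS : St_MULTS) (hMQM : St_MQM) (hUNI : St_UNI) (hEXM : St_EXM)
    (hSHPREC : St_SHPREC) (hSHEQ : St_SHEQ) (hSHEQ2 : St_SHEQ2) : St_WIN := by
  intro A1 A2 A hA
  refine ⟨fun e1 e2 h1 h2 => XWIN.mult hMULTS hMQM hUNI hEXM hA h1 h2, fun k => ?_⟩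
  constructor
  · rintro ⟨hin, hmin⟩
    refine ⟨fun e1 e2 h1 h2 => (XWIN.ini hMULTS hMQM hUNI hEXM hA h1 h2 k).mp hin, ?_⟩
    intro B1 B2 hB1 hB2 hne e1 e2 h1 h2
    by_contra hlt
    obtain ⟨B, hB, hBA⟩ := (hSHPREC A1 A2 A hA).2 B1 B2 hB1 hB2
    have h3 : InI k B := (XWIN.ini hMULTS hMQM hUNI hEXM hB h1 h2 k).mpr (by omega)
    have h4 : B = A := hmin B h3 hBA
    subst h4
    obtain ⟨h5, h6⟩ := hSHEQ2 A1 A2 B B1 B2 hA hB hB1 hB2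
    rcases hne with h7 | h7
    · exact h7 h5
    · exact h7 h6
  · rintro ⟨hk, hlow⟩
    obtain ⟨-, e1, -, he1, -⟩ := hEXM A1
    obtain ⟨-, e2, -, he2, -⟩ := hEXM A2
    refine ⟨(XWIN.ini hMULTS hMQM hUNI hEXM hA he1 he2 k).mpr (hk e1 e2 he1 he2), ?_⟩
    intro B hB hBA
    obtain ⟨B1, B2, hS, hB1, hB2⟩ := (hSHPREC A1 A2 A hA).1 B hBA
    by_cases hne : B1 ≠ A1 ∨ B2 ≠ A2
    · exfalso
      obtain ⟨-, f1, -, hf1, -⟩ := hEXM B1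
      obtain ⟨-, f2, -, hf2, -⟩ := hEXM B2
      have h3 := hlow B1 B2 hB1 hB2 hne f1 f2 hf1 hf2
      have h4 := (XWIN.ini hMULTS hMQM hUNI hEXM hS hf1 hf2 k).mp hB
      omega
    · have h5 : B1 = A1 := by
        by_contra h
        exact hne (Or.inl h)
      have h6 : B2 = A2 := by
        by_contra h
        exact hne (Or.inr h)
      subst h5 h6
      exact hSHEQ B1 B2 A B hA hS hBA

end Pool.Agent.SH
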