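import Pool.Agent.Work.MP_1c6e58_ag.SH.Stmts

/-! Item ZERO: the mixed coordinates vanish. -/

set_option autoImplicit false

open Finset

namespace Pool.Agent.SH

namespace XZERO

theorem Um_self {n : ℕ} (z : Co n → ℂ) (a : Fin n) : Um z a a = 1 := by
  simp [Um]

theorem Um_upper {n : ℕ} (z : Co n → ℂ) (a b : Fin n) (h : a < b) : Um z a b = 0 := by
  simp [Um, not_lt_of_gt h, h.ne]

theorem Um_lower {n : ℕ} (z : Co n → ℂ) (a b : Fin n) (h : b < a) : Um z a b = z ⟨(a, b), h⟩ := by
  simp [Um, h]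

theorem row_zero {n : ℕ} (z : Co n → ℂ) (a : Fin n) (c : Fin n → ℂ)
    (h : ∑ b, Um z a b * c b = 0) (hc : ∀ b, b < a → c b = 0) : c a = 0 := by
  rw [Finset.sum_eq_single a] at h
  · rw [Um_self, one_mul] at h
    exact h
  · intro b _ hb
    rcases lt_or_gt_of_ne hb with h1 | h1
    · rw [hc b h1, mul_zero]
    · rw [Um_upper z a b h1, zero_mul]
  · intro h1
    exact absurd (Finset.mem_univ a) h1

end XZERO

open XZERO in
theorem I_ZERO (hKP : St_KP) (hRKS : St_RKS) : St_ZERO := by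
  intro A1 A2 A φ1 φ2 h z hz i j hij
  have hle : A2.n ≤ A.n := by
    have := Fintype.card_le_of_injective φ2 φ2.injective
    simpa using this
  have hpos : 0 < A2.n := Nat.lt_of_le_of_lt (Nat.zero_le _) j.isLt
  obtain ⟨q, hq⟩ : ∃ q : Fin A.n, (q : ℕ) = A2.n - 1 := ⟨⟨A2.n - 1, by omega⟩, rfl⟩
  obtain ⟨p, hp⟩ : ∃ p : Fin A.n, p = φ2 j := ⟨_, rfl⟩
  have hrk := ((hRKS A.n A1.n A2.n φ1 φ2 A.v A1.v A2.v h.cov h.v1 h.v2 p q).1 (by omega))
  have hcard : (univ.filter (fun j' : Fin A2.n => φ2 j' ≤ p ∧ (A2.v j' : ℕ) ≤ q)).card =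
      Fintype.card {j' : Fin A2.n // φ2 j' ≤ p} := by
    rw [Fintype.card_subtype]
    congr 1
    ext j'
    simp only [Finset.mem_filter, Finset.mem_univ, true_and, and_iff_left_iff_imp]
    intro _
    have := (A2.v j').isLt
    omega
  have hfin : Fintype.card {j' : Fin A2.n // φ2 j' ≤ p} ≤
      Module.finrank ℂ (Kp A.u z p q) := by
    rw [← hKP, ← hcard, ← hrk]
    exact hz p q
  have hrow : ∀ c ∈ Kp A.u z p q, ∀ i' : Fin A1.n, ∑ b, Um z (φ1 i') b * c b = 0 := by
    intro c hc i'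
    refine hc.2 (φ1 i') ?_
    rw [Fin.lt_def, h.u1 i']
    omega
  have hzero : ∀ c ∈ Kp A.u z p q, (∀ j' : Fin A2.n, φ2 j' ≤ p → c (φ2 j') = 0) →
      ∀ m : ℕ, ∀ a : Fin A.n, (a : ℕ) = m → c a = 0 := by
    intro c hc hlow m
    induction m using Nat.strong_induction_on with
    | _ m ih =>
      intro a ha
      rcases h.cov a with ⟨i', rfl⟩ | ⟨j', rfl⟩
      · refine row_zero z (φ1 i') c (hrow c hc i') ?_
        intro b hb
        exact ih b (by rw [← ha]; exact hb) b rfl
      · rcases le_or_gt (φ2 j') p with h1 | h1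
        · exact hlow j' h1
        · exact hc.1 _ h1
  let P : (Kp A.u z p q) →ₗ[ℂ] ({j' : Fin A2.n // φ2 j' ≤ p} → ℂ) :=
    { toFun := fun c j' => (c : Fin A.n → ℂ) (φ2 j')
      map_add' := fun _ _ => rfl
      map_smul' := fun _ _ => rfl }
  have hPinj : Function.Injective P := by
    rw [← LinearMap.ker_eq_bot, LinearMap.ker_eq_bot']
    intro c hc
    have h1 : ∀ j' : Fin A2.n, φ2 j' ≤ p → (c : Fin A.n → ℂ) (φ2 j') = 0 := by
      intro j' hj'
      exact congrFun hc ⟨j', hj'⟩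
    apply Subtype.ext
    funext a
    exact hzero c c.2 h1 a a rfl
  have hfin2 : Module.finrank ℂ (Kp A.u z p q) =
      Module.finrank ℂ ({j' : Fin A2.n // φ2 j' ≤ p} → ℂ) := by
    apply le_antisymm
    · exact LinearMap.finrank_le_finrank_of_injective hPinj
    · rw [Module.finrank_fintype_fun_eq_card]
      exact hfin
  have hPsurj : Function.Surjective P :=
    (LinearMap.injective_iff_surjective_of_finrank_eq_finrank hfin2).1 hPinj
  obtain ⟨⟨c, hcK⟩, hc⟩ := hPsurj (Pi.single ⟨j, by rw [hp]⟩ 1)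
  have hcj : c p = 1 := by
    have := congrFun hc ⟨j, by rw [hp]⟩
    rw [Pi.single_eq_same] at this
    rw [hp]
    exact this
  have hcl : ∀ j' : Fin A2.n, φ2 j' ≤ p → j' ≠ j → c (φ2 j') = 0 := by
    intro j' hj' hne
    have := congrFun hc ⟨j', hj'⟩
    rw [Pi.single_eq_of_ne (by intro he; exact hne (congrArg Subtype.val he))] at this
    exact this
  have hall : ∀ m : ℕ, ∀ a : Fin A.n, (a : ℕ) = m → a ≠ p → c a = 0 := by
    intro m
    induction m using Nat.strong_induction_on with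
    | _ m ih =>
      intro a ha hap
      rcases lt_or_gt_of_ne hap with h1 | h1
      · rcases h.cov a with ⟨i', rfl⟩ | ⟨j', rfl⟩
        · refine row_zero z (φ1 i') c (hrow c hcK i') ?_
          intro b hb
          exact ih b (by rw [← ha]; exact hb) b rfl (hb.trans h1).ne
        · refine hcl j' h1.le ?_
          rintro rfl
          exact hap hp.symm
      · exact hcK.1 a h1
  have hfinal := hrow c hcK i
  rw [Finset.sum_eq_single p] at hfinal
  · rw [hcj, mul_one] at hfinal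
    subst hp
    rw [Um_lower z _ _ hij] at hfinal
    exact hfinal
  · intro b _ hb
    rw [hall b b rfl hb, mul_zero]
  · intro h1
    exact absurd (Finset.mem_univ p) h1

end Pool.Agent.SH
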