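import Pool.Agent.Work.MP_1c6e58_ag.SH.A_FIN
import Pool.Agent.Work.MP_1c6e58_ag.SH.P_ORD
import Pool.Agent.Work.MP_1c6e58_ag.SH.P_OPROD
import Pool.Agent.Work.MP_1c6e58_ag.SH.P_HG
import Pool.Agent.Work.MP_1c6e58_ag.SH.P_UP
import Pool.Agent.Work.MP_1c6e58_ag.SH.P_GCNT
import Pool.Agent.Work.MP_1c6e58_ag.SH.P_DICK
import Pool.Agent.Work.MP_1c6e58_ag.SH.P_EX0
import Pool.Agent.Work.MP_1c6e58_ag.SH.P_MQM
import Pool.Agent.Work.MP_1c6e58_ag.SH.P_UNI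
import Pool.Agent.Work.MP_1c6e58_ag.SH.P_LPROD
import Pool.Agent.Work.MP_1c6e58_ag.SH.P_GPROD
import Pool.Agent.Work.MP_1c6e58_ag.SH.P_HPROD
import Pool.Agent.Work.MP_1c6e58_ag.SH.P_MPROD
import Pool.Agent.Work.MP_1c6e58_ag.SH.P_AUT
import Pool.Agent.Work.MP_1c6e58_ag.SH.P_REI
import Pool.Agent.Work.MP_1c6e58_ag.SH.P_COORD
import Pool.Agent.Work.MP_1c6e58_ag.SH.P_QUAD
import Pool.Agent.Work.MP_1c6e58_ag.SH.P_KP
import Pool.Agent.Work.MP_1c6e58_ag.SH.P_ORIG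
import Pool.Agent.Work.MP_1c6e58_ag.SH.P_DIMB
import Pool.Agent.Work.MP_1c6e58_ag.SH.P_RKS
import Pool.Agent.Work.MP_1c6e58_ag.SH.P_ZERO
import Pool.Agent.Work.MP_1c6e58_ag.SH.P_KS
import Pool.Agent.Work.MP_1c6e58_ag.SH.P_SVS
import Pool.Agent.Work.MP_1c6e58_ag.SH.P_MULTS
import Pool.Agent.Work.MP_1c6e58_ag.SH.P_BPO
import Pool.Agent.Work.MP_1c6e58_ag.SH.P_COVER
import Pool.Agent.Work.MP_1c6e58_ag.SH.P_LSW
import Pool.Agent.Work.MP_1c6e58_ag.SH.P_LMON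
import Pool.Agent.Work.MP_1c6e58_ag.SH.P_PHI
import Pool.Agent.Work.MP_1c6e58_ag.SH.P_PEX
import Pool.Agent.Work.MP_1c6e58_ag.SH.P_PBR
import Pool.Agent.Work.MP_1c6e58_ag.SH.P_PLEN
import Pool.Agent.Work.MP_1c6e58_ag.SH.P_EMBP
import Pool.Agent.Work.MP_1c6e58_ag.SH.P_EMBT
import Pool.Agent.Work.MP_1c6e58_ag.SH.P_BELOW
import Pool.Agent.Work.MP_1c6e58_ag.SH.P_SHLEN
import Pool.Agent.Work.MP_1c6e58_ag.SH.P_SHBR
import Pool.Agent.Work.MP_1c6e58_ag.SH.P_SHMID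
import Pool.Agent.Work.MP_1c6e58_ag.SH.P_SHEX
import Pool.Agent.Work.MP_1c6e58_ag.SH.P_SHEMB
import Pool.Agent.Work.MP_1c6e58_ag.SH.P_SHEMB2
import Pool.Agent.Work.MP_1c6e58_ag.SH.P_SHEQ
import Pool.Agent.Work.MP_1c6e58_ag.SH.P_SHEQ2
import Pool.Agent.Work.MP_1c6e58_ag.SH.P_SHPREC
import Pool.Agent.Work.MP_1c6e58_ag.SH.P_EXM
import Pool.Agent.Work.MP_1c6e58_ag.SH.P_WIN
import Pool.Agent.Work.MP_1c6e58_ag.SH.P_IIIEX
import Pool.Agent.Work.MP_1c6e58_ag.SH.P_IIILEN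
import Pool.Agent.Work.MP_1c6e58_ag.SH.P_BREL
import Pool.Agent.Work.MP_1c6e58_ag.SH.P_AUT1
import Pool.Agent.Work.MP_1c6e58_ag.SH.P_AUT2
import Pool.Agent.Work.MP_1c6e58_ag.SH.P_LINE
import Pool.Agent.Work.MP_1c6e58_ag.SH.P_IIISV
import Pool.Agent.Work.MP_1c6e58_ag.SH.P_LIN
import Pool.Agent.Work.MP_1c6e58_ag.SH.P_SING
import Pool.Agent.Work.MP_1c6e58_ag.SH.P_IIIM
import Pool.Agent.Work.MP_1c6e58_ag.SH.P_IIIB
import Pool.Agent.Work.MP_1c6e58_ag.SH.P_RSM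
import Pool.Agent.Work.MP_1c6e58_ag.SH.P_RSMIN
import Pool.Agent.Work.MP_1c6e58_ag.SH.P_REC
import Pool.Agent.Work.MP_1c6e58_ag.SH.P_MRS
import Pool.Agent.Work.MP_1c6e58_ag.SH.P_MINJ
import Pool.Agent.Work.MP_1c6e58_ag.SH.P_MEX
import Pool.Agent.Work.MP_1c6e58_ag.SH.P_CNT
import Pool.Agent.Work.MP_1c6e58_ag.SH.P_CNTI

/-!
MP_1c6e58_ag, project SH: assembly.
-/

set_option autoImplicit false

namespace Pool.Agent.SH

theorem shuffle_all : St_EXM ∧ St_WIN ∧ St_SHPREC ∧ St_RSMIN ∧ St_CNTI := by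
  have hORD : St_ORD := I_ORD 
  have hOPROD : St_OPROD := I_OPROD 
  have hHG : St_HG := I_HG 
  have hUP : St_UP := I_UP 
  have hGCNT : St_GCNT := I_GCNT 
  have hDICK : St_DICK := I_DICK hGCNT
  have hEX0 : St_EX0 := I_EX0 hORD hHG hUP hDICK
  have hMQM : St_MQM := I_MQM 
  have hUNI : St_UNI := I_UNI 
  have hLPROD : St_LPROD := I_LPROD hHG hUP
  have hGPROD : St_GPROD := I_GPROD 
  have hHPROD : St_HPROD := I_HPROD hORD hOPROD hHG hLPROD hGPROD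
  have hMPROD : St_MPROD := I_MPROD hHPROD
  have hAUT : St_AUT := I_AUT 
  have hREI : St_REI := I_REI hAUT
  have hCOORD : St_COORD := I_COORD hORD hHG hGCNT hHPROD hREI
  have hQUAD : St_QUAD := I_QUAD hORD hHG hGCNT
  have hKP : St_KP := I_KP 
  have hORIG : St_ORIG := I_ORIG 
  have hDIMB : St_DIMB := I_DIMB 
  have hRKS : St_RKS := I_RKS 
  have hZERO : St_ZERO := I_ZERO hKP hRKS
  have hKS : St_KS := I_KS 
  have hSVS : St_SVS := I_SVS hKP hRKS hZERO hKS hDIMB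
  have hMULTS : St_MULTS := I_MULTS hSVS hMPROD hREI hCOORD
  have hBPO : St_BPO := I_BPO 
  have hCOVER : St_COVER := I_COVER 
  have hLSW : St_LSW := I_LSW 
  have hLMON : St_LMON := I_LMON hBPO hCOVER hLSW
  have hPHI : St_PHI := I_PHI 
  have hPEX : St_PEX := I_PEX 
  have hPBR : St_PBR := I_PBR 
  have hPLEN : St_PLEN := I_PLEN hCOVER hLSW hPHI hPBR
  have hEMBP : St_EMBP := I_EMBP hPHI
  have hEMBT : St_EMBT := I_EMBT hEMBP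
  have hBELOW : St_BELOW := I_BELOW hBPO hPHI hPBR hPLEN hEMBP hEMBT
  have hSHLEN : St_SHLEN := I_SHLEN 
  have hSHBR : St_SHBR := I_SHBR hRKS
  have hSHMID : St_SHMID := I_SHMID hRKS hSHBR
  have hSHEX : St_SHEX := I_SHEX hSHBR
  have hSHEMB : St_SHEMB := I_SHEMB hEMBP hPEX hPBR hPLEN hSHLEN hSHBR hSHEX
  have hSHEMB2 : St_SHEMB2 := I_SHEMB2 hEMBP hPEX hSHLEN hSHEX
  have hSHEQ : St_SHEQ := I_SHEQ hBELOW hEMBP
  have hSHEQ2 : St_SHEQ2 := I_SHEQ2 hBELOW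
  have hSHPREC : St_SHPREC := I_SHPREC hBELOW hSHMID hSHEMB hSHEMB2 hSHEX hSHBR
  have hEXM : St_EXM := I_EXM hEX0 hORIG hMQM hUNI
  have hWIN : St_WIN := I_WIN hMULTS hMQM hUNI hEXM hSHPREC hSHEQ hSHEQ2
  have hIIIEX : St_IIIEX := I_IIIEX 
  have hIIILEN : St_IIILEN := I_IIILEN 
  have hBREL : St_BREL := I_BREL 
  have hAUT1 : St_AUT1 := I_AUT1 hAUT hBREL
  have hAUT2 : St_AUT2 := I_AUT2 hAUT hBREL
  have hLINE : St_LINE := I_LINE 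
  have hIIISV : St_IIISV := I_IIISV hLINE hDIMB
  have hLIN : St_LIN := I_LIN hAUT1 hAUT2 hCOORD
  have hSING : St_SING := I_SING hAUT2 hBREL hQUAD hCOORD hMPROD hREI
  have hIIIM : St_IIIM := I_IIIM hIIISV hSING
  have hIIIB : St_IIIB := I_IIIB hBPO hPEX hPHI hEMBP hBELOW hIIISV hLIN hCOORD hIIILEN
  have hRSM : St_RSM := I_RSM hMULTS hIIIM hIIIB hSHPREC hSHEQ hCOORD hUNI hMQM
  have hRSMIN : St_RSMIN := I_RSMIN hRSM hMQM hUNI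
  have hREC : St_REC := I_REC 
  have hMRS : St_MRS := I_MRS 
  have hMINJ : St_MINJ := I_MINJ hREC
  have hMEX : St_MEX := I_MEX hSHEX hIIIEX
  have hCNT : St_CNT := I_CNT 
  have hCNTI : St_CNTI := I_CNTI hMEX hMINJ hMRS hCNT
  exact ⟨hEXM, hWIN, hSHPREC, hRSMIN, hCNTI⟩

theorem shuffle_final : St_FIN :=
  A_FIN shuffle_all.1 shuffle_all.2.1 shuffle_all.2.2.1 shuffle_all.2.2.2.1 shuffle_all.2.2.2.2

theorem mult_unique (A : Itv) (e e' : ℕ) (h : MultAt A e) (h' : MultAt A e') : e = e' := by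
  obtain ⟨e0, -, -, h0⟩ := (shuffle_all.1 A).2
  rw [h0 e h, h0 e' h']

theorem shuffle_window (A1 A2 A : Itv) (hA : Shuf A1 A2 A) (e1 e2 : ℕ)
    (h1 : MultAt A1 e1) (h2 : MultAt A2 e2) :
    MultAt A (e1 * e2) ∧
    (∀ B, Prec B A → ∃ B1 B2, Shuf B1 B2 B ∧ Prec B1 A1 ∧ Prec B2 A2) ∧
    (∀ B1 B2, Prec B1 A1 → Prec B2 A2 → ∃ B, Shuf B1 B2 B ∧ Prec B A) ∧
    (∀ k : ℕ, MinI k A ↔ (k ≤ e1 * e2 ∧
      ∀ B1 B2, Prec B1 A1 → Prec B2 A2 → (B1 ≠ A1 ∨ B2 ≠ A2) →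
        ∀ f1 f2, MultAt B1 f1 → MultAt B2 f2 → f1 * f2 < k)) := by
  obtain ⟨-, hWIN, hSHPREC, -, -⟩ := shuffle_all
  refine ⟨(hWIN A1 A2 A hA).1 e1 e2 h1 h2, (hSHPREC A1 A2 A hA).1, (hSHPREC A1 A2 A hA).2,
    fun k => ?_⟩
  rw [(hWIN A1 A2 A hA).2 k]
  constructor
  · rintro ⟨ha, hb⟩
    exact ⟨ha e1 e2 h1 h2, hb⟩
  · rintro ⟨ha, hb⟩
    refine ⟨fun f1 f2 hf1 hf2 => ?_, hb⟩
    rw [mult_unique A1 f1 e1 hf1 h1, mult_unique A2 f2 e2 hf2 h2]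
    exact ha

theorem shuffle_generators (r k : ℕ) (h1 : 2 ^ r < k) (h2 : k ≤ 2 ^ (r + 1)) :
    (∀ A, RS (r + 1) A → MinI k A) ∧
    (∃ n0 : ℕ, ∀ n, n0 ≤ n → (r + 1) ^ n ≤ 2 * Nat.card {A : Itv // A.n = n ∧ RS (r + 1) A}) ∧
    (∃ n0 : ℕ, ∀ n, n0 ≤ n → (r + 1) ^ n ≤ 2 * Nat.card {A : Itv // A.n = n ∧ MinI k A}) := by
  obtain ⟨-, -, -, hRSMIN, hCNTI⟩ := shuffle_all
  refine ⟨fun A hA => hRSMIN r k A hA h1 h2, hCNTI (r + 1) (by omega), ?_⟩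
  obtain ⟨n0, hn0⟩ := hCNTI (r + 1) (by omega)
  refine ⟨n0, fun n hn => (hn0 n hn).trans (Nat.mul_le_mul_left 2 ?_)⟩
  have := XFIN.finite_itv n (MinI k)
  refine Nat.card_le_card_of_injective
    (fun A : {A : Itv // A.n = n ∧ RS (r + 1) A} =>
      (⟨A.1, A.2.1, hRSMIN r k A.1 A.2.2 h1 h2⟩ : {A : Itv // A.n = n ∧ MinI k A})) ?_
  intro A B h
  have h' : A.1 = B.1 := Subtype.mk.inj h
  exact Subtype.ext h'


end Pool.Agent.SH
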