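import Pool.Agent.Work.MP_1c6e58_ag.SH.Stmts

/-!
Item IIILEN: length difference of the quadric family.
-/

set_option autoImplicit false

open Finset

namespace Pool.Agent.SH

namespace XIIILEN

theorem len_add {n : ℕ} (w : Equiv.Perm (Fin n)) :
    len w + ((univ.filter (fun p : Fin n × Fin n => p.1 < p.2)).filter
      (fun p => ¬ w p.2 < w p.1)).card =
    (univ.filter (fun p : Fin n × Fin n => p.1 < p.2)).card := by
  have h := Finset.card_filter_add_card_filter_not
    (s := (univ.filter (fun p : Fin n × Fin n => p.1 < p.2))) (fun p => w p.2 < w p.1)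
  rw [← h]
  unfold len
  rw [Finset.filter_filter (fun p : Fin n × Fin n => p.1 < p.2) (fun p => w p.2 < w p.1)]

end XIIILEN

open XIIILEN in
theorem I_IIILEN : St_IIILEN := by
  intro m A hA
  obtain ⟨n, u, v, le⟩ := A
  obtain ⟨hm, hn, hu, hv⟩ := hA
  change n = m at hn
  subst hn
  change ∀ j : Fin n, (u j : ℕ) = uIIIf n j at hu
  change ∀ j : Fin n, (v j : ℕ) = vIIIf n j at hv
  change (len v : ℤ) - len u = 2 * (n : ℤ) - 5
  have h1 := len_add v
  have h2 := len_add u
  -- non inversions of `v`
  have hV : ((univ.filter (fun p : Fin n × Fin n => p.1 < p.2)).filter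
      (fun p => ¬ v p.2 < v p.1)).card = 2 := by
    have e : (univ.filter (fun p : Fin n × Fin n => p.1 < p.2)).filter
        (fun p => ¬ v p.2 < v p.1) =
        {((⟨0, by omega⟩ : Fin n), (⟨1, by omega⟩ : Fin n)),
          ((⟨n - 2, by omega⟩ : Fin n), (⟨n - 1, by omega⟩ : Fin n))} := by
      ext ⟨i, j⟩
      have hi := hv i
      have hj := hv j
      have hi' := i.2
      have hj' := j.2
      simp only [Finset.mem_filter, Finset.mem_univ, true_and, Finset.mem_insert,
        Finset.mem_singleton, Prod.mk.injEq, Fin.ext_iff, Fin.lt_def]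
      rw [hi, hj]
      unfold vIIIf
      constructor
      · rintro ⟨g1, g2⟩
        split_ifs at g2 <;> omega
      · intro g
        rcases g with ⟨g1, g2⟩ | ⟨g1, g2⟩
        · rw [g1, g2]
          refine ⟨by omega, ?_⟩
          split_ifs <;> omega
        · rw [g1, g2]
          refine ⟨by omega, ?_⟩
          split_ifs <;> omega
    rw [e, Finset.card_insert_of_notMem, Finset.card_singleton]
    simp only [Finset.mem_singleton, Prod.mk.injEq, Fin.ext_iff]
    omega
  -- non inversions of `u`
  have hU : ((univ.filter (fun p : Fin n × Fin n => p.1 < p.2)).filter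
      (fun p => ¬ u p.2 < u p.1)).card = 2 * n - 3 := by
    have e : (univ.filter (fun p : Fin n × Fin n => p.1 < p.2)).filter
        (fun p => ¬ u p.2 < u p.1) =
        ((univ.erase (⟨0, by omega⟩ : Fin n)).image
          (fun j => ((⟨0, by omega⟩ : Fin n), j))) ∪
        (((univ.erase (⟨0, by omega⟩ : Fin n)).erase (⟨n - 1, by omega⟩ : Fin n)).image
          (fun i => (i, (⟨n - 1, by omega⟩ : Fin n)))) := by
      ext ⟨i, j⟩
      have hi := hu i
      have hj := hu j
      have hi' := i.2
      have hj' := j.2
      simp only [Finset.mem_filter, Finset.mem_univ, true_and, Finset.mem_union, Finset.mem_image,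
        Finset.mem_erase, Prod.mk.injEq, Fin.ext_iff, Fin.lt_def, and_true, ne_eq]
      rw [hi, hj]
      unfold uIIIf
      constructor
      · rintro ⟨g1, g2⟩
        by_cases h0 : (i : ℕ) = 0
        · left
          exact ⟨j, by omega, by omega, rfl⟩
        · right
          refine ⟨i, ⟨by omega, h0⟩, rfl, ?_⟩
          split_ifs at g2 <;> omega
      · rintro (⟨a, g1, g2, g3⟩ | ⟨a, ⟨g1, g2⟩, g3, g4⟩)
        · rw [← g2, ← g3]
          refine ⟨by omega, ?_⟩
          split_ifs <;> omega
        · rw [← g3, ← g4]
          have := a.2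
          refine ⟨by omega, ?_⟩
          split_ifs <;> omega
    rw [e, Finset.card_union_of_disjoint]
    · rw [Finset.card_image_of_injective _ (fun a b h => (Prod.mk.inj h).2),
        Finset.card_image_of_injective _ (fun a b h => (Prod.mk.inj h).1),
        Finset.card_erase_of_mem (s := univ.erase (⟨0, by omega⟩ : Fin n)) (by
          simp only [Finset.mem_erase, Finset.mem_univ, and_true, ne_eq, Fin.ext_iff]
          omega), Finset.card_erase_of_mem (Finset.mem_univ _), Finset.card_univ,
        Fintype.card_fin]
      omega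
    · rw [Finset.disjoint_left]
      rintro ⟨i, j⟩ g1 g2
      simp only [Finset.mem_image, Finset.mem_erase, Finset.mem_univ, and_true, ne_eq,
        Prod.mk.injEq, Fin.ext_iff] at g1 g2
      obtain ⟨a, _, g3, _⟩ := g1
      obtain ⟨b, ⟨_, g4⟩, g5, _⟩ := g2
      omega
  omega

end Pool.Agent.SH
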