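import Pool.Agent.Work.MP_1c6e58_ag.SH.Stmts

set_option autoImplicit false

open Finset

namespace Pool.Agent.SH

namespace XORIG

lemma Um_zero {n : ℕ} (i j : Fin n) : Um (0 : Co n → ℂ) i j = if i = j then 1 else 0 := by
  unfold Um
  by_cases h : j < i
  · rw [dif_pos h, if_neg (ne_of_gt h)]; rfl
  · rw [dif_neg h]

lemma colV_zero {n : ℕ} (x : Equiv.Perm (Fin n)) (j : Fin n) :
    colV x (0 : Co n → ℂ) j = Pi.single (x j) (1 : ℂ) := by
  funext a
  unfold colV
  rw [Um_zero, Pi.single_apply]
  by_cases h : a = x j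
  · subst h; simp
  · have : x.symm a ≠ j := fun h' => h (by rw [← h']; simp)
    rw [if_neg this, if_neg h]

end XORIG

open XORIG in
theorem I_ORIG : St_ORIG := by
  intro n x w hxw p q
  refine le_trans (hxw p q) ?_
  set W : Submodule ℂ (Fin n → ℂ) := Fl x (0 : Co n → ℂ) p ⊓ Est q with hW
  let S : Finset (Fin n) := univ.filter (fun j : Fin n => j ≤ p ∧ x j ≤ q)
  have hmem : ∀ j : S, (Pi.single (x j.1) (1 : ℂ) : Fin n → ℂ) ∈ W := by
    intro j
    have hj := (Finset.mem_filter.mp j.2).2
    refine ⟨Submodule.subset_span ⟨j.1, hj.1, (colV_zero x j.1).symm⟩, ?_⟩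
    intro a ha
    have : a ≠ x j.1 := fun h => absurd hj.2 (not_le.mpr (h ▸ ha))
    exact Pi.single_eq_of_ne this 1
  let f : S → W := fun j => ⟨Pi.single (x j.1) (1 : ℂ), hmem j⟩
  have hli : LinearIndependent ℂ f := by
    have h1 : LinearIndependent ℂ (fun j : S => (Pi.single (x j.1) (1 : ℂ) : Fin n → ℂ)) := by
      have h2 := (Pi.basisFun ℂ (Fin n)).linearIndependent
      have h3 := h2.comp (fun j : S => x j.1)
        (fun a b h => Subtype.ext (x.injective h))
      convert h3 using 1
      funext j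
      simp [Pi.basisFun_apply]
    exact LinearIndependent.of_comp W.subtype h1
  have := hli.fintype_card_le_finrank
  rw [Fintype.card_coe] at this
  exact this

end Pool.Agent.SH
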