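import Pool.Agent.Work.MP_1c6e58_ag.SH.Stmts

set_option autoImplicit false

open Finset

namespace Pool.Agent.SH

namespace XRSM

theorem n_le {A B : Itv} (h : Prec A B) : A.n ≤ B.n := by
  induction h with
  | refl => exact le_refl _
  | tail _ hs ih =>
    refine ih.trans ?_
    rcases hs with ⟨φ, -⟩ | ⟨n, u, u', v, h, h', -, rfl, rfl⟩
    · have := Fintype.card_le_of_injective φ φ.injective
      simpa using this
    · exact le_refl _

theorem ext_zero {A B : Itv} (hA : A.n = 0) (hB : B.n = 0) : B = A := by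
  obtain ⟨n, u, v, h⟩ := A
  obtain ⟨n', u', v', h'⟩ := B
  simp only at hA hB
  subst hA
  subst hB
  have h1 : u' = u := Subsingleton.elim _ _
  have h2 : v' = v := Subsingleton.elim _ _
  subst h1
  subst h2
  rfl

theorem base (hCOORD : St_COORD) {A : Itv} (hA : A.n = 0) : ∃ d, MQ (SV A.u A.v) d 1 := by
  have h := hCOORD (Co A.n) ∅
  refine ⟨Fintype.card (Co A.n) - (∅ : Finset (Co A.n)).card, ?_⟩
  · have e : SV A.u A.v = coordS ((∅ : Finset (Co A.n)) : Set (Co A.n)) := by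
      ext z
      constructor
      · intro _ i hi
        simp at hi
      · intro _ p
        exact absurd p.2 (by omega)
    rw [e]
    exact h

theorem main (hMULTS : St_MULTS) (hIIIM : St_IIIM) (hIIIB : St_IIIB)
    (hSHPREC : St_SHPREC) (hSHEQ : St_SHEQ) (hCOORD : St_COORD) : St_RSM := by
  intro r
  induction r with
  | zero =>
    intro A hA
    have hn : A.n = 0 := hA
    refine ⟨by simpa using base hCOORD hn, ?_⟩
    intro B hB hne
    have := n_le hB
    exact absurd (ext_zero hn (by omega)) hne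
  | succ r ih =>
    intro A hA
    obtain ⟨A1, A2, m, h1, h2, h3⟩ := hA
    obtain ⟨⟨d1, hd1⟩, hb⟩ := ih A1 h1
    obtain ⟨d2, hd2⟩ := hIIIM m A2 h2
    have hp : 2 ^ (r + 1) = 2 ^ r * 2 := pow_succ 2 r
    refine ⟨?_, ?_⟩
    · obtain ⟨d, hd⟩ := hMULTS A1 A2 A d1 (2 ^ r) d2 2 h3 hd1 hd2
      exact ⟨d, by rw [hp]; exact hd⟩
    · intro B hB hne
      obtain ⟨B1, B2, hS, hB1, hB2⟩ := (hSHPREC A1 A2 A h3).1 B hB
      by_cases e2 : B2 = A2
      · by_cases e1 : B1 = A1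
        · rw [e1, e2] at hS
          exact absurd (hSHEQ A1 A2 A B h3 hS hB) hne
        · obtain ⟨d', e', hde, hle⟩ := hb B1 hB1 e1
          rw [e2] at hS
          obtain ⟨d, hd⟩ := hMULTS B1 A2 B d' e' d2 2 hS hde hd2
          exact ⟨d, e' * 2, hd, by rw [hp]; omega⟩
      · obtain ⟨d3, hd3⟩ := hIIIB m A2 B2 h2 hB2 e2
        by_cases e1 : B1 = A1
        · rw [e1] at hS
          obtain ⟨d, hd⟩ := hMULTS A1 B2 B d1 (2 ^ r) d3 1 hS hd1 hd3
          exact ⟨d, 2 ^ r * 1, hd, by rw [hp]; omega⟩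
        · obtain ⟨d', e', hde, hle⟩ := hb B1 hB1 e1
          obtain ⟨d, hd⟩ := hMULTS B1 B2 B d' e' d3 1 hS hde hd3
          exact ⟨d, e' * 1, hd, by rw [hp]; omega⟩

end XRSM

theorem I_RSM (hMULTS : St_MULTS) (hIIIM : St_IIIM) (hIIIB : St_IIIB)
    (hSHPREC : St_SHPREC) (hSHEQ : St_SHEQ) (hCOORD : St_COORD) (_hUNI : St_UNI)
    (_hMQM : St_MQM) : St_RSM :=
  XRSM.main hMULTS hIIIM hIIIB hSHPREC hSHEQ hCOORD

end Pool.Agent.SH
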