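import Pool.Agent.Work.MP_1c6e58_ag.SH.Stmts

set_option autoImplicit false

open Finset

namespace Pool.Agent.SH

namespace XSHMID

theorem card_step {n : ℕ} (P : Fin n → Prop) [DecidablePred P] (i : Fin n) :
    (univ.filter (fun j : Fin n => j ≤ i ∧ P j)).card =
      (univ.filter (fun j : Fin n => j < i ∧ P j)).card + if P i then 1 else 0 := by
  by_cases h : P i
  · rw [if_pos h]
    have : univ.filter (fun j : Fin n => j ≤ i ∧ P j) =
        insert i (univ.filter (fun j : Fin n => j < i ∧ P j)) := by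
      ext j
      simp only [mem_filter, mem_univ, true_and, mem_insert]
      constructor
      · rintro ⟨h1, h2⟩
        rcases eq_or_lt_of_le h1 with h3 | h3
        · exact Or.inl h3
        · exact Or.inr ⟨h3, h2⟩
      · rintro (h1 | ⟨h1, h2⟩)
        · subst h1; exact ⟨le_rfl, h⟩
        · exact ⟨h1.le, h2⟩
    rw [this, card_insert_of_notMem (by simp)]
  · rw [if_neg h, add_zero]
    congr 1
    ext j
    simp only [mem_filter, mem_univ, true_and]
    constructor
    · rintro ⟨h1, h2⟩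
      rcases eq_or_lt_of_le h1 with h3 | h3
      · subst h3; exact absurd h2 h
      · exact ⟨h3, h2⟩
    · rintro ⟨h1, h2⟩
      exact ⟨h1.le, h2⟩

theorem eqset {n : ℕ} (P Q : Fin n → Prop) [DecidablePred P] [DecidablePred Q]
    (h : ∀ p : Fin n, (univ.filter (fun j : Fin n => j ≤ p ∧ P j)).card =
      (univ.filter (fun j : Fin n => j ≤ p ∧ Q j)).card) (i : Fin n) : P i ↔ Q i := by
  have hlt : (univ.filter (fun j : Fin n => j < i ∧ P j)).card =
      (univ.filter (fun j : Fin n => j < i ∧ Q j)).card := by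
    by_cases h0 : (i : ℕ) = 0
    · have h1 : ∀ j : Fin n, ¬ j < i := fun j hj => by
        have : (j : ℕ) < i := hj
        omega
      simp [h1]
    · have h1 : ∀ j : Fin n, j < i ↔ j ≤ (⟨(i : ℕ) - 1, by omega⟩ : Fin n) := fun j => by
        rw [Fin.lt_def, Fin.le_def]
        simp only
        omega
      simp only [h1]
      exact h _
  have h2 := h i
  rw [card_step P i, card_step Q i, hlt] at h2
  by_cases hP : P i <;> by_cases hQ : Q i <;> simp [hP, hQ] at h2 ⊢

end XSHMID

theorem I_SHMID (hRKS : St_RKS) (hSHBR : St_SHBR) : St_SHMID := by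
  classical
  intro A1 A2 A φ1 φ2 hS u' h hu
  have hdisj : ∀ i j, φ1 i ≠ φ2 j := by
    intro i j hij
    have h1 := hS.u1 i
    have h2 := hS.u2 j
    rw [hij] at h1
    have h3 := (A2.u j).isLt
    omega
  have hn : A.n ≤ A1.n + A2.n := by
    have hsurj : Function.Surjective (Sum.elim (φ1 : Fin A1.n → Fin A.n) φ2) := by
      intro i
      rcases hS.cov i with ⟨j, hj⟩ | ⟨j, hj⟩
      · exact ⟨Sum.inl j, hj⟩
      · exact ⟨Sum.inr j, hj⟩
    have := Fintype.card_le_of_surjective _ hsurj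
    simpa using this
  have hlow : ∀ i : Fin A.n, (u' i : ℕ) < A2.n ↔ i ∈ Set.range φ2 := by
    by_cases h2 : A2.n = 0
    · intro i
      constructor
      · intro h3; omega
      · rintro ⟨j, _⟩
        have := j.isLt
        omega
    by_cases hn0 : A.n = 0
    · intro i
      have := i.isLt
      omega
    have hA2 : A2.n ≤ A.n := by
      have := Fintype.card_le_of_injective φ2 φ2.injective
      simpa using this
    set q : Fin A.n := ⟨A2.n - 1, by omega⟩ with hq
    have key : ∀ p : Fin A.n, rk u' p q =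
        (univ.filter (fun j : Fin A2.n => φ2 j ≤ p)).card := by
      intro p
      have e1 := (hRKS A.n A1.n A2.n φ1 φ2 A.u A1.u A2.u hS.cov hS.u1 hS.u2 p q).1 (by
        simp only [hq]; omega)
      have e2 := (hRKS A.n A1.n A2.n φ1 φ2 A.v A1.v A2.v hS.cov hS.v1 hS.v2 p q).1 (by
        simp only [hq]; omega)
      have f1 : ∀ w : Equiv.Perm (Fin A2.n),
          univ.filter (fun j : Fin A2.n => φ2 j ≤ p ∧ ((w j : ℕ)) ≤ q) =
            univ.filter (fun j : Fin A2.n => φ2 j ≤ p) := by
        intro w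
        ext j
        simp only [mem_filter, mem_univ, true_and, hq]
        have := (w j).isLt
        constructor
        · exact fun h => h.1
        · exact fun h => ⟨h, by omega⟩
      rw [f1] at e1 e2
      have g1 := hu p q
      have g2 := h p q
      omega
    refine XSHMID.eqset (fun i : Fin A.n => (u' i : ℕ) < A2.n) (fun i => i ∈ Set.range φ2) ?_
    intro p
    have k1 : univ.filter (fun j : Fin A.n => j ≤ p ∧ (u' j : ℕ) < A2.n) =
        univ.filter (fun j : Fin A.n => j ≤ p ∧ u' j ≤ q) := by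
      ext j
      simp only [mem_filter, mem_univ, true_and, Fin.le_def, hq]
      constructor
      · exact fun h => ⟨h.1, by omega⟩
      · exact fun h => ⟨h.1, by omega⟩
    have k2 : univ.filter (fun j : Fin A.n => j ≤ p ∧ j ∈ Set.range φ2) =
        (univ.filter (fun j : Fin A2.n => φ2 j ≤ p)).map φ2.toEmbedding := by
      ext j
      simp only [mem_filter, mem_univ, true_and, mem_map, RelEmbedding.coe_toEmbedding,
        Set.mem_range]
      constructor
      · rintro ⟨h1, a, rfl⟩
        exact ⟨a, h1, rfl⟩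
      · rintro ⟨a, h1, rfl⟩
        exact ⟨h1, a, rfl⟩
    have := key p
    unfold rk at this
    rw [k1, k2, card_map, this]
  have hhigh : ∀ j : Fin A1.n, A2.n ≤ (u' (φ1 j) : ℕ) := by
    intro j
    by_contra hc
    push Not at hc
    obtain ⟨i, hi⟩ := (hlow _).1 hc
    exact hdisj j i hi.symm
  have hlow2 : ∀ j : Fin A2.n, (u' (φ2 j) : ℕ) < A2.n := fun j => (hlow _).2 ⟨j, rfl⟩
  let f1 : Fin A1.n → Fin A1.n := fun j => ⟨(u' (φ1 j) : ℕ) - A2.n, by
    have h1 := hhigh j
    have h2 := (u' (φ1 j)).isLt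
    omega⟩
  let f2 : Fin A2.n → Fin A2.n := fun j => ⟨(u' (φ2 j) : ℕ), hlow2 j⟩
  have hf1 : Function.Injective f1 := by
    intro a b hab
    have h1 : (u' (φ1 a) : ℕ) - A2.n = (u' (φ1 b) : ℕ) - A2.n := congrArg Fin.val hab
    have ha := hhigh a
    have hb := hhigh b
    exact φ1.injective (u'.injective (Fin.ext (by omega)))
  have hf2 : Function.Injective f2 := by
    intro a b hab
    have h1 : (u' (φ2 a) : ℕ) = (u' (φ2 b) : ℕ) := congrArg (fun z : Fin A2.n => (z : ℕ)) hab
    exact φ2.injective (u'.injective (Fin.ext h1))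
  let u1 : Equiv.Perm (Fin A1.n) := Equiv.ofBijective f1 (Finite.injective_iff_bijective.1 hf1)
  let u2 : Equiv.Perm (Fin A2.n) := Equiv.ofBijective f2 (Finite.injective_iff_bijective.1 hf2)
  have e1 : ∀ j, (u' (φ1 j) : ℕ) = A2.n + (u1 j : ℕ) := by
    intro j
    have h1 := hhigh j
    have h2 : (u1 j : ℕ) = (u' (φ1 j) : ℕ) - A2.n := rfl
    omega
  have e2 : ∀ j, (u' (φ2 j) : ℕ) = (u2 j : ℕ) := fun j => rfl
  obtain ⟨b1, b2⟩ := (hSHBR A.n A1.n A2.n φ1 φ2 A.v u' A1.v u1 A2.v u2 hS.cov hS.v1 hS.v2 e1 e2).1 h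
  obtain ⟨c1, c2⟩ := (hSHBR A.n A1.n A2.n φ1 φ2 u' A.u u1 A1.u u2 A2.u hS.cov e1 e2 hS.u1 hS.u2).1 hu
  exact ⟨u1, u2, b1, b2, c1, c2, ⟨hS.cov, e1, hS.v1, e2, hS.v2⟩⟩

end Pool.Agent.SH
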