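import Pool.Agent.Work.MP_1c6e58_ag.SH.Stmts

/-!
MP_1c6e58_ag, project SH, item UNI: uniqueness of the multiplicity.
-/

set_option autoImplicit false

open Finset

namespace Pool.Agent.SH

namespace XUNI

/-- Two polynomials which agree at all large natural numbers are equal. -/
theorem eq_of_eventually {P P' : Polynomial ℚ}
    (h : ∀ᶠ t : ℕ in Filter.atTop, P.eval (t : ℚ) = P'.eval (t : ℚ)) : P = P' := by
  obtain ⟨N, hN⟩ := Filter.eventually_atTop.1 h
  refine Polynomial.eq_of_infinite_eval_eq P P' ?_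
  refine Set.infinite_of_injective_forall_mem (f := fun k : ℕ => ((N + k : ℕ) : ℚ)) ?_ ?_
  · intro a b hab
    have h0 : ((N + a : ℕ) : ℚ) = ((N + b : ℕ) : ℚ) := hab
    have h1 : N + a = N + b := by exact_mod_cast h0
    omega
  · intro k
    exact hN (N + k) (Nat.le_add_right N k)

end XUNI

theorem I_UNI : St_UNI := by
  intro σ _ Z e e' h h'
  obtain ⟨P, _, h1, h2⟩ := h
  obtain ⟨P', _, h1', h2'⟩ := h'
  have h3 : P = P' := XUNI.eq_of_eventually (by
    filter_upwards [h1, h1'] with t ht ht'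
    rw [← ht, ← ht'])
  subst h3
  have h4 : (e : ℚ) = (e' : ℚ) := by rw [h2, h2']
  exact_mod_cast h4

end Pool.Agent.SH
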